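import Pool.Agent.Y123.GN.A2

/-!
# Classes in mixed tensor spaces define subtorsors
-/

set_option autoImplicit false
set_option linter.unusedSectionVars false

open Matrix

namespace Pool.Agent.Y123.GN

open Pool.Agent.TH127.PT

variable {M : Type} [Fintype M] [DecidableEq M] {p q : ℕ}

/-- the action on mixed tensors -/
noncomputable def tn (p q : ℕ) (x : Matrix M M ℂ) : Matrix ((Fin p → M) × (Fin q → M)) ((Fin p → M) × (Fin q → M)) ℂ :=
  Matrix.of fun I J => (∏ s, x (I.1 s) (J.1 s)) * ∏ t, x⁻¹ (J.2 t) (I.2 t)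

theorem tn_one : tn p q (1 : Matrix M M ℂ) = 1 := by
  ext I J
  unfold tn
  rw [Matrix.of_apply, inv_one]
  by_cases h : I = J
  · subst h
    simp
  · rw [Matrix.one_apply_ne h]
    by_cases h1 : I.1 = J.1
    · have h2 : I.2 ≠ J.2 := fun h3 => h (Prod.ext h1 h3)
      obtain ⟨a, ha⟩ := Function.ne_iff.1 h2
      rw [Finset.prod_eq_zero (s := Finset.univ) (f := fun t => (1 : Matrix M M ℂ) (J.2 t) (I.2 t)) (Finset.mem_univ a)
        (Matrix.one_apply_ne (Ne.symm ha)), mul_zero]
    · obtain ⟨a, ha⟩ := Function.ne_iff.1 h1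
      rw [Finset.prod_eq_zero (s := Finset.univ) (f := fun s => (1 : Matrix M M ℂ) (I.1 s) (J.1 s)) (Finset.mem_univ a)
        (Matrix.one_apply_ne ha), zero_mul]

theorem tn_mul (x y : Matrix M M ℂ) : tn p q (x * y) = tn p q x * tn p q y := by
  ext I J
  unfold tn
  rw [Matrix.of_apply, Matrix.mul_apply, Matrix.mul_inv_rev]
  simp only [Matrix.mul_apply, Matrix.of_apply]
  rw [Finset.prod_univ_sum, Finset.prod_univ_sum, Finset.sum_mul_sum, Fintype.sum_prod_type]
  simp only [Fintype.piFinset_univ]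
  refine Finset.sum_congr rfl fun a _ => Finset.sum_congr rfl fun b _ => ?_
  rw [Finset.prod_mul_distrib, Finset.prod_mul_distrib]
  ring

theorem tn_inv {x : Matrix M M ℂ} (hx : IsUnit x) : tn p q x⁻¹ * tn p q x = 1 := by
  rw [← tn_mul, nonsing_inv_mul _ ((Matrix.isUnit_iff_isUnit_det x).1 hx), tn_one]

/-- **the subtorsor of a class** -/
theorem class_sub {K : Subfield ℂ} (a b : (Fin p → M) × (Fin q → M) → ℂ) (ha : ∀ J, a J ∈ K) (hb : ∀ I, b I ∈ K) :
    IsSubtorsor K {x : Matrix M M ℂ | IsUnit x ∧ tn p q x *ᵥ a = b} := by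
  classical
  refine ⟨fun x hx => hx.1, ?_, ?_⟩
  · rintro x ⟨hx1, hx2⟩ y ⟨hy1, hy2⟩ z ⟨hz1, hz2⟩
    have hyi : IsUnit y⁻¹ := (Matrix.isUnit_nonsing_inv_iff).2 hy1
    refine ⟨(hx1.mul hyi).mul hz1, ?_⟩
    rw [tn_mul, tn_mul, ← mulVec_mulVec, hz2, ← mulVec_mulVec]
    have h1 : tn p q y⁻¹ *ᵥ b = a := by
      rw [← hy2, mulVec_mulVec, tn_inv hy1, one_mulVec]
    rw [h1, hx2]
  · -- the equations
    let X0 : Matrix M M (MvPolynomial (M × M) K) := Matrix.of fun i j => MvPolynomial.X (i, j)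
    let P0 : (Fin p → M) × (Fin q → M) → MvPolynomial (M × M) K := fun I =>
      (∑ J, ((∏ s, X0 (I.1 s) (J.1 s)) * ∏ t, X0.adjugate (J.2 t) (I.2 t)) * MvPolynomial.C (⟨a J, ha J⟩ : K)) -
        MvPolynomial.C (⟨b I, hb I⟩ : K) * X0.det ^ q
    refine ⟨Set.range fun I => (P0 I).map (algebraMap K ℂ), ?_, fun x => ?_⟩
    · rintro _ ⟨I, rfl⟩ m
      rw [MvPolynomial.coeff_map]
      exact (MvPolynomial.coeff m (P0 I)).2
    · let φ : MvPolynomial (M × M) K →+* ℂ := (MvPolynomial.eval fun b : M × M => x b.1 b.2).comp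
        (MvPolynomial.map (algebraMap K ℂ))
      have hX : X0.map φ = x := by
        ext i j
        show MvPolynomial.eval _ (MvPolynomial.map (algebraMap K ℂ) (MvPolynomial.X (i, j))) = x i j
        rw [MvPolynomial.map_X, MvPolynomial.eval_X]
      have hadj : ∀ i j, φ (X0.adjugate i j) = x.adjugate i j := by
        intro i j
        have h1 := RingHom.map_adjugate φ X0
        have h2 := congrFun (congrFun h1 i) j
        rw [RingHom.mapMatrix_apply, RingHom.mapMatrix_apply, hX] at h2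
        exact h2
      have hdet : φ X0.det = x.det := by
        rw [RingHom.map_det, RingHom.mapMatrix_apply, hX]
      have hC : ∀ z : K, φ (MvPolynomial.C z) = (z : ℂ) := by
        intro z
        show MvPolynomial.eval _ (MvPolynomial.map (algebraMap K ℂ) (MvPolynomial.C z)) = _
        rw [MvPolynomial.map_C, MvPolynomial.eval_C]
        rfl
      have hP : ∀ I, MvPolynomial.eval (fun b : M × M => x b.1 b.2) ((P0 I).map (algebraMap K ℂ)) =
          (∑ J, ((∏ s, x (I.1 s) (J.1 s)) * ∏ t, x.adjugate (J.2 t) (I.2 t)) * a J) - b I * x.det ^ q := by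
        intro I
        show φ (P0 I) = _
        show φ ((∑ J, ((∏ s, X0 (I.1 s) (J.1 s)) * ∏ t, X0.adjugate (J.2 t) (I.2 t)) *
          MvPolynomial.C (⟨a J, ha J⟩ : K)) - MvPolynomial.C (⟨b I, hb I⟩ : K) * X0.det ^ q) = _
        rw [map_sub, map_sum, map_mul, map_pow, hdet, hC]
        congr 1
        refine Finset.sum_congr rfl fun J _ => ?_
        rw [map_mul, map_mul, map_prod, map_prod, hC]
        congr 2
        · refine Finset.prod_congr rfl fun s _ => ?_
          have := congrFun (congrFun hX (I.1 s)) (J.1 s)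
          exact this
        · exact Finset.prod_congr rfl fun t _ => hadj _ _
      have key : ∀ (hx : IsUnit x) (I : (Fin p → M) × (Fin q → M)),
          (∑ J, ((∏ s, x (I.1 s) (J.1 s)) * ∏ t, x.adjugate (J.2 t) (I.2 t)) * a J) - b I * x.det ^ q =
            x.det ^ q * ((tn p q x *ᵥ a) I - b I) := by
        intro hx I
        have hd := (Matrix.isUnit_iff_isUnit_det x).1 hx
        have h1 : ∀ J : (Fin p → M) × (Fin q → M), ∏ t, x.adjugate (J.2 t) (I.2 t) =
            x.det ^ q * ∏ t, x⁻¹ (J.2 t) (I.2 t) := by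
          intro J
          have h2 : ∀ t, x.adjugate (J.2 t) (I.2 t) = x.det * x⁻¹ (J.2 t) (I.2 t) := by
            intro t
            rw [adj_eq hd, Matrix.smul_apply, smul_eq_mul]
          rw [Finset.prod_congr rfl fun t _ => h2 t, Finset.prod_mul_distrib, Finset.prod_const, Finset.card_univ,
            Fintype.card_fin]
        have h3 : (tn p q x *ᵥ a) I = ∑ J : (Fin p → M) × (Fin q → M),
            ((∏ s, x (I.1 s) (J.1 s)) * ∏ t, x⁻¹ (J.2 t) (I.2 t)) * a J := rfl
        rw [h3, mul_sub, Finset.mul_sum]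
        congr 1
        · refine Finset.sum_congr rfl fun J _ => ?_
          rw [h1]
          ring
        · ring
      constructor
      · rintro ⟨hx, h1⟩
        refine ⟨hx, ?_⟩
        rintro _ ⟨I, rfl⟩
        show MvPolynomial.eval (fun b : M × M => x b.1 b.2) ((P0 I).map (algebraMap K ℂ)) = 0
        rw [hP, key hx, h1, sub_self, mul_zero]
      · rintro ⟨hx, h1⟩
        refine ⟨hx, ?_⟩
        funext I
        have h2 := h1 _ ⟨I, rfl⟩
        have h3 : MvPolynomial.eval (fun b : M × M => x b.1 b.2) ((P0 I).map (algebraMap K ℂ)) = 0 := h2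
        rw [hP, key hx] at h3
        have hd := (Matrix.isUnit_iff_isUnit_det x).1 hx
        exact sub_eq_zero.1 ((mul_eq_zero.1 h3).resolve_left (pow_ne_zero _ hd.ne_zero))

end Pool.Agent.Y123.GN
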