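import Pool.Agent.Y123.ST.Fc

/-!
# Polynomial curves of matrices, exponentials of nilpotent matrices
-/

set_option autoImplicit false
set_option linter.unusedSectionVars false

open Matrix

namespace Pool.Agent.Y123.GN

open Pool.Agent.TH127.PT Pool.Agent.Y123.ST

variable {M : Type} [Fintype M] [DecidableEq M]

/-- `f` is a polynomial curve with value `f0` and derivative `f1` at `0` -/
def PD (f : ℂ → Matrix M M ℂ) (f0 f1 : Matrix M M ℂ) : Prop :=
  ∃ p : M → M → Polynomial ℂ, (∀ t a b, f t a b = (p a b).eval t) ∧ (∀ a b, f0 a b = (p a b).eval 0) ∧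
    ∀ a b, f1 a b = (Polynomial.derivative (p a b)).eval 0

theorem PD.const (A : Matrix M M ℂ) : PD (fun _ => A) A 0 :=
  ⟨fun a b => Polynomial.C (A a b), fun t a b => by simp, fun a b => by simp, fun a b => by simp⟩

theorem PD.sub {f g : ℂ → Matrix M M ℂ} {f0 f1 g0 g1 : Matrix M M ℂ} (hf : PD f f0 f1) (hg : PD g g0 g1) :
    PD (fun t => f t - g t) (f0 - g0) (f1 - g1) := by
  obtain ⟨p, h1, h2, h3⟩ := hf
  obtain ⟨q, k1, k2, k3⟩ := hg
  refine ⟨fun a b => p a b - q a b, fun t a b => ?_, fun a b => ?_, fun a b => ?_⟩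
  · show f t a b - g t a b = _
    rw [h1, k1, Polynomial.eval_sub]
  · rw [Matrix.sub_apply, h2, k2, Polynomial.eval_sub]
  · rw [Matrix.sub_apply, h3, k3, Polynomial.derivative_sub, Polynomial.eval_sub]

theorem PD.mul {f g : ℂ → Matrix M M ℂ} {f0 f1 g0 g1 : Matrix M M ℂ} (hf : PD f f0 f1) (hg : PD g g0 g1) :
    PD (fun t => f t * g t) (f0 * g0) (f1 * g0 + f0 * g1) := by
  obtain ⟨p, h1, h2, h3⟩ := hf
  obtain ⟨q, k1, k2, k3⟩ := hg
  refine ⟨fun a b => ∑ k, p a k * q k b, fun t a b => ?_, fun a b => ?_, fun a b => ?_⟩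
  · show (f t * g t) a b = Polynomial.eval t (∑ k, p a k * q k b)
    rw [Matrix.mul_apply, Polynomial.eval_finsetSum]
    refine Finset.sum_congr rfl fun k _ => ?_
    rw [Polynomial.eval_mul, h1, k1]
  · rw [Matrix.mul_apply, Polynomial.eval_finsetSum]
    refine Finset.sum_congr rfl fun k _ => ?_
    rw [Polynomial.eval_mul, h2, k2]
  · rw [Matrix.add_apply, Matrix.mul_apply, Matrix.mul_apply, ← Finset.sum_add_distrib, Polynomial.derivative_sum,
      Polynomial.eval_finsetSum]
    refine Finset.sum_congr rfl fun k _ => ?_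
    rw [Polynomial.derivative_mul, Polynomial.eval_add, Polynomial.eval_mul, Polynomial.eval_mul, h2, k2, h3, k3]

/-- functionals -/
theorem func_eq (f : (M × M → ℂ) →ₗ[ℂ] ℂ) (a : M × M → ℂ) : f a = ∑ b, f (Pi.single b 1) * a b := by
  conv_lhs => rw [LinearMap.pi_apply_eq_sum_univ f a]
  refine Finset.sum_congr rfl fun b _ => ?_
  have h : (fun j => if b = j then (1 : ℂ) else 0) = Pi.single b 1 := by
    funext j
    simp [Pi.single_apply, eq_comm]
  rw [h, smul_eq_mul, mul_comm]

/-- the derivative of a polynomial curve in a subspace -/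
theorem PD.mem {f : ℂ → Matrix M M ℂ} {f0 f1 : Matrix M M ℂ} (hf : PD f f0 f1) (L : Submodule ℂ (M × M → ℂ))
    (h : ∀ t, fl (f t) ∈ L) : fl f1 ∈ L := by
  by_contra hcon
  obtain ⟨φ, hφ1, hφ2⟩ := Submodule.exists_le_ker_of_notMem hcon
  obtain ⟨p, h1, h2, h3⟩ := hf
  apply hφ1
  have hq : (∑ b : M × M, Polynomial.C (φ (Pi.single b 1)) * p b.1 b.2) = 0 := by
    refine Polynomial.funext fun t => ?_
    have h4 := hφ2 (h t)
    rw [LinearMap.mem_ker, func_eq] at h4
    rw [Polynomial.eval_zero, Polynomial.eval_finsetSum, ← h4]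
    refine Finset.sum_congr rfl fun b _ => ?_
    rw [Polynomial.eval_mul, Polynomial.eval_C, ← h1]
    rfl
  have h5 := congrArg (fun q => (Polynomial.derivative q).eval 0) hq
  simp only [Polynomial.derivative_zero, Polynomial.eval_zero, Polynomial.derivative_sum,
    Polynomial.eval_finsetSum, Polynomial.derivative_C_mul, Polynomial.eval_mul, Polynomial.eval_C] at h5
  rw [func_eq, ← h5]
  refine Finset.sum_congr rfl fun b _ => ?_
  rw [← h3]
  rfl

/-- the exponential with polynomial entries -/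
noncomputable def eP (N : Matrix M M ℂ) (k : ℕ) (a b : M) : Polynomial ℂ :=
  ∑ i ∈ Finset.range k, Polynomial.C (((i.factorial : ℂ))⁻¹ * (N ^ i) a b) * Polynomial.X ^ i

theorem eP_eval {N : Matrix M M ℂ} {k : ℕ} (hN : N ^ k = 0) (t : ℂ) (a b : M) :
    IsNilpotent.exp (t • N) a b = (eP N k a b).eval t := by
  have h1 : (t • N) ^ k = 0 := by rw [smul_pow, hN, smul_zero]
  rw [IsNilpotent.exp_eq_sum h1, eP, Polynomial.eval_finsetSum, Matrix.sum_apply]
  refine Finset.sum_congr rfl fun i _ => ?_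
  rw [Polynomial.eval_mul, Polynomial.eval_C, Polynomial.eval_pow, Polynomial.eval_X, smul_pow, Matrix.smul_apply,
    Matrix.smul_apply, smul_eq_mul]
  have h2 : ((i.factorial : ℚ)⁻¹ • (t ^ i * (N ^ i) a b)) = ((i.factorial : ℂ))⁻¹ * (t ^ i * (N ^ i) a b) := by
    rw [Algebra.smul_def]
    congr 1
    simp
  rw [h2]
  ring

theorem eP_deriv {N : Matrix M M ℂ} {k : ℕ} (hN : N ^ k = 0) (a b : M) :
    Polynomial.derivative (eP N (k + 1) a b) = ∑ c, Polynomial.C (N a c) * eP N (k + 1) c b := by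
  have hR : ∀ i, ∑ c, Polynomial.C (N a c) * (Polynomial.C (((i.factorial : ℂ))⁻¹ * (N ^ i) c b) * Polynomial.X ^ i) =
      Polynomial.C (((i.factorial : ℂ))⁻¹ * (N ^ (i + 1)) a b) * Polynomial.X ^ i := by
    intro i
    rw [pow_succ', Matrix.mul_apply, Finset.mul_sum, map_sum, Finset.sum_mul]
    refine Finset.sum_congr rfl fun c _ => ?_
    rw [← mul_assoc, ← Polynomial.C_mul]
    congr 2
    ring
  have h1 : ∑ c, Polynomial.C (N a c) * eP N (k + 1) c b =
      ∑ i ∈ Finset.range k, Polynomial.C (((i.factorial : ℂ))⁻¹ * (N ^ (i + 1)) a b) * Polynomial.X ^ i := by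
    unfold eP
    simp only [Finset.mul_sum]
    rw [Finset.sum_comm, Finset.sum_congr rfl fun i _ => hR i, Finset.sum_range_succ, pow_succ, hN, Matrix.zero_mul]
    simp
  rw [h1]
  unfold eP
  rw [Polynomial.derivative_sum, Finset.sum_range_succ']
  simp only [pow_zero, mul_one, Polynomial.derivative_C, add_zero]
  refine Finset.sum_congr rfl fun i _ => ?_
  rw [Polynomial.derivative_C_mul, Polynomial.derivative_X_pow, ← mul_assoc, ← Polynomial.C_mul]
  simp only [Nat.add_sub_cancel]
  congr 2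
  rw [Nat.factorial_succ]
  push_cast
  have h2 : ((i : ℂ) + 1) ≠ 0 := by exact_mod_cast Nat.succ_ne_zero i
  have h3 : (i.factorial : ℂ) ≠ 0 := by exact_mod_cast i.factorial_ne_zero
  field_simp

theorem exp_inv {N : Matrix M M ℂ} (hN : IsNilpotent N) (t : ℂ) :
    IsNilpotent.exp (t • N) * IsNilpotent.exp ((-t) • N) = 1 := by
  rw [neg_smul]
  exact IsNilpotent.exp_mul_exp_neg_self (hN.smul t)

theorem exp_inv' {N : Matrix M M ℂ} (hN : IsNilpotent N) (t : ℂ) :
    IsNilpotent.exp ((-t) • N) * IsNilpotent.exp (t • N) = 1 := by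
  rw [neg_smul]
  exact IsNilpotent.exp_neg_mul_exp_self (hN.smul t)

theorem exp_pow {N : Matrix M M ℂ} (hN : IsNilpotent N) (t : ℂ) (J : ℕ) :
    IsNilpotent.exp (t • N) ^ J = IsNilpotent.exp (((J : ℂ) * t) • N) := by
  induction J with
  | zero =>
    rw [pow_zero, Nat.cast_zero, zero_mul, zero_smul, IsNilpotent.exp_zero]
  | succ J ih =>
    rw [pow_succ, ih, ← IsNilpotent.exp_add_of_commute _ (hN.smul _) (hN.smul _), ← add_smul]
    · congr 2
      push_cast
      ring
    · exact (Commute.refl N).smul_left _ |>.smul_right _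

theorem exp_zero' (N : Matrix M M ℂ) : IsNilpotent.exp ((0 : ℂ) • N) = 1 := by
  rw [zero_smul, IsNilpotent.exp_zero]

theorem eP_zero {N : Matrix M M ℂ} {k : ℕ} (hN : N ^ k = 0) (a b : M) : (eP N k a b).eval 0 = (1 : Matrix M M ℂ) a b := by
  rw [← eP_eval hN 0 a b, exp_zero']

theorem PD.exp {N : Matrix M M ℂ} (hN : IsNilpotent N) : PD (fun t => IsNilpotent.exp (t • N)) 1 N := by
  obtain ⟨k, hk⟩ := hN
  have hk1 : N ^ (k + 1) = 0 := by rw [pow_succ, hk, Matrix.zero_mul]
  refine ⟨fun a b => eP N (k + 1) a b, fun t a b => eP_eval hk1 t a b, fun a b => (eP_zero hk1 a b).symm, fun a b => ?_⟩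
  rw [eP_deriv hk, Polynomial.eval_finsetSum]
  simp only [Polynomial.eval_mul, Polynomial.eval_C, eP_zero hk1]
  conv_lhs => rw [← Matrix.mul_one N, Matrix.mul_apply]

theorem PD.exp_neg {N : Matrix M M ℂ} (hN : IsNilpotent N) : PD (fun t => IsNilpotent.exp ((-t) • N)) 1 (-N) := by
  have h := PD.exp hN.neg
  have h2 : (fun t : ℂ => IsNilpotent.exp ((-t) • N)) = fun t : ℂ => IsNilpotent.exp (t • (-N)) := by
    funext t
    rw [neg_smul, smul_neg]
  rw [h2]
  exact h

variable {K : Subfield ℂ} {T : Set (Matrix M M ℂ)}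

/-- nilpotent elements of the Lie algebra can be exponentiated -/
theorem exp_mem (hT : IsSubtorsor K T) {N x : Matrix M M ℂ} (hN : IsNilpotent N) (hNL : fl N ∈ LL T) (hx : x ∈ T)
    (t : ℂ) : IsNilpotent.exp (t • N) * x ∈ T := by
  obtain ⟨k, hk⟩ := id hN
  have hk1 : N ^ (k + 1) = 0 := by rw [pow_succ, hk, Matrix.zero_mul]
  let g : M × M → Polynomial ℂ := fun b => ∑ c, eP N (k + 1) b.1 c * Polynomial.C (x c b.2)
  have hg : ∀ s, (fun b => (g b).eval s) = fl (IsNilpotent.exp (s • N) * x) := by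
    intro s
    funext b
    show (g b).eval s = (IsNilpotent.exp (s • N) * x) b.1 b.2
    rw [Matrix.mul_apply, Polynomial.eval_finsetSum]
    refine Finset.sum_congr rfl fun c _ => ?_
    rw [Polynomial.eval_mul, Polynomial.eval_C, eP_eval hk1]
  have hev : ∀ (P : MvPolynomial (M × M) ℂ) (s : ℂ), Polynomial.eval s (MvPolynomial.aeval g P) =
      MvPolynomial.eval (fl (IsNilpotent.exp (s • N) * x)) P := by
    intro P s
    rw [← hg]
    induction P using MvPolynomial.induction_on with
    | C a => simp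
    | add p q hp hq => rw [map_add, Polynomial.eval_add, hp, hq, map_add]
    | mul_X p b hp =>
      rw [map_mul, Polynomial.eval_mul, hp, MvPolynomial.aeval_X, map_mul, MvPolynomial.eval_X]
  have hz := all_zero (Van T) (fun P => MvPolynomial.aeval g P) (DL N) 0 1
    (by simp) (by
      intro P hP
      show Polynomial.eval 0 (MvPolynomial.aeval g P) = 0
      rw [hev, exp_zero', Matrix.one_mul]
      exact hP x hx) (fun P hP => van_DL hNL hP) (by
      intro P _
      rw [one_mul, deriv_aeval]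
      unfold DL
      rw [map_sum]
      refine Finset.sum_congr rfl fun b _ => ?_
      rw [map_mul]
      congr 1
      -- the substitution
      have h1 : ∀ b : M × M, sb (ml N) b = ∑ c, MvPolynomial.C (N b.1 c) * MvPolynomial.X (c, b.2) := by
        intro b
        apply MvPolynomial.funext
        intro y
        rw [eval_sb, map_sum]
        show (N * um y) b.1 b.2 = _
        rw [Matrix.mul_apply]
        refine Finset.sum_congr rfl fun c _ => ?_
        rw [map_mul, MvPolynomial.eval_C, MvPolynomial.eval_X]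
        rfl
      rw [h1, map_sum]
      show _ = Polynomial.derivative (∑ c, eP N (k + 1) b.1 c * Polynomial.C (x c b.2))
      rw [Polynomial.derivative_sum]
      simp only [Polynomial.derivative_mul, Polynomial.derivative_C, mul_zero, add_zero, eP_deriv hk, Finset.sum_mul]
      rw [Finset.sum_comm]
      refine Finset.sum_congr rfl fun c _ => ?_
      rw [map_mul, MvPolynomial.aeval_X, MvPolynomial.aeval_C]
      show Polynomial.C (N b.1 c) * (∑ d, eP N (k + 1) c d * Polynomial.C (x d b.2)) = _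
      rw [Finset.mul_sum]
      refine Finset.sum_congr rfl fun d _ => ?_
      ring)
  obtain ⟨I, h1, h2⟩ := hT.algebraic
  have hIV : ∀ p ∈ I, Van T p := fun p hp y hy => ((h2 y).1 hy).2 p hp
  rw [h2]
  refine ⟨(IsNilpotent.isUnit_exp (hN.smul t)).mul (hT.isUnit x hx), fun p hp => ?_⟩
  have h3 := hz p (hIV p hp)
  have h4 := hev p t
  rw [h3, Polynomial.eval_zero] at h4
  exact h4.symm

end Pool.Agent.Y123.GN
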