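import Pool.Agent.Y123.GN.A1

/-!
# Transfer of relations of bounded degree
-/

set_option autoImplicit false
set_option linter.unusedSectionVars false

open Matrix

namespace Pool.Agent.Y123.GN

open Pool.Agent.TH127.PT Pool.Agent.Y123.ST Pool.Agent.TH119.DR

variable {M : Type} [Fintype M] [DecidableEq M]

/-- functions given by polynomials of degree at most `d` -/
def PF (d : ℕ) (F : Matrix M M ℂ → ℂ) : Prop :=
  ∃ P : MvPolynomial (M × M) ℂ, P.totalDegree ≤ d ∧ ∀ X, F X = MvPolynomial.eval (fl X) P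

theorem PF.const (a : ℂ) : PF (M := M) 0 (fun _ => a) :=
  ⟨MvPolynomial.C a, by rw [MvPolynomial.totalDegree_C], fun X => by rw [MvPolynomial.eval_C]⟩

theorem PF.coord (a b : M) : PF (M := M) 1 (fun X => X a b) :=
  ⟨MvPolynomial.X (a, b), by rw [MvPolynomial.totalDegree_X], fun X => by rw [MvPolynomial.eval_X]; rfl⟩

theorem PF.mono {d e : ℕ} (h : d ≤ e) {F : Matrix M M ℂ → ℂ} (hF : PF d F) : PF e F := by
  obtain ⟨P, h1, h2⟩ := hF
  exact ⟨P, h1.trans h, h2⟩

theorem PF.mul {d e : ℕ} {F G : Matrix M M ℂ → ℂ} (hF : PF d F) (hG : PF e G) :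
    PF (d + e) (fun X => F X * G X) := by
  obtain ⟨P, h1, h2⟩ := hF
  obtain ⟨P', h1', h2'⟩ := hG
  refine ⟨P * P', (MvPolynomial.totalDegree_mul _ _).trans (add_le_add h1 h1'), fun X => ?_⟩
  rw [map_mul, ← h2, ← h2']

theorem PF.add {d : ℕ} {F G : Matrix M M ℂ → ℂ} (hF : PF d F) (hG : PF d G) : PF d (fun X => F X + G X) := by
  obtain ⟨P, h1, h2⟩ := hF
  obtain ⟨P', h1', h2'⟩ := hG
  refine ⟨P + P', (MvPolynomial.totalDegree_add _ _).trans (max_le h1 h1'), fun X => ?_⟩
  rw [map_add, ← h2, ← h2']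

theorem PF.sub {d : ℕ} {F G : Matrix M M ℂ → ℂ} (hF : PF d F) (hG : PF d G) : PF d (fun X => F X - G X) := by
  obtain ⟨P, h1, h2⟩ := hF
  obtain ⟨P', h1', h2'⟩ := hG
  refine ⟨P - P', (MvPolynomial.totalDegree_sub _ _).trans (max_le h1 h1'), fun X => ?_⟩
  rw [map_sub, ← h2, ← h2']

theorem PF.sum {d : ℕ} {ι : Type*} (s : Finset ι) {F : ι → Matrix M M ℂ → ℂ}
    (hF : ∀ i ∈ s, PF d (F i)) : PF d (fun X => ∑ i ∈ s, F i X) := by
  classical
  induction s using Finset.induction_on with
  | empty =>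
    simp only [Finset.sum_empty]
    exact (PF.const 0).mono (Nat.zero_le _)
  | insert i s hi ih =>
    simp only [Finset.sum_insert hi]
    exact (hF i (Finset.mem_insert_self _ _)).add (ih fun k hk => hF k (Finset.mem_insert_of_mem hk))

theorem PF.prod {ι : Type*} (s : Finset ι) {d : ι → ℕ} {F : ι → Matrix M M ℂ → ℂ}
    (hF : ∀ i ∈ s, PF (d i) (F i)) : PF (∑ i ∈ s, d i) (fun X => ∏ i ∈ s, F i X) := by
  classical
  induction s using Finset.induction_on with
  | empty =>
    simp only [Finset.prod_empty, Finset.sum_empty]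
    exact PF.const 1
  | insert i s hi ih =>
    simp only [Finset.prod_insert hi, Finset.sum_insert hi]
    exact (hF i (Finset.mem_insert_self _ _)).mul (ih fun k hk => hF k (Finset.mem_insert_of_mem hk))

/-- matrices of polynomial functions -/
def PM (d : ℕ) (F : Matrix M M ℂ → Matrix M M ℂ) : Prop := ∀ a b, PF d (fun X => F X a b)

theorem PM.const (A : Matrix M M ℂ) : PM 0 (fun _ : Matrix M M ℂ => A) := fun _ _ => PF.const _

theorem PM.id : PM 1 (fun X : Matrix M M ℂ => X) := fun a b => PF.coord a b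

theorem PM.mono {d e : ℕ} (h : d ≤ e) {F : Matrix M M ℂ → Matrix M M ℂ} (hF : PM d F) : PM e F :=
  fun a b => (hF a b).mono h

theorem PM.mul {d e : ℕ} {F G : Matrix M M ℂ → Matrix M M ℂ} (h : PM d F) (h' : PM e G) :
    PM (d + e) (fun X => F X * G X) := by
  intro a b
  simp only [Matrix.mul_apply]
  exact PF.sum _ fun k _ => (h a k).mul (h' k b)

theorem PM.sub {d : ℕ} {F G : Matrix M M ℂ → Matrix M M ℂ} (h : PM d F) (h' : PM d G) :
    PM d (fun X => F X - G X) := by
  intro a b
  simp only [Matrix.sub_apply]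
  exact (h a b).sub (h' a b)

theorem PM.pow {d : ℕ} {F : Matrix M M ℂ → Matrix M M ℂ} (h : PM d F) (k : ℕ) : PM (k * d) (fun X => F X ^ k) := by
  induction k with
  | zero =>
    simp only [pow_zero, zero_mul]
    exact PM.const 1
  | succ k ih =>
    simp only [pow_succ]
    exact (ih.mul h).mono (by rw [Nat.succ_mul])

theorem PF.det {F : Matrix M M ℂ → Matrix M M ℂ} (h : PM 1 F) : PF (Fintype.card M) (fun X => (F X).det) := by
  simp only [Matrix.det_apply]
  refine PF.sum _ fun σ _ => ?_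
  have h1 : PF (∑ i ∈ (Finset.univ : Finset M), 1) (fun X => ∏ i ∈ (Finset.univ : Finset M), F X (σ i) i) :=
    PF.prod _ fun i _ => h (σ i) i
  have h2 := (PF.const (M := M) ((Equiv.Perm.sign σ : ℤ) : ℂ)).mul h1
  refine PF.mono (d := 0 + ∑ i ∈ (Finset.univ : Finset M), 1) (by simp) ?_
  convert h2 using 2 with X
  rw [Units.smul_def, zsmul_eq_mul]

theorem PM.adj : PM (Fintype.card M) (fun X : Matrix M M ℂ => X.adjugate) := by
  intro a b
  simp only [Matrix.adjugate_apply]
  refine PF.det ?_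
  intro c e
  by_cases h : c = b
  · subst h
    simp only [Matrix.updateRow_self]
    exact (PF.const _).mono (Nat.zero_le _)
  · simp only [Matrix.updateRow_ne h]
    exact PF.coord c e

/-- linear functionals -/
theorem PM.func {d : ℕ} {F : Matrix M M ℂ → Matrix M M ℂ} (h : PM d F) (φ : (M × M → ℂ) →ₗ[ℂ] ℂ) :
    PF d (fun X => φ (fl (F X))) := by
  have h1 : (fun X => φ (fl (F X))) = fun X => ∑ b, φ (Pi.single b 1) * fl (F X) b := by
    funext X
    exact func_eq φ _
  rw [h1]
  refine PF.sum _ fun b _ => ?_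
  have := (PF.const (M := M) (φ (Pi.single b 1))).mul (h b.1 b.2)
  rw [zero_add] at this
  exact this

variable {K : Subfield ℂ} {T : Set (Matrix M M ℂ)}

/-- relations of bounded degree, which vanish on a set stable under automorphisms, hold where all relations of `c` hold -/
theorem transfer {𝒳 : Set (Matrix M M ℂ)} {c x : Matrix M M ℂ}
    (h𝒳 : ∀ σ : ℂ ≃+* ℂ, (∀ x ∈ K, σ x = x) → ∀ X ∈ 𝒳, X.map σ ∈ 𝒳) (hc : c ∈ 𝒳) {d : ℕ}
    (hr : ∀ P : MvPolynomial (M × M) ℂ, (∀ m, P.coeff m ∈ K) → P.totalDegree ≤ d →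
      MvPolynomial.eval (fl c) P = 0 → MvPolynomial.eval (fl x) P = 0)
    {F : Matrix M M ℂ → ℂ} (hF : PF d F) (hv : ∀ X ∈ 𝒳, F X = 0) : F x = 0 := by
  classical
  obtain ⟨P, hP, hPF⟩ := hF
  rw [hPF]
  -- polynomials with the monomials of `P`
  let poly : (P.support → ℂ) →ₗ[ℂ] MvPolynomial (M × M) ℂ :=
    { toFun := fun a => ∑ m : P.support, MvPolynomial.monomial m.1 (a m)
      map_add' := by
        intro a b
        simp only [Pi.add_apply, map_add, Finset.sum_add_distrib]
      map_smul' := by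
        intro z a
        simp only [Pi.smul_apply, smul_eq_mul, RingHom.id_apply, Finset.smul_sum, MvPolynomial.smul_monomial] }
  have hpoly : ∀ a, poly a = ∑ m : P.support, MvPolynomial.monomial m.1 (a m) := fun a => rfl
  have hev : ∀ a (y : M × M → ℂ), MvPolynomial.eval y (poly a) =
      ∑ m : P.support, a m * m.1.prod fun i e => y i ^ e := by
    intro a y
    rw [hpoly, map_sum]
    refine Finset.sum_congr rfl fun m _ => ?_
    rw [MvPolynomial.eval_monomial]
  let W : Submodule ℂ (P.support → ℂ) :=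
    { carrier := {a | ∀ X ∈ 𝒳, MvPolynomial.eval (fl X) (poly a) = 0}
      zero_mem' := by
        intro X _
        rw [map_zero, map_zero]
      add_mem' := by
        intro a b ha hb X hX
        rw [map_add, map_add, ha X hX, hb X hX, add_zero]
      smul_mem' := by
        intro z a ha X hX
        rw [map_smul, MvPolynomial.smul_eval, ha X hX, mul_zero] }
  have hW : DefOver K W := by
    refine Pool.Agent.TH119.MX.defOver_of_aut W fun σ hσ a ha X hX => ?_
    have h1 : X.map σ.symm ∈ 𝒳 := h𝒳 σ.symm (symm_fix hσ) X hX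
    have h2 := congrArg σ (ha _ h1)
    rw [map_zero, hev, map_sum] at h2
    rw [hev, ← h2]
    refine Finset.sum_congr rfl fun m _ => ?_
    rw [map_mul]
    congr 1
    rw [Finsupp.prod, Finsupp.prod, map_prod]
    refine Finset.prod_congr rfl fun i _ => ?_
    rw [map_pow]
    congr 1
    show X i.1 i.2 = σ ((X.map σ.symm) i.1 i.2)
    simp
  have hPP : poly (fun m => P.coeff m.1) = P := by
    rw [hpoly]
    conv_rhs => rw [P.as_sum]
    exact Finset.sum_coe_sort P.support (fun m => MvPolynomial.monomial m (P.coeff m))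
  have hPW : (fun m : P.support => P.coeff m.1) ∈ W := by
    intro X hX
    rw [hPP, ← hPF]
    exact hv X hX
  have key : ∀ a ∈ Submodule.span ℂ {w | w ∈ W ∧ ∀ a, w a ∈ K}, MvPolynomial.eval (fl x) (poly a) = 0 := by
    intro a ha
    induction ha using Submodule.span_induction with
    | mem a ha =>
      obtain ⟨h1, h2⟩ := ha
      refine hr (poly a) ?_ ?_ (h1 c hc)
      · intro m
        rw [hpoly, MvPolynomial.coeff_sum]
        refine Subfield.sum_mem _ fun m' _ => ?_
        rw [MvPolynomial.coeff_monomial]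
        split_ifs
        · exact h2 _
        · exact K.zero_mem
      · rw [hpoly]
        refine (MvPolynomial.totalDegree_finsetSum _ _).trans (Finset.sup_le fun m _ => ?_)
        refine (MvPolynomial.totalDegree_monomial_le _ _).trans ?_
        exact (MvPolynomial.le_totalDegree m.2).trans hP
    | zero => rw [map_zero, map_zero]
    | add a b _ _ ha hb => rw [map_add, map_add, ha, hb, add_zero]
    | smul z a _ ha => rw [map_smul, MvPolynomial.smul_eval, ha, mul_zero]
  have := key _ (hW hPW)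
  rwa [hPP] at this

/-- every relation over `K` of degree at most `d` at `c` holds at `x` -/
def Rl (K : Subfield ℂ) (d : ℕ) (c x : Matrix M M ℂ) : Prop :=
  ∀ P : MvPolynomial (M × M) ℂ, (∀ m, P.coeff m ∈ K) → P.totalDegree ≤ d →
    MvPolynomial.eval (fl c) P = 0 → MvPolynomial.eval (fl x) P = 0

theorem transferT (hT : IsSubtorsor K T) {c x : Matrix M M ℂ} (hc : c ∈ T) {d : ℕ} (hr : Rl K d c x)
    {F : Matrix M M ℂ → ℂ} (hF : PF d F) (hv : ∀ X ∈ T, F X = 0) : F x = 0 :=
  transfer (K := K) (𝒳 := T) (fun _ hσ _ hX => aut_mem hT hσ hX) hc hr hF hv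

theorem Tdet (hT : IsSubtorsor K T) {x : Matrix M M ℂ} (hx : x ∈ T) : IsUnit x.det :=
  (Matrix.isUnit_iff_isUnit_det x).1 (hT.isUnit x hx)

/-- conjugation by a quotient of points -/
theorem quot_LL (hT : IsSubtorsor K T) {c X w : Matrix M M ℂ} (hc : c ∈ T) (hX : X ∈ T) (hw : fl w ∈ LL T) :
    fl (X * (c⁻¹ * w * c) * X⁻¹) ∈ LL T := conj_mem' hT hX (conj_mem hT hc hw)

theorem adj_eq {X : Matrix M M ℂ} (hX : IsUnit X.det) : X.adjugate = X.det • X⁻¹ := by
  rw [Matrix.inv_def, smul_smul, Ring.mul_inverse_cancel _ hX, one_smul]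

/-- **normality** -/
theorem normal (hT : IsSubtorsor K T) {c g : Matrix M M ℂ} (hc : c ∈ T) (hg : IsUnit g.det)
    (hr : Rl K (1 + Fintype.card M) c (g * c)) {w : Matrix M M ℂ} (hw : fl w ∈ LL T) : fl (g * w * g⁻¹) ∈ LL T := by
  by_contra hcon
  obtain ⟨φ, hφ1, hφ2⟩ := Submodule.exists_le_ker_of_notMem hcon
  apply hφ1
  have hcd := Tdet hT hc
  have hgc : IsUnit (g * c).det := by rw [det_mul]; exact hg.mul hcd
  have hPM : PM (1 + Fintype.card M) (fun X : Matrix M M ℂ => X * (c⁻¹ * w * c) * X.adjugate) := by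
    have h1 := (PM.id (M := M)).mul (PM.const (c⁻¹ * w * c))
    exact (h1.mul PM.adj)
  have h1 := transferT hT hc hr (hPM.func φ) (by
    intro X hX
    show φ (fl (X * (c⁻¹ * w * c) * X.adjugate)) = 0
    rw [adj_eq (Tdet hT hX), Matrix.mul_smul, fl_smul, map_smul]
    have := hφ2 (quot_LL hT hc hX hw)
    rw [LinearMap.mem_ker] at this
    rw [this, smul_zero])
  rw [adj_eq hgc, Matrix.mul_smul, fl_smul, map_smul, smul_eq_mul] at h1
  have h2 := (mul_eq_zero.1 h1).resolve_left hgc.ne_zero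
  have h3 : g * c * (c⁻¹ * w * c) * (g * c)⁻¹ = g * w * g⁻¹ := by
    rw [Matrix.mul_inv_rev]
    have e1 : c * c⁻¹ = 1 := mul_nonsing_inv _ hcd
    calc g * c * (c⁻¹ * w * c) * (c⁻¹ * g⁻¹) = g * (c * c⁻¹) * w * (c * c⁻¹) * g⁻¹ := by
          simp only [Matrix.mul_assoc]
      _ = g * w * g⁻¹ := by rw [e1, Matrix.mul_one, Matrix.mul_one]
  rw [h3] at h2
  exact h2

end Pool.Agent.Y123.GN
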