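import Pool.Agent.Y123.GN.A2
import Pool.Agent.H135R2.VS.Der

/-!
# Finiteness of the orbits modulo the Lie algebra
-/

set_option autoImplicit false
set_option linter.unusedSectionVars false

open Matrix

namespace Pool.Agent.Y123.GN

open Pool.Agent.TH127.PT Pool.Agent.Y123.ST Pool.Agent.TH119.DR

variable {M : Type} [Fintype M] [DecidableEq M] {K : Subfield ℂ} {T : Set (Matrix M M ℂ)}

/-- derivations detect transcendental numbers -/
theorem exists_der_tr {z : ℂ} (hz : Transcendental K z) : ∃ D : Derivation K ℂ ℂ, D z ≠ 0 := by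
  have hind : AlgebraicIndependent K (fun _ : Unit => z) := (algebraicIndependent_unique_type_iff).2 hz
  obtain ⟨D, hD⟩ := Pool.Agent.H135R2.VS.exists_der hind (fun _ => (1 : ℂ))
  refine ⟨D, ?_⟩
  have h1 := hD ()
  rw [h1]
  exact one_ne_zero

theorem der_mul (D : Derivation K ℂ ℂ) (A B : Matrix M M ℂ) : (A * B).map D = A.map D * B + A * B.map D := by
  ext a b
  rw [Matrix.map_apply, Matrix.mul_apply, map_sum, Matrix.add_apply, Matrix.mul_apply, Matrix.mul_apply,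
    ← Finset.sum_add_distrib]
  refine Finset.sum_congr rfl fun k _ => ?_
  rw [D.leibniz, smul_eq_mul, smul_eq_mul, Matrix.map_apply, Matrix.map_apply]
  ring

theorem sub_mono {K' : Subfield ℂ} (h : K ≤ K') (hT : IsSubtorsor K T) : IsSubtorsor K' T := by
  refine ⟨hT.isUnit, hT.torsor, ?_⟩
  obtain ⟨I, h1, h2⟩ := hT.algebraic
  exact ⟨I, fun p hp m => h (h1 p hp m), h2⟩

theorem der_zero (D : Derivation K ℂ ℂ) {z : ℂ} (hz : z ∈ K) : D z = 0 := D.map_algebraMap ⟨z, hz⟩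

/-- the values are algebraic -/
theorem value_alg (hT : IsSubtorsor K T) {c s : Matrix M M ℂ} (hc : c ∈ T)
    (hcK : ∀ a b, c a b ∈ K) (hsK : ∀ a b, s a b ∈ K) (hciK : ∀ a b, c⁻¹ a b ∈ K)
    (hs : ∀ w, fl w ∈ LL T → fl (w * s - s * w) ∈ LL T) (φ : (M × M → ℂ) →ₗ[ℂ] ℂ)
    (hφK : ∀ b, φ (Pi.single b 1) ∈ K) (hφ : ∀ v ∈ LL T, φ v = 0) {X : Matrix M M ℂ} (hX : X ∈ T) :
    IsAlgebraic K (φ (fl (X * (c⁻¹ * s * c) * X⁻¹))) := by
  by_contra hcon
  obtain ⟨D, hD⟩ := exists_der_tr hcon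
  apply hD
  have hXX := mul_inv' hT hX
  have hXX' := inv_mul' hT hX
  have hcc := mul_inv' hT hc
  have hcc' := inv_mul' hT hc
  set q := c⁻¹ * s * c with hq
  set y := X * q * X⁻¹ with hy
  set w := X.map D * X⁻¹ with hw
  have hqK : ∀ a b, q a b ∈ K := by
    intro a b
    rw [hq, Matrix.mul_apply]
    refine Subfield.sum_mem _ fun k _ => Subfield.mul_mem _ ?_ (hcK _ _)
    rw [Matrix.mul_apply]
    exact Subfield.sum_mem _ fun l _ => Subfield.mul_mem _ (hciK _ _) (hsK _ _)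
  have hqD : q.map D = 0 := by
    ext a b
    rw [Matrix.map_apply, Matrix.zero_apply]
    exact der_zero D (hqK a b)
  have hwX : w * X = X.map D := by
    rw [hw, Matrix.mul_assoc, hXX', Matrix.mul_one]
  have h1 : y * X = X * q := by
    rw [hy, Matrix.mul_assoc, hXX', Matrix.mul_one]
  have h2 := congrArg (fun A : Matrix M M ℂ => A.map D) h1
  simp only [der_mul, hqD, Matrix.mul_zero, add_zero] at h2
  have h3 : y.map D = w * y - y * w := by
    have h4 : y.map D * X = w * X * q - y * (w * X) := by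
      rw [hwX, ← h2, add_sub_cancel_right]
    calc y.map D = y.map D * X * X⁻¹ := by rw [Matrix.mul_assoc, hXX, Matrix.mul_one]
      _ = w * (X * q * X⁻¹) - y * w * (X * X⁻¹) := by
        rw [h4, Matrix.sub_mul]
        simp only [Matrix.mul_assoc]
      _ = w * y - y * w := by rw [hXX, Matrix.mul_one]
  have h5 : D (φ (fl y)) = φ (fl (y.map D)) := by
    rw [func_eq φ (fl y), func_eq φ (fl (y.map D)), map_sum]
    refine Finset.sum_congr rfl fun b _ => ?_
    rw [D.leibniz, der_zero D (hφK b), smul_zero, add_zero]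
    rfl
  rw [h5, h3]
  apply hφ
  -- the commutator
  have hwL : fl w ∈ LL T := logder_mem hT D hX
  have h6 : fl (c * (X⁻¹ * w * X) * c⁻¹) ∈ LL T := quot_LL hT hX hc hwL
  have h7 := quot_LL hT hc hX (hs _ h6)
  have e1 : X * (c⁻¹ * (c * (X⁻¹ * w * X) * c⁻¹ * s) * c) * X⁻¹ = w * y := by
    calc X * (c⁻¹ * (c * (X⁻¹ * w * X) * c⁻¹ * s) * c) * X⁻¹ =
        X * ((c⁻¹ * c) * X⁻¹ * w * X * (c⁻¹ * s * c)) * X⁻¹ := by simp only [Matrix.mul_assoc]
      _ = (X * X⁻¹) * w * X * (c⁻¹ * s * c) * X⁻¹ := by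
        rw [hcc', Matrix.one_mul]
        simp only [Matrix.mul_assoc]
      _ = w * (X * (c⁻¹ * s * c) * X⁻¹) := by
        rw [hXX, Matrix.one_mul]
        simp only [Matrix.mul_assoc]
  have e2 : X * (c⁻¹ * (s * (c * (X⁻¹ * w * X) * c⁻¹)) * c) * X⁻¹ = y * w := by
    calc X * (c⁻¹ * (s * (c * (X⁻¹ * w * X) * c⁻¹)) * c) * X⁻¹ =
        X * (c⁻¹ * s * c) * X⁻¹ * w * X * (c⁻¹ * c) * X⁻¹ := by simp only [Matrix.mul_assoc]
      _ = X * (c⁻¹ * s * c) * X⁻¹ * w * (X * X⁻¹) := by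
        rw [hcc', Matrix.mul_one]
        simp only [Matrix.mul_assoc]
      _ = X * (c⁻¹ * s * c) * X⁻¹ * w := by rw [hXX, Matrix.mul_one]
  have h8 : X * (c⁻¹ * (c * (X⁻¹ * w * X) * c⁻¹ * s - s * (c * (X⁻¹ * w * X) * c⁻¹)) * c) * X⁻¹ =
      w * y - y * w := by
    rw [Matrix.mul_sub, Matrix.sub_mul, Matrix.mul_sub, Matrix.sub_mul, e1, e2]
  rw [h8] at h7
  exact h7

/-- a countable field which contains given numbers -/
theorem exists_field (hK : (K : Set ℂ).Countable) {S : Set ℂ} (hS : S.Countable) :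
    ∃ K' : Subfield ℂ, K ≤ K' ∧ S ⊆ K' ∧ (K' : Set ℂ).Countable := by
  refine ⟨Subfield.closure (K ∪ S), ?_, ?_, ?_⟩
  · intro x hx
    exact Subfield.subset_closure (Or.inl hx)
  · intro x hx
    exact Subfield.subset_closure (Or.inr hx)
  · have h1 : ((K : Set ℂ) ∪ S).Countable := hK.union hS
    have h2 := Subfield.cardinalMk_closure_le_max ((K : Set ℂ) ∪ S)
    have h3 : Cardinal.mk ((K : Set ℂ) ∪ S : Set ℂ) ≤ Cardinal.aleph0 := Cardinal.le_aleph0_iff_set_countable.2 h1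
    exact Cardinal.le_aleph0_iff_set_countable.1 (h2.trans (max_le h3 le_rfl))

/-- the values of a functional are finite in number -/
theorem value_fin (hK : (K : Set ℂ).Countable) (hT : IsSubtorsor K T) {c s : Matrix M M ℂ} (hc : c ∈ T)
    (hs : ∀ w, fl w ∈ LL T → fl (w * s - s * w) ∈ LL T) (φ : (M × M → ℂ) →ₗ[ℂ] ℂ) (hφ : ∀ v ∈ LL T, φ v = 0) :
    {z | ∃ X ∈ T, z = φ (fl (X * (c⁻¹ * s * c) * X⁻¹))}.Finite := by
  classical
  -- the field
  obtain ⟨K', hKK', hS, hK'⟩ := exists_field hK (S := (Set.range fun b : M × M => c b.1 b.2) ∪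
    ((Set.range fun b : M × M => c⁻¹ b.1 b.2) ∪ ((Set.range fun b : M × M => s b.1 b.2) ∪
      Set.range fun b : M × M => φ (Pi.single b 1)))) (by
    refine (Set.countable_range _).union ((Set.countable_range _).union ((Set.countable_range _).union
      (Set.countable_range _))))
  have hcK : ∀ a b, c a b ∈ K' := fun a b => hS (Or.inl ⟨(a, b), rfl⟩)
  have hciK : ∀ a b, c⁻¹ a b ∈ K' := fun a b => hS (Or.inr (Or.inl ⟨(a, b), rfl⟩))
  have hsK : ∀ a b, s a b ∈ K' := fun a b => hS (Or.inr (Or.inr (Or.inl ⟨(a, b), rfl⟩)))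
  have hφK : ∀ b, φ (Pi.single b 1) ∈ K' := fun b => hS (Or.inr (Or.inr (Or.inr ⟨b, rfl⟩)))
  have hT' := sub_mono hKK' hT
  have hcount0 : Countable K' := hK'
  have hcount : Countable {α : ℂ // IsAlgebraic K' α} := (Algebraic.countable K' ℂ).to_subtype
  have hfin : (VI T).minimalPrimes.Finite := Ideal.finite_minimalPrimes_of_isNoetherianRing _ _
  -- the numerator
  obtain ⟨Q, -, hQ⟩ : PF (1 + Fintype.card M) (fun X : Matrix M M ℂ => φ (fl (X * (c⁻¹ * s * c) * X.adjugate))) :=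
    PM.func (((PM.id (M := M)).mul (PM.const (c⁻¹ * s * c))).mul PM.adj) φ
  have hval : ∀ X ∈ T, MvPolynomial.eval (fl X) Q = X.det * φ (fl (X * (c⁻¹ * s * c) * X⁻¹)) := by
    intro X hX
    rw [← hQ]
    show φ (fl (X * (c⁻¹ * s * c) * X.adjugate)) = _
    rw [adj_eq (Tdet hT hX), Matrix.mul_smul, fl_smul, map_smul, smul_eq_mul]
  have key : ∀ P ∈ (VI T).minimalPrimes, ∃ α : ℂ, (Q - MvPolynomial.C α * dt M) ∈ P := by
    intro P hP
    by_contra hcon
    push Not at hcon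
    obtain ⟨X, hX, hX2⟩ := exists_pt hT hP (fun α : {α : ℂ // IsAlgebraic K' α} =>
      Q - MvPolynomial.C α.1 * dt M) (fun α => hcon α.1)
    have h1 := value_alg hT' hc hcK hsK hciK hs φ hφK hφ hX
    apply hX2 ⟨_, h1⟩
    rw [map_sub, map_mul, MvPolynomial.eval_C, eval_dt, hval X hX]
    ring
  choose! α hα using key
  refine (hfin.image α).subset ?_
  rintro z ⟨X, hX, rfl⟩
  -- a component which contains the point
  have hker : VI T ≤ RingHom.ker (MvPolynomial.eval (fl X) : MvPolynomial (M × M) ℂ →+* ℂ) := by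
    intro P hP
    exact hP _ hX
  have hkp : (RingHom.ker (MvPolynomial.eval (fl X) : MvPolynomial (M × M) ℂ →+* ℂ)).IsPrime := RingHom.ker_isPrime _
  obtain ⟨P, hP, hPk⟩ := Ideal.exists_minimalPrimes_le hker
  refine ⟨P, hP, ?_⟩
  have h1 : MvPolynomial.eval (fl X) (Q - MvPolynomial.C (α P) * dt M) = 0 := hPk (hα P hP)
  rw [map_sub, map_mul, MvPolynomial.eval_C, eval_dt, hval X hX] at h1
  have h2 : X.det * (φ (fl (X * (c⁻¹ * s * c) * X⁻¹)) - α P) = 0 := by rw [← h1]; ring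
  have h3 := (mul_eq_zero.1 h2).resolve_left (Tdet hT hX).ne_zero
  exact (sub_eq_zero.1 h3).symm

end Pool.Agent.Y123.GN
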