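import Pool.Agent.Y123.ST.Jor2

/-!
# Jordan's theorem for a semigroup of linear maps and a vector with a finite orbit
-/

set_option autoImplicit false
set_option linter.unusedSectionVars false

open Module

namespace Pool.Agent.Y123.GN

/-- some uniform powers commute on the vectors with finite orbits -/
theorem jordan_orbit (Q : ℕ) : ∃ J : ℕ, 1 ≤ J ∧ ∀ (V : Type) [AddCommGroup V] [Module ℂ V] [FiniteDimensional ℂ V],
    finrank ℂ V ≤ Q → ∀ S : Set (End ℂ V), 1 ∈ S → (∀ a ∈ S, ∀ b ∈ S, a * b ∈ S) →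
    (∀ a ∈ S, ∃ b ∈ S, a * b = 1) → ∀ v : V, {w | ∃ a ∈ S, w = a v}.Finite → ∀ a ∈ S, ∀ b ∈ S,
    (a ^ J * b ^ J) v = (b ^ J * a ^ J) v := by
  classical
  choose Jf hJf using fun n => Pool.Agent.Y123.ST.Jor.jordan n
  set J₀ := ∑ n ∈ Finset.range (Q + 1), Jf n with hJ₀
  refine ⟨J₀.factorial, Nat.factorial_pos _, ?_⟩
  intro V _ _ _ hV S h1 hmul hinv v hfin a ha b hb
  set O : Set V := {w | ∃ a ∈ S, w = a v} with hO
  set E : Submodule ℂ V := Submodule.span ℂ O with hE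
  have hstab : ∀ a ∈ S, ∀ x ∈ E, a x ∈ E := by
    intro a ha x hx
    induction hx using Submodule.span_induction with
    | mem x hx =>
      obtain ⟨b, hb, rfl⟩ := hx
      exact Submodule.subset_span ⟨a * b, hmul a ha b hb, rfl⟩
    | zero => rw [map_zero]; exact E.zero_mem
    | add x y _ _ hx hy => rw [map_add]; exact E.add_mem hx hy
    | smul z x _ hx => rw [map_smul]; exact E.smul_mem z hx
  have hvE : v ∈ E := Submodule.subset_span ⟨1, h1, rfl⟩
  set q := finrank ℂ E with hq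
  have hqQ : q ≤ Q := (Submodule.finrank_le E).trans hV
  let bs : Basis (Fin q) ℂ E := finBasis ℂ E
  let τ : (E →ₗ[ℂ] E) ≃ₐ[ℂ] Matrix (Fin q) (Fin q) ℂ := LinearMap.toMatrixAlgEquiv bs
  let G : Set (Matrix (Fin q) (Fin q) ℂ) := {A | ∃ (a : End ℂ V) (ha : a ∈ S), A = τ (a.restrict (hstab a ha))}
  have hrm : ∀ (a : End ℂ V) (ha : a ∈ S) (b : End ℂ V) (hb : b ∈ S),
      (a.restrict (hstab a ha)) * (b.restrict (hstab b hb)) =
        ((a * b).restrict (hstab (a * b) (hmul a ha b hb)) : E →ₗ[ℂ] E) := by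
    intro a ha b hb
    ext x
    rfl
  have hr1 : ((1 : End ℂ V).restrict (hstab 1 h1) : E →ₗ[ℂ] E) = 1 := by
    ext x
    rfl
  have hGfin : G.Finite := by
    have hfin2 : {r : E →ₗ[ℂ] E | ∃ (a : End ℂ V) (ha : a ∈ S), r = a.restrict (hstab a ha)}.Finite := by
      -- the restriction to the orbit
      have hOf : Finite O := hfin
      have hf : Finite (O → O) := inferInstance
      let rs : (E →ₗ[ℂ] E) → (O → V) := fun r x => (r ⟨x.1, Submodule.subset_span x.2⟩ : V)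
      refine Set.Finite.of_finite_image (f := rs) ?_ ?_
      · refine (Set.finite_range fun g : O → O => fun x => ((g x : O) : V)).subset ?_
        rintro _ ⟨r, ⟨a, ha, rfl⟩, rfl⟩
        have hx : ∀ x : O, a x.1 ∈ O := by
          rintro ⟨x, b, hb, rfl⟩
          exact ⟨a * b, hmul a ha b hb, rfl⟩
        exact ⟨fun x => ⟨a x.1, hx x⟩, rfl⟩
      · rintro r ⟨a, ha, rfl⟩ r' ⟨b, hb, rfl⟩ hrr
        have h2 : ∀ x ∈ E, a x = b x := by
          intro x hx
          induction hx using Submodule.span_induction with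
          | mem x hx => exact congrFun hrr ⟨x, hx⟩
          | zero => rw [map_zero, map_zero]
          | add x y _ _ hx hy => rw [map_add, map_add, hx, hy]
          | smul z x _ hx => rw [map_smul, map_smul, hx]
        ext x
        exact h2 x.1 x.2
    refine (hfin2.image τ).subset ?_
    rintro A ⟨a, ha, rfl⟩
    exact ⟨_, ⟨a, ha, rfl⟩, rfl⟩
  have hG1 : (1 : Matrix (Fin q) (Fin q) ℂ) ∈ G := ⟨1, h1, by rw [hr1, map_one]⟩
  have hGmul : ∀ x ∈ G, ∀ y ∈ G, x * y ∈ G := by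
    rintro _ ⟨a, ha, rfl⟩ _ ⟨b, hb, rfl⟩
    exact ⟨a * b, hmul a ha b hb, by rw [← map_mul, hrm a ha b hb]⟩
  have hGinv0 : ∀ x ∈ G, ∃ y ∈ G, x * y = 1 := by
    rintro _ ⟨a, ha, rfl⟩
    obtain ⟨b, hb, hab⟩ := hinv a ha
    refine ⟨_, ⟨b, hb, rfl⟩, ?_⟩
    have h2 : (a.restrict (hstab a ha)) * (b.restrict (hstab b hb)) = (1 : E →ₗ[ℂ] E) := by
      rw [hrm a ha b hb]
      ext x
      show (a * b) x.1 = x.1
      rw [hab]
      rfl
    rw [← map_mul, h2, map_one]
  have hGdet : ∀ x ∈ G, IsUnit x.det := by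
    intro x hx
    obtain ⟨y, -, hxy⟩ := hGinv0 x hx
    exact (Matrix.isUnit_iff_isUnit_det x).1 (IsUnit.of_mul_eq_one y hxy)
  have hGinv : ∀ x ∈ G, x⁻¹ ∈ G := by
    intro x hx
    obtain ⟨y, hy, hxy⟩ := hGinv0 x hx
    rw [Matrix.inv_eq_right_inv hxy]
    exact hy
  obtain ⟨k, l, hk, hl, hkl⟩ := hJf q G hGfin hG1 hGmul hGdet hGinv _ ⟨a, ha, rfl⟩ _ ⟨b, hb, rfl⟩
  have hle : Jf q ≤ J₀ := Finset.single_le_sum (f := Jf) (fun _ _ => Nat.zero_le _)
    (Finset.mem_range.2 (Nat.lt_succ_of_le hqQ))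
  obtain ⟨k', hk'⟩ : k ∣ J₀.factorial := Nat.dvd_factorial (by omega) (by omega)
  obtain ⟨l', hl'⟩ : l ∣ J₀.factorial := Nat.dvd_factorial (by omega) (by omega)
  have hcomm : Commute ((a.restrict (hstab a ha)) ^ k) ((b.restrict (hstab b hb)) ^ l : E →ₗ[ℂ] E) := by
    apply τ.injective
    rw [map_mul, map_mul, map_pow, map_pow]
    exact hkl
  have hcomm2 : Commute ((a.restrict (hstab a ha)) ^ J₀.factorial)
      ((b.restrict (hstab b hb)) ^ J₀.factorial : E →ₗ[ℂ] E) := by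
    rw [hk']
    conv => rhs; rw [← hk', hl']
    rw [pow_mul, pow_mul]
    exact hcomm.pow_pow _ _
  have hp : ∀ (a : End ℂ V) (ha : a ∈ S) (m : ℕ) (x : E), (((a.restrict (hstab a ha) : E →ₗ[ℂ] E) ^ m) x : V) =
      (a ^ m) x.1 := by
    intro a ha m
    induction m with
    | zero => intro x; rfl
    | succ m ih =>
      intro x
      rw [pow_succ, pow_succ]
      exact ih _
  have h3 := congrArg (fun r : E →ₗ[ℂ] E => ((r ⟨v, hvE⟩ : E) : V)) hcomm2
  simp only [Module.End.mul_apply] at h3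
  rw [hp a ha, hp b hb, hp b hb, hp a ha] at h3
  exact h3

end Pool.Agent.Y123.GN
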