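import Pool.Agent.Y123.GN.A3
import Pool.Agent.Y123.GN.A4

/-!
# The abstract criterion: a subtorsor with a point whose relations of bounded degree are stable under a perfect set of
# nilpotent matrices is stable under their exponentials
-/

set_option autoImplicit false
set_option linter.unusedSectionVars false

open Matrix Module

namespace Pool.Agent.Y123.GN

open Pool.Agent.TH127.PT Pool.Agent.Y123.ST Pool.Agent.TH119.DR

variable {M : Type} [Fintype M] [DecidableEq M] {K : Subfield ℂ} {T : Set (Matrix M M ℂ)}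

theorem Rl.mono {d e : ℕ} (h : d ≤ e) {c x : Matrix M M ℂ} (hr : Rl K e c x) : Rl K d c x :=
  fun P h1 h2 h3 => hr P h1 (h2.trans h) h3

/-- the quotient by the Lie algebra -/
abbrev QL (T : Set (Matrix M M ℂ)) : Type := (M × M → ℂ) ⧸ LL T

/-- the class of a matrix -/
def qc (T : Set (Matrix M M ℂ)) (y : Matrix M M ℂ) : QL T := Submodule.Quotient.mk (fl y)

theorem qc_eq {y z : Matrix M M ℂ} : qc T y = qc T z ↔ fl (y - z) ∈ LL T := by
  unfold qc
  rw [Submodule.Quotient.eq]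
  rfl

/-- the adjoint action of the quotients of points modulo the Lie algebra -/
def SS (T : Set (Matrix M M ℂ)) (c : Matrix M M ℂ) : Set (End ℂ (QL T)) :=
  {a | ∃ X ∈ T, ∀ y, a (qc T y) = qc T ((X * c⁻¹) * y * (c * X⁻¹))}

theorem SS_exists (hT : IsSubtorsor K T) {c X : Matrix M M ℂ} (hc : c ∈ T) (hX : X ∈ T) :
    ∃ a ∈ SS T c, ∀ y, a (qc T y) = qc T ((X * c⁻¹) * y * (c * X⁻¹)) := by
  let f : (M × M → ℂ) →ₗ[ℂ] (M × M → ℂ) := ml (X * c⁻¹) ∘ₗ mr (c * X⁻¹)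
  have hf : ∀ y : Matrix M M ℂ, f (fl y) = fl ((X * c⁻¹) * y * (c * X⁻¹)) := by
    intro y
    show fl ((X * c⁻¹) * (y * (c * X⁻¹))) = _
    rw [Matrix.mul_assoc (X * c⁻¹)]
  have hle : LL T ≤ (LL T).comap f := by
    intro v hv
    rw [Submodule.mem_comap]
    have h1 := hf (um v)
    rw [fl_um] at h1
    rw [h1]
    have h2 := quot_LL hT hc hX (w := um v) (by rw [fl_um]; exact hv)
    have h3 : X * (c⁻¹ * um v * c) * X⁻¹ = (X * c⁻¹) * um v * (c * X⁻¹) := by simp only [Matrix.mul_assoc]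
    rw [h3] at h2
    exact h2
  have h4 : ∀ y, Submodule.mapQ (LL T) (LL T) f hle (qc T y) = qc T ((X * c⁻¹) * y * (c * X⁻¹)) := by
    intro y
    unfold qc
    rw [Submodule.mapQ_apply, hf]
  exact ⟨_, ⟨X, hX, h4⟩, h4⟩

theorem qc_surj (v : QL T) : ∃ y, v = qc T y := by
  obtain ⟨w, rfl⟩ := Submodule.Quotient.mk_surjective (LL T) v
  exact ⟨um w, by unfold qc; rw [fl_um]⟩

theorem end_ext {a b : End ℂ (QL T)} (h : ∀ y, a (qc T y) = b (qc T y)) : a = b := by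
  refine LinearMap.ext fun v => ?_
  obtain ⟨y, rfl⟩ := qc_surj v
  exact h y

theorem SS_one (hT : IsSubtorsor K T) {c : Matrix M M ℂ} (hc : c ∈ T) : (1 : End ℂ (QL T)) ∈ SS T c := by
  refine ⟨c, hc, fun y => ?_⟩
  rw [mul_inv' hT hc, Matrix.one_mul, Matrix.mul_one]
  rfl

theorem SS_mul (hT : IsSubtorsor K T) {c : Matrix M M ℂ} (hc : c ∈ T) : ∀ a ∈ SS T c, ∀ b ∈ SS T c, a * b ∈ SS T c := by
  rintro a ⟨X, hX, ha⟩ b ⟨Y, hY, hb⟩
  refine ⟨X * c⁻¹ * Y, hT.torsor X hX c hc Y hY, fun y => ?_⟩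
  show a (b (qc T y)) = _
  rw [hb, ha]
  congr 1
  have h1 : (X * c⁻¹ * Y)⁻¹ = Y⁻¹ * c * X⁻¹ := by
    rw [Matrix.mul_inv_rev, Matrix.mul_inv_rev, Matrix.nonsing_inv_nonsing_inv _ (Tdet hT hc), Matrix.mul_assoc]
  rw [h1]
  simp only [Matrix.mul_assoc]

theorem SS_inv (hT : IsSubtorsor K T) {c : Matrix M M ℂ} (hc : c ∈ T) : ∀ a ∈ SS T c, ∃ b ∈ SS T c, a * b = 1 := by
  rintro a ⟨X, hX, ha⟩
  obtain ⟨b, hb, hb2⟩ := SS_exists hT hc (hT.torsor c hc X hX c hc)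
  refine ⟨b, hb, end_ext fun y => ?_⟩
  show a (b (qc T y)) = qc T y
  rw [hb2, ha]
  congr 1
  have h1 : (c * X⁻¹ * c)⁻¹ = c⁻¹ * X * c⁻¹ := by
    rw [Matrix.mul_inv_rev, Matrix.mul_inv_rev, Matrix.nonsing_inv_nonsing_inv _ (Tdet hT hX), Matrix.mul_assoc]
  rw [h1]
  have e1 := mul_inv' hT hc
  have e2 := inv_mul' hT hc
  have e3 := mul_inv' hT hX
  have e4 := inv_mul' hT hX
  calc X * c⁻¹ * (c * X⁻¹ * c * c⁻¹ * y * (c * (c⁻¹ * X * c⁻¹))) * (c * X⁻¹) =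
      X * (c⁻¹ * c) * X⁻¹ * (c * c⁻¹) * y * (c * c⁻¹) * X * (c⁻¹ * c) * X⁻¹ := by simp only [Matrix.mul_assoc]
    _ = (X * X⁻¹) * y * (X * X⁻¹) := by
      rw [e2, e1, Matrix.mul_one, Matrix.mul_one, Matrix.mul_one, Matrix.mul_one]
      simp only [Matrix.mul_assoc]
    _ = y := by rw [e3, Matrix.one_mul, Matrix.mul_one]

theorem SS_pow {c X : Matrix M M ℂ} {a : End ℂ (QL T)}
    (ha : ∀ y, a (qc T y) = qc T ((X * c⁻¹) * y * (c * X⁻¹))) (J : ℕ) :
    ∀ y, (a ^ J) (qc T y) = qc T ((X * c⁻¹) ^ J * y * (c * X⁻¹) ^ J) := by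
  induction J with
  | zero =>
    intro y
    rw [pow_zero, pow_zero, pow_zero, Matrix.one_mul, Matrix.mul_one]
    rfl
  | succ J ih =>
    intro y
    rw [pow_succ, Module.End.mul_apply, ha, ih]
    congr 1
    rw [pow_succ, pow_succ' (c * X⁻¹)]
    simp only [Matrix.mul_assoc]

/-- **the commutation relation on the subtorsor** -/
theorem comm_rel (Q : ℕ) : ∃ J : ℕ, 1 ≤ J ∧ ∀ (M : Type) [Fintype M] [DecidableEq M], Fintype.card M * Fintype.card M ≤ Q →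
    ∀ (K : Subfield ℂ), (K : Set ℂ).Countable → ∀ (T : Set (Matrix M M ℂ)) (c s : Matrix M M ℂ), IsSubtorsor K T → c ∈ T →
    (∀ w, fl w ∈ LL T → fl (w * s - s * w) ∈ LL T) → ∀ X ∈ T, ∀ Y ∈ T,
      fl ((X * c⁻¹) ^ J * ((Y * c⁻¹) ^ J * s * (c * Y⁻¹) ^ J) * (c * X⁻¹) ^ J -
        (Y * c⁻¹) ^ J * ((X * c⁻¹) ^ J * s * (c * X⁻¹) ^ J) * (c * Y⁻¹) ^ J) ∈ LL T := by
  classical
  obtain ⟨J, hJ1, hJ⟩ := jordan_orbit Q
  refine ⟨J, hJ1, ?_⟩
  intro M _ _ hM K hK T c s hT hc hs X hX Y hY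
  have hrank : finrank ℂ (QL T) ≤ Q := by
    refine (Submodule.finrank_quotient_le (LL T)).trans ?_
    rw [finrank_fintype_fun_eq_card, Fintype.card_prod]
    exact hM
  obtain ⟨a, haS, ha⟩ := SS_exists hT hc hX
  obtain ⟨b, hbS, hb⟩ := SS_exists hT hc hY
  have hfin : {w : QL T | ∃ a ∈ SS T c, w = a (qc T s)}.Finite := by
    let bs : Basis (Fin (finrank ℂ (QL T))) ℂ (QL T) := finBasis ℂ (QL T)
    have h1 : ∀ i, {z | ∃ X ∈ T, z = ((bs.coord i) ∘ₗ (LL T).mkQ) (fl (X * (c⁻¹ * s * c) * X⁻¹))}.Finite := by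
      intro i
      refine value_fin hK hT hc hs _ fun v hv => ?_
      rw [LinearMap.comp_apply, Submodule.mkQ_apply, (Submodule.Quotient.mk_eq_zero _).2 hv, map_zero]
    refine Set.Finite.of_finite_image (f := bs.equivFun) ?_ (bs.equivFun.injective.injOn)
    refine (Set.Finite.pi' h1).subset ?_
    rintro _ ⟨w, ⟨a, ⟨X, hX, ha⟩, rfl⟩, rfl⟩ i
    refine ⟨X, hX, ?_⟩
    rw [ha, LinearMap.comp_apply, Submodule.mkQ_apply, Basis.equivFun_apply, Basis.coord_apply]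
    have h3 : X * c⁻¹ * s * (c * X⁻¹) = X * (c⁻¹ * s * c) * X⁻¹ := by simp only [Matrix.mul_assoc]
    rw [h3]
    rfl
  have h2 := hJ (QL T) hrank (SS T c) (SS_one hT hc) (SS_mul hT hc) (SS_inv hT hc) (qc T s) hfin a haS b hbS
  rw [Module.End.mul_apply, Module.End.mul_apply, SS_pow hb, SS_pow ha, SS_pow ha, SS_pow hb] at h2
  exact qc_eq.1 h2

theorem cmul_adj_pow (hT : IsSubtorsor K T) {c X : Matrix M M ℂ} (hX : IsUnit X.det) (J : ℕ) :
    (c * X.adjugate) ^ J = X.det ^ J • (c * X⁻¹) ^ J := by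
  rw [adj_eq hX, Matrix.mul_smul, smul_pow]

theorem pm_left {c : Matrix M M ℂ} (J : ℕ) : PM (J * 1) (fun X : Matrix M M ℂ => (X * c⁻¹) ^ J) := by
  have h1 := (PM.id (M := M)).mul (PM.const c⁻¹)
  exact h1.pow J

theorem pm_right {c : Matrix M M ℂ} (J : ℕ) :
    PM (J * Fintype.card M) (fun X : Matrix M M ℂ => (c * X.adjugate) ^ J) := by
  have h1 := (PM.const c).mul (PM.adj (M := M))
  rw [zero_add] at h1
  exact h1.pow J

/-- the left and right multiplications -/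
theorem pm_all {c : Matrix M M ℂ} (J : ℕ) (A P R S : Matrix M M ℂ) :
    PM (J * 1 + J * Fintype.card M) (fun X : Matrix M M ℂ =>
      (X * c⁻¹) ^ J * A * (c * X.adjugate) ^ J - P * ((X * c⁻¹) ^ J * S * (c * X.adjugate) ^ J) * R) := by
  refine PM.sub ?_ ?_
  · have h1 := ((pm_left (c := c) J).mul (PM.const A)).mul (pm_right (c := c) J)
    exact h1.mono (by omega)
  · have h1 := ((pm_left (c := c) J).mul (PM.const S)).mul (pm_right (c := c) J)
    have h2 := ((PM.const P).mul h1).mul (PM.const R)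
    exact h2.mono (by omega)

/-- one step of the transfer -/
theorem step (hT : IsSubtorsor K T) {c g A P R S : Matrix M M ℂ} {J : ℕ} (hc : c ∈ T) (hg : IsUnit g.det)
    (hr : Rl K (J * 1 + J * Fintype.card M) c (g * c))
    (h : ∀ X ∈ T, fl ((X * c⁻¹) ^ J * A * (c * X⁻¹) ^ J - P * ((X * c⁻¹) ^ J * S * (c * X⁻¹) ^ J) * R) ∈ LL T) :
    fl (g ^ J * A * g⁻¹ ^ J - P * (g ^ J * S * g⁻¹ ^ J) * R) ∈ LL T := by
  by_contra hcon
  obtain ⟨φ, hφ1, hφ2⟩ := Submodule.exists_le_ker_of_notMem hcon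
  apply hφ1
  have hcd := Tdet hT hc
  have hgc : IsUnit (g * c).det := by rw [det_mul]; exact hg.mul hcd
  have e0 : ∀ X : Matrix M M ℂ, IsUnit X.det →
      (X * c⁻¹) ^ J * A * (c * X.adjugate) ^ J - P * ((X * c⁻¹) ^ J * S * (c * X.adjugate) ^ J) * R =
      X.det ^ J • ((X * c⁻¹) ^ J * A * (c * X⁻¹) ^ J - P * ((X * c⁻¹) ^ J * S * (c * X⁻¹) ^ J) * R) := by
    intro X hX
    rw [cmul_adj_pow hT hX, smul_sub]
    simp only [Matrix.mul_smul, Matrix.smul_mul]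
  have h1 := transferT hT hc hr ((pm_all (c := c) J A P R S).func φ) (by
    intro X hX
    have h2 : φ (fl ((X * c⁻¹) ^ J * A * (c * X.adjugate) ^ J -
      P * ((X * c⁻¹) ^ J * S * (c * X.adjugate) ^ J) * R)) = 0 := by
      rw [e0 X (Tdet hT hX), fl_smul, map_smul]
      have := hφ2 (h X hX)
      rw [LinearMap.mem_ker] at this
      rw [this, smul_zero]
    exact h2)
  rw [e0 (g * c) hgc, fl_smul, map_smul, smul_eq_mul] at h1
  have h3 := (mul_eq_zero.1 h1).resolve_left (pow_ne_zero _ hgc.ne_zero)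
  have h4 : g * c * c⁻¹ = g := by rw [Matrix.mul_assoc, mul_inv' hT hc, Matrix.mul_one]
  have h5 : c * (g * c)⁻¹ = g⁻¹ := by
    rw [Matrix.mul_inv_rev, ← Matrix.mul_assoc, mul_inv' hT hc, Matrix.one_mul]
  rw [h4, h5] at h3
  exact h3

/-- **the commutation relation after the transfer** -/
theorem comm_trans (hT : IsSubtorsor K T) {c s g g' : Matrix M M ℂ} {J : ℕ} (hc : c ∈ T)
    (hg : IsUnit g.det) (hg' : IsUnit g'.det)
    (hr : Rl K (J * 1 + J * Fintype.card M) c (g * c)) (hr' : Rl K (J * 1 + J * Fintype.card M) c (g' * c))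
    (h : ∀ X ∈ T, ∀ Y ∈ T,
      fl ((X * c⁻¹) ^ J * ((Y * c⁻¹) ^ J * s * (c * Y⁻¹) ^ J) * (c * X⁻¹) ^ J -
        (Y * c⁻¹) ^ J * ((X * c⁻¹) ^ J * s * (c * X⁻¹) ^ J) * (c * Y⁻¹) ^ J) ∈ LL T) :
    fl (g ^ J * (g' ^ J * s * g'⁻¹ ^ J) * g⁻¹ ^ J - g' ^ J * (g ^ J * s * g⁻¹ ^ J) * g'⁻¹ ^ J) ∈ LL T := by
  have h1 : ∀ Y ∈ T, fl (g ^ J * ((Y * c⁻¹) ^ J * s * (c * Y⁻¹) ^ J) * g⁻¹ ^ J -
      (Y * c⁻¹) ^ J * (g ^ J * s * g⁻¹ ^ J) * (c * Y⁻¹) ^ J) ∈ LL T := by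
    intro Y hY
    exact step hT hc hg hr fun X hX => h X hX Y hY
  have h2 : ∀ Y ∈ T, fl ((Y * c⁻¹) ^ J * (g ^ J * s * g⁻¹ ^ J) * (c * Y⁻¹) ^ J -
      g ^ J * ((Y * c⁻¹) ^ J * s * (c * Y⁻¹) ^ J) * g⁻¹ ^ J) ∈ LL T := by
    intro Y hY
    have h3 := Submodule.neg_mem _ (h1 Y hY)
    have h4 : -fl (g ^ J * ((Y * c⁻¹) ^ J * s * (c * Y⁻¹) ^ J) * g⁻¹ ^ J -
      (Y * c⁻¹) ^ J * (g ^ J * s * g⁻¹ ^ J) * (c * Y⁻¹) ^ J) = fl ((Y * c⁻¹) ^ J * (g ^ J * s * g⁻¹ ^ J) * (c * Y⁻¹) ^ J -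
      g ^ J * ((Y * c⁻¹) ^ J * s * (c * Y⁻¹) ^ J) * g⁻¹ ^ J) := by
      funext b
      show -((_ - _ : Matrix M M ℂ) b.1 b.2) = (_ - _ : Matrix M M ℂ) b.1 b.2
      rw [Matrix.sub_apply, Matrix.sub_apply, neg_sub]
    rwa [h4] at h3
  have h5 := step hT hc hg' hr' h2
  have h6 := Submodule.neg_mem _ h5
  have h7 : -fl (g' ^ J * (g ^ J * s * g⁻¹ ^ J) * g'⁻¹ ^ J - g ^ J * (g' ^ J * s * g'⁻¹ ^ J) * g⁻¹ ^ J) =
      fl (g ^ J * (g' ^ J * s * g'⁻¹ ^ J) * g⁻¹ ^ J - g' ^ J * (g ^ J * s * g⁻¹ ^ J) * g'⁻¹ ^ J) := by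
    funext b
    show -((_ - _ : Matrix M M ℂ) b.1 b.2) = (_ - _ : Matrix M M ℂ) b.1 b.2
    rw [Matrix.sub_apply, Matrix.sub_apply, neg_sub]
  rwa [h7] at h6

theorem exp_inv_eq {N : Matrix M M ℂ} (hN : IsNilpotent N) (t : ℂ) :
    (IsNilpotent.exp (t • N))⁻¹ = IsNilpotent.exp ((-t) • N) :=
  Matrix.inv_eq_right_inv (exp_inv hN t)

theorem exp_det {N : Matrix M M ℂ} (hN : IsNilpotent N) (t : ℂ) : IsUnit (IsNilpotent.exp (t • N)).det :=
  (Matrix.isUnit_iff_isUnit_det _).1 (IsNilpotent.isUnit_exp (hN.smul t))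

/-- **The abstract criterion.** -/
theorem abs_main (m : ℕ) : ∃ d : ℕ, ∀ (M : Type) [Fintype M] [DecidableEq M], Fintype.card M ≤ m → ∀ (K : Subfield ℂ),
    (K : Set ℂ).Countable → ∀ (T : Set (Matrix M M ℂ)) (c : Matrix M M ℂ), IsSubtorsor K T → c ∈ T →
    ∀ 𝒩 : Set (Matrix M M ℂ), (∀ N ∈ 𝒩, IsNilpotent N) →
    (∀ N ∈ 𝒩, ∀ t : ℂ, Rl K d c (IsNilpotent.exp (t • N) * c)) →
    (∀ N ∈ 𝒩, N ∈ Submodule.span ℂ {C : Matrix M M ℂ | ∃ A ∈ 𝒩, ∃ B ∈ 𝒩, C = A * B - B * A}) →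
    ∀ N ∈ 𝒩, fl N ∈ LL T := by
  classical
  obtain ⟨J, hJ1, hJ⟩ := comm_rel (m * m)
  refine ⟨J * 1 + J * m, ?_⟩
  intro M _ _ hM K hK T c hT hc 𝒩 hnil hrel hperf
  have hJ0 : (J : ℂ) ≠ 0 := by
    have : J ≠ 0 := by omega
    exact_mod_cast this
  have hdeg : J * 1 + J * Fintype.card M ≤ J * 1 + J * m := Nat.add_le_add_left (Nat.mul_le_mul_left _ hM) _
  have hdeg1 : 1 + Fintype.card M ≤ J * 1 + J * m := by
    have h1 : 1 * Fintype.card M ≤ J * m := Nat.mul_le_mul hJ1 hM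
    omega
  -- the Lie algebra is stable under the brackets
  have hbr : ∀ s ∈ 𝒩, ∀ w, fl w ∈ LL T → fl (w * s - s * w) ∈ LL T := by
    intro s hs w hw
    have h1 : ∀ t : ℂ, fl (IsNilpotent.exp ((-t) • s) * w * IsNilpotent.exp (t • s)) ∈ LL T := by
      intro t
      have h2 := normal hT hc (exp_det (hnil s hs) (-t)) ((hrel s hs (-t)).mono hdeg1) hw
      rw [exp_inv_eq (hnil s hs), neg_neg] at h2
      exact h2
    have h3 := ((PD.exp_neg (hnil s hs)).mul (PD.const w)).mul (PD.exp (hnil s hs))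
    have h4 := h3.mem (LL T) h1
    have h5 : (-s * w + 1 * 0) * 1 + 1 * w * s = w * s - s * w := by noncomm_ring
    rw [h5] at h4
    exact h4
  -- the double commutators
  have key : ∀ A ∈ 𝒩, ∀ B ∈ 𝒩, ∀ s ∈ 𝒩, fl ((A * B - B * A) * s - s * (A * B - B * A)) ∈ LL T := by
    intro A hA B hB s hs
    have h1 : ∀ t u : ℂ, fl (IsNilpotent.exp (t • A) * (IsNilpotent.exp (u • B) * s * IsNilpotent.exp ((-u) • B)) *
        IsNilpotent.exp ((-t) • A) - IsNilpotent.exp (u • B) * (IsNilpotent.exp (t • A) * s *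
        IsNilpotent.exp ((-t) • A)) * IsNilpotent.exp ((-u) • B)) ∈ LL T := by
      intro t u
      have h2 := comm_trans hT hc (exp_det (hnil A hA) (t / J)) (exp_det (hnil B hB) (u / J))
        ((hrel A hA (t / J)).mono hdeg) ((hrel B hB (u / J)).mono hdeg)
        (fun X hX Y hY => hJ M (Nat.mul_le_mul hM hM) K hK T c s hT hc (hbr s hs) X hX Y hY)
      rw [exp_inv_eq (hnil A hA), exp_inv_eq (hnil B hB), exp_pow (hnil A hA), exp_pow (hnil B hB),
        exp_pow (hnil A hA), exp_pow (hnil B hB)] at h2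
      have e1 : (J : ℂ) * (t / J) = t := by field_simp
      have e2 : (J : ℂ) * (u / J) = u := by field_simp
      have e3 : (J : ℂ) * (-(t / J)) = -t := by field_simp
      have e4 : (J : ℂ) * (-(u / J)) = -u := by field_simp
      rw [e1, e2, e3, e4] at h2
      exact h2
    -- the derivative in `t`
    have h2 : ∀ u : ℂ, fl (A * (IsNilpotent.exp (u • B) * s * IsNilpotent.exp ((-u) • B)) -
        (IsNilpotent.exp (u • B) * s * IsNilpotent.exp ((-u) • B)) * A -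
        IsNilpotent.exp (u • B) * (A * s - s * A) * IsNilpotent.exp ((-u) • B)) ∈ LL T := by
      intro u
      set E := IsNilpotent.exp (u • B) with hE
      set E' := IsNilpotent.exp ((-u) • B) with hE'
      have h3 := (((PD.exp (hnil A hA)).mul (PD.const (E * s * E'))).mul (PD.exp_neg (hnil A hA))).sub
        (((PD.const E).mul (((PD.exp (hnil A hA)).mul (PD.const s)).mul (PD.exp_neg (hnil A hA)))).mul (PD.const E'))
      have h4 := h3.mem (LL T) (fun t => h1 t u)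
      have h5 : ((A * (E * s * E') + 1 * 0) * 1 + 1 * (E * s * E') * -A -
          ((0 * (1 * s * 1) + E * ((A * s + 1 * 0) * 1 + 1 * s * -A)) * E' + E * (1 * s * 1) * 0)) =
          A * (E * s * E') - (E * s * E') * A - E * (A * s - s * A) * E' := by noncomm_ring
      rw [h5] at h4
      exact h4
    -- the derivative in `u`
    have h6 := ((PD.exp (hnil B hB)).mul (PD.const s)).mul (PD.exp_neg (hnil B hB))
    have h7 := (((PD.const A).mul h6).sub (h6.mul (PD.const A))).sub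
      (((PD.exp (hnil B hB)).mul (PD.const (A * s - s * A))).mul (PD.exp_neg (hnil B hB)))
    have h8 := h7.mem (LL T) h2
    have h9 : (0 * (1 * s * 1) + A * ((B * s + 1 * 0) * 1 + 1 * s * -B) -
        (((B * s + 1 * 0) * 1 + 1 * s * -B) * A + 1 * s * 1 * 0) -
        ((B * (A * s - s * A) + 1 * 0) * 1 + 1 * (A * s - s * A) * -B)) =
        (A * B - B * A) * s - s * (A * B - B * A) := by noncomm_ring
    rw [h9] at h8
    exact h8
  -- the commutators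
  have key2 : ∀ A ∈ 𝒩, ∀ B ∈ 𝒩, fl (A * B - B * A) ∈ LL T := by
    intro A hA B hB
    have h1 : ∀ A' ∈ Submodule.span ℂ {C : Matrix M M ℂ | ∃ A ∈ 𝒩, ∃ B ∈ 𝒩, C = A * B - B * A},
        fl (A' * B - B * A') ∈ LL T := by
      intro A' hA'
      induction hA' using Submodule.span_induction with
      | mem x hx =>
        obtain ⟨C, hC, D, hD, rfl⟩ := hx
        exact key C hC D hD B hB
      | zero =>
        rw [Matrix.zero_mul, Matrix.mul_zero, sub_zero, fl_zero]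
        exact (LL T).zero_mem
      | add x y _ _ hx hy =>
        have h2 : (x + y) * B - B * (x + y) = (x * B - B * x) + (y * B - B * y) := by noncomm_ring
        rw [h2, fl_add]
        exact (LL T).add_mem hx hy
      | smul z x _ hx =>
        have h2 : (z • x) * B - B * (z • x) = z • (x * B - B * x) := by
          rw [Matrix.smul_mul, Matrix.mul_smul, smul_sub]
        rw [h2, fl_smul]
        exact (LL T).smul_mem z hx
    exact h1 A (hperf A hA)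
  intro N hN
  have h1 : ∀ A' ∈ Submodule.span ℂ {C : Matrix M M ℂ | ∃ A ∈ 𝒩, ∃ B ∈ 𝒩, C = A * B - B * A}, fl A' ∈ LL T := by
    intro A' hA'
    induction hA' using Submodule.span_induction with
    | mem x hx =>
      obtain ⟨C, hC, D, hD, rfl⟩ := hx
      exact key2 C hC D hD
    | zero =>
      rw [fl_zero]
      exact (LL T).zero_mem
    | add x y _ _ hx hy =>
      rw [fl_add]
      exact (LL T).add_mem hx hy
    | smul z x _ hx =>
      rw [fl_smul]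
      exact (LL T).smul_mem z hx
  exact h1 N (hperf N hN)

end Pool.Agent.Y123.GN
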