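import Pool.Agent.Y123.GN.A5
import Pool.Agent.Y123.SR.R1
import Pool.Agent.Y113.GG.Conv

/-!
# From relations with coefficients in a space of bounded dimension to relations of a sum with a fixed object
-/

set_option autoImplicit false
set_option linter.unusedSectionVars false

open Matrix

namespace Pool.Agent.Y123.GN

open Pool.Agent.TH127.PT Pool.Agent.Y123.ST Pool.Agent.Y123.SR Pool.Agent.Y113 Pool.Agent.Y113.GG

/-- a space which contains `K` and given numbers -/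
theorem exists_W' (K : Subfield ℂ) [FiniteDimensional ℚ K] {ι : Type} [Fintype ι] (x : ι → ℂ) :
    ∃ W : Submodule ℚ ℂ, Module.Finite ℚ W ∧ Module.finrank ℚ W ≤ Module.finrank ℚ K + Fintype.card ι + 1 ∧
      (∀ a ∈ K, a ∈ W) ∧ ∀ i, x i ∈ W := by
  set kb := Module.finBasis ℚ K with hkb
  set y : Fin (Module.finrank ℚ K) ⊕ ι → ℂ := Sum.elim (fun i => (kb i : ℂ)) x with hy
  obtain ⟨h1, h2⟩ := sp_fin y
  refine ⟨sp y, h1, ?_, fun a ha => ?_, fun i => sp_mem y (Sum.inr i)⟩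
  · refine h2.trans (le_of_eq ?_)
    rw [Fintype.card_sum, Fintype.card_fin]
  · have h3 := kb.sum_repr ⟨a, ha⟩
    have h4 := congrArg (fun z : K => (z : ℂ)) h3
    simp only at h4
    rw [← h4]
    have h5 : ((∑ i, (kb.repr ⟨a, ha⟩) i • kb i : K) : ℂ) = ∑ i, (kb.repr ⟨a, ha⟩) i • (kb i : ℂ) := by
      push_cast
      refine Finset.sum_congr rfl fun i _ => ?_
      rw [Algebra.smul_def]
    rw [h5]
    exact Submodule.sum_mem _ fun i _ => Submodule.smul_mem _ _ (sp_mem y (Sum.inl i))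

/-- relations of degree `≤ d` with coefficients in `V` at `y` hold at `y'` -/
def Vr {σ : Type} (V : Submodule ℚ ℂ) (d : ℕ) (y y' : σ → ℂ) : Prop :=
  ∀ P : MvPolynomial σ ℂ, P.totalDegree ≤ d → (∀ s, P.coeff s ∈ V) → MvPolynomial.aeval y P = 0 →
    MvPolynomial.aeval y' P = 0

theorem aeval_comp {B σ : Type} (Φ : B → MvPolynomial σ ℂ) (P : MvPolynomial B ℂ) (z : σ → ℂ) :
    MvPolynomial.aeval z (MvPolynomial.aeval Φ P) = MvPolynomial.eval (fun b => MvPolynomial.aeval z (Φ b)) P := by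
  induction P using MvPolynomial.induction_on with
  | C a => simp
  | add p q hp hq => rw [map_add, map_add, hp, hq, map_add]
  | mul_X p b hp => rw [map_mul, map_mul, hp, MvPolynomial.aeval_X, map_mul, MvPolynomial.eval_X]

/-- linear substitutions -/
theorem Rl_of {M σ : Type} [Fintype M] [DecidableEq M] {K : Subfield ℂ} {W : Submodule ℚ ℂ} (hKW : ∀ a ∈ K, a ∈ W) {d : ℕ}
    {Φ : M × M → MvPolynomial σ ℂ} (hΦ : ∀ b, DC 1 W (Φ b)) {y y' : σ → ℂ} (h : Vr (W ^ (d + 1)) d y y')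
    {c c' : Matrix M M ℂ} (hc : ∀ b, fl c b = MvPolynomial.aeval y (Φ b))
    (hc' : ∀ b, fl c' b = MvPolynomial.aeval y' (Φ b)) : Rl K d c c' := by
  intro P hP hd h0
  have h1 : (1 : ℂ) ∈ W := hKW 1 K.one_mem
  have hDC : DC d (W * W ^ d) (MvPolynomial.aeval Φ P) := DC.subst' h1 Φ hΦ ⟨hd, fun s => hKW _ (hP s)⟩
  have hW : W * W ^ d = W ^ (d + 1) := by rw [pow_succ, mul_comm]
  rw [hW] at hDC
  have hev := aeval_comp Φ P
  have e1 : fl c = fun b => MvPolynomial.aeval y (Φ b) := funext hc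
  have e2 : fl c' = fun b => MvPolynomial.aeval y' (Φ b) := funext hc'
  rw [e2, ← hev]
  rw [e1, ← hev] at h0
  exact h _ hDC.1 hDC.2 h0

variable {B₀ : Type} [Fintype B₀] [DecidableEq B₀] {n k : ℕ}

/-- the blocks -/
def blk (y : Fin k × (Fin n × Fin n) → ℂ) (l : Fin k) : Matrix (Fin n) (Fin n) ℂ := Matrix.of fun a b => y (l, (a, b))

/-- the generic block matrix -/
noncomputable def PhiE (c₀ : Matrix B₀ B₀ ℂ) : I2 B₀ n k × I2 B₀ n k → MvPolynomial (Fin k × (Fin n × Fin n)) ℂ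
  | (Sum.inl a, Sum.inl b) => MvPolynomial.C (c₀ a b)
  | (Sum.inl _, Sum.inr _) => 0
  | (Sum.inr _, Sum.inl _) => 0
  | (Sum.inr a, Sum.inr b) => if a.2 = b.2 then MvPolynomial.X (a.2, (a.1, b.1)) else 0

theorem PhiE_DC {W : Submodule ℚ ℂ} (h1 : (1 : ℂ) ∈ W) {c₀ : Matrix B₀ B₀ ℂ} (hc : ∀ a b, c₀ a b ∈ W) :
    ∀ b : I2 B₀ n k × I2 B₀ n k, DC 1 W (PhiE c₀ b) := by
  classical
  rintro ⟨a | a, b | b⟩
  · refine ⟨by show (MvPolynomial.C (c₀ a b)).totalDegree ≤ 1; rw [MvPolynomial.totalDegree_C]; exact Nat.zero_le _,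
      fun s => ?_⟩
    show (MvPolynomial.C (c₀ a b)).coeff s ∈ W
    rw [MvPolynomial.coeff_C]
    split_ifs
    · exact hc a b
    · exact W.zero_mem
  · exact ⟨by show (0 : MvPolynomial _ ℂ).totalDegree ≤ 1; simp, fun s => by
      show (0 : MvPolynomial _ ℂ).coeff s ∈ W
      rw [MvPolynomial.coeff_zero]; exact W.zero_mem⟩
  · exact ⟨by show (0 : MvPolynomial _ ℂ).totalDegree ≤ 1; simp, fun s => by
      show (0 : MvPolynomial _ ℂ).coeff s ∈ W
      rw [MvPolynomial.coeff_zero]; exact W.zero_mem⟩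
  · show DC 1 W (if a.2 = b.2 then MvPolynomial.X (a.2, (a.1, b.1)) else 0)
    split_ifs
    · refine ⟨by rw [MvPolynomial.totalDegree_X], fun s => ?_⟩
      rw [MvPolynomial.coeff_X]
      split_ifs
      · exact h1
      · exact W.zero_mem
    · exact ⟨by simp, fun s => by rw [MvPolynomial.coeff_zero]; exact W.zero_mem⟩

theorem PhiE_eval (c₀ : Matrix B₀ B₀ ℂ) (y : Fin k × (Fin n × Fin n) → ℂ) (b : I2 B₀ n k × I2 B₀ n k) :
    fl (E2 c₀ (blk y)) b = MvPolynomial.aeval y (PhiE c₀ b) := by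
  obtain ⟨a | a, b | b⟩ := b
  · show c₀ a b = MvPolynomial.aeval y (MvPolynomial.C (c₀ a b))
    rw [MvPolynomial.aeval_C]
    rfl
  · show (0 : ℂ) = MvPolynomial.aeval y 0
    rw [map_zero]
  · show (0 : ℂ) = MvPolynomial.aeval y 0
    rw [map_zero]
  · show bd (blk y) a b = MvPolynomial.aeval y (if a.2 = b.2 then MvPolynomial.X (a.2, (a.1, b.1)) else 0)
    obtain ⟨a1, a2⟩ := a
    obtain ⟨b1, b2⟩ := b
    rw [show bd (blk y) (a1, a2) (b1, b2) = if a2 = b2 then blk y a2 a1 b1 else 0 from blockDiagonal_apply _ _ _]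
    simp only
    split_ifs with h
    · rw [MvPolynomial.aeval_X]
      rfl
    · rw [map_zero]

/-- the action on the variables -/
noncomputable def gact (g : Matrix (Fin n) (Fin n) ℂ) (y : Fin n × Fin n → ℂ) (p : Fin n × Fin n) : ℂ :=
  ∑ a, g p.1 a * y (a, p.2)

theorem blk_gact (g : Fin k → Matrix (Fin n) (Fin n) ℂ) (y : Fin k → Fin n × Fin n → ℂ) (l : Fin k) :
    blk (fun p => gact (g p.1) (y p.1) p.2) l = g l * blk (fun p => y p.1 p.2) l := by
  ext a b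
  rw [Matrix.mul_apply]
  rfl

/-- **relations of the sum with a fixed object** -/
theorem Rl_sum {K : Subfield ℂ} {W : Submodule ℚ ℂ} (hKW : ∀ a ∈ K, a ∈ W) {c₀ : Matrix B₀ B₀ ℂ}
    (hc : ∀ a b, c₀ a b ∈ W) {d : ℕ} {g : Fin k → Matrix (Fin n) (Fin n) ℂ} {y : Fin k → Fin n × Fin n → ℂ}
    (h : Vr (W ^ (d + 1)) d (fun p : Fin k × (Fin n × Fin n) => y p.1 p.2) (fun p => gact (g p.1) (y p.1) p.2)) :
    Rl K d (E2 c₀ (blk fun p => y p.1 p.2)) (E2 1 g * E2 c₀ (blk fun p => y p.1 p.2)) := by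
  refine Rl_of hKW (PhiE_DC (hKW 1 K.one_mem) hc) h (PhiE_eval c₀ _) ?_
  have h0 : (fun l => g l * blk (fun p : Fin k × (Fin n × Fin n) => y p.1 p.2) l) =
      blk fun p => gact (g p.1) (y p.1) p.2 := by
    funext l
    exact (blk_gact g y l).symm
  have h1 : E2 1 g * E2 c₀ (blk fun p => y p.1 p.2) = E2 c₀ (blk fun p => gact (g p.1) (y p.1) p.2) := by
    rw [E2_mul, Matrix.one_mul, h0]
  rw [h1]
  exact PhiE_eval c₀ _

end Pool.Agent.Y123.GN
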