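import Pool.Agent.Y123.GN.B1

/-!
# Arbitrary families: subtorsors of the sum of a fixed object and almost all fibres
-/

set_option autoImplicit false
set_option linter.unusedSectionVars false

open Matrix

namespace Pool.Agent.Y123.GN

open Pool.Agent.TH127.PT Pool.Agent.Y123.ST Pool.Agent.Y123.SR Pool.Agent.Y113 Pool.Agent.Y113.GG

section blocks

variable {B₀ : Type} [Fintype B₀] [DecidableEq B₀] {n k : ℕ}

/-- block matrices as a ring homomorphism -/
noncomputable def Eh (B₀ : Type) [Fintype B₀] [DecidableEq B₀] (n k : ℕ) :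
    (Matrix B₀ B₀ ℂ × (Fin k → Matrix (Fin n) (Fin n) ℂ)) →+* Matrix (I2 B₀ n k) (I2 B₀ n k) ℂ where
  toFun x := E2 x.1 x.2
  map_one' := E2_one
  map_mul' x y := (E2_mul _ _ _ _).symm
  map_zero' := E2_zero
  map_add' x y := (E2_add _ _ _ _).symm

theorem Eh_apply (x : Matrix B₀ B₀ ℂ) (X : Fin k → Matrix (Fin n) (Fin n) ℂ) : Eh B₀ n k (x, X) = E2 x X := rfl

theorem single_nil {N : Matrix (Fin n) (Fin n) ℂ} (hN : IsNilpotent N) (l : Fin k) :
    IsNilpotent ((0, Pi.single l N) : Matrix B₀ B₀ ℂ × (Fin k → Matrix (Fin n) (Fin n) ℂ)) := by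
  obtain ⟨m, hm⟩ := hN
  refine ⟨m + 1, ?_⟩
  refine Prod.ext ?_ ?_
  · show (0 : Matrix B₀ B₀ ℂ) ^ (m + 1) = 0
    rw [pow_succ, Matrix.mul_zero]
  · funext j
    show (Pi.single l N : Fin k → Matrix (Fin n) (Fin n) ℂ) j ^ (m + 1) = 0
    by_cases h : j = l
    · subst h
      rw [Pi.single_eq_same, pow_succ, hm, Matrix.zero_mul]
    · rw [Pi.single_eq_of_ne h, pow_succ, Matrix.mul_zero]

theorem E_single_nil {N : Matrix (Fin n) (Fin n) ℂ} (hN : IsNilpotent N) (l : Fin k) :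
    IsNilpotent (E2 (0 : Matrix B₀ B₀ ℂ) (Pi.single l N)) := by
  rw [← Eh_apply]
  exact (single_nil hN l).map (Eh B₀ n k)

/-- one block, the others are `1` -/
theorem exp_single {N : Matrix (Fin n) (Fin n) ℂ} (hN : IsNilpotent N) (l : Fin k) (t : ℂ) :
    IsNilpotent.exp (t • E2 (0 : Matrix B₀ B₀ ℂ) (Pi.single l N)) = E2 1 (sg l (IsNilpotent.exp (t • N))) := by
  have h1 : t • E2 (0 : Matrix B₀ B₀ ℂ) (Pi.single l N) = Eh B₀ n k (0, Pi.single l (t • N)) := by
    rw [Eh_apply, E2_smul, smul_zero, Pi.single_smul]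
  have hn := single_nil (B₀ := B₀) (hN.smul t) l
  rw [h1, ← IsNilpotent.map_exp hn (Eh B₀ n k)]
  have h2 : (IsNilpotent.exp ((0, Pi.single l (t • N)) : Matrix B₀ B₀ ℂ × (Fin k → Matrix (Fin n) (Fin n) ℂ))).1 = 1 := by
    have h3 := IsNilpotent.map_exp hn (RingHom.fst (Matrix B₀ B₀ ℂ) (Fin k → Matrix (Fin n) (Fin n) ℂ))
    have h4 : RingHom.fst (Matrix B₀ B₀ ℂ) (Fin k → Matrix (Fin n) (Fin n) ℂ) (0, Pi.single l (t • N)) = 0 := rfl
    rw [h4, IsNilpotent.exp_zero] at h3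
    exact h3
  have h5 : (IsNilpotent.exp ((0, Pi.single l (t • N)) : Matrix B₀ B₀ ℂ × (Fin k → Matrix (Fin n) (Fin n) ℂ))).2 =
      sg l (IsNilpotent.exp (t • N)) := by
    funext j
    have h3 := IsNilpotent.map_exp hn ((Pi.evalRingHom (fun _ : Fin k => Matrix (Fin n) (Fin n) ℂ) j).comp
      (RingHom.snd (Matrix B₀ B₀ ℂ) (Fin k → Matrix (Fin n) (Fin n) ℂ)))
    have h4 : ((Pi.evalRingHom (fun _ : Fin k => Matrix (Fin n) (Fin n) ℂ) j).comp
      (RingHom.snd (Matrix B₀ B₀ ℂ) (Fin k → Matrix (Fin n) (Fin n) ℂ))) (0, Pi.single l (t • N)) =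
        (Pi.single l (t • N) : Fin k → Matrix (Fin n) (Fin n) ℂ) j := rfl
    rw [h4] at h3
    refine Eq.trans h3 ?_
    by_cases h : j = l
    · subst h
      rw [sg_same, Pi.single_eq_same]
    · rw [sg_ne h, Pi.single_eq_of_ne h, IsNilpotent.exp_zero]
  show E2 (IsNilpotent.exp ((0, Pi.single l (t • N)) : Matrix B₀ B₀ ℂ × (Fin k → Matrix (Fin n) (Fin n) ℂ))).1
    (IsNilpotent.exp ((0, Pi.single l (t • N)) : Matrix B₀ B₀ ℂ × (Fin k → Matrix (Fin n) (Fin n) ℂ))).2 = _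
  rw [h2, h5]

theorem sg_one (l : Fin k) : sg l (1 : Matrix (Fin n) (Fin n) ℂ) = 1 := by
  funext j
  by_cases h : j = l
  · subst h
    rw [sg_same]
    rfl
  · rw [sg_ne h]
    rfl

theorem sg_mul (l : Fin k) (A B : Matrix (Fin n) (Fin n) ℂ) :
    (fun j => sg l A j * sg l B j) = sg l (A * B) := by
  funext j
  by_cases h : j = l
  · subst h
    rw [sg_same, sg_same, sg_same]
  · rw [sg_ne h, sg_ne h, sg_ne h, Matrix.one_mul]

/-- the linear map -/
noncomputable def Es (B₀ : Type) [Fintype B₀] [DecidableEq B₀] {n k : ℕ} (l : Fin k) :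
    Matrix (Fin n) (Fin n) ℂ →ₗ[ℂ] Matrix (I2 B₀ n k) (I2 B₀ n k) ℂ where
  toFun N := E2 0 (Pi.single l N)
  map_add' x y := by rw [E2_add, Pi.single_add, add_zero]
  map_smul' s x := by
    rw [RingHom.id_apply, E2_smul, smul_zero, Pi.single_smul]

theorem Es_apply (l : Fin k) (N : Matrix (Fin n) (Fin n) ℂ) : Es B₀ l N = E2 0 (Pi.single l N) := rfl

theorem Es_mul (l : Fin k) (A B : Matrix (Fin n) (Fin n) ℂ) : Es B₀ l A * Es B₀ l B = Es B₀ l (A * B) := by
  rw [Es_apply, Es_apply, Es_apply, E2_mul, Matrix.zero_mul]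
  congr 1
  funext j
  by_cases h : j = l
  · subst h
    rw [Pi.single_eq_same, Pi.single_eq_same, Pi.single_eq_same]
  · rw [Pi.single_eq_of_ne h, Pi.single_eq_of_ne h, Pi.single_eq_of_ne h, Matrix.zero_mul]

end blocks

/-- a set of matrices which is contained in the span of its commutators -/
def Perf {n : ℕ} (𝒩 : Set (Matrix (Fin n) (Fin n) ℂ)) : Prop :=
  ∀ N ∈ 𝒩, N ∈ Submodule.span ℂ {C : Matrix (Fin n) (Fin n) ℂ | ∃ A ∈ 𝒩, ∃ B ∈ 𝒩, C = A * B - B * A}

/-- the group generated by the exponentials of the multiples of nilpotent matrices -/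
noncomputable def EG {n : ℕ} (𝒩 : Set (Matrix (Fin n) (Fin n) ℂ)) : Submonoid (Matrix (Fin n) (Fin n) ℂ) :=
  Submonoid.closure {u | ∃ N ∈ 𝒩, ∃ t : ℂ, u = IsNilpotent.exp (t • N)}

variable {B₀ : Type} [Fintype B₀] [DecidableEq B₀] {n k : ℕ} {K : Subfield ℂ}

/-- from the single blocks to all blocks -/
theorem all_blocks {T : Set (Matrix (I2 B₀ n k) (I2 B₀ n k) ℂ)} {g : Fin k → Matrix (Fin n) (Fin n) ℂ}
    (h : ∀ l, ∀ x ∈ T, E2 1 (sg l (g l)) * x ∈ T) : ∀ x ∈ T, E2 1 g * x ∈ T := by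
  classical
  have key : ∀ S : Finset (Fin k), ∀ x ∈ T, E2 1 (fun j => if j ∈ S then g j else 1) * x ∈ T := by
    intro S
    induction S using Finset.induction_on with
    | empty =>
      intro x hx
      have h1 : (fun j => if j ∈ (∅ : Finset (Fin k)) then g j else 1) = (1 : Fin k → Matrix (Fin n) (Fin n) ℂ) := by
        funext j
        simp
      rw [h1, E2_one, Matrix.one_mul]
      exact hx
    | insert l S hl ih =>
      intro x hx
      have h1 := h l _ (ih x hx)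
      rw [← Matrix.mul_assoc, E2_mul, Matrix.one_mul] at h1
      have h2 : (fun j => sg l (g l) j * if j ∈ S then g j else 1) = fun j => if j ∈ insert l S then g j else 1 := by
        funext j
        by_cases hj : j = l
        · subst hj
          rw [sg_same, if_neg hl, if_pos (Finset.mem_insert_self _ _), Matrix.mul_one]
        · rw [sg_ne hj, Matrix.one_mul]
          by_cases hS : j ∈ S
          · rw [if_pos hS, if_pos (Finset.mem_insert_of_mem hS)]
          · rw [if_neg hS, if_neg (by rw [Finset.mem_insert]; tauto)]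
      rw [h2] at h1
      exact h1
  intro x hx
  have h1 := key Finset.univ x hx
  simpa using h1

/-- **the criterion for block matrices** -/
theorem block_crit (m : ℕ) : ∃ d : ℕ, ∀ (B₀ : Type) [Fintype B₀] [DecidableEq B₀] (n k : ℕ),
    Fintype.card B₀ + n * k ≤ m → ∀ (K : Subfield ℂ), (K : Set ℂ).Countable →
    ∀ (T : Set (Matrix (I2 B₀ n k) (I2 B₀ n k) ℂ)) (c : Matrix (I2 B₀ n k) (I2 B₀ n k) ℂ), IsSubtorsor K T → c ∈ T →
    ∀ G : Set (Matrix (Fin n) (Fin n) ℂ), 1 ∈ G → (∀ g : Fin k → Matrix (Fin n) (Fin n) ℂ, (∀ l, g l ∈ G) →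
      Rl K d c (E2 1 g * c)) →
    (∀ 𝒩 : Set (Matrix (Fin n) (Fin n) ℂ), (∀ N ∈ 𝒩, IsNilpotent N) → (∀ N ∈ 𝒩, ∀ t : ℂ, IsNilpotent.exp (t • N) ∈ G) →
      Perf 𝒩 → ∀ g : Fin k → Matrix (Fin n) (Fin n) ℂ, (∀ l, g l ∈ EG 𝒩) → ∀ x ∈ T, E2 1 g * x ∈ T) ∧
    ∀ g : Fin k → Matrix (Fin n) (Fin n) ℂ, (∀ l, g l ∈ G) → (∀ l, IsUnit (g l).det) → ∀ w, fl w ∈ LL T →
      fl (E2 1 g * w * (E2 1 g)⁻¹) ∈ LL T := by
  classical
  obtain ⟨d, hd⟩ := abs_main m
  refine ⟨d + (1 + m), ?_⟩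
  intro B₀ _ _ n k hcard K hK T c hT hc G hG1 hrel
  have hcard' : Fintype.card (I2 B₀ n k) ≤ m := by
    rw [Fintype.card_sum, Fintype.card_prod, Fintype.card_fin, Fintype.card_fin]
    exact hcard
  constructor
  · intro 𝒩 hnil hexp hperf
    have hmem : ∀ N ∈ 𝒩, ∀ l : Fin k, fl (E2 (0 : Matrix B₀ B₀ ℂ) (Pi.single l N)) ∈ LL T := by
      intro N hN l
      refine hd (I2 B₀ n k) hcard' K hK T c hT hc {y | ∃ N ∈ 𝒩, ∃ l : Fin k, y = E2 0 (Pi.single l N)} ?_ ?_ ?_ _
        ⟨N, hN, l, rfl⟩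
      · rintro _ ⟨N, hN, l, rfl⟩
        exact E_single_nil (hnil N hN) l
      · rintro _ ⟨N, hN, l, rfl⟩ t
        rw [exp_single (hnil N hN)]
        refine (hrel _ fun j => ?_).mono (by omega)
        by_cases h : j = l
        · subst h
          rw [sg_same]
          exact hexp N hN t
        · rw [sg_ne h]
          exact hG1
      · rintro _ ⟨N, hN, l, rfl⟩
        have h1 := hperf N hN
        have h2 := Submodule.mem_map_of_mem (f := Es B₀ l) h1
        rw [Submodule.map_span] at h2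
        refine Submodule.span_mono ?_ h2
        rintro _ ⟨_, ⟨A, hA, B, hB, rfl⟩, rfl⟩
        refine ⟨Es B₀ l A, ⟨A, hA, l, rfl⟩, Es B₀ l B, ⟨B, hB, l, rfl⟩, ?_⟩
        rw [map_sub, Es_mul, Es_mul]
    -- the submonoid of the matrices which are fine
    intro g hg
    refine all_blocks fun l => ?_
    let S : Submonoid (Matrix (Fin n) (Fin n) ℂ) :=
      { carrier := {u | ∀ x ∈ T, E2 1 (sg l u) * x ∈ T}
        one_mem' := by
          intro x hx
          rw [sg_one, E2_one, Matrix.one_mul]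
          exact hx
        mul_mem' := by
          intro A B hA hB x hx
          have h1 := hA _ (hB x hx)
          rw [← Matrix.mul_assoc, E2_mul, Matrix.one_mul, sg_mul] at h1
          exact h1 }
    have hle : EG 𝒩 ≤ S := by
      refine Submonoid.closure_le.2 ?_
      rintro _ ⟨N, hN, t, rfl⟩ x hx
      have h1 := exp_mem hT (E_single_nil (hnil N hN) l) (hmem N hN l) hx t
      rw [exp_single (hnil N hN)] at h1
      exact h1
    exact hle (hg l)
  · intro g hg hdet w hw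
    refine normal hT hc ?_ ((hrel g hg).mono ?_) hw
    · exact (Matrix.isUnit_iff_isUnit_det _).1 (E2_isUnit isUnit_one hdet)
    · omega

/-- `g` transforms relations of `Ω Z(1/x)` into relations -/
def Gal (Ω : Matrix (Fin n) (Fin n) ℂ) (Z : Fin n → Fin n → PowerSeries ℚ) (x₀ : ℝ) (g : Matrix (Fin n) (Fin n) ℂ) : Prop :=
  ∀ F : MvPolynomial (Option (Fin n × Fin n)) ℂ,
    (∀ x : ℝ, x₀ < x → MvPolynomial.aeval (fun o => o.elim ((1 / x : ℝ) : ℂ) (pv Ω Z x)) F = 0) →
    ∀ x : ℝ, x₀ < x → MvPolynomial.aeval (fun o => o.elim ((1 / x : ℝ) : ℂ) (gact g (pv Ω Z x))) F = 0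

theorem gact_one (y : Fin n × Fin n → ℂ) : gact 1 y = y := by
  funext p
  unfold gact
  rw [Finset.sum_eq_single p.1]
  · rw [Matrix.one_apply_eq, one_mul]
  · intro a _ ha
    rw [Matrix.one_apply_ne ha.symm, zero_mul]
  · intro h
    exact absurd (Finset.mem_univ _) h

theorem gal_one (Ω : Matrix (Fin n) (Fin n) ℂ) (Z : Fin n → Fin n → PowerSeries ℚ) (x₀ : ℝ) : Gal Ω Z x₀ 1 := by
  intro F hF x hx
  rw [gact_one]
  exact hF x hx

/-- functional relations are stable -/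
theorem fun_gal {Ω : Matrix (Fin n) (Fin n) ℂ} {Z : Fin n → Fin n → PowerSeries ℚ} {x₀ : ℝ}
    {g : Fin k → Matrix (Fin n) (Fin n) ℂ} (hg : ∀ l, Gal Ω Z x₀ (g l))
    {F : MvPolynomial (Fin k ⊕ (Fin k × (Fin n × Fin n))) ℂ}
    (hF : ∀ x : Fin k → ℝ, (∀ l, x₀ < x l) → MvPolynomial.aeval
        (Sum.elim (fun l => ((1 / x l : ℝ) : ℂ)) (fun p : Fin k × (Fin n × Fin n) => pv Ω Z (x p.1) p.2)) F = 0) :
    ∀ x : Fin k → ℝ, (∀ l, x₀ < x l) → MvPolynomial.aeval (Sum.elim (fun l => ((1 / x l : ℝ) : ℂ))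
      (fun p : Fin k × (Fin n × Fin n) => gact (g p.1) (pv Ω Z (x p.1)) p.2)) F = 0 := by
  classical
  have key : ∀ S : Finset (Fin k), ∀ x : Fin k → ℝ, (∀ l, x₀ < x l) → MvPolynomial.aeval
      (Sum.elim (fun l => ((1 / x l : ℝ) : ℂ)) (fun p : Fin k × (Fin n × Fin n) =>
        if p.1 ∈ S then gact (g p.1) (pv Ω Z (x p.1)) p.2 else pv Ω Z (x p.1) p.2)) F = 0 := by
    intro S
    induction S using Finset.induction_on with
    | empty =>
      intro x hx
      have h1 := hF x hx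
      simpa using h1
    | insert l₀ S hl ih =>
      intro x hx
      -- the polynomial in one point
      let v : Fin k × (Fin n × Fin n) → ℂ := fun p =>
        if p.1 ∈ S then gact (g p.1) (pv Ω Z (x p.1)) p.2 else pv Ω Z (x p.1) p.2
      let sub : Fin k ⊕ (Fin k × (Fin n × Fin n)) → MvPolynomial (Option (Fin n × Fin n)) ℂ :=
        Sum.elim (fun l => if l = l₀ then MvPolynomial.X none else MvPolynomial.C ((1 / x l : ℝ) : ℂ))
          (fun p => if p.1 = l₀ then MvPolynomial.X (some p.2) else MvPolynomial.C (v p))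
      have hev : ∀ z : Option (Fin n × Fin n) → ℂ, MvPolynomial.aeval z (MvPolynomial.aeval sub F) =
          MvPolynomial.aeval (Sum.elim (fun l => if l = l₀ then z none else ((1 / x l : ℝ) : ℂ))
            (fun p : Fin k × (Fin n × Fin n) => if p.1 = l₀ then z (some p.2) else v p)) F := by
        intro z
        rw [aeval_comp, MvPolynomial.aeval_eq_eval]
        congr 2
        funext b
        rcases b with l | p
        · show MvPolynomial.aeval z (if l = l₀ then MvPolynomial.X none else MvPolynomial.C ((1 / x l : ℝ) : ℂ)) =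
            if l = l₀ then z none else ((1 / x l : ℝ) : ℂ)
          split_ifs
          · rw [MvPolynomial.aeval_X]
          · rw [MvPolynomial.aeval_C]
            rfl
        · show MvPolynomial.aeval z (if p.1 = l₀ then MvPolynomial.X (some p.2) else MvPolynomial.C (v p)) =
            if p.1 = l₀ then z (some p.2) else v p
          split_ifs
          · rw [MvPolynomial.aeval_X]
          · rw [MvPolynomial.aeval_C]
            rfl
      have h1 := hg l₀ (MvPolynomial.aeval sub F) (by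
        intro t ht
        rw [hev]
        have h2 := ih (Function.update x l₀ t) (by
          intro l
          by_cases h : l = l₀
          · subst h
            rw [Function.update_self]
            exact ht
          · rw [Function.update_of_ne h]
            exact hx l)
        rw [← h2]
        congr 2
        funext b
        rcases b with l | p
        · simp only [Sum.elim_inl]
          by_cases h : l = l₀
          · subst h
            rw [if_pos rfl, Function.update_self]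
            rfl
          · rw [if_neg h, Function.update_of_ne h]
        · simp only [Sum.elim_inr]
          by_cases h : p.1 = l₀
          · rw [if_pos h, h, if_neg hl, Function.update_self]
            rfl
          · rw [if_neg h, Function.update_of_ne h]) (x l₀) (hx l₀)
      rw [hev] at h1
      rw [← h1]
      congr 2
      funext b
      rcases b with l | p
      · simp only [Sum.elim_inl]
        by_cases h : l = l₀
        · subst h
          rw [if_pos rfl]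
          rfl
        · rw [if_neg h]
      · simp only [Sum.elim_inr]
        by_cases h : p.1 = l₀
        · rw [if_pos h, h, if_pos (Finset.mem_insert_self _ _)]
          rfl
        · rw [if_neg h]
          by_cases hS : p.1 ∈ S
          · rw [if_pos (Finset.mem_insert_of_mem hS)]
            show _ = if p.1 ∈ S then _ else _
            rw [if_pos hS]
          · rw [if_neg (by rw [Finset.mem_insert]; tauto)]
            show _ = if p.1 ∈ S then _ else _
            rw [if_neg hS]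
  intro x hx
  have h1 := key Finset.univ x hx
  simpa using h1

/-- relations at the fibres are stable -/
theorem spec_gal {Ω : Matrix (Fin n) (Fin n) ℂ} {Z : Fin n → Fin n → PowerSeries ℚ} {x₀ : ℝ} {δ : ℕ} {V : Submodule ℚ ℂ}
    {m : Fin k → ℕ} (hs : Spec Ω Z x₀ δ V m) (hm : ∀ l, x₀ < (m l : ℝ)) {g : Fin k → Matrix (Fin n) (Fin n) ℂ}
    (hg : ∀ l, Gal Ω Z x₀ (g l)) :
    Vr V δ (fun p : Fin k × (Fin n × Fin n) => pv Ω Z (m p.1) p.2) (fun p => gact (g p.1) (pv Ω Z (m p.1)) p.2) := by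
  intro P hd hV h0
  obtain ⟨F, hF, hFP⟩ := hs P hd hV h0
  have h1 := fun_gal hg hF (fun l => (m l : ℝ)) hm
  rw [← hFP]
  rw [← h1, aeval_comp, MvPolynomial.aeval_eq_eval]
  congr 2
  funext b
  rcases b with l | p
  · simp only [Sum.elim_inl]
    rw [MvPolynomial.eval_C]
  · simp only [Sum.elim_inr]
    rw [MvPolynomial.eval_X]

/-- the conclusion for a tuple of fibres -/
def Fullness (K : Subfield ℂ) (c₀ : Matrix B₀ B₀ ℂ) (Ω : Matrix (Fin n) (Fin n) ℂ) (Z : Fin n → Fin n → PowerSeries ℚ)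
    (x₀ : ℝ) (m : Fin k → ℕ) : Prop :=
  ∀ T : Set (Matrix (I2 B₀ n k) (I2 B₀ n k) ℂ), IsSubtorsor K T → E2 c₀ (blk fun p => pv Ω Z (m p.1) p.2) ∈ T →
    (∀ 𝒩 : Set (Matrix (Fin n) (Fin n) ℂ), (∀ N ∈ 𝒩, IsNilpotent N) →
      (∀ N ∈ 𝒩, ∀ t : ℂ, Gal Ω Z x₀ (IsNilpotent.exp (t • N))) →
      Perf 𝒩 → ∀ g : Fin k → Matrix (Fin n) (Fin n) ℂ, (∀ l, g l ∈ EG 𝒩) → ∀ x ∈ T, E2 1 g * x ∈ T) ∧
    ∀ g : Fin k → Matrix (Fin n) (Fin n) ℂ, (∀ l, Gal Ω Z x₀ (g l)) → (∀ l, IsUnit (g l).det) → ∀ w, fl w ∈ LL T →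
      fl (E2 1 g * w * (E2 1 g)⁻¹) ∈ LL T

/-- **the criterion for a tuple of fibres** -/
theorem full_of_spec (n k r : ℕ) : ∃ d : ℕ, ∀ (B₀ : Type) [Fintype B₀] [DecidableEq B₀], Fintype.card B₀ ≤ r →
    ∀ (K : Subfield ℂ), (∀ x ∈ K, IsAlgebraic ℚ x) → ∀ (W : Submodule ℚ ℂ), (∀ a ∈ K, a ∈ W) → ∀ (c₀ : Matrix B₀ B₀ ℂ),
    (∀ a b, c₀ a b ∈ W) → ∀ (Ω : Matrix (Fin n) (Fin n) ℂ) (Z : Fin n → Fin n → PowerSeries ℚ) (x₀ : ℝ) (m : Fin k → ℕ),
    Spec Ω Z x₀ d (W ^ (d + 1)) m → (∀ l, x₀ < (m l : ℝ)) → Fullness K c₀ Ω Z x₀ m := by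
  obtain ⟨d, hd⟩ := block_crit (r + n * k)
  refine ⟨d, ?_⟩
  intro B₀ _ _ hr K hK W hKW c₀ hc₀ Ω Z x₀ m hs hm T hT hcT
  have hKc : (K : Set ℂ).Countable := by
    have h1 : ({x : ℂ | IsAlgebraic ℚ x} : Set ℂ).Countable := Algebraic.countable ℚ ℂ
    exact h1.mono fun x hx => hK x hx
  have hrl : ∀ g : Fin k → Matrix (Fin n) (Fin n) ℂ, (∀ l, g l ∈ {g | Gal Ω Z x₀ g}) →
      Rl K d (E2 c₀ (blk fun p => pv Ω Z (m p.1) p.2)) (E2 1 g * E2 c₀ (blk fun p => pv Ω Z (m p.1) p.2)) := by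
    intro g hg
    have h2 := spec_gal hs hm hg
    exact Rl_sum (y := fun l => pv Ω Z (m l)) hKW hc₀ h2
  have hcard : Fintype.card B₀ + n * k ≤ r + n * k := Nat.add_le_add_right hr _
  exact hd B₀ n k hcard K hKc T _ hT hcT {g | Gal Ω Z x₀ g} (gal_one Ω Z x₀) hrl

end Pool.Agent.Y123.GN
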