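import Pool.Agent.Y123.GN.B2

/-!
# Arbitrary families: the main theorem
-/

set_option autoImplicit false
set_option linter.unusedSectionVars false

open Matrix

namespace Pool.Agent.Y123.GN

open Pool.Agent.TH127.PT Pool.Agent.Y123.ST Pool.Agent.Y123.SR Pool.Agent.Y113 Pool.Agent.Y113.GG Pool.Agent.Y118.HG

/-- the tuples with a small entry -/
theorem card_small (k x₀ T : ℕ) (hT : 1 ≤ T) :
    (((Fintype.piFinset fun _ : Fin k => Finset.Icc 2 T).filter fun m => ∃ l, m l ≤ x₀).card : ℝ) ≤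
      (k * (x₀ + 1) : ℝ) * (T : ℝ) ^ ((k : ℝ) - 1) := by
  classical
  rcases Nat.eq_zero_or_pos k with hk | hk
  · subst hk
    rw [Finset.filter_false_of_mem]
    · simp
    · rintro m _ ⟨l, -⟩
      exact l.elim0
  have h1 : ((Fintype.piFinset fun _ : Fin k => Finset.Icc 2 T).filter fun m => ∃ l, m l ≤ x₀) ⊆
      Finset.univ.biUnion fun l : Fin k => Fintype.piFinset fun j : Fin k =>
        if j = l then Finset.range (x₀ + 1) else Finset.Icc 1 T := by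
    intro m hm
    rw [Finset.mem_filter, Fintype.mem_piFinset] at hm
    obtain ⟨hm, l, hl⟩ := hm
    rw [Finset.mem_biUnion]
    refine ⟨l, Finset.mem_univ _, ?_⟩
    rw [Fintype.mem_piFinset]
    intro j
    by_cases h : j = l
    · rw [if_pos h, Finset.mem_range, h]
      omega
    · rw [if_neg h]
      have := Finset.mem_Icc.1 (hm j)
      rw [Finset.mem_Icc]
      omega
  have h2 : ∀ l : Fin k, (Fintype.piFinset fun j : Fin k =>
      if j = l then Finset.range (x₀ + 1) else Finset.Icc 1 T).card = (x₀ + 1) * T ^ (k - 1) := by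
    intro l
    rw [Fintype.card_piFinset, ← Finset.mul_prod_erase Finset.univ _ (Finset.mem_univ l), if_pos rfl, Finset.card_range]
    congr 1
    have h3 : ∀ j ∈ Finset.univ.erase l, (if j = l then Finset.range (x₀ + 1) else Finset.Icc 1 T).card = T := by
      intro j hj
      rw [if_neg (Finset.ne_of_mem_erase hj), Nat.card_Icc]
      omega
    rw [Finset.prod_congr rfl h3, Finset.prod_const, Finset.card_erase_of_mem (Finset.mem_univ l), Finset.card_univ,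
      Fintype.card_fin]
  have h3 : ((Fintype.piFinset fun _ : Fin k => Finset.Icc 2 T).filter fun m => ∃ l, m l ≤ x₀).card ≤
      k * ((x₀ + 1) * T ^ (k - 1)) := by
    refine (Finset.card_le_card h1).trans (Finset.card_biUnion_le.trans ?_)
    rw [Finset.sum_congr rfl fun l _ => h2 l, Finset.sum_const, Finset.card_univ, Fintype.card_fin, smul_eq_mul]
  have h4 : (T : ℝ) ^ ((k : ℝ) - 1) = (T : ℝ) ^ (k - 1) := by
    rw [← Real.rpow_natCast]
    congr 1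
    rw [Nat.cast_sub hk]
    simp
  rw [h4]
  have h5 : (((Fintype.piFinset fun _ : Fin k => Finset.Icc 2 T).filter fun m => ∃ l, m l ≤ x₀).card : ℝ) ≤
      ((k * ((x₀ + 1) * T ^ (k - 1)) : ℕ) : ℝ) := by exact_mod_cast h3
  refine h5.trans (le_of_eq ?_)
  push_cast
  ring

open Pool.Agent.Y37.GF PowerSeries in
theorem sr_sum {ι : Type} (s : Finset ι) {r : ℝ} (hr : 0 ≤ r) {F : ι → PowerSeries ℚ} (h : ∀ i ∈ s, SR r (F i)) :
    SR r (∑ i ∈ s, F i) ∧ E (∑ i ∈ s, F i) r = ∑ i ∈ s, E (F i) r := by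
  classical
  induction s using Finset.induction_on with
  | empty =>
    simp only [Finset.sum_empty]
    have h1 := SR.C 0 r
    have h2 := E_C 0 r
    rw [map_zero] at h1 h2
    refine ⟨h1, ?_⟩
    rw [h2]
    simp
  | insert i s hi ih =>
    obtain ⟨h1, h2⟩ := ih fun k hk => h k (Finset.mem_insert_of_mem hk)
    have h3 := h i (Finset.mem_insert_self _ _)
    rw [Finset.sum_insert hi, Finset.sum_insert hi]
    exact ⟨h3.add hr h1, by rw [E_add h3 h1 (by rw [abs_of_nonneg hr]), h2]⟩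

/-- the period matrices are invertible -/
theorem pv_unit {n : ℕ} {f : Polynomial ℚ} {A : Fin n → Fin n → Polynomial ℚ} {Z W : Fin n → Fin n → PowerSeries ℚ}
    (h : Dat f A Z W) : ∃ X : ℕ, ∀ Ω : Matrix (Fin n) (Fin n) ℂ, IsUnit Ω → ∀ x : ℝ, (X : ℝ) < x →
      IsUnit (Matrix.of fun i j => pv Ω Z x (i, j) : Matrix (Fin n) (Fin n) ℂ) := by
  obtain ⟨C, hC, hZ, hW⟩ := h.bound
  obtain ⟨X, hX⟩ := exists_nat_ge C
  refine ⟨X, fun Ω hΩ x hx => ?_⟩
  have hx' : C < x := lt_of_le_of_lt hX hx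
  have hx0 : 0 < x := by linarith
  have hr0 : (0 : ℝ) ≤ 1 / x := by positivity
  have hsZ : ∀ i j, Pool.Agent.Y37.GF.SR (1 / x) (Z i j) := fun i j => sr_of hC (hZ i j) hx'
  have hsW : ∀ i j, Pool.Agent.Y37.GF.SR (1 / x) (W i j) := fun i j => sr_of hC (hW i j) hx'
  let Zm : Matrix (Fin n) (Fin n) ℂ := Matrix.of fun i j => zv Z x (i, j)
  let Wm : Matrix (Fin n) (Fin n) ℂ := Matrix.of fun i j => zv W x (i, j)
  have hWZ : Wm * Zm = 1 := by
    ext i j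
    rw [Matrix.mul_apply]
    have h1 : ∀ k, Wm i k * Zm k j = ((Pool.Agent.Y37.GF.E (W i k * Z k j) (1 / x) : ℝ) : ℂ) := by
      intro k
      rw [Pool.Agent.Y37.GF.E_mul (hsW i k) (hsZ k j) (by rw [abs_of_nonneg hr0])]
      push_cast
      rfl
    rw [Finset.sum_congr rfl fun k _ => h1 k]
    have h2 := (sr_sum Finset.univ hr0 (F := fun k => W i k * Z k j)
      (fun k _ => Pool.Agent.Y37.GF.SR.mul hr0 (hsW i k) (hsZ k j))).2
    rw [← Complex.ofReal_sum, ← h2, h.inv i j, Matrix.one_apply]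
    split_ifs
    · have h3 := Pool.Agent.Y37.GF.E_C 1 (1 / x)
      rw [map_one] at h3
      rw [h3]
      simp
    · have h3 := Pool.Agent.Y37.GF.E_C 0 (1 / x)
      rw [map_zero] at h3
      rw [h3]
      simp
  have hZu : IsUnit Zm := IsUnit.of_mul_eq_one_right Wm hWZ
  have h3 : (Matrix.of fun i j => pv Ω Z x (i, j) : Matrix (Fin n) (Fin n) ℂ) = Ω * Zm := rfl
  rw [h3]
  exact hΩ.mul hZu

/-- larger bounds -/
theorem spec_mono {n k : ℕ} {Ω : Matrix (Fin n) (Fin n) ℂ} {Z : Fin n → Fin n → PowerSeries ℚ} {x₀ x₁ : ℝ} {δ : ℕ}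
    {V : Submodule ℚ ℂ} {m : Fin k → ℕ} (hx : x₀ ≤ x₁) (h : Spec Ω Z x₀ δ V m) : Spec Ω Z x₁ δ V m := by
  intro P h1 h2 h3
  obtain ⟨F, h4, h5⟩ := h P h1 h2 h3
  exact ⟨F, fun x hxx => h4 x fun l => lt_of_le_of_lt hx (hxx l), h5⟩

/-- the period matrices are invertible -/
def PU {n k : ℕ} (Ω : Matrix (Fin n) (Fin n) ℂ) (Z : Fin n → Fin n → PowerSeries ℚ) (m : Fin k → ℕ) : Prop :=
  ∀ l, IsUnit (Matrix.of fun i j => pv Ω Z (m l) (i, j) : Matrix (Fin n) (Fin n) ℂ)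

open Classical in
/-- **Main theorem** -/
theorem gen_main {n : ℕ} {f : Polynomial ℚ} {A : Fin n → Fin n → Polynomial ℚ} {Z W : Fin n → Fin n → PowerSeries ℚ}
    (h : Dat f A Z W) : ∃ x₀ G₀ : ℕ, ∀ k D r : ℕ,
      (∃ M : ℕ, ∃ c : ℝ, 0 < c ∧ ∀ Ω Θ : Matrix (Fin n) (Fin n) ℂ, Ω * Θ = 1 → Θ * Ω = 1 →
        ∀ K : Subfield ℂ, FiniteDimensional ℚ K → Module.finrank ℚ K ≤ D →
        ∀ (B₀ : Type) [Fintype B₀] [DecidableEq B₀] (c₀ : Matrix B₀ B₀ ℂ), Fintype.card B₀ ≤ r → ∀ N : ℕ, 1 ≤ N →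
        ∃ S : Finset ℕ, S.card ≤ M ∧ ∀ m : Fin k → ℕ, SepN G₀ m →
          (∀ i, N ≤ m i ∧ (m i : ℝ) ≤ N + (N : ℝ) ^ c ∧ m i ∉ S) → Fullness K c₀ Ω Z x₀ m ∧ PU Ω Z m) ∧
      ∃ c : ℝ, 0 < c ∧ ∃ C : ℝ, ∀ Ω Θ : Matrix (Fin n) (Fin n) ℂ, Ω * Θ = 1 → Θ * Ω = 1 →
        ∀ K : Subfield ℂ, FiniteDimensional ℚ K → Module.finrank ℚ K ≤ D →
        ∀ (B₀ : Type) [Fintype B₀] [DecidableEq B₀] (c₀ : Matrix B₀ B₀ ℂ), Fintype.card B₀ ≤ r → ∀ T : ℕ, 1 ≤ T →
        (((Fintype.piFinset fun _ : Fin k => Finset.Icc 2 T).filter fun m => ¬ (Fullness K c₀ Ω Z x₀ m ∧ PU Ω Z m)).card : ℝ) ≤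
          C * (T : ℝ) ^ ((k : ℝ) - c) := by
  obtain ⟨x₀', G₀, hmain⟩ := Y113.GG.main h
  obtain ⟨x₁, hx₁⟩ := pv_unit h
  set x₀ := max x₀' x₁ with hx₀
  have hle0 : (x₀' : ℝ) ≤ x₀ := by exact_mod_cast le_max_left x₀' x₁
  have hle1 : (x₁ : ℝ) ≤ x₀ := by exact_mod_cast le_max_right x₀' x₁
  refine ⟨x₀, G₀, fun k D r => ?_⟩
  obtain ⟨d, hd⟩ := full_of_spec n k r
  obtain ⟨⟨M, E, hwin⟩, c, hc, C, hcount⟩ := hmain d k ((D + r * r + 1) ^ (d + 1))
  -- the space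
  have hsp : ∀ K : Subfield ℂ, FiniteDimensional ℚ K → Module.finrank ℚ K ≤ D →
      ∀ (B₀ : Type) [Fintype B₀] [DecidableEq B₀] (c₀ : Matrix B₀ B₀ ℂ), Fintype.card B₀ ≤ r →
      ∃ V : Submodule ℚ ℂ, Module.Finite ℚ V ∧ Module.finrank ℚ V ≤ (D + r * r + 1) ^ (d + 1) ∧
        ∀ (Ω : Matrix (Fin n) (Fin n) ℂ), IsUnit Ω → ∀ (m : Fin k → ℕ), Spec Ω Z x₀' d V m →
          (∀ l, (x₀ : ℝ) < (m l : ℝ)) → Fullness K c₀ Ω Z x₀ m ∧ PU Ω Z m := by
    intro K hKf hKD B₀ _ _ c₀ hr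
    obtain ⟨W, hW1, hW2, hKW, hW3⟩ := exists_W' K (fun b : B₀ × B₀ => c₀ b.1 b.2)
    obtain ⟨hp1, hp2⟩ := finrank_pow_le W (d + 1)
    refine ⟨W ^ (d + 1), hp1, hp2.trans (Nat.pow_le_pow_left ?_ _), fun Ω hΩ m hs hm =>
      ⟨?_, fun l => hx₁ Ω hΩ _ (lt_of_le_of_lt hle1 (hm l))⟩⟩
    · refine hW2.trans ?_
      rw [Fintype.card_prod]
      have := Nat.mul_le_mul hr hr
      omega
    · refine hd B₀ hr K ?_ W hKW c₀ (fun a b => hW3 (a, b)) Ω Z x₀ m (spec_mono hle0 hs) hm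
      intro x hx
      have : NumberField K := { to_charZero := inferInstance, to_finiteDimensional := hKf }
      have h6 : IsAlgebraic ℚ (⟨x, hx⟩ : K) := Algebra.IsAlgebraic.isAlgebraic _
      exact h6.algebraMap (A := ℂ)
  refine ⟨?_, min c 1, lt_min hc one_pos, C + k * (x₀ + 1), ?_⟩
  · obtain ⟨c', hc', hconv⟩ := Y113.GG.conv k G₀ E M
    refine ⟨M + 3 + (x₀ + 1), c', hc', ?_⟩
    intro Ω Θ h1 h2 K hKf hKD B₀ _ _ c₀ hr N hN
    obtain ⟨V, hV1, hV2, hV3⟩ := hsp K hKf hKD B₀ c₀ hr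
    obtain ⟨S, hS, hS'⟩ := hconv _ (hwin Ω Θ h1 h2 V hV1 hV2) N hN
    refine ⟨S ∪ Finset.range (x₀ + 1), ?_, fun m hm hmS => ?_⟩
    · refine (Finset.card_union_le _ _).trans ?_
      rw [Finset.card_range]
      omega
    · refine hV3 Ω (IsUnit.of_mul_eq_one Θ h1) m (hS' m hm fun i => ⟨(hmS i).1, (hmS i).2.1, fun hi => (hmS i).2.2 (Finset.mem_union_left _ hi)⟩) ?_
      intro l
      have h3 := (hmS l).2.2
      rw [Finset.mem_union, Finset.mem_range, not_or] at h3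
      have h4 : x₀ < m l := by omega
      exact_mod_cast h4
  · intro Ω Θ h1 h2 K hKf hKD B₀ _ _ c₀ hr T hT
    obtain ⟨V, hV1, hV2, hV3⟩ := hsp K hKf hKD B₀ c₀ hr
    have h3 := hcount Ω Θ h1 h2 V hV1 hV2 T hT
    have h4 := card_small k x₀ T hT
    have hsub : ((Fintype.piFinset fun _ : Fin k => Finset.Icc 2 T).filter fun m => ¬ (Fullness K c₀ Ω Z x₀ m ∧ PU Ω Z m)) ⊆
        ((Fintype.piFinset fun _ : Fin k => Finset.Icc 2 T).filter fun m => ¬ Spec Ω Z x₀' d V m) ∪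
        ((Fintype.piFinset fun _ : Fin k => Finset.Icc 2 T).filter fun m => ∃ l, m l ≤ x₀) := by
      intro m hm
      rw [Finset.mem_filter] at hm
      rw [Finset.mem_union, Finset.mem_filter, Finset.mem_filter]
      by_contra hcon
      obtain ⟨h5, h6⟩ := not_or.1 hcon
      refine hm.2 (hV3 Ω (IsUnit.of_mul_eq_one Θ h1) m (by_contra fun h7 => h5 ⟨hm.1, h7⟩) fun l => ?_)
      have h7 : x₀ < m l := by
        by_contra h8
        exact h6 ⟨hm.1, l, by omega⟩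
      exact_mod_cast h7
    have h5 : (((Fintype.piFinset fun _ : Fin k => Finset.Icc 2 T).filter fun m => ¬ (Fullness K c₀ Ω Z x₀ m ∧ PU Ω Z m)).card : ℝ) ≤
        C * (T : ℝ) ^ ((k : ℝ) - c) + (k * (x₀ + 1) : ℝ) * (T : ℝ) ^ ((k : ℝ) - 1) := by
      refine le_trans ?_ (add_le_add h3 h4)
      have := (Finset.card_le_card hsub).trans (Finset.card_union_le _ _)
      exact_mod_cast this
    have hT1 : (1 : ℝ) ≤ T := by exact_mod_cast hT
    have hC : 0 ≤ C := by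
      have h6 := hcount Ω Θ h1 h2 V hV1 hV2 1 le_rfl
      rw [Nat.cast_one, Real.one_rpow, mul_one] at h6
      exact le_trans (Nat.cast_nonneg _) h6
    refine h5.trans ?_
    rw [add_mul]
    refine add_le_add ?_ ?_
    · refine mul_le_mul_of_nonneg_left ?_ hC
      exact Real.rpow_le_rpow_of_exponent_le hT1 (by linarith [min_le_left c 1])
    · refine mul_le_mul_of_nonneg_left ?_ (by positivity)
      exact Real.rpow_le_rpow_of_exponent_le hT1 (by linarith [min_le_right c 1])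

end Pool.Agent.Y123.GN
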