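import Mathlib
import Pool.Agent.W948.ZC.TR

/-!
# The symplectic group of an alternating form: generation by transvections, the Lie algebra is perfect
-/

set_option autoImplicit false
set_option linter.unusedSectionVars false

open Matrix

namespace Pool.Agent.Y123.GN

variable {n : ℕ}

/-- the nilpotent matrix `x ↦ ω(v, x) v` -/
def nv (J : Matrix (Fin n) (Fin n) ℂ) (v : Fin n → ℂ) : Matrix (Fin n) (Fin n) ℂ := vecMulVec v (v ᵥ* J)

variable {J : Matrix (Fin n) (Fin n) ℂ}

theorem form_skew (hJ : Jᵀ = -J) (u v : Fin n → ℂ) : v ⬝ᵥ (J *ᵥ u) = -(u ⬝ᵥ (J *ᵥ v)) := by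
  have h1 : v ⬝ᵥ (J *ᵥ u) = u ⬝ᵥ (Jᵀ *ᵥ v) := by
    rw [mulVec_transpose, dotProduct_comm u, ← dotProduct_mulVec]
  rw [h1, hJ, neg_mulVec, dotProduct_neg]

theorem form_self (hJ : Jᵀ = -J) (v : Fin n → ℂ) : v ⬝ᵥ (J *ᵥ v) = 0 := by
  have h1 := form_skew hJ v v
  have h2 : (2 : ℂ) * (v ⬝ᵥ (J *ᵥ v)) = 0 := by linear_combination h1
  simpa using h2

theorem nv_mul (u v : Fin n → ℂ) : nv J u * nv J v = (u ⬝ᵥ (J *ᵥ v)) • vecMulVec u (v ᵥ* J) := by
  unfold nv
  rw [vecMulVec_mul_vecMulVec, ← dotProduct_mulVec, vecMulVec_smul]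

theorem nv_sq (hJ : Jᵀ = -J) (v : Fin n → ℂ) : nv J v * nv J v = 0 := by
  rw [nv_mul, form_self hJ, zero_smul]

theorem nv_nil (hJ : Jᵀ = -J) (v : Fin n → ℂ) : IsNilpotent (nv J v) := ⟨2, by rw [pow_two, nv_sq hJ]⟩

theorem nv_exp (hJ : Jᵀ = -J) (v : Fin n → ℂ) (t : ℂ) : IsNilpotent.exp (t • nv J v) = 1 + t • nv J v := by
  have h1 : (t • nv J v) ^ 2 = 0 := by
    rw [pow_two, smul_mul_smul_comm, nv_sq hJ, smul_zero]
  rw [IsNilpotent.exp_eq_sum h1]
  simp [Finset.sum_range_succ]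

/-- the exponentials are isometries -/
theorem nv_isom (hJ : Jᵀ = -J) (v : Fin n → ℂ) (t : ℂ) :
    (IsNilpotent.exp (t • nv J v))ᵀ * J * IsNilpotent.exp (t • nv J v) = J := by
  rw [nv_exp hJ]
  have h1 : (nv J v)ᵀ * J = -(J * nv J v) := by
    unfold nv
    rw [transpose_vecMulVec, vecMulVec_mul, mul_vecMulVec]
    have h2 : v ᵥ* J = -(J *ᵥ v) := by
      rw [← mulVec_transpose, hJ, neg_mulVec]
    rw [h2]
    ext a b
    simp [vecMulVec_apply]
  have h3 : J * nv J v * nv J v = 0 := by rw [Matrix.mul_assoc, nv_sq hJ, Matrix.mul_zero]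
  rw [transpose_add, transpose_one, transpose_smul, Matrix.add_mul, Matrix.one_mul, Matrix.smul_mul, h1, Matrix.mul_add,
    Matrix.mul_one, Matrix.add_mul, Matrix.mul_smul, Matrix.smul_mul, Matrix.mul_smul, Matrix.neg_mul, h3]
  simp

/-- the symplectic group is generated by the transvections -/
theorem sp_gen' (hJ : Jᵀ = -J) (hdet : J.det ≠ 0) (S : Submonoid (Matrix (Fin n) (Fin n) ℂ))
    (hS : ∀ (v : Fin n → ℂ) (s : ℂ), IsNilpotent.exp (s • nv J v) ∈ S) (g : Matrix (Fin n) (Fin n) ℂ) (hg : gᵀ * J * g = J) : g ∈ S := by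
  set ω : (Fin n → ℂ) →ₗ[ℂ] (Fin n → ℂ) →ₗ[ℂ] ℂ := Matrix.toLinearMap₂' ℂ J with hω
  have hωa : ∀ u v, ω u v = u ⬝ᵥ (J *ᵥ v) := by
    intro u v
    rw [hω, Matrix.toLinearMap₂'_apply']
  have h0 : ∀ v, ω v v = 0 := fun v => by rw [hωa, form_self hJ]
  have hnd : ∀ u, (∀ v, ω u v = 0) → u = 0 := by
    intro u hu
    have h1 : ∀ w : Fin n → ℂ, u ⬝ᵥ w = 0 := by
      intro w
      have h2 := hu (J⁻¹ *ᵥ w)
      rw [hωa, mulVec_mulVec, mul_nonsing_inv _ (Ne.isUnit hdet), one_mulVec] at h2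
      exact h2
    funext i
    have := h1 (Pi.single i 1)
    rwa [dotProduct_single_one] at this
  have hpres : ∀ u v, ω (Matrix.toLin' g u) (Matrix.toLin' g v) = ω u v := by
    intro u v
    rw [hωa, hωa, toLin'_apply, toLin'_apply]
    rw [mulVec_mulVec, ← vecMul_transpose, ← dotProduct_mulVec, mulVec_mulVec, ← Matrix.mul_assoc, hg]
  have hmem := Pool.Agent.W948.ZC.TR.aux ℂ _ (Fin n → ℂ) ω rfl h0 hnd (Matrix.toLin' g) hpres
  have hmv : ∀ (v x : Fin n → ℂ) (s : ℂ), IsNilpotent.exp (s • nv J v) *ᵥ x = x + (s * (v ⬝ᵥ (J *ᵥ x))) • v := by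
    intro v x s
    rw [nv_exp hJ, Matrix.add_mulVec, Matrix.one_mulVec, Matrix.smul_mulVec]
    congr 1
    unfold nv
    rw [vecMulVec_mulVec, ← dotProduct_mulVec]
    ext i
    simp
    ring
  have key : ∀ T ∈ Pool.Agent.W948.ZC.TR.G ω, LinearMap.toMatrix' T ∈ S := by
    intro T hT
    unfold Pool.Agent.W948.ZC.TR.G at hT
    induction hT using Submonoid.closure_induction with
    | mem T h =>
      obtain ⟨c, u, rfl⟩ := h
      have h1 : LinearMap.toMatrix' (1 + c • (ω u).smulRight u) = IsNilpotent.exp (c • nv J u) := by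
        apply (Matrix.toLin'.injective)
        rw [toLin'_toMatrix']
        ext x i
        have h2 : (Matrix.toLin' (IsNilpotent.exp (c • nv J u))) (Pi.single x 1) =
          IsNilpotent.exp (c • nv J u) *ᵥ (Pi.single x 1) := rfl
        rw [LinearMap.comp_apply, LinearMap.comp_apply, LinearMap.single_apply, h2, hmv, ← hωa]
        simp [LinearMap.add_apply, mul_assoc]
      rw [h1]
      exact hS _ c
    | one =>
      have : LinearMap.toMatrix' (1 : Module.End ℂ (Fin n → ℂ)) = 1 := LinearMap.toMatrix'_id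
      rw [this]
      exact one_mem _
    | mul A B _ _ hA hB =>
      have : LinearMap.toMatrix' (A * B) = LinearMap.toMatrix' A * LinearMap.toMatrix' B :=
        LinearMap.toMatrix'_mul A B
      rw [this]
      exact mul_mem hA hB
  have := key _ hmem
  rwa [LinearMap.toMatrix'_toLin'] at this

theorem nv_add (u v : Fin n → ℂ) :
    nv J (u + v) = nv J u + nv J v + (vecMulVec u (v ᵥ* J) + vecMulVec v (u ᵥ* J)) := by
  unfold nv
  rw [add_vecMul, add_vecMulVec, vecMulVec_add, vecMulVec_add]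
  abel

/-- the nilpotent matrices are in the span of their commutators -/
theorem nv_perf (hJ : Jᵀ = -J) (hdet : J.det ≠ 0) (v : Fin n → ℂ) :
    nv J v ∈ Submodule.span ℂ {C : Matrix (Fin n) (Fin n) ℂ | ∃ u w, C = nv J u * nv J w - nv J w * nv J u} := by
  by_cases hv : v = 0
  · subst hv
    have : nv J (0 : Fin n → ℂ) = 0 := by
      unfold nv
      rw [zero_vecMulVec]
    rw [this]
    exact Submodule.zero_mem _
  obtain ⟨a, ha⟩ : ∃ a : Fin n → ℂ, a ⬝ᵥ (J *ᵥ v) ≠ 0 := by
    by_contra hcon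
    push Not at hcon
    apply hv
    have h1 : J *ᵥ v = 0 := by
      funext i
      have := hcon (Pi.single i 1)
      rwa [single_one_dotProduct] at this
    have h2 : v = J⁻¹ *ᵥ (J *ᵥ v) := by
      rw [mulVec_mulVec, nonsing_inv_mul _ (Ne.isUnit hdet), one_mulVec]
    rw [h2, h1, mulVec_zero]
  have hc : ∀ u w : Fin n → ℂ, nv J u * nv J w - nv J w * nv J u =
      (u ⬝ᵥ (J *ᵥ w)) • (vecMulVec u (w ᵥ* J) + vecMulVec w (u ᵥ* J)) := by
    intro u w
    rw [nv_mul, nv_mul, form_skew hJ u w, smul_add, neg_smul, sub_neg_eq_add]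
  have h1 : (nv J (a + v) * nv J v - nv J v * nv J (a + v)) - (nv J a * nv J v - nv J v * nv J a) =
      ((a ⬝ᵥ (J *ᵥ v)) * 2) • nv J v := by
    rw [hc, hc, add_dotProduct, form_self hJ, add_zero, ← smul_sub, mul_smul]
    congr 1
    unfold nv
    rw [add_vecMulVec, add_vecMul, vecMulVec_add, two_smul]
    abel
  have h2 : nv J v = ((a ⬝ᵥ (J *ᵥ v)) * 2)⁻¹ • ((nv J (a + v) * nv J v - nv J v * nv J (a + v)) -
      (nv J a * nv J v - nv J v * nv J a)) := by
    rw [h1, smul_smul, inv_mul_cancel₀ (mul_ne_zero ha two_ne_zero), one_smul]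
  rw [h2]
  refine Submodule.smul_mem _ _ (Submodule.sub_mem _ ?_ ?_)
  · exact Submodule.subset_span ⟨_, _, rfl⟩
  · exact Submodule.subset_span ⟨_, _, rfl⟩

/-- the Lie algebra is spanned by the nilpotent matrices -/
theorem nv_span (hJ : Jᵀ = -J) (hdet : J.det ≠ 0) {β : Matrix (Fin n) (Fin n) ℂ} (hβ : βᵀ * J + J * β = 0) :
    β ∈ Submodule.span ℂ (Set.range (nv J)) := by
  have hu := Ne.isUnit hdet
  set S := β * J⁻¹ with hS
  have hβS : β = S * J := by
    rw [hS, Matrix.mul_assoc, nonsing_inv_mul _ hu, Matrix.mul_one]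
  have hJT : (J⁻¹)ᵀ = -J⁻¹ := by
    rw [transpose_nonsing_inv, hJ]
    apply inv_eq_left_inv
    rw [neg_mul_neg, nonsing_inv_mul _ hu]
  have hsym : Sᵀ = S := by
    rw [hS, transpose_mul, hJT]
    have h1 : βᵀ * J = -(J * β) := by
      rw [eq_neg_iff_add_eq_zero]; exact hβ
    have h2 : βᵀ = -(J * β * J⁻¹) := by
      calc βᵀ = βᵀ * J * J⁻¹ := by rw [Matrix.mul_assoc, mul_nonsing_inv _ hu, Matrix.mul_one]
        _ = -(J * β * J⁻¹) := by rw [h1, Matrix.neg_mul]
    rw [h2, neg_mul_neg, ← Matrix.mul_assoc, ← Matrix.mul_assoc, nonsing_inv_mul _ hu, Matrix.one_mul]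
  have hik : ∀ i k : Fin n, (Matrix.single i k (1 : ℂ) + Matrix.single k i 1) * J ∈
      Submodule.span ℂ (Set.range (nv J)) := by
    intro i k
    have h1 : ∀ u : Fin n → ℂ, nv J u = vecMulVec u u * J := by
      intro u
      unfold nv
      rw [vecMulVec_mul]
    have hE : ∀ u, nv J u ∈ Submodule.span ℂ (Set.range (nv J)) := fun u => Submodule.subset_span ⟨u, rfl⟩
    have h2 := Submodule.sub_mem _ (Submodule.sub_mem _ (hE (Pi.single i 1 + Pi.single k 1)) (hE (Pi.single i 1)))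
      (hE (Pi.single k 1))
    rw [h1, h1, h1, ← Matrix.sub_mul, ← Matrix.sub_mul] at h2
    convert h2 using 2
    rw [add_vecMulVec, vecMulVec_add, vecMulVec_add, ← Matrix.single_eq_single_vecMulVec_single,
      ← Matrix.single_eq_single_vecMulVec_single, ← Matrix.single_eq_single_vecMulVec_single,
      ← Matrix.single_eq_single_vecMulVec_single]
    abel
  have hsum : β = ∑ i, ∑ k, (S i k / 2) • ((Matrix.single i k (1 : ℂ) + Matrix.single k i 1) * J) := by
    have h3 : S = ∑ i, ∑ k, (S i k / 2) • (Matrix.single i k (1 : ℂ) + Matrix.single k i 1) := by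
      ext a b
      simp only [Matrix.sum_apply, Matrix.smul_apply, Matrix.add_apply, smul_eq_mul, Matrix.single_apply]
      simp only [mul_add, Finset.sum_add_distrib, mul_ite, mul_one, mul_zero]
      have e1 : ∑ x, ∑ x_1, (if x = a ∧ x_1 = b then S x x_1 / 2 else 0) = S a b / 2 := by
        rw [Finset.sum_eq_single a]
        · rw [Finset.sum_eq_single b]
          · simp
          · intro y _ hy; simp [hy]
          · intro h; exact absurd (Finset.mem_univ _) h
        · intro x _ hx; simp [hx]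
        · intro h; exact absurd (Finset.mem_univ _) h
      have e2 : ∑ x, ∑ x_1, (if x_1 = a ∧ x = b then S x x_1 / 2 else 0) = S b a / 2 := by
        rw [Finset.sum_eq_single b]
        · rw [Finset.sum_eq_single a]
          · simp
          · intro y _ hy; simp [hy]
          · intro h; exact absurd (Finset.mem_univ _) h
        · intro x _ hx; simp [hx]
        · intro h; exact absurd (Finset.mem_univ _) h
      rw [e1, e2]
      have h4 : S b a = S a b := by
        have := congrFun (congrFun hsym a) b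
        rw [transpose_apply] at this
        exact this
      rw [h4]
      ring
    conv_lhs => rw [hβS, h3, Matrix.sum_mul]
    refine Finset.sum_congr rfl fun i _ => ?_
    rw [Matrix.sum_mul]
    refine Finset.sum_congr rfl fun k _ => ?_
    rw [Matrix.smul_mul]
  rw [hsum]
  exact Submodule.sum_mem _ fun i _ => Submodule.sum_mem _ fun k _ => Submodule.smul_mem _ _ (hik i k)

end Pool.Agent.Y123.GN
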