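import Pool.Agent.Y123.GN.A5
import Pool.Agent.Y123.GN.C1

/-!
# Sums of a fixed object, Kummer motives and symplectic motives of different ranks
-/

set_option autoImplicit false
set_option linter.unusedSectionVars false

open Matrix

namespace Pool.Agent.Y123.GN

open Pool.Agent.TH127.PT Pool.Agent.Y123.ST

variable {B₀ : Type} [Fintype B₀] [DecidableEq B₀] {k : ℕ} {n : Fin k → ℕ}

/-- the index set -/
abbrev IM (B₀ : Type) {k : ℕ} (n : Fin k → ℕ) : Type := B₀ ⊕ (Σ i : Fin k, Fin 2 ⊕ Fin (n i))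

/-- block matrices -/
noncomputable def EM (x : Matrix B₀ B₀ ℂ) (κ : Fin k → Matrix (Fin 2) (Fin 2) ℂ)
    (X : ∀ i, Matrix (Fin (n i)) (Fin (n i)) ℂ) : Matrix (IM B₀ n) (IM B₀ n) ℂ :=
  fromBlocks x 0 0 (blockDiagonal' fun i => fromBlocks (κ i) 0 0 (X i))

theorem EM_mul (x y : Matrix B₀ B₀ ℂ) (κ μ : Fin k → Matrix (Fin 2) (Fin 2) ℂ)
    (X Y : ∀ i, Matrix (Fin (n i)) (Fin (n i)) ℂ) :
    EM x κ X * EM y μ Y = EM (x * y) (fun i => κ i * μ i) (fun i => X i * Y i) := by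
  unfold EM
  rw [fromBlocks_multiply, ← blockDiagonal'_mul]
  congr 1
  · simp
  · simp
  · simp
  · rw [Matrix.mul_zero, zero_add]
    congr 1
    funext i
    rw [fromBlocks_multiply]
    simp

theorem EM_add (x y : Matrix B₀ B₀ ℂ) (κ μ : Fin k → Matrix (Fin 2) (Fin 2) ℂ)
    (X Y : ∀ i, Matrix (Fin (n i)) (Fin (n i)) ℂ) : EM x κ X + EM y μ Y = EM (x + y) (κ + μ) (X + Y) := by
  unfold EM
  rw [fromBlocks_add, ← blockDiagonal'_add]
  congr 1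
  · simp
  · simp
  · congr 1
    funext i
    rw [Pi.add_apply, fromBlocks_add]
    simp

theorem EM_smul (s : ℂ) (x : Matrix B₀ B₀ ℂ) (κ : Fin k → Matrix (Fin 2) (Fin 2) ℂ)
    (X : ∀ i, Matrix (Fin (n i)) (Fin (n i)) ℂ) : s • EM x κ X = EM (s • x) (s • κ) (s • X) := by
  unfold EM
  rw [fromBlocks_smul, ← blockDiagonal'_smul]
  congr 1
  · simp
  · simp
  · congr 1
    funext i
    rw [Pi.smul_apply, fromBlocks_smul]
    simp

theorem EM_one : EM (1 : Matrix B₀ B₀ ℂ) (1 : Fin k → Matrix (Fin 2) (Fin 2) ℂ)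
    (1 : ∀ i, Matrix (Fin (n i)) (Fin (n i)) ℂ) = 1 := by
  unfold EM
  have h1 : (fun i : Fin k => fromBlocks ((1 : Fin k → Matrix (Fin 2) (Fin 2) ℂ) i) 0 0
      ((1 : ∀ i, Matrix (Fin (n i)) (Fin (n i)) ℂ) i)) = 1 := by
    funext i
    exact fromBlocks_one
  rw [h1, blockDiagonal'_one, fromBlocks_one]

theorem EM_zero : EM (0 : Matrix B₀ B₀ ℂ) (0 : Fin k → Matrix (Fin 2) (Fin 2) ℂ)
    (0 : ∀ i, Matrix (Fin (n i)) (Fin (n i)) ℂ) = 0 := by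
  unfold EM
  have h1 : (fun i : Fin k => fromBlocks ((0 : Fin k → Matrix (Fin 2) (Fin 2) ℂ) i) 0 0
      ((0 : ∀ i, Matrix (Fin (n i)) (Fin (n i)) ℂ) i)) = 0 := by
    funext i
    exact fromBlocks_zero
  rw [h1, blockDiagonal'_zero, fromBlocks_zero]

theorem EM_inj {x y : Matrix B₀ B₀ ℂ} {κ μ : Fin k → Matrix (Fin 2) (Fin 2) ℂ}
    {X Y : ∀ i, Matrix (Fin (n i)) (Fin (n i)) ℂ} (h : EM x κ X = EM y μ Y) : x = y ∧ κ = μ ∧ X = Y := by
  unfold EM at h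
  rw [fromBlocks_inj] at h
  have h1 := blockDiagonal'_injective h.2.2.2
  refine ⟨h.1, funext fun i => ?_, funext fun i => ?_⟩
  · exact (fromBlocks_inj.1 (congrFun h1 i)).1
  · exact (fromBlocks_inj.1 (congrFun h1 i)).2.2.2

theorem EM_map {R : Type*} [FunLike R ℂ ℂ] [ZeroHomClass R ℂ ℂ] (σ : R) (x : Matrix B₀ B₀ ℂ)
    (κ : Fin k → Matrix (Fin 2) (Fin 2) ℂ) (X : ∀ i, Matrix (Fin (n i)) (Fin (n i)) ℂ) :
    (EM x κ X).map σ = EM (x.map σ) (fun i => (κ i).map σ) (fun i => (X i).map σ) := by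
  unfold EM
  have hz : ∀ (a b : Type), (0 : Matrix a b ℂ).map σ = 0 := by
    intro a b
    ext i j
    simp
  rw [fromBlocks_map, hz, hz, blockDiagonal'_map _ _ (map_zero σ)]
  congr 2
  funext i
  rw [fromBlocks_map, hz, hz]

/-- block matrices as a ring homomorphism -/
noncomputable def Mh (B₀ : Type) [Fintype B₀] [DecidableEq B₀] {k : ℕ} (n : Fin k → ℕ) :
    (Matrix B₀ B₀ ℂ × ((Fin k → Matrix (Fin 2) (Fin 2) ℂ) × (∀ i, Matrix (Fin (n i)) (Fin (n i)) ℂ))) →+*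
      Matrix (IM B₀ n) (IM B₀ n) ℂ where
  toFun x := EM x.1 x.2.1 x.2.2
  map_one' := EM_one
  map_mul' _ _ := (EM_mul _ _ _ _ _ _).symm
  map_zero' := EM_zero
  map_add' _ _ := (EM_add _ _ _ _ _ _).symm

theorem Mh_apply (x : Matrix B₀ B₀ ℂ) (κ : Fin k → Matrix (Fin 2) (Fin 2) ℂ)
    (X : ∀ i, Matrix (Fin (n i)) (Fin (n i)) ℂ) : Mh B₀ n (x, κ, X) = EM x κ X := rfl

theorem EM_mul_inv {x : Matrix B₀ B₀ ℂ} (hx : IsUnit x) {κ : Fin k → Matrix (Fin 2) (Fin 2) ℂ}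
    (hκ : ∀ i, IsUnit (κ i)) {X : ∀ i, Matrix (Fin (n i)) (Fin (n i)) ℂ} (hX : ∀ i, IsUnit (X i)) :
    EM x κ X * EM x⁻¹ (fun i => (κ i)⁻¹) (fun i => (X i)⁻¹) = 1 := by
  rw [EM_mul, mul_nonsing_inv _ ((Matrix.isUnit_iff_isUnit_det x).1 hx), ← EM_one]
  congr 1
  · funext i
    exact mul_nonsing_inv _ ((Matrix.isUnit_iff_isUnit_det _).1 (hκ i))
  · funext i
    exact mul_nonsing_inv _ ((Matrix.isUnit_iff_isUnit_det _).1 (hX i))

theorem EM_isUnit {x : Matrix B₀ B₀ ℂ} (hx : IsUnit x) {κ : Fin k → Matrix (Fin 2) (Fin 2) ℂ}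
    (hκ : ∀ i, IsUnit (κ i)) {X : ∀ i, Matrix (Fin (n i)) (Fin (n i)) ℂ} (hX : ∀ i, IsUnit (X i)) :
    IsUnit (EM x κ X) := IsUnit.of_mul_eq_one _ (EM_mul_inv hx hκ hX)

theorem EM_inv {x : Matrix B₀ B₀ ℂ} (hx : IsUnit x) {κ : Fin k → Matrix (Fin 2) (Fin 2) ℂ}
    (hκ : ∀ i, IsUnit (κ i)) {X : ∀ i, Matrix (Fin (n i)) (Fin (n i)) ℂ} (hX : ∀ i, IsUnit (X i)) :
    (EM x κ X)⁻¹ = EM x⁻¹ (fun i => (κ i)⁻¹) (fun i => (X i)⁻¹) :=
  inv_eq_right_inv (EM_mul_inv hx hκ hX)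

theorem unit_of_EM {x : Matrix B₀ B₀ ℂ} {κ : Fin k → Matrix (Fin 2) (Fin 2) ℂ}
    {X : ∀ i, Matrix (Fin (n i)) (Fin (n i)) ℂ} (h : IsUnit (EM x κ X)) :
    IsUnit x ∧ (∀ i, IsUnit (κ i)) ∧ ∀ i, IsUnit (X i) := by
  obtain ⟨Y, hY⟩ := h.exists_right_inv
  refine ⟨?_, fun i => ?_, fun i => ?_⟩
  · refine IsUnit.of_mul_eq_one (Y.submatrix Sum.inl Sum.inl) ?_
    ext a b
    have h1 := congrFun (congrFun hY (Sum.inl a)) (Sum.inl b)
    rw [Matrix.mul_apply, Fintype.sum_sum_type] at h1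
    rw [Matrix.mul_apply]
    simpa [EM, Matrix.one_apply] using h1
  · refine IsUnit.of_mul_eq_one (Y.submatrix (fun a => Sum.inr ⟨i, Sum.inl a⟩) (fun a => Sum.inr ⟨i, Sum.inl a⟩)) ?_
    ext a b
    have h1 := congrFun (congrFun hY (Sum.inr ⟨i, Sum.inl a⟩)) (Sum.inr ⟨i, Sum.inl b⟩)
    rw [Matrix.mul_apply, Fintype.sum_sum_type, Fintype.sum_sigma] at h1
    rw [Finset.sum_eq_single i] at h1
    rotate_left
    · intro j _ hj
      rw [Fintype.sum_sum_type]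
      have h2 : ∀ c, (blockDiagonal' fun i => fromBlocks (κ i) 0 0 (X i)) ⟨i, Sum.inl a⟩ ⟨j, c⟩ = 0 := by
        intro c
        exact blockDiagonal'_apply_ne _ _ _ (Ne.symm hj)
      simp [EM, h2]
    · intro hj
      exact absurd (Finset.mem_univ i) hj
    rw [Fintype.sum_sum_type] at h1
    have h3 : ∀ c, (blockDiagonal' fun i => fromBlocks (κ i) 0 0 (X i)) ⟨i, Sum.inl a⟩ ⟨i, c⟩ =
        fromBlocks (κ i) 0 0 (X i) (Sum.inl a) c := by
      intro c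
      exact blockDiagonal'_apply_eq _ _ _ _
    rw [Matrix.mul_apply]
    simpa [EM, Matrix.one_apply, h3] using h1
  · refine IsUnit.of_mul_eq_one (Y.submatrix (fun a => Sum.inr ⟨i, Sum.inr a⟩) (fun a => Sum.inr ⟨i, Sum.inr a⟩)) ?_
    ext a b
    have h1 := congrFun (congrFun hY (Sum.inr ⟨i, Sum.inr a⟩)) (Sum.inr ⟨i, Sum.inr b⟩)
    rw [Matrix.mul_apply, Fintype.sum_sum_type, Fintype.sum_sigma] at h1
    rw [Finset.sum_eq_single i] at h1
    rotate_left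
    · intro j _ hj
      rw [Fintype.sum_sum_type]
      have h2 : ∀ c, (blockDiagonal' fun i => fromBlocks (κ i) 0 0 (X i)) ⟨i, Sum.inr a⟩ ⟨j, c⟩ = 0 := by
        intro c
        exact blockDiagonal'_apply_ne _ _ _ (Ne.symm hj)
      simp [EM, h2]
    · intro hj
      exact absurd (Finset.mem_univ i) hj
    rw [Fintype.sum_sum_type] at h1
    have h3 : ∀ c, (blockDiagonal' fun i => fromBlocks (κ i) 0 0 (X i)) ⟨i, Sum.inr a⟩ ⟨i, c⟩ =
        fromBlocks (κ i) 0 0 (X i) (Sum.inr a) c := by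
      intro c
      exact blockDiagonal'_apply_eq _ _ _ _
    rw [Matrix.mul_apply]
    simpa [EM, Matrix.one_apply, h3] using h1

/-- one block, the others are `1` -/
noncomputable def su (i : Fin k) (A : Matrix (Fin (n i)) (Fin (n i)) ℂ) : ∀ j, Matrix (Fin (n j)) (Fin (n j)) ℂ :=
  Function.update 1 i A

theorem su_same (i : Fin k) (A : Matrix (Fin (n i)) (Fin (n i)) ℂ) : su i A i = A := Function.update_self ..

theorem su_ne {i j : Fin k} (h : j ≠ i) (A : Matrix (Fin (n i)) (Fin (n i)) ℂ) : su i A j = 1 :=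
  Function.update_of_ne h ..

theorem su_one (i : Fin k) : su (n := n) i 1 = 1 := by
  funext j
  by_cases h : j = i
  · subst h
    rw [su_same]
    rfl
  · rw [su_ne h]
    rfl

theorem su_mul (i : Fin k) (A B : Matrix (Fin (n i)) (Fin (n i)) ℂ) : (fun j => su i A j * su i B j) = su i (A * B) := by
  funext j
  by_cases h : j = i
  · subst h
    rw [su_same, su_same, su_same]
  · rw [su_ne h, su_ne h, su_ne h, Matrix.one_mul]

theorem single_nil' {i : Fin k} {N : Matrix (Fin (n i)) (Fin (n i)) ℂ} (hN : IsNilpotent N) :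
    IsNilpotent ((0, 0, Pi.single i N) : Matrix B₀ B₀ ℂ × ((Fin k → Matrix (Fin 2) (Fin 2) ℂ) ×
      (∀ i, Matrix (Fin (n i)) (Fin (n i)) ℂ))) := by
  obtain ⟨m, hm⟩ := hN
  refine ⟨m + 1, ?_⟩
  refine Prod.ext ?_ (Prod.ext ?_ ?_)
  · show (0 : Matrix B₀ B₀ ℂ) ^ (m + 1) = 0
    rw [pow_succ, Matrix.mul_zero]
  · show (0 : Fin k → Matrix (Fin 2) (Fin 2) ℂ) ^ (m + 1) = 0
    rw [pow_succ, mul_zero]
  · funext j
    show (Pi.single i N : ∀ i, Matrix (Fin (n i)) (Fin (n i)) ℂ) j ^ (m + 1) = 0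
    by_cases h : j = i
    · subst h
      rw [Pi.single_eq_same, pow_succ, hm, Matrix.zero_mul]
    · rw [Pi.single_eq_of_ne h, pow_succ, Matrix.mul_zero]

theorem M_single_nil {i : Fin k} {N : Matrix (Fin (n i)) (Fin (n i)) ℂ} (hN : IsNilpotent N) :
    IsNilpotent (EM (0 : Matrix B₀ B₀ ℂ) 0 (Pi.single i N)) := by
  rw [← Mh_apply]
  exact (single_nil' hN).map (Mh B₀ n)

theorem M_exp_single {i : Fin k} {N : Matrix (Fin (n i)) (Fin (n i)) ℂ} (hN : IsNilpotent N) (t : ℂ) :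
    IsNilpotent.exp (t • EM (0 : Matrix B₀ B₀ ℂ) 0 (Pi.single i N)) = EM 1 1 (su i (IsNilpotent.exp (t • N))) := by
  have h1 : t • EM (0 : Matrix B₀ B₀ ℂ) 0 (Pi.single i N) = Mh B₀ n (0, 0, Pi.single i (t • N)) := by
    rw [Mh_apply, EM_smul, smul_zero, smul_zero, Pi.single_smul]
  have hn := single_nil' (B₀ := B₀) (hN.smul t) (i := i)
  rw [h1, ← IsNilpotent.map_exp hn (Mh B₀ n)]
  set e := IsNilpotent.exp ((0, 0, Pi.single i (t • N)) : Matrix B₀ B₀ ℂ × ((Fin k → Matrix (Fin 2) (Fin 2) ℂ) ×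
      (∀ i, Matrix (Fin (n i)) (Fin (n i)) ℂ))) with he
  have h2 : e.1 = 1 := by
    have h3 := IsNilpotent.map_exp hn (RingHom.fst (Matrix B₀ B₀ ℂ) ((Fin k → Matrix (Fin 2) (Fin 2) ℂ) ×
      (∀ i, Matrix (Fin (n i)) (Fin (n i)) ℂ)))
    have h4 : RingHom.fst (Matrix B₀ B₀ ℂ) ((Fin k → Matrix (Fin 2) (Fin 2) ℂ) ×
      (∀ i, Matrix (Fin (n i)) (Fin (n i)) ℂ)) (0, 0, Pi.single i (t • N)) = 0 := rfl
    rw [h4, IsNilpotent.exp_zero] at h3
    exact h3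
  have h2' : e.2.1 = 1 := by
    have h3 := IsNilpotent.map_exp hn ((RingHom.fst (Fin k → Matrix (Fin 2) (Fin 2) ℂ)
      (∀ i, Matrix (Fin (n i)) (Fin (n i)) ℂ)).comp (RingHom.snd (Matrix B₀ B₀ ℂ) ((Fin k → Matrix (Fin 2) (Fin 2) ℂ) ×
      (∀ i, Matrix (Fin (n i)) (Fin (n i)) ℂ))))
    have h4 : ((RingHom.fst (Fin k → Matrix (Fin 2) (Fin 2) ℂ)
      (∀ i, Matrix (Fin (n i)) (Fin (n i)) ℂ)).comp (RingHom.snd (Matrix B₀ B₀ ℂ) ((Fin k → Matrix (Fin 2) (Fin 2) ℂ) ×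
      (∀ i, Matrix (Fin (n i)) (Fin (n i)) ℂ)))) (0, 0, Pi.single i (t • N)) = 0 := rfl
    rw [h4, IsNilpotent.exp_zero] at h3
    exact h3
  have h5 : e.2.2 = su i (IsNilpotent.exp (t • N)) := by
    funext j
    have h3 := IsNilpotent.map_exp hn ((Pi.evalRingHom (fun j : Fin k => Matrix (Fin (n j)) (Fin (n j)) ℂ) j).comp
      ((RingHom.snd (Fin k → Matrix (Fin 2) (Fin 2) ℂ)
      (∀ i, Matrix (Fin (n i)) (Fin (n i)) ℂ)).comp (RingHom.snd (Matrix B₀ B₀ ℂ) ((Fin k → Matrix (Fin 2) (Fin 2) ℂ) ×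
      (∀ i, Matrix (Fin (n i)) (Fin (n i)) ℂ)))))
    have h4 : ((Pi.evalRingHom (fun j : Fin k => Matrix (Fin (n j)) (Fin (n j)) ℂ) j).comp
      ((RingHom.snd (Fin k → Matrix (Fin 2) (Fin 2) ℂ)
      (∀ i, Matrix (Fin (n i)) (Fin (n i)) ℂ)).comp (RingHom.snd (Matrix B₀ B₀ ℂ) ((Fin k → Matrix (Fin 2) (Fin 2) ℂ) ×
      (∀ i, Matrix (Fin (n i)) (Fin (n i)) ℂ))))) (0, 0, Pi.single i (t • N)) =
        (Pi.single i (t • N) : ∀ i, Matrix (Fin (n i)) (Fin (n i)) ℂ) j := rfl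
    rw [h4] at h3
    refine Eq.trans h3 ?_
    by_cases h : j = i
    · subst h
      rw [su_same, Pi.single_eq_same]
    · rw [su_ne h, Pi.single_eq_of_ne h, IsNilpotent.exp_zero]
  show EM e.1 e.2.1 e.2.2 = _
  rw [h2, h2', h5]

/-- the linear map to one block -/
noncomputable def Ms (B₀ : Type) [Fintype B₀] [DecidableEq B₀] {k : ℕ} {n : Fin k → ℕ} (i : Fin k) :
    Matrix (Fin (n i)) (Fin (n i)) ℂ →ₗ[ℂ] Matrix (IM B₀ n) (IM B₀ n) ℂ where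
  toFun N := EM 0 0 (Pi.single i N)
  map_add' x y := by rw [EM_add, Pi.single_add, add_zero, add_zero]
  map_smul' s x := by rw [RingHom.id_apply, EM_smul, smul_zero, smul_zero, Pi.single_smul]

theorem Ms_apply (i : Fin k) (N : Matrix (Fin (n i)) (Fin (n i)) ℂ) : Ms B₀ i N = EM 0 0 (Pi.single i N) := rfl

theorem Ms_mul (i : Fin k) (A B : Matrix (Fin (n i)) (Fin (n i)) ℂ) :
    Ms B₀ (n := n) i A * Ms B₀ i B = Ms B₀ i (A * B) := by
  rw [Ms_apply, Ms_apply, Ms_apply, EM_mul, Matrix.zero_mul]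
  congr 1
  · funext j
    exact Matrix.zero_mul _
  · funext j
    by_cases h : j = i
    · subst h
      rw [Pi.single_eq_same, Pi.single_eq_same, Pi.single_eq_same]
    · rw [Pi.single_eq_of_ne h, Pi.single_eq_of_ne h, Pi.single_eq_of_ne h, Matrix.zero_mul]

/-- the unipotent matrix of a Kummer motive -/
def uu (a : ℂ) : Matrix (Fin 2) (Fin 2) ℂ := !![1, a; 0, 1]

/-- the period matrix of a Kummer motive -/
def kum (l τ : ℂ) : Matrix (Fin 2) (Fin 2) ℂ := !![1, l; 0, τ]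

theorem uu_mul (a b : ℂ) : uu a * uu b = uu (a + b) := by
  unfold uu
  ext i j
  fin_cases i <;> fin_cases j <;> simp [Matrix.mul_apply, Fin.sum_univ_two]
  ring

theorem uu_zero : uu 0 = 1 := by
  unfold uu
  ext i j
  fin_cases i <;> fin_cases j <;> simp

theorem uu_kum (a l τ : ℂ) : uu a * kum l τ = kum (l + a * τ) τ := by
  unfold uu kum
  ext i j
  fin_cases i <;> fin_cases j <;> simp [Matrix.mul_apply, Fin.sum_univ_two]

theorem uu_unit (a : ℂ) : IsUnit (uu a) := by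
  refine IsUnit.of_mul_eq_one (uu (-a)) ?_
  rw [uu_mul, add_neg_cancel, uu_zero]

theorem kum_unit {l τ : ℂ} (hτ : τ ≠ 0) : IsUnit (kum l τ) := by
  rw [Matrix.isUnit_iff_isUnit_det]
  unfold kum
  rw [det_fin_two_of]
  simpa using hτ

end Pool.Agent.Y123.GN
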