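import Mathlib

/-!
# Lagrangian decompositions and curves of similitudes
-/

set_option autoImplicit false
set_option linter.unusedSectionVars false

open Matrix Module

namespace Pool.Agent.Y123.GN

theorem lag_exists (n : ℕ) : ∀ (V : Type) [AddCommGroup V] [Module ℂ V] [FiniteDimensional ℂ V]
    (ω : V →ₗ[ℂ] V →ₗ[ℂ] ℂ) (_ : ∀ v, ω v v = 0) (_ : ∀ u, (∀ v, ω u v = 0) → u = 0) (_ : finrank ℂ V ≤ n),
    ∃ p : V →ₗ[ℂ] V, (∀ v, p (p v) = p v) ∧ ∀ u v, ω (p u) v + ω u (p v) = ω u v := by
  induction n with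
  | zero =>
    intro V _ _ _ ω _ _ h
    have : Subsingleton V := finrank_zero_iff.1 (Nat.le_zero.1 h)
    exact ⟨LinearMap.id, fun v => rfl, fun u v => by rw [Subsingleton.elim u 0]; simp⟩
  | succ n ih =>
    intro V _ _ _ ω halt hnd hdim
    by_cases hV : ∃ a : V, a ≠ 0
    swap
    · push Not at hV
      exact ⟨LinearMap.id, fun v => rfl, fun u v => by rw [hV u]; simp⟩
    obtain ⟨a, ha⟩ := hV
    have hanti : ∀ u v, ω u v = -ω v u := by
      intro u v
      have h1 := halt (u + v)
      simp only [map_add, LinearMap.add_apply, halt, zero_add, add_zero] at h1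
      linear_combination h1
    obtain ⟨b', hb'⟩ : ∃ v, ω a v ≠ 0 := by
      by_contra hcon
      push Not at hcon
      exact ha (hnd a hcon)
    obtain ⟨b, hab⟩ : ∃ b, ω a b = 1 := by
      refine ⟨(ω a b')⁻¹ • b', ?_⟩
      rw [map_smul, smul_eq_mul]
      exact inv_mul_cancel₀ hb'
    have hba : ω b a = -1 := by rw [hanti, hab]
    let F : V →ₗ[ℂ] ℂ × ℂ := (ω a).prod (ω b)
    have hF : ∀ v, F v = (ω a v, ω b v) := fun v => rfl
    let W : Submodule ℂ V := LinearMap.ker F
    have hW : ∀ v : V, v ∈ W ↔ ω a v = 0 ∧ ω b v = 0 := by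
      intro v
      rw [LinearMap.mem_ker, hF]
      exact Prod.mk_eq_zero
    have hlt : finrank ℂ W < finrank ℂ V := by
      refine Submodule.finrank_lt fun htop => ?_
      have h1 : a ∈ W := by rw [htop]; exact Submodule.mem_top
      have h2 := ((hW a).1 h1).2
      rw [hba] at h2
      norm_num at h2
    have hω' : ∀ u v : W, (ω.domRestrict₁₂ W W) u v = ω u v := fun u v => rfl
    obtain ⟨p', hp1, hp2⟩ := ih W (ω.domRestrict₁₂ W W) (fun w => halt w) (by
      intro u hu
      apply Subtype.ext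
      apply hnd
      intro v
      obtain ⟨hu1, hu2⟩ := (hW u).1 u.2
      have hv : v - (ω a v) • b + (ω b v) • a ∈ W := by
        rw [hW]
        constructor
        · simp [hab, halt]
        · simp [hba, halt]
      have h2 := hu ⟨_, hv⟩
      rw [hω'] at h2
      simp only [map_sub, map_add, map_smul, smul_eq_mul] at h2
      rw [hanti u b, hanti u a, hu1, hu2] at h2
      linear_combination h2) (by omega)
    let π₀ : V →ₗ[ℂ] V := LinearMap.id - (ω.flip b).smulRight a - (ω a).smulRight b
    have hπ₀ : ∀ v, π₀ v = v - (ω v b) • a - (ω a v) • b := fun v => rfl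
    have hπ : ∀ v, π₀ v ∈ W := by
      intro v
      rw [hW, hπ₀]
      constructor
      · simp [hab, halt]
      · have h1 : ω b v = -ω v b := hanti b v
        simp only [map_sub, map_smul, smul_eq_mul, hba, halt, h1]
        ring
    let π : V →ₗ[ℂ] W := π₀.codRestrict W hπ
    have hπc : ∀ v, ((π v : W) : V) = v - (ω v b) • a - (ω a v) • b := fun v => rfl
    have hπW : ∀ w : W, π w = w := by
      intro w
      apply Subtype.ext
      rw [hπc]
      obtain ⟨h1, h2⟩ := (hW w).1 w.2
      rw [hanti, h2, h1]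
      simp
    have hπa : π a = 0 := by
      apply Subtype.ext
      rw [hπc, hab, halt]
      simp
    let p : V →ₗ[ℂ] V := (ω.flip b).smulRight a + W.subtype ∘ₗ p' ∘ₗ π
    have hp : ∀ v, p v = (ω v b) • a + (p' (π v) : V) := fun v => rfl
    have hWb : ∀ w : W, ω w b = 0 := by
      intro w
      rw [hanti, ((hW w).1 w.2).2, neg_zero]
    have hWa : ∀ w : W, ω w a = 0 := by
      intro w
      rw [hanti, ((hW w).1 w.2).1, neg_zero]
    refine ⟨p, fun v => ?_, fun u v => ?_⟩
    · rw [hp (p v), hp v]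
      rw [map_add, LinearMap.add_apply, map_smul, LinearMap.smul_apply, hab, hWb, map_add, map_smul, hπa, hπW, map_add,
        smul_zero, map_zero, zero_add, hp1]
      simp
    · have hu : u = (ω u b) • a + (ω a u) • b + (π u : V) := by
        rw [hπc]
        abel
      have hv : v = (ω v b) • a + (ω a v) • b + (π v : V) := by
        rw [hπc]
        abel
      have h3 := hp2 (π u) (π v)
      rw [hω', hω', hω'] at h3
      have aW : ∀ w : W, ω a w = 0 := fun w => ((hW w).1 w.2).1
      have bW : ∀ w : W, ω b w = 0 := fun w => ((hW w).1 w.2).2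
      have e1 : ω (p u) v = ω u b * ω a v + ω (p' (π u) : V) (π v : V) := by
        rw [hp]
        conv_lhs => rw [hv]
        simp only [map_add, map_smul, LinearMap.add_apply, LinearMap.smul_apply, smul_eq_mul, halt, hab, hWa, hWb, aW]
        ring
      have e2 : ω u (p v) = -(ω a u) * ω v b + ω (π u : V) (p' (π v) : V) := by
        rw [hp]
        conv_lhs => rw [hu]
        simp only [map_add, map_smul, LinearMap.add_apply, LinearMap.smul_apply, smul_eq_mul, halt, hba, hWa, hWb, aW, bW]
        ring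
      have e3 : ω u v = ω u b * ω a v - ω a u * ω v b + ω (π u : V) (π v : V) := by
        conv_lhs => rw [hu, hv]
        simp only [map_add, map_smul, LinearMap.add_apply, LinearMap.smul_apply, smul_eq_mul, halt, hab, hba, hWa, hWb, aW, bW]
        ring
      rw [e1, e2, e3]
      linear_combination h3

/-- Lagrangian decompositions, for matrices -/
theorem lag_mat {n : ℕ} {J : Matrix (Fin n) (Fin n) ℂ} (hJ : Jᵀ = -J) (hdet : J.det ≠ 0) :
    ∃ e : Matrix (Fin n) (Fin n) ℂ, e * e = e ∧ e * J + J * eᵀ = J := by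
  obtain ⟨p, hp1, hp2⟩ := lag_exists (finrank ℂ (Fin n → ℂ)) (Fin n → ℂ) (Matrix.toLinearMap₂' ℂ J) (by
      intro v
      rw [Matrix.toLinearMap₂'_apply']
      have h1 : v ⬝ᵥ (J *ᵥ v) = -(v ⬝ᵥ (J *ᵥ v)) := by
        conv_lhs => rw [dotProduct_mulVec, ← mulVec_transpose, hJ, neg_mulVec, neg_dotProduct, dotProduct_comm]
      linear_combination (1 / 2 : ℂ) * h1) (by
      intro u hu
      have h1 : u ᵥ* J = 0 := by
        refine dotProduct_eq_zero_iff.1 fun v => ?_
        rw [← dotProduct_mulVec]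
        have := hu v
        rwa [Matrix.toLinearMap₂'_apply'] at this
      exact Matrix.eq_zero_of_vecMul_eq_zero hdet h1) le_rfl
  refine ⟨(LinearMap.toMatrix' p)ᵀ, ?_, ?_⟩
  · rw [← transpose_mul, ← LinearMap.toMatrix'_comp]
    congr 2
    exact LinearMap.ext hp1
  · rw [transpose_transpose]
    have key : (Matrix.toLinearMap₂' ℂ ((LinearMap.toMatrix' p)ᵀ * J + J * LinearMap.toMatrix' p) :
        (Fin n → ℂ) →ₗ[ℂ] (Fin n → ℂ) →ₗ[ℂ] ℂ) = Matrix.toLinearMap₂' ℂ J := ?_
    · exact (Matrix.toLinearMap₂' ℂ).injective key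
    refine LinearMap.ext fun u => LinearMap.ext fun v => ?_
    have h1 := hp2 u v
    simp only [Matrix.toLinearMap₂'_apply'] at h1 ⊢
    rw [← h1, add_mulVec, dotProduct_add, ← mulVec_mulVec, ← mulVec_mulVec]
    have h2 : LinearMap.toMatrix' p *ᵥ v = p v := by
      rw [← Matrix.toLin'_apply, Matrix.toLin'_toMatrix']
    have h3 : LinearMap.toMatrix' p *ᵥ u = p u := by
      rw [← Matrix.toLin'_apply, Matrix.toLin'_toMatrix']
    rw [h2, dotProduct_mulVec u, vecMul_transpose, h3]

/-- a curve of similitudes -/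
def dl {n : ℕ} (e : Matrix (Fin n) (Fin n) ℂ) (s : ℂ) : Matrix (Fin n) (Fin n) ℂ := (1 - e) + s • e

theorem dl_J {n : ℕ} {e J : Matrix (Fin n) (Fin n) ℂ} (he : e * e = e) (h : e * J + J * eᵀ = J) (s : ℂ) :
    dl e s * J * (dl e s)ᵀ = s • J := by
  have h1 : e * J * eᵀ = 0 := by
    have h2 : e * (e * J + J * eᵀ) = e * J := by rw [h]
    rw [Matrix.mul_add, ← Matrix.mul_assoc, he, ← Matrix.mul_assoc] at h2
    exact add_eq_left.1 h2
  unfold dl
  rw [transpose_add, transpose_sub, transpose_one, transpose_smul]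
  simp only [Matrix.add_mul, Matrix.mul_add, Matrix.sub_mul, Matrix.mul_sub, Matrix.smul_mul, Matrix.mul_smul,
    Matrix.one_mul, Matrix.mul_one, h1]
  conv_rhs => rw [← h]
  have h3 : J - e * J = J * eᵀ := by
    rw [sub_eq_iff_eq_add, add_comm]
    exact h.symm
  rw [h3]
  simp only [smul_zero, sub_zero, smul_add, add_zero]
  abel

end Pool.Agent.Y123.GN
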