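import Pool.Agent.Y123.GN.C2
import Pool.Agent.Y123.GN.C3

/-!
# Sums of a fixed object, Kummer motives and symplectic motives: stability of the subtorsors
-/

set_option autoImplicit false
set_option linter.unusedSectionVars false

open Matrix

namespace Pool.Agent.Y123.GN

open Pool.Agent.TH127.PT Pool.Agent.Y123.ST

theorem iso_flip {n : ℕ} {P g : Matrix (Fin n) (Fin n) ℂ} (hdet : P.det ≠ 0) (h : gᵀ * P⁻¹ * g = P⁻¹) :
    g * P * gᵀ = P := by
  have hu : IsUnit P.det := Ne.isUnit hdet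
  have h1 : (P * gᵀ * P⁻¹) * g = 1 := by
    rw [Matrix.mul_assoc, Matrix.mul_assoc, ← Matrix.mul_assoc gᵀ, h, mul_nonsing_inv _ hu]
  have h2 : g * (P * gᵀ * P⁻¹) = 1 := mul_eq_one_comm.1 h1
  calc g * P * gᵀ = g * (P * gᵀ * P⁻¹) * P := by
        simp only [Matrix.mul_assoc]
        rw [nonsing_inv_mul _ hu, Matrix.mul_one]
    _ = P := by rw [h2, Matrix.one_mul]

theorem iso_flip' {n : ℕ} {P g : Matrix (Fin n) (Fin n) ℂ} (hdet : P.det ≠ 0) (h : g * P * gᵀ = P) :
    gᵀ * P⁻¹ * g = P⁻¹ := by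
  have hu : IsUnit P.det := Ne.isUnit hdet
  have h1 : g * (P * gᵀ * P⁻¹) = 1 := by
    rw [← Matrix.mul_assoc, ← Matrix.mul_assoc, h, mul_nonsing_inv _ hu]
  have h2 : (P * gᵀ * P⁻¹) * g = 1 := mul_eq_one_comm.1 h1
  calc gᵀ * P⁻¹ * g = P⁻¹ * ((P * gᵀ * P⁻¹) * g) := by
        simp only [← Matrix.mul_assoc]
        rw [nonsing_inv_mul _ hu, Matrix.one_mul]
    _ = P⁻¹ := by rw [h2, Matrix.mul_one]

theorem inv_skew {n : ℕ} {P : Matrix (Fin n) (Fin n) ℂ} (hP : Pᵀ = -P) (hdet : P.det ≠ 0) : (P⁻¹)ᵀ = -P⁻¹ := by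
  rw [transpose_nonsing_inv, hP]
  refine inv_eq_right_inv ?_
  rw [neg_mul_neg, mul_nonsing_inv _ (Ne.isUnit hdet)]

theorem inv_det {n : ℕ} {P : Matrix (Fin n) (Fin n) ℂ} (hdet : P.det ≠ 0) : (P⁻¹).det ≠ 0 := by
  have h1 : P.det * (P⁻¹).det = 1 := by
    rw [← det_mul, mul_nonsing_inv _ (Ne.isUnit hdet), det_one]
  exact right_ne_zero_of_mul_eq_one h1

section
variable {B₀ : Type} [Fintype B₀] [DecidableEq B₀] {k : ℕ} {n : Fin k → ℕ} {K : Subfield ℂ}
  {T : Set (Matrix (IM B₀ n) (IM B₀ n) ℂ)}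

/-- the nilpotent matrix in a Kummer block -/
noncomputable def kn (B₀ : Type) [Fintype B₀] [DecidableEq B₀] {k : ℕ} (n : Fin k → ℕ) (i : Fin k) :
    Matrix (IM B₀ n) (IM B₀ n) ℂ := EM 0 (Pi.single i !![0, 1; 0, 0]) 0

theorem kn_sq (i : Fin k) : kn B₀ n i * kn B₀ n i = 0 := by
  unfold kn
  have h1 : (!![0, 1; 0, 0] : Matrix (Fin 2) (Fin 2) ℂ) * !![0, 1; 0, 0] = 0 := by
    ext a b
    fin_cases a <;> fin_cases b <;> simp [Matrix.mul_apply, Fin.sum_univ_two]
  rw [EM_mul, ← EM_zero, Matrix.zero_mul]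
  congr 1
  · funext j
    by_cases h : j = i
    · subst h
      rw [Pi.single_eq_same, h1]
      rfl
    · rw [Pi.single_eq_of_ne h, Matrix.zero_mul]
      rfl
  · funext j
    exact Matrix.zero_mul _

theorem kn_nil (i : Fin k) : IsNilpotent (kn B₀ n i) := ⟨2, by rw [pow_two, kn_sq]⟩

theorem kn_exp (i : Fin k) (t : ℂ) :
    IsNilpotent.exp (t • kn B₀ n i) = EM 1 (fun j => uu ((Pi.single i t : Fin k → ℂ) j)) 1 := by
  have h1 : (t • kn B₀ n i) ^ 2 = 0 := by
    rw [pow_two, smul_mul_smul_comm, kn_sq, smul_zero]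
  rw [IsNilpotent.exp_eq_sum h1]
  have h2 : ∑ j ∈ Finset.range 2, (j.factorial : ℚ)⁻¹ • (t • kn B₀ n i) ^ j = 1 + t • kn B₀ n i := by
    simp [Finset.sum_range_succ]
  rw [h2, ← EM_one]
  unfold kn
  rw [EM_smul, EM_add, smul_zero, add_zero, smul_zero, add_zero]
  congr 1
  funext j
  rw [Pi.add_apply, Pi.smul_apply, Pi.one_apply]
  by_cases h : j = i
  · subst h
    rw [Pi.single_eq_same, Pi.single_eq_same]
    unfold uu
    ext a b
    fin_cases a <;> fin_cases b <;> simp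
  · rw [Pi.single_eq_of_ne h, Pi.single_eq_of_ne h, uu_zero, smul_zero, add_zero]

theorem ug_mul (a b : Fin k → ℂ) : EM (1 : Matrix B₀ B₀ ℂ) (fun j => uu (a j)) (1 : ∀ i, Matrix (Fin (n i)) (Fin (n i)) ℂ) *
    EM 1 (fun j => uu (b j)) 1 = EM 1 (fun j => uu ((a + b) j)) 1 := by
  rw [EM_mul, Matrix.one_mul]
  congr 1
  · funext j
    rw [uu_mul]
    rfl
  · funext j
    exact Matrix.one_mul _

theorem ug_zero : EM (1 : Matrix B₀ B₀ ℂ) (fun j : Fin k => uu ((0 : Fin k → ℂ) j))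
    (1 : ∀ i, Matrix (Fin (n i)) (Fin (n i)) ℂ) = 1 := by
  rw [← EM_one]
  congr 1
  funext j
  exact uu_zero

theorem ug_inv (a : Fin k → ℂ) : (EM (1 : Matrix B₀ B₀ ℂ) (fun j => uu (a j))
    (1 : ∀ i, Matrix (Fin (n i)) (Fin (n i)) ℂ))⁻¹ = EM 1 (fun j => uu ((-a) j)) 1 := by
  refine inv_eq_right_inv ?_
  rw [ug_mul, add_neg_cancel, ug_zero]

theorem ug_unit (a : Fin k → ℂ) : IsUnit (EM (1 : Matrix B₀ B₀ ℂ) (fun j => uu (a j))
    (1 : ∀ i, Matrix (Fin (n i)) (Fin (n i)) ℂ)).det := by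
  rw [← Matrix.isUnit_iff_isUnit_det]
  refine IsUnit.of_mul_eq_one (EM 1 (fun j => uu ((-a) j)) 1) ?_
  rw [ug_mul, add_neg_cancel, ug_zero]

/-- the Kummer part is in the Lie algebra -/
theorem kn_mem (hT : IsSubtorsor K T) {c₀ : Matrix B₀ B₀ ℂ} (hc₀ : IsUnit c₀) {l : Fin k → ℂ} {τ : ℂ}
    (hτ : Transcendental K τ) {c : ∀ i, Matrix (Fin (n i)) (Fin (n i)) ℂ} (hc : ∀ i, IsUnit (c i))
    (hcT : EM c₀ (fun i => kum (l i) τ) c ∈ T)
    (hr : ∀ a : Fin k → ℂ, Rl K (1 + Fintype.card (IM B₀ n)) (EM c₀ (fun i => kum (l i) τ) c)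
      (EM 1 (fun i => uu (a i)) 1 * EM c₀ (fun i => kum (l i) τ) c)) (i : Fin k) : fl (kn B₀ n i) ∈ LL T := by
  obtain ⟨D, hD⟩ := exists_der_tr hτ
  have hτ0 : τ ≠ 0 := by
    rintro rfl
    exact hτ isAlgebraic_zero
  have h1 := logder_mem hT D hcT
  rw [EM_map, EM_inv hc₀ (fun i => kum_unit hτ0) hc, EM_mul] at h1
  have hk : ∀ j, (kum (l j) τ).map D * (kum (l j) τ)⁻¹ = !![0, D (l j) / τ; 0, D τ / τ] := by
    intro j
    have e1 : (kum (l j) τ).map D = !![0, D (l j); 0, D τ] := by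
      unfold kum
      ext a b
      fin_cases a <;> fin_cases b <;> simp
    have e2 : (kum (l j) τ)⁻¹ = !![1, -(l j) / τ; 0, 1 / τ] := by
      refine inv_eq_right_inv ?_
      unfold kum
      ext a b
      fin_cases a <;> fin_cases b <;> simp [Matrix.mul_apply, Fin.sum_univ_two, hτ0]
      field_simp
      ring
    rw [e1, e2]
    ext a b
    fin_cases a <;> fin_cases b <;> simp [Matrix.mul_apply, Fin.sum_univ_two, div_eq_mul_inv]
  simp only [hk] at h1
  have h2 := normal hT hcT (ug_unit (Pi.single i 1)) (hr (Pi.single i 1)) h1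
  rw [ug_inv, EM_mul, EM_mul, Matrix.one_mul, Matrix.mul_one] at h2
  have h3 := (LL T).sub_mem h2 h1
  have h4 : ∀ (a p q : ℂ), uu a * !![0, p; 0, q] * uu (-a) = !![0, p + a * q; 0, q] := by
    intro a p q
    unfold uu
    ext x y
    fin_cases x <;> fin_cases y <;> simp [Matrix.mul_apply, Fin.sum_univ_two]
  have h5 : EM (B₀ := B₀) (n := n) (c₀.map D * c₀⁻¹) (fun j => uu ((Pi.single i (1 : ℂ) : Fin k → ℂ) j) * !![0, D (l j) / τ; 0, D τ / τ] *
      uu ((-(Pi.single i (1 : ℂ) : Fin k → ℂ)) j)) (fun i => (1 : ∀ i, Matrix (Fin (n i)) (Fin (n i)) ℂ) i * ((c i).map D * (c i)⁻¹) *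
        (1 : ∀ i, Matrix (Fin (n i)) (Fin (n i)) ℂ) i) =
      EM (c₀.map D * c₀⁻¹) (fun j => !![0, D (l j) / τ; 0, D τ / τ]) (fun i => (c i).map D * (c i)⁻¹) + (D τ / τ) • kn B₀ n i := by
    unfold kn
    rw [EM_smul, EM_add, smul_zero, add_zero, smul_zero, add_zero]
    congr 1
    · funext j
      rw [Pi.add_apply, Pi.smul_apply, Pi.neg_apply, h4]
      by_cases h : j = i
      · subst h
        rw [Pi.single_eq_same, Pi.single_eq_same]
        ext a b
        fin_cases a <;> fin_cases b <;> simp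
      · rw [Pi.single_eq_of_ne h, Pi.single_eq_of_ne h]
        ext a b
        fin_cases a <;> fin_cases b <;> simp
    · funext j
      rw [Pi.one_apply, Matrix.one_mul, Matrix.mul_one]
  rw [h5, fl_add, add_sub_cancel_left, fl_smul] at h3
  have hne : D τ / τ ≠ 0 := div_ne_zero hD hτ0
  have h6 := (LL T).smul_mem (D τ / τ)⁻¹ h3
  rwa [smul_smul, inv_mul_cancel₀ hne, one_smul] at h6

/-- stability under the unipotent group -/
theorem ug_stab (hT : IsSubtorsor K T) (h : ∀ i, fl (kn B₀ n i) ∈ LL T) (a : Fin k → ℂ)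
    {x : Matrix (IM B₀ n) (IM B₀ n) ℂ} (hx : x ∈ T) : EM 1 (fun j => uu (a j)) 1 * x ∈ T := by
  classical
  have key : ∀ s : Finset (Fin k), EM 1 (fun j => uu ((∑ i ∈ s, (Pi.single i (a i) : Fin k → ℂ)) j)) 1 * x ∈ T := by
    intro s
    induction s using Finset.induction_on with
    | empty =>
      rw [Finset.sum_empty, ug_zero, Matrix.one_mul]
      exact hx
    | insert i s hi ih =>
      rw [Finset.sum_insert hi, ← ug_mul, Matrix.mul_assoc, ← kn_exp]
      exact exp_mem hT (kn_nil i) (h i) ih _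
  have h1 := key Finset.univ
  rwa [Finset.univ_sum_single] at h1

/-- stability under the symplectic groups -/
theorem sp_stab (hT : IsSubtorsor K T) {P : ∀ i, Matrix (Fin (n i)) (Fin (n i)) ℂ} (hP : ∀ i, (P i)ᵀ = -P i)
    (hdet : ∀ i, (P i).det ≠ 0) (h : ∀ i v, fl (EM (0 : Matrix B₀ B₀ ℂ) 0 (Pi.single i (nv (P i)⁻¹ v))) ∈ LL T)
    {g : ∀ i, Matrix (Fin (n i)) (Fin (n i)) ℂ} (hg : ∀ i, g i * P i * (g i)ᵀ = P i)
    {x : Matrix (IM B₀ n) (IM B₀ n) ℂ} (hx : x ∈ T) : EM 1 1 g * x ∈ T := by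
  classical
  have one : ∀ (i : Fin k), ∀ x ∈ T, EM 1 1 (su i (g i)) * x ∈ T := by
    intro i
    let S : Submonoid (Matrix (Fin (n i)) (Fin (n i)) ℂ) :=
      { carrier := {A | ∀ x ∈ T, EM 1 1 (su i A) * x ∈ T}
        one_mem' := by
          intro x hx
          rw [su_one, EM_one, Matrix.one_mul]
          exact hx
        mul_mem' := by
          intro A B hA hB x hx
          have e1 : EM (1 : Matrix B₀ B₀ ℂ) (1 : Fin k → Matrix (Fin 2) (Fin 2) ℂ) (su i (A * B)) =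
              EM 1 1 (su i A) * EM 1 1 (su i B) := by
            rw [EM_mul, su_mul, Matrix.one_mul]
            congr 1
            funext j
            exact (Matrix.one_mul _).symm
          rw [e1, Matrix.mul_assoc]
          exact hA _ (hB x hx) }
    have h1 : g i ∈ S := by
      refine sp_gen' (inv_skew (hP i) (hdet i)) (inv_det (hdet i)) S ?_ (g i) (iso_flip' (hdet i) (hg i))
      intro v s x hx
      rw [← M_exp_single (nv_nil (inv_skew (hP i) (hdet i)) v)]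
      exact exp_mem hT (M_single_nil (nv_nil (inv_skew (hP i) (hdet i)) v)) (h i v) hx s
    exact h1
  have key : ∀ s : Finset (Fin k), EM 1 1 (fun j => if j ∈ s then g j else 1) * x ∈ T := by
    intro s
    induction s using Finset.induction_on with
    | empty =>
      have e1 : (fun j => if j ∈ (∅ : Finset (Fin k)) then g j else 1) = 1 := by
        funext j
        simp
      rw [e1, EM_one, Matrix.one_mul]
      exact hx
    | insert i s hi ih =>
      have e1 : EM (1 : Matrix B₀ B₀ ℂ) (1 : Fin k → Matrix (Fin 2) (Fin 2) ℂ) (fun j => if j ∈ insert i s then g j else 1) =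
          EM 1 1 (su i (g i)) * EM 1 1 (fun j => if j ∈ s then g j else 1) := by
        rw [EM_mul, Matrix.one_mul]
        congr 1
        · funext j
          exact (Matrix.one_mul _).symm
        · funext j
          by_cases h : j = i
          · subst h
            rw [su_same, if_pos (Finset.mem_insert_self _ _), if_neg hi, Matrix.mul_one]
          · rw [su_ne h, Matrix.one_mul]
            by_cases h' : j ∈ s
            · rw [if_pos (Finset.mem_insert_of_mem h'), if_pos h']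
            · rw [if_neg (fun hh => (Finset.mem_insert.1 hh).elim h h'), if_neg h']
      rw [e1, Matrix.mul_assoc]
      exact one i _ ih
  have h1 := key Finset.univ
  have e1 : (fun j => if j ∈ (Finset.univ : Finset (Fin k)) then g j else 1) = g := by
    funext j
    simp
  rwa [e1] at h1

end

/-- **Stability.** -/
theorem stab (m : ℕ) : ∃ d : ℕ, ∀ (B₀ : Type) [Fintype B₀] [DecidableEq B₀] (k : ℕ) (n : Fin k → ℕ),
    Fintype.card (IM B₀ n) ≤ m → ∀ (K : Subfield ℂ), (K : Set ℂ).Countable →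
    ∀ (T : Set (Matrix (IM B₀ n) (IM B₀ n) ℂ)) (c₀ : Matrix B₀ B₀ ℂ) (l : Fin k → ℂ) (τ : ℂ)
      (c P : ∀ i, Matrix (Fin (n i)) (Fin (n i)) ℂ), IsSubtorsor K T → IsUnit c₀ → Transcendental K τ →
    (∀ i, IsUnit (c i)) → (∀ i, (P i)ᵀ = -P i) → (∀ i, (P i).det ≠ 0) → EM c₀ (fun i => kum (l i) τ) c ∈ T →
    (∀ (a : Fin k → ℂ) (g : ∀ i, Matrix (Fin (n i)) (Fin (n i)) ℂ), (∀ i, g i * P i * (g i)ᵀ = P i) →
      Rl K d (EM c₀ (fun i => kum (l i) τ) c) (EM c₀ (fun i => kum (l i + a i * τ) τ) fun i => g i * c i)) →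
    ∀ (a : Fin k → ℂ) (g : ∀ i, Matrix (Fin (n i)) (Fin (n i)) ℂ), (∀ i, g i * P i * (g i)ᵀ = P i) →
      ∀ x ∈ T, EM 1 (fun i => uu (a i)) g * x ∈ T := by
  classical
  obtain ⟨d₀, hd₀⟩ := abs_main m
  refine ⟨max d₀ (1 + m), ?_⟩
  intro B₀ _ _ k n hm K hK T c₀ l τ c P hT hc₀ hτ hc hP hdet hcT hR
  have hkn : ∀ i, fl (kn B₀ n i) ∈ LL T := by
    refine kn_mem hT hc₀ hτ hc hcT fun a => ?_
    have h1 := hR a (fun i => 1) (fun i => by rw [transpose_one, Matrix.one_mul, Matrix.mul_one])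
    have h2 : EM (1 : Matrix B₀ B₀ ℂ) (fun i => uu (a i)) 1 * EM c₀ (fun i => kum (l i) τ) c =
        EM c₀ (fun i => kum (l i + a i * τ) τ) fun i => 1 * c i := by
      rw [EM_mul, Matrix.one_mul]
      congr 1
      funext i
      exact uu_kum _ _ _
    rw [h2]
    exact h1.mono (by omega)
  have hsp : ∀ i v, fl (EM (0 : Matrix B₀ B₀ ℂ) 0 (Pi.single i (nv (P i)⁻¹ v))) ∈ LL T := by
    have h1 := hd₀ (IM B₀ n) hm K hK T _ hT hcT {N | ∃ i v, N = Ms B₀ i (nv (P i)⁻¹ v)} (by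
        rintro _ ⟨i, v, rfl⟩
        exact M_single_nil (nv_nil (inv_skew (hP i) (hdet i)) v)) (by
        rintro _ ⟨i, v, rfl⟩ t
        rw [Ms_apply, M_exp_single (nv_nil (inv_skew (hP i) (hdet i)) v), EM_mul, Matrix.one_mul]
        have h2 := hR 0 (su i (IsNilpotent.exp (t • nv (P i)⁻¹ v))) (by
          intro j
          by_cases h : j = i
          · subst h
            rw [su_same]
            exact iso_flip (hdet j) (nv_isom (inv_skew (hP j) (hdet j)) v t)
          · rw [su_ne h, transpose_one, Matrix.one_mul, Matrix.mul_one])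
        have h3 : (fun i : Fin k => (1 : Fin k → Matrix (Fin 2) (Fin 2) ℂ) i * kum (l i) τ) =
            fun i => kum (l i + (0 : Fin k → ℂ) i * τ) τ := by
          funext j
          rw [Pi.one_apply, Matrix.one_mul, Pi.zero_apply, zero_mul, add_zero]
        rw [h3]
        exact h2.mono (le_max_left _ _)) (by
        rintro _ ⟨i, v, rfl⟩
        have h2 := nv_perf (inv_skew (hP i) (hdet i)) (inv_det (hdet i)) v
        have h3 := Submodule.mem_map_of_mem (f := Ms B₀ (n := n) i) h2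
        rw [Submodule.map_span] at h3
        refine Submodule.span_mono ?_ h3
        rintro _ ⟨_, ⟨u, w, rfl⟩, rfl⟩
        refine ⟨_, ⟨i, u, rfl⟩, _, ⟨i, w, rfl⟩, ?_⟩
        rw [map_sub, Ms_mul, Ms_mul])
    intro i v
    exact h1 _ ⟨i, v, rfl⟩
  intro a g hg x hx
  have h1 : EM (1 : Matrix B₀ B₀ ℂ) (fun i => uu (a i)) g = EM 1 (fun i => uu (a i)) 1 * EM 1 1 g := by
    rw [EM_mul, Matrix.one_mul]
    congr 1
    · funext j
      exact (Matrix.mul_one _).symm
    · funext j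
      exact (Matrix.one_mul _).symm
  rw [h1, Matrix.mul_assoc]
  exact ug_stab hT hkn a (sp_stab hT hP hdet hsp hg hx)

end Pool.Agent.Y123.GN
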