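import Pool.Agent.Y123.GN.C4
import Pool.Agent.Y123.SR.R6

/-!
# Sums of a fixed object, Kummer motives and symplectic motives: fibre products
-/

set_option autoImplicit false
set_option linter.unusedSectionVars false

open Matrix

namespace Pool.Agent.Y123.GN

open Pool.Agent.TH127.PT Pool.Agent.Y123.ST Pool.Agent.Y123.SR

section
variable {M : Type} [Fintype M] [DecidableEq M] {K : Subfield ℂ}

/-- polynomial functions -/
def Pol (F : Matrix M M ℂ → ℂ) : Prop := ∃ p : MvPolynomial (M × M) ℂ, ∀ X, F X = MvPolynomial.eval (fl X) p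

theorem Pol.const (a : ℂ) : Pol (M := M) (fun _ => a) :=
  ⟨MvPolynomial.C a, fun X => by rw [MvPolynomial.eval_C]⟩

theorem Pol.coord (a b : M) : Pol (M := M) (fun X => X a b) :=
  ⟨MvPolynomial.X (a, b), fun X => by rw [MvPolynomial.eval_X]; rfl⟩

theorem Pol.add {F G : Matrix M M ℂ → ℂ} (hF : Pol F) (hG : Pol G) : Pol (fun X => F X + G X) := by
  obtain ⟨p, hp⟩ := hF
  obtain ⟨q, hq⟩ := hG
  exact ⟨p + q, fun X => by simp only [map_add, hp, hq]⟩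

theorem Pol.sub {F G : Matrix M M ℂ → ℂ} (hF : Pol F) (hG : Pol G) : Pol (fun X => F X - G X) := by
  obtain ⟨p, hp⟩ := hF
  obtain ⟨q, hq⟩ := hG
  exact ⟨p - q, fun X => by simp only [map_sub, hp, hq]⟩

theorem Pol.mul {F G : Matrix M M ℂ → ℂ} (hF : Pol F) (hG : Pol G) : Pol (fun X => F X * G X) := by
  obtain ⟨p, hp⟩ := hF
  obtain ⟨q, hq⟩ := hG
  exact ⟨p * q, fun X => by simp only [map_mul, hp, hq]⟩

theorem Pol.pow {F : Matrix M M ℂ → ℂ} (hF : Pol F) (e : ℕ) : Pol (fun X => F X ^ e) := by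
  obtain ⟨p, hp⟩ := hF
  exact ⟨p ^ e, fun X => by simp only [map_pow, hp]⟩

theorem Pol.sum {ι : Type*} (s : Finset ι) {F : ι → Matrix M M ℂ → ℂ} (hF : ∀ i ∈ s, Pol (F i)) :
    Pol (fun X => ∑ i ∈ s, F i X) := by
  classical
  induction s using Finset.induction_on with
  | empty =>
    simp only [Finset.sum_empty]
    exact Pol.const 0
  | insert i s hi ih =>
    simp only [Finset.sum_insert hi]
    exact (hF i (Finset.mem_insert_self _ _)).add (ih fun j hj => hF j (Finset.mem_insert_of_mem hj))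

theorem Pol.comp {M' : Type} [Fintype M'] [DecidableEq M'] {G : Matrix M M ℂ → Matrix M' M' ℂ}
    (hG : ∀ a b, Pol (fun X => G X a b)) (p : MvPolynomial (M' × M') ℂ) :
    Pol (fun X => MvPolynomial.eval (fl (G X)) p) := by
  induction p using MvPolynomial.induction_on with
  | C a =>
    simp only [MvPolynomial.eval_C]
    exact Pol.const a
  | add p q hp hq =>
    simp only [map_add]
    exact hp.add hq
  | mul_X p b hp =>
    simp only [map_mul, MvPolynomial.eval_X]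
    exact hp.mul (hG b.1 b.2)

/-- closed subsets which are stable under automorphisms -/
theorem sub_of {S : Set (Matrix M M ℂ)} (hU : ∀ x ∈ S, IsUnit x) (hT : ∀ x ∈ S, ∀ y ∈ S, ∀ z ∈ S, x * y⁻¹ * z ∈ S)
    (haut : ∀ σ : ℂ ≃+* ℂ, (∀ a ∈ K, σ a = a) → ∀ x ∈ S, x.map σ ∈ S)
    (hcl : ∀ y, IsUnit y → (∀ F, Pol F → (∀ x ∈ S, F x = 0) → F y = 0) → y ∈ S) : IsSubtorsor K S := by
  refine ⟨hU, hT, alg_of hU fun y hy hp => hcl y hy fun F hF hF0 => ?_⟩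
  obtain ⟨p, hp'⟩ := hF
  rw [hp']
  exact descend haut hp fun x hx => by rw [← hp']; exact hF0 x hx

theorem inter_sub {S T : Set (Matrix M M ℂ)} (hS : IsSubtorsor K S) (hT : IsSubtorsor K T) : IsSubtorsor K (S ∩ T) := by
  have h1 : S ∩ T = ⋂₀ {S, T} := by simp
  rw [h1]
  refine sInter_sub ⟨S, by simp⟩ ?_
  rintro U (rfl | rfl)
  · exact hS
  · exact hT

end

section
variable {B₀ : Type} [Fintype B₀] [DecidableEq B₀] {k : ℕ} {n : Fin k → ℕ} {K : Subfield ℂ}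
  {T : Set (Matrix (IM B₀ n) (IM B₀ n) ℂ)}

/-- the blocks -/
def px (y : Matrix (IM B₀ n) (IM B₀ n) ℂ) : Matrix B₀ B₀ ℂ := y.submatrix Sum.inl Sum.inl

/-- the blocks -/
def pk (y : Matrix (IM B₀ n) (IM B₀ n) ℂ) (i : Fin k) : Matrix (Fin 2) (Fin 2) ℂ :=
  y.submatrix (fun a => Sum.inr ⟨i, Sum.inl a⟩) (fun a => Sum.inr ⟨i, Sum.inl a⟩)

/-- the blocks -/
def pX (y : Matrix (IM B₀ n) (IM B₀ n) ℂ) (i : Fin k) : Matrix (Fin (n i)) (Fin (n i)) ℂ :=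
  y.submatrix (fun a => Sum.inr ⟨i, Sum.inr a⟩) (fun a => Sum.inr ⟨i, Sum.inr a⟩)

theorem px_EM (x : Matrix B₀ B₀ ℂ) (κ : Fin k → Matrix (Fin 2) (Fin 2) ℂ) (X : ∀ i, Matrix (Fin (n i)) (Fin (n i)) ℂ) :
    px (EM x κ X) = x := rfl

theorem pk_EM (x : Matrix B₀ B₀ ℂ) (κ : Fin k → Matrix (Fin 2) (Fin 2) ℂ) (X : ∀ i, Matrix (Fin (n i)) (Fin (n i)) ℂ) :
    pk (EM x κ X) = κ := by
  funext i
  ext a b
  show (blockDiagonal' fun i => fromBlocks (κ i) 0 0 (X i)) ⟨i, Sum.inl a⟩ ⟨i, Sum.inl b⟩ = _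
  rw [blockDiagonal'_apply_eq]
  rfl

theorem pX_EM (x : Matrix B₀ B₀ ℂ) (κ : Fin k → Matrix (Fin 2) (Fin 2) ℂ) (X : ∀ i, Matrix (Fin (n i)) (Fin (n i)) ℂ) :
    pX (EM x κ X) = X := by
  funext i
  ext a b
  show (blockDiagonal' fun i => fromBlocks (κ i) 0 0 (X i)) ⟨i, Sum.inr a⟩ ⟨i, Sum.inr b⟩ = _
  rw [blockDiagonal'_apply_eq]
  rfl

/-- the entries of block matrices -/
theorem EM_pol {M' : Type} [Fintype M'] [DecidableEq M'] {x : Matrix M' M' ℂ → Matrix B₀ B₀ ℂ}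
    {κ : Matrix M' M' ℂ → Fin k → Matrix (Fin 2) (Fin 2) ℂ}
    {X : Matrix M' M' ℂ → ∀ i, Matrix (Fin (n i)) (Fin (n i)) ℂ} (hx : ∀ a b, Pol fun y => x y a b)
    (hκ : ∀ i a b, Pol fun y => κ y i a b) (hX : ∀ i a b, Pol fun y => X y i a b) (p q : IM B₀ n) :
    Pol fun y => EM (x y) (κ y) (X y) p q := by
  rcases p with a | ⟨i, a⟩
  · rcases q with b | ⟨j, b⟩
    · exact hx a b
    · exact Pol.const 0
  · rcases q with b | ⟨j, b⟩
    · exact Pol.const 0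
    · by_cases h : i = j
      · subst h
        have h1 : ∀ y, EM (x y) (κ y) (X y) (Sum.inr ⟨i, a⟩) (Sum.inr ⟨i, b⟩) = fromBlocks (κ y i) 0 0 (X y i) a b := by
          intro y
          show (blockDiagonal' fun i => fromBlocks (κ y i) 0 0 (X y i)) ⟨i, a⟩ ⟨i, b⟩ = _
          rw [blockDiagonal'_apply_eq]
        simp only [h1]
        rcases a with a | a
        · rcases b with b | b
          · exact hκ i a b
          · exact Pol.const 0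
        · rcases b with b | b
          · exact Pol.const 0
          · exact hX i a b
      · have h1 : ∀ y, EM (x y) (κ y) (X y) (Sum.inr ⟨i, a⟩) (Sum.inr ⟨j, b⟩) = 0 := by
          intro y
          show (blockDiagonal' fun i => fromBlocks (κ y i) 0 0 (X y i)) ⟨i, a⟩ ⟨j, b⟩ = _
          exact blockDiagonal'_apply_ne _ _ _ h
        simp only [h1]
        exact Pol.const 0

/-- the fibre product -/
def FPM (J Bm : ∀ i, Matrix (Fin (n i)) (Fin (n i)) ℂ) (w : Fin k → ℕ) (b₀ : B₀) (S : Set (Matrix B₀ B₀ ℂ)) :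
    Set (Matrix (IM B₀ n) (IM B₀ n) ℂ) :=
  {y | ∃ (x : Matrix B₀ B₀ ℂ) (u : Fin k → ℂ) (X : ∀ i, Matrix (Fin (n i)) (Fin (n i)) ℂ), x ∈ S ∧ Cm b₀ x ∧
    (∀ i, X i * J i * (X i)ᵀ = x b₀ b₀ ^ w i • Bm i) ∧ y = EM x (fun i => kum (u i) (x b₀ b₀)) X}

theorem unit_of_form {m : ℕ} {X J B : Matrix (Fin m) (Fin m) ℂ} {s : ℂ} (hs : s ≠ 0) (hB : B.det ≠ 0)
    (h : X * J * Xᵀ = s • B) : IsUnit X := by
  have h1 : X * (J * Xᵀ * (s⁻¹ • B⁻¹)) = 1 := by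
    rw [← Matrix.mul_assoc, ← Matrix.mul_assoc, h, smul_mul_smul_comm, mul_inv_cancel₀ hs, one_smul,
      mul_nonsing_inv _ (Ne.isUnit hB)]
  exact IsUnit.of_mul_eq_one _ h1

theorem kum_inv {u τ : ℂ} (hτ : τ ≠ 0) : (kum u τ)⁻¹ = kum (-u / τ) τ⁻¹ := by
  refine inv_eq_right_inv ?_
  unfold kum
  ext a b
  fin_cases a <;> fin_cases b <;> simp [Matrix.mul_apply, Fin.sum_univ_two, hτ]
  field_simp
  ring

theorem kum_mul (u v μ ν : ℂ) : kum u μ * kum v ν = kum (v + u * ν) (μ * ν) := by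
  unfold kum
  ext a b
  fin_cases a <;> fin_cases b <;> simp [Matrix.mul_apply, Fin.sum_univ_two]

theorem kum_map (σ : ℂ ≃+* ℂ) (u τ : ℂ) : (kum u τ).map σ = kum (σ u) (σ τ) := by
  unfold kum
  ext a b
  fin_cases a <;> fin_cases b <;> simp

theorem form_tor {m : ℕ} {X Y Z J B : Matrix (Fin m) (Fin m) ℂ} {s t r : ℂ} (ht : t ≠ 0) (hB : B.det ≠ 0)
    (hX : X * J * Xᵀ = s • B) (hY : Y * J * Yᵀ = t • B) (hZ : Z * J * Zᵀ = r • B) :
    (X * Y⁻¹ * Z) * J * (X * Y⁻¹ * Z)ᵀ = (s * t⁻¹ * r) • B := by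
  have hu := unit_of_form ht hB hY
  have hud := (Matrix.isUnit_iff_isUnit_det _).1 hu
  have h1 : Y⁻¹ * B * (Y⁻¹)ᵀ = t⁻¹ • J := by
    have h2 : B = t⁻¹ • (Y * J * Yᵀ) := by rw [hY, smul_smul, inv_mul_cancel₀ ht, one_smul]
    have h5 : Yᵀ * (Y⁻¹)ᵀ = 1 := by rw [← transpose_mul, nonsing_inv_mul _ hud, transpose_one]
    rw [h2, Matrix.mul_smul, Matrix.smul_mul]
    congr 1
    calc Y⁻¹ * (Y * J * Yᵀ) * (Y⁻¹)ᵀ = (Y⁻¹ * Y) * J * (Yᵀ * (Y⁻¹)ᵀ) := by simp only [Matrix.mul_assoc]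
      _ = J := by rw [nonsing_inv_mul _ hud, h5, Matrix.one_mul, Matrix.mul_one]
  calc (X * Y⁻¹ * Z) * J * (X * Y⁻¹ * Z)ᵀ = X * (Y⁻¹ * (Z * J * Zᵀ) * (Y⁻¹)ᵀ) * Xᵀ := by
        rw [transpose_mul, transpose_mul]
        simp only [Matrix.mul_assoc]
    _ = (s * t⁻¹ * r) • B := by
        rw [hZ, Matrix.mul_smul, Matrix.smul_mul, h1, smul_smul, Matrix.mul_smul, Matrix.smul_mul, hX, smul_smul]
        congr 1
        ring

theorem form_map {m : ℕ} {X J B : Matrix (Fin m) (Fin m) ℂ} {s : ℂ} (hJ : ∀ a b, J a b ∈ K) (hB : ∀ a b, B a b ∈ K)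
    {σ : ℂ ≃+* ℂ} (hσ : ∀ a ∈ K, σ a = a) (hX : X * J * Xᵀ = s • B) :
    X.map σ * J * (X.map σ)ᵀ = σ s • B := by
  have hJm : J.map σ = J := by
    ext a b
    exact hσ _ (hJ a b)
  have h1 : (X * J * Xᵀ).map σ = (s • B).map σ := by rw [hX]
  rw [Matrix.map_mul, Matrix.map_mul, hJm, Matrix.transpose_map] at h1
  rw [h1]
  ext a b
  simp [hσ _ (hB a b)]

variable {J Bm : ∀ i, Matrix (Fin (n i)) (Fin (n i)) ℂ} {w : Fin k → ℕ} {b₀ : B₀}

theorem fpm_unit (hB : ∀ i, (Bm i).det ≠ 0) {S : Set (Matrix B₀ B₀ ℂ)} (hS : ∀ x ∈ S, IsUnit x) :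
    ∀ y ∈ FPM (n := n) J Bm w b₀ S, IsUnit y := by
  rintro _ ⟨x, u, X, h1, h2, h3, rfl⟩
  have h4 := (cm_inv (hS x h1) h2).2.1
  exact EM_isUnit (hS x h1) (fun i => kum_unit h4) fun i => unit_of_form (pow_ne_zero _ h4) (hB i) (h3 i)

theorem fpm_sub (hB : ∀ i, (Bm i).det ≠ 0) (hJK : ∀ i a b, J i a b ∈ K) (hBK : ∀ i a b, Bm i a b ∈ K)
    {S : Set (Matrix B₀ B₀ ℂ)} (hS : IsSubtorsor K S) : IsSubtorsor K (FPM (n := n) J Bm w b₀ S) := by
  classical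
  refine sub_of (fpm_unit hB hS.isUnit) ?_ ?_ ?_
  · rintro _ ⟨x, u, X, h1, h2, h3, rfl⟩ _ ⟨y, v, Y, h1', h2', h3', rfl⟩ _ ⟨z, r, Z, h1'', h2'', h3'', rfl⟩
    obtain ⟨h4, h5, h6⟩ := cm_inv (hS.isUnit y h1') h2'
    have hμ : (x * y⁻¹ * z) b₀ b₀ = x b₀ b₀ * (y b₀ b₀)⁻¹ * z b₀ b₀ := by
      rw [cm_mul_apply (cm_mul h2 h4), cm_mul_apply h2, h6]
    refine ⟨x * y⁻¹ * z, fun i => r i + (-v i / y b₀ b₀ + u i * (y b₀ b₀)⁻¹) * z b₀ b₀, fun i => X i * (Y i)⁻¹ * Z i,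
      hS.torsor x h1 y h1' z h1'', cm_mul (cm_mul h2 h4) h2'', fun i => ?_, ?_⟩
    · rw [form_tor (pow_ne_zero _ h5) (hB i) (h3 i) (h3' i) (h3'' i), hμ]
      congr 1
      rw [mul_pow, mul_pow, inv_pow]
    · rw [EM_inv (hS.isUnit y h1') (fun i => kum_unit h5) (fun i => unit_of_form (pow_ne_zero _ h5) (hB i) (h3' i)),
        EM_mul, EM_mul]
      congr 1
      funext i
      rw [kum_inv h5, kum_mul, kum_mul, hμ]
  · rintro σ hσ _ ⟨x, u, X, h1, h2, h3, rfl⟩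
    rw [EM_map]
    refine ⟨x.map σ, fun i => σ (u i), fun i => (X i).map σ, aut_mem hS hσ h1, ?_, fun i => ?_, ?_⟩
    · intro j hj
      obtain ⟨e1, e2⟩ := h2 j hj
      simp [Matrix.map_apply, e1, e2]
    · have h4 := form_map (hJK i) (hBK i) hσ (h3 i)
      rw [h4, map_pow]
      rfl
    · congr 1
      funext i
      rw [kum_map]
      rfl
  · intro y hu hF
    have hy : y = EM (px y) (pk y) (pX y) := by
      ext a b
      have h1 := hF (fun y => y a b - EM (px y) (pk y) (pX y) a b)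
        ((Pol.coord a b).sub (EM_pol (fun _ _ => Pol.coord _ _) (fun _ _ _ => Pol.coord _ _) (fun _ _ _ => Pol.coord _ _) a b)) (by
        rintro _ ⟨x, u, X, -, -, -, rfl⟩
        rw [px_EM, pk_EM, pX_EM, sub_self])
      exact sub_eq_zero.1 h1
    have hk : ∀ i, pk y i = kum (pk y i 0 1) (px y b₀ b₀) := by
      intro i
      have e1 : pk y i 0 0 - 1 = 0 := hF (fun y => pk y i 0 0 - 1) ((Pol.coord _ _).sub (Pol.const 1)) (by
        rintro _ ⟨x, u, X, -, -, -, rfl⟩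
        rw [pk_EM]
        simp [kum])
      have e2 : pk y i 1 0 = 0 := hF (fun y => pk y i 1 0) (Pol.coord _ _) (by
        rintro _ ⟨x, u, X, -, -, -, rfl⟩
        rw [pk_EM]
        simp [kum])
      have e3 : pk y i 1 1 - px y b₀ b₀ = 0 := hF (fun y => pk y i 1 1 - px y b₀ b₀) ((Pol.coord _ _).sub (Pol.coord _ _)) (by
        rintro _ ⟨x, u, X, -, -, -, rfl⟩
        rw [pk_EM, px_EM]
        simp [kum])
      ext a b
      fin_cases a <;> fin_cases b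
      · simpa [kum, sub_eq_zero] using e1
      · simp [kum]
      · simpa [kum] using e2
      · simpa [kum, sub_eq_zero] using e3
    have hux := unit_of_EM (hy ▸ hu)
    refine ⟨px y, fun i => pk y i 0 1, pX y, ?_, ?_, fun i => ?_, ?_⟩
    · obtain ⟨I, -, hI⟩ := hS.algebraic
      refine (hI _).2 ⟨hux.1, fun p hp => ?_⟩
      refine hF (fun y => MvPolynomial.eval (fl (px y)) p) (Pol.comp (fun _ _ => Pol.coord _ _) p) ?_
      rintro _ ⟨x, u, X, h1, -, -, rfl⟩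
      rw [px_EM]
      exact ((hI x).1 h1).2 p hp
    · intro j hj
      constructor
      · refine hF (fun y => px y b₀ j) (Pol.coord _ _) ?_
        rintro _ ⟨x, u, X, -, h2, -, rfl⟩
        exact (h2 j hj).1
      · refine hF (fun y => px y j b₀) (Pol.coord _ _) ?_
        rintro _ ⟨x, u, X, -, h2, -, rfl⟩
        exact (h2 j hj).2
    · ext a b
      have h1 := hF (fun y => (∑ d, (∑ c, pX y i a c * J i c d) * pX y i b d) - px y b₀ b₀ ^ w i * Bm i a b) (by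
        refine Pol.sub (Pol.sum _ fun d _ => Pol.mul (Pol.sum _ fun c _ => Pol.mul (Pol.coord _ _) (Pol.const _)) (Pol.coord _ _))
          (Pol.mul (Pol.pow (Pol.coord _ _) _) (Pol.const _))) (by
        rintro _ ⟨x, u, X, -, -, h3, rfl⟩
        have h4 := congrFun (congrFun (h3 i) a) b
        rw [pX_EM, px_EM]
        simp only [Matrix.mul_apply, Matrix.transpose_apply, Matrix.smul_apply, smul_eq_mul] at h4
        rw [h4, sub_self])
      simp only [Matrix.mul_apply, Matrix.transpose_apply, Matrix.smul_apply, smul_eq_mul]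
      exact sub_eq_zero.1 h1
    · conv_lhs => rw [hy]
      congr 1
      funext i
      exact hk i

/-- the projection -/
def PJ (T : Set (Matrix (IM B₀ n) (IM B₀ n) ℂ)) : Set (Matrix B₀ B₀ ℂ) := {x | ∃ κ X, EM x κ X ∈ T}

/-- stable -/
def Stb (Bm : ∀ i, Matrix (Fin (n i)) (Fin (n i)) ℂ) (T : Set (Matrix (IM B₀ n) (IM B₀ n) ℂ)) : Prop :=
  ∀ (a : Fin k → ℂ) (g : ∀ i, Matrix (Fin (n i)) (Fin (n i)) ℂ), (∀ i, g i * Bm i * (g i)ᵀ = Bm i) →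
    ∀ x ∈ T, EM 1 (fun i => uu (a i)) g * x ∈ T

theorem fibM (hB : ∀ i, (Bm i).det ≠ 0) (hTF : T ⊆ FPM J Bm w b₀ {x | IsUnit x})
    (hst : Stb Bm T) {x : Matrix B₀ B₀ ℂ} (hx : x ∈ PJ T) {u : Fin k → ℂ} {X : ∀ i, Matrix (Fin (n i)) (Fin (n i)) ℂ}
    (hX : ∀ i, X i * J i * (X i)ᵀ = x b₀ b₀ ^ w i • Bm i) : EM x (fun i => kum (u i) (x b₀ b₀)) X ∈ T := by
  obtain ⟨κ, Y, hY⟩ := hx
  obtain ⟨x', v, Y', h1, h2, h3, h4⟩ := hTF hY
  obtain ⟨rfl, rfl, rfl⟩ := EM_inj h4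
  have hμ := (cm_inv h1 h2).2.1
  have hu : ∀ i, IsUnit (Y i) := fun i => unit_of_form (pow_ne_zero _ hμ) (hB i) (h3 i)
  have h5 := hst (fun i => (u i - v i) / x b₀ b₀) (fun i => X i * (Y i)⁻¹) (fun i => by
    have h6 := form_tor (r := 1) (Z := 1) (J := J i) (pow_ne_zero (w i) hμ) (hB i) (hX i) (h3 i)
    have h7 : (Y i)⁻¹ * Bm i * ((Y i)⁻¹)ᵀ = (x b₀ b₀ ^ w i)⁻¹ • J i := by
      have hud := (Matrix.isUnit_iff_isUnit_det _).1 (hu i)
      have h8 : Bm i = (x b₀ b₀ ^ w i)⁻¹ • (Y i * J i * (Y i)ᵀ) := by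
        rw [h3, smul_smul, inv_mul_cancel₀ (pow_ne_zero _ hμ), one_smul]
      have h9 : (Y i)ᵀ * ((Y i)⁻¹)ᵀ = 1 := by rw [← transpose_mul, nonsing_inv_mul _ hud, transpose_one]
      rw [h8, Matrix.mul_smul, Matrix.smul_mul]
      congr 1
      calc (Y i)⁻¹ * (Y i * J i * (Y i)ᵀ) * ((Y i)⁻¹)ᵀ = ((Y i)⁻¹ * Y i) * J i * ((Y i)ᵀ * ((Y i)⁻¹)ᵀ) := by
            simp only [Matrix.mul_assoc]
        _ = J i := by rw [nonsing_inv_mul _ hud, h9, Matrix.one_mul, Matrix.mul_one]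
    rw [transpose_mul]
    calc X i * (Y i)⁻¹ * Bm i * (((Y i)⁻¹)ᵀ * (X i)ᵀ) = X i * ((Y i)⁻¹ * Bm i * ((Y i)⁻¹)ᵀ) * (X i)ᵀ := by
          simp only [Matrix.mul_assoc]
      _ = Bm i := by
          rw [h7, Matrix.mul_smul, Matrix.smul_mul, hX, smul_smul, inv_mul_cancel₀ (pow_ne_zero _ hμ), one_smul]) _ hY
  rw [EM_mul, Matrix.one_mul] at h5
  convert h5 using 2
  · funext i
    rw [uu_kum]
    congr 1
    field_simp
    ring
  · funext i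
    rw [Matrix.mul_assoc, nonsing_inv_mul _ ((Matrix.isUnit_iff_isUnit_det _).1 (hu i)), Matrix.mul_one]

theorem pj_all (hJ : ∀ i, (J i)ᵀ = -J i) (hJd : ∀ i, (J i).det ≠ 0) (hB : ∀ i, (Bm i).det ≠ 0) (hT : IsSubtorsor K T)
    (hTF : T ⊆ FPM J Bm w b₀ {x | IsUnit x}) (hst : Stb Bm T) {τ : ℂ} (hτ : τ ≠ 0)
    {c : ∀ i, Matrix (Fin (n i)) (Fin (n i)) ℂ} (hc : ∀ i, c i * J i * (c i)ᵀ = τ ^ w i • Bm i) :
    IsSubtorsor K (PJ T) ∧ T = FPM J Bm w b₀ (PJ T) := by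
  classical
  have hPu : ∀ x ∈ PJ T, IsUnit x ∧ Cm b₀ x := by
    rintro x ⟨κ, X, hX⟩
    obtain ⟨x', v, Y', h1, h2, h3, h4⟩ := hTF hX
    obtain ⟨rfl, rfl, rfl⟩ := EM_inj h4
    exact ⟨h1, h2⟩
  have hfib := fun x (hx : x ∈ PJ T) (u : Fin k → ℂ) X hX => fibM (u := u) (X := X) hB hTF hst hx hX
  refine ⟨?_, ?_⟩
  · choose e he1 he2 using fun i => lag_mat (hJ i) (hJd i)
    have hsec : ∀ i (μ : ℂ), (c i * dl (e i) ((μ / τ) ^ w i)) * J i * (c i * dl (e i) ((μ / τ) ^ w i))ᵀ = μ ^ w i • Bm i := by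
      intro i μ
      rw [transpose_mul]
      calc c i * dl (e i) ((μ / τ) ^ w i) * J i * ((dl (e i) ((μ / τ) ^ w i))ᵀ * (c i)ᵀ) =
          c i * (dl (e i) ((μ / τ) ^ w i) * J i * (dl (e i) ((μ / τ) ^ w i))ᵀ) * (c i)ᵀ := by simp only [Matrix.mul_assoc]
        _ = μ ^ w i • Bm i := by
          rw [dl_J (he1 i) (he2 i), Matrix.mul_smul, Matrix.smul_mul, hc, smul_smul, div_pow, div_mul_cancel₀ _ (pow_ne_zero _ hτ)]
    let G : Matrix B₀ B₀ ℂ → Matrix (IM B₀ n) (IM B₀ n) ℂ := fun x =>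
      EM x (fun i => kum 0 (x b₀ b₀)) fun i => c i * dl (e i) ((x b₀ b₀ / τ) ^ w i)
    have hG : ∀ a b, Pol fun x => G x a b := by
      refine EM_pol (fun a b => Pol.coord a b) (fun i a b => ?_) (fun i a b => ?_)
      · fin_cases a <;> fin_cases b
        · exact Pol.const 1
        · exact Pol.const 0
        · exact Pol.const 0
        · exact Pol.coord b₀ b₀
      · simp only [Matrix.mul_apply]
        refine Pol.sum _ fun d _ => Pol.mul (Pol.const _) ?_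
        simp only [dl, Matrix.add_apply, Matrix.smul_apply, smul_eq_mul]
        refine Pol.add (Pol.const _) (Pol.mul (Pol.pow ?_ _) (Pol.const _))
        simp only [div_eq_mul_inv]
        exact Pol.mul (Pol.coord _ _) (Pol.const _)
    refine sub_of (fun x hx => (hPu x hx).1) ?_ ?_ ?_
    · rintro x ⟨κ, X, hX⟩ y ⟨ν, Y, hY⟩ z ⟨ρ, Z, hZ⟩
      have h1 := hT.torsor _ hX _ hY _ hZ
      obtain ⟨h2, h3, h4⟩ := unit_of_EM (hT.isUnit _ hY)
      rw [EM_inv h2 h3 h4, EM_mul, EM_mul] at h1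
      exact ⟨_, _, h1⟩
    · rintro σ hσ x ⟨κ, X, hX⟩
      have h1 := aut_mem hT hσ hX
      rw [EM_map] at h1
      exact ⟨_, _, h1⟩
    · intro y hu hF
      have hcm : Cm b₀ y := by
        intro j hj
        constructor
        · exact hF (fun y => y b₀ j) (Pol.coord _ _) fun x hx => ((hPu x hx).2 j hj).1
        · exact hF (fun y => y j b₀) (Pol.coord _ _) fun x hx => ((hPu x hx).2 j hj).2
      have hμ := (cm_inv hu hcm).2.1
      refine ⟨fun i => kum 0 (y b₀ b₀), fun i => c i * dl (e i) ((y b₀ b₀ / τ) ^ w i), ?_⟩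
      obtain ⟨I, -, hI⟩ := hT.algebraic
      refine (hI _).2 ⟨EM_isUnit hu (fun i => kum_unit hμ) fun i => unit_of_form (pow_ne_zero _ hμ) (hB i) (hsec i _),
        fun p hp => ?_⟩
      refine hF (fun x => MvPolynomial.eval (fl (G x)) p) (Pol.comp hG p) fun x hx => ?_
      have h1 := hfib x hx (fun _ => 0) (fun i => c i * dl (e i) ((x b₀ b₀ / τ) ^ w i)) fun i => hsec i _
      exact ((hI _).1 h1).2 p hp
  · ext y
    constructor
    · intro hy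
      obtain ⟨x, v, X, h1, h2, h3, h4⟩ := hTF hy
      refine ⟨x, v, X, ⟨fun i => kum (v i) (x b₀ b₀), X, ?_⟩, h2, h3, h4⟩
      rw [← h4]
      exact hy
    · rintro ⟨x, v, X, h1, h2, h3, rfl⟩
      exact hfib x h1 v X h3

theorem pj_om (hB : ∀ i, (Bm i).det ≠ 0) (hJK : ∀ i a b, J i a b ∈ K) (hBK : ∀ i a b, Bm i a b ∈ K)
    {c₀ : Matrix B₀ B₀ ℂ} (hc₀ : IsUnit c₀) (hcm : Cm b₀ c₀) {l : Fin k → ℂ} {c : ∀ i, Matrix (Fin (n i)) (Fin (n i)) ℂ}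
    (hc : ∀ i, c i * J i * (c i)ᵀ = c₀ b₀ b₀ ^ w i • Bm i)
    (hall : ∀ T : Set (Matrix (IM B₀ n) (IM B₀ n) ℂ), IsSubtorsor K T → EM c₀ (fun i => kum (l i) (c₀ b₀ b₀)) c ∈ T →
      T ⊆ FPM J Bm w b₀ {x | IsUnit x} → T = FPM J Bm w b₀ (PJ T) ∧ IsSubtorsor K (PJ T))
    {Ω₀ : Set (Matrix B₀ B₀ ℂ)} (hΩ : Om K c₀ Ω₀) :
    Om K (EM c₀ (fun i => kum (l i) (c₀ b₀ b₀)) c) (FPM J Bm w b₀ Ω₀) := by
  obtain ⟨h1, h2, h3⟩ := hΩ
  refine ⟨subT_iff.2 (fpm_sub hB hJK hBK (subT_iff.1 h1)), ⟨c₀, l, c, h2, hcm, hc, rfl⟩, fun T hT hcT => ?_⟩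
  have hT' := subT_iff.1 hT
  have hU : IsSubtorsor K (FPM (n := n) J Bm w b₀ {x | IsUnit x}) := fpm_sub hB hJK hBK units_sub
  have hI := inter_sub hT' hU
  have hcI : EM c₀ (fun i => kum (l i) (c₀ b₀ b₀)) c ∈ T ∩ FPM J Bm w b₀ {x | IsUnit x} := ⟨hcT, ⟨c₀, l, c, hc₀, hcm, hc, rfl⟩⟩
  obtain ⟨h4, h5⟩ := hall _ hI hcI Set.inter_subset_right
  have h6 : Ω₀ ⊆ PJ (T ∩ FPM J Bm w b₀ {x | IsUnit x}) := h3 _ (subT_iff.2 h5) ⟨_, _, hcI⟩
  rintro _ ⟨x, u, X, e1, e2, e3, rfl⟩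
  have h7 : EM x (fun i => kum (u i) (x b₀ b₀)) X ∈ T ∩ FPM J Bm w b₀ {x | IsUnit x} := by
    rw [h4]
    exact ⟨x, u, X, h6 e1, e2, e3, rfl⟩
  exact h7.1

end

end Pool.Agent.Y123.GN
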