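import Pool.Agent.Y123.GN.C5
import Pool.Agent.Y123.GN.B1
import Pool.Agent.Y119.HY.Fin2

/-!
# Hypergeometric motives: the subtorsors are stable
-/

set_option autoImplicit false
set_option linter.unusedSectionVars false

open Matrix

namespace Pool.Agent.Y123.GN

open Pool.Agent.TH127.PT Pool.Agent.Y123.ST Pool.Agent.Y123.SR Pool.Agent.Y113 Pool.Agent.Y113.GG
open Pool.Agent.Y119.HZ (Jx pw Yt hyp_tuples_log Yt_form)
open Pool.Agent.Y119.HY (QD Jm cm)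

section
variable {B₀ : Type} [Fintype B₀] [DecidableEq B₀] {k : ℕ} {n : Fin k → ℕ} {K : Subfield ℂ}

/-- the generic matrix of a pair -/
noncomputable def PhiB (n : Fin k → ℕ) (τ : ℂ) (i : Fin k) :
    Matrix (Fin 2 ⊕ Fin (n i)) (Fin 2 ⊕ Fin (n i)) (MvPolynomial (Jx n) ℂ) :=
  fromBlocks !![1, MvPolynomial.X ⟨i, none⟩; 0, MvPolynomial.C τ] 0 0 (Matrix.of fun a b => MvPolynomial.X ⟨i, some (b, a)⟩)

/-- the generic matrix -/
noncomputable def PhiM (c₀ : Matrix B₀ B₀ ℂ) (n : Fin k → ℕ) (τ : ℂ) (p : IM B₀ n × IM B₀ n) : MvPolynomial (Jx n) ℂ :=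
  (fromBlocks (c₀.map MvPolynomial.C) 0 0 (blockDiagonal' fun i => PhiB n τ i) :
    Matrix (IM B₀ n) (IM B₀ n) (MvPolynomial (Jx n) ℂ)) p.1 p.2

theorem DCC {σ : Type} {W : Submodule ℚ ℂ} {a : ℂ} (ha : a ∈ W) : DC 1 W (MvPolynomial.C a : MvPolynomial σ ℂ) := by
  classical
  refine ⟨by rw [MvPolynomial.totalDegree_C]; exact Nat.zero_le _, fun s => ?_⟩
  rw [MvPolynomial.coeff_C]
  split_ifs
  · exact ha
  · exact W.zero_mem

theorem DC0 {σ : Type} {W : Submodule ℚ ℂ} : DC 1 W (0 : MvPolynomial σ ℂ) :=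
  ⟨by simp, fun s => by rw [MvPolynomial.coeff_zero]; exact W.zero_mem⟩

theorem DCX {σ : Type} {W : Submodule ℚ ℂ} (h1 : (1 : ℂ) ∈ W) (v : σ) : DC 1 W (MvPolynomial.X v : MvPolynomial σ ℂ) := by
  classical
  refine ⟨by rw [MvPolynomial.totalDegree_X], fun s => ?_⟩
  rw [MvPolynomial.coeff_X]
  split_ifs
  · exact h1
  · exact W.zero_mem

theorem PhiM_DC {W : Submodule ℚ ℂ} (h1 : (1 : ℂ) ∈ W) {c₀ : Matrix B₀ B₀ ℂ} (hc : ∀ a b, c₀ a b ∈ W) {τ : ℂ}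
    (hτ : τ ∈ W) : ∀ b : IM B₀ n × IM B₀ n, DC 1 W (PhiM c₀ n τ b) := by
  rintro ⟨a | ⟨i, a⟩, b | ⟨j, b⟩⟩
  · exact DCC (hc a b)
  · exact DC0
  · exact DC0
  · show DC 1 W (blockDiagonal' (fun i => PhiB n τ i) ⟨i, a⟩ ⟨j, b⟩)
    by_cases h : i = j
    · subst h
      rw [blockDiagonal'_apply_eq]
      rcases a with a | a
      · rcases b with b | b
        · fin_cases a <;> fin_cases b
          · show DC 1 W (1 : MvPolynomial (Jx n) ℂ)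
            rw [← MvPolynomial.C_1]
            exact DCC h1
          · exact DCX h1 _
          · exact DC0
          · exact DCC hτ
        · exact DC0
      · rcases b with b | b
        · exact DC0
        · exact DCX h1 _
    · rw [blockDiagonal'_apply_ne _ _ _ h]
      exact DC0

theorem PhiM_eval (c₀ : Matrix B₀ B₀ ℂ) (τ : ℂ) (l : Fin k → ℂ) (X : ∀ i, Matrix (Fin (n i)) (Fin (n i)) ℂ)
    (b : IM B₀ n × IM B₀ n) :
    fl (EM c₀ (fun i => kum (l i) τ) fun i => (X i)ᵀ) b = MvPolynomial.aeval (pw l X) (PhiM c₀ n τ b) := by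
  obtain ⟨a | ⟨i, a⟩, b | ⟨j, b⟩⟩ := b
  · show c₀ a b = MvPolynomial.aeval (pw l X) (MvPolynomial.C (c₀ a b))
    rw [MvPolynomial.aeval_C]
    rfl
  · show (0 : ℂ) = MvPolynomial.aeval (pw l X) 0
    rw [map_zero]
  · show (0 : ℂ) = MvPolynomial.aeval (pw l X) 0
    rw [map_zero]
  · show blockDiagonal' (fun i => fromBlocks (kum (l i) τ) 0 0 (X i)ᵀ) ⟨i, a⟩ ⟨j, b⟩ =
      MvPolynomial.aeval (pw l X) (blockDiagonal' (fun i => PhiB n τ i) ⟨i, a⟩ ⟨j, b⟩)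
    by_cases h : i = j
    · subst h
      rw [blockDiagonal'_apply_eq, blockDiagonal'_apply_eq]
      rcases a with a | a
      · rcases b with b | b
        · fin_cases a <;> fin_cases b
          · show (1 : ℂ) = MvPolynomial.aeval (pw l X) (1 : MvPolynomial (Jx n) ℂ)
            rw [map_one]
          · show l i = MvPolynomial.aeval (pw l X) (MvPolynomial.X ⟨i, none⟩)
            rw [MvPolynomial.aeval_X]
            rfl
          · show (0 : ℂ) = MvPolynomial.aeval (pw l X) (0 : MvPolynomial (Jx n) ℂ)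
            rw [map_zero]
          · show τ = MvPolynomial.aeval (pw l X) (MvPolynomial.C τ)
            rw [MvPolynomial.aeval_C]
            rfl
        · show (0 : ℂ) = MvPolynomial.aeval (pw l X) (0 : MvPolynomial (Jx n) ℂ)
          rw [map_zero]
      · rcases b with b | b
        · show (0 : ℂ) = MvPolynomial.aeval (pw l X) (0 : MvPolynomial (Jx n) ℂ)
          rw [map_zero]
        · show X i b a = MvPolynomial.aeval (pw l X) (MvPolynomial.X ⟨i, some (b, a)⟩)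
          rw [MvPolynomial.aeval_X]
          rfl
    · rw [blockDiagonal'_apply_ne _ _ _ h, blockDiagonal'_apply_ne _ _ _ h, map_zero]

/-- `2 π i` -/
noncomputable def tpi : ℂ := 2 * Real.pi * Complex.I

theorem tpi_tr {K : Subfield ℂ} (hK : ∀ x ∈ K, IsAlgebraic ℚ x) : Transcendental K tpi := by
  have _ : Algebra.IsAlgebraic ℚ K := ⟨fun x => by
    have h1 := hK x x.2
    exact (isAlgebraic_algebraMap_iff (A := ℂ) (algebraMap K ℂ).injective).1 h1⟩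
  intro h
  exact transc_two_pi_I (h.restrictScalars ℚ)

theorem tpi_ne : tpi ≠ 0 := by
  intro h
  have h1 := transc_two_pi_I
  apply h1
  show IsAlgebraic ℚ tpi
  rw [h]
  exact isAlgebraic_zero

/-- the period matrices of the fibres -/
noncomputable def cM (Q : Fin k → Polynomial ℚ) (Ω : ∀ i, Matrix (Fin (n i)) (Fin (n i)) ℂ) (t : Fin k → ℕ) (i : Fin k) :
    Matrix (Fin (n i)) (Fin (n i)) ℂ := (Yt (n i) (Q i) (t i) * Ω i)ᵀ

/-- the form on the Betti side -/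
noncomputable def PM' (Q : Fin k → Polynomial ℚ) (Ω : ∀ i, Matrix (Fin (n i)) (Fin (n i)) ℂ) (i : Fin k) :
    Matrix (Fin (n i)) (Fin (n i)) ℂ := (Ω i)ᵀ * cm (Jm (n i) (Q i)) * Ω i

/-- the period matrix of the sum -/
noncomputable def tot (c₀ : Matrix B₀ B₀ ℂ) (Q : Fin k → Polynomial ℚ) (Ω : ∀ i, Matrix (Fin (n i)) (Fin (n i)) ℂ)
    (t : Fin k → ℕ) : Matrix (IM B₀ n) (IM B₀ n) ℂ :=
  EM c₀ (fun i => kum ((Real.log (t i) : ℝ) : ℂ) tpi) (cM Q Ω t)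

theorem cM_form {Q : Fin k → Polynomial ℚ} (hQ : ∀ i, QD (n i) (Q i)) (Ω : ∀ i, Matrix (Fin (n i)) (Fin (n i)) ℂ)
    {t : Fin k → ℕ} (ht : ∀ i, 2 ≤ t i) (i : Fin k) :
    cM Q Ω t i * cm (Jm (n i) (Q i)) * (cM Q Ω t i)ᵀ = PM' Q Ω i := by
  unfold cM PM'
  rw [transpose_transpose, transpose_mul]
  calc (Ω i)ᵀ * (Yt (n i) (Q i) (t i))ᵀ * cm (Jm (n i) (Q i)) * (Yt (n i) (Q i) (t i) * Ω i) =
      (Ω i)ᵀ * ((Yt (n i) (Q i) (t i))ᵀ * cm (Jm (n i) (Q i)) * Yt (n i) (Q i) (t i)) * Ω i := by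
        simp only [Matrix.mul_assoc]
    _ = _ := by rw [Yt_form (hQ i) (ht i)]

theorem PM'_skew {Q : Fin k → Polynomial ℚ} (hQ : ∀ i, QD (n i) (Q i)) (Ω : ∀ i, Matrix (Fin (n i)) (Fin (n i)) ℂ)
    (i : Fin k) : (PM' Q Ω i)ᵀ = -PM' Q Ω i := by
  unfold PM'
  rw [transpose_mul, transpose_mul, transpose_transpose, Pool.Agent.Y119.HY.Jc_skew (hQ i), Matrix.neg_mul,
    Matrix.mul_neg, Matrix.mul_assoc]

theorem PM'_det {Q : Fin k → Polynomial ℚ} (hQ : ∀ i, QD (n i) (Q i)) {Ω : ∀ i, Matrix (Fin (n i)) (Fin (n i)) ℂ}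
    (hΩ : ∀ i, IsUnit (Ω i)) (i : Fin k) : (PM' Q Ω i).det ≠ 0 := by
  unfold PM'
  have h1 : (Ω i).det ≠ 0 := ((Matrix.isUnit_iff_isUnit_det _).1 (hΩ i)).ne_zero
  rw [det_mul, det_mul, det_transpose]
  exact mul_ne_zero (mul_ne_zero h1 (Pool.Agent.Y119.HY.Jc_det (hQ i))) h1

theorem cM_unit {Q : Fin k → Polynomial ℚ} (hQ : ∀ i, QD (n i) (Q i)) {Ω : ∀ i, Matrix (Fin (n i)) (Fin (n i)) ℂ}
    (hΩ : ∀ i, IsUnit (Ω i)) {t : Fin k → ℕ} (ht : ∀ i, 2 ≤ t i) (i : Fin k) : IsUnit (cM Q Ω t i) :=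
  unit_of_form (s := 1) one_ne_zero (PM'_det hQ hΩ i) (by rw [one_smul]; exact cM_form hQ Ω ht i)

/-- the subtorsors are stable -/
def Sta (K : Subfield ℂ) (c₀ : Matrix B₀ B₀ ℂ) (Q : Fin k → Polynomial ℚ) (Ω : ∀ i, Matrix (Fin (n i)) (Fin (n i)) ℂ)
    (t : Fin k → ℕ) : Prop :=
  ∀ T : Set (Matrix (IM B₀ n) (IM B₀ n) ℂ), IsSubtorsor K T → tot c₀ Q Ω t ∈ T →
    ∀ (a : Fin k → ℂ) (g : ∀ i, Matrix (Fin (n i)) (Fin (n i)) ℂ), (∀ i, g i * PM' Q Ω i * (g i)ᵀ = PM' Q Ω i) →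
      ∀ x ∈ T, EM 1 (fun i => uu (a i)) g * x ∈ T

end

theorem card_IM {B₀ : Type} [Fintype B₀] {k : ℕ} (n : Fin k → ℕ) :
    Fintype.card (IM B₀ n) = Fintype.card B₀ + ∑ i, (2 + n i) := by
  rw [Fintype.card_sum, Fintype.card_sigma]
  congr 1
  refine Finset.sum_congr rfl fun i _ => ?_
  rw [Fintype.card_sum, Fintype.card_fin, Fintype.card_fin]

theorem hyp_stab (k D r : ℕ) (n : Fin k → ℕ) (Q : Fin k → Polynomial ℚ) (hQ : ∀ i, QD (n i) (Q i))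
    (hH : ∀ i a b, Pool.Agent.Y113.SDc (Pool.Agent.Y119.HZ.Hp (n i) (Q i) a b)) :
    ∃ c C : ℝ, 0 < c ∧ 0 ≤ C ∧ ∀ K : Subfield ℂ, FiniteDimensional ℚ K → Module.finrank ℚ K ≤ D →
      ∀ (B₀ : Type) [Fintype B₀] [DecidableEq B₀] (c₀ : Matrix B₀ B₀ ℂ), Fintype.card B₀ ≤ r → IsUnit c₀ →
      ∀ Ω : (∀ i, Matrix (Fin (n i)) (Fin (n i)) ℂ), (∀ i, IsUnit (Ω i)) → ∀ (x : Fin k → ℕ) (N : ℕ), (∀ i, 1 ≤ x i) →
      1 ≤ N → ∀ S : Finset (Fin k → ℕ), (∀ t ∈ S, (∀ i, x i < t i ∧ t i ≤ x i + N) ∧ ¬ Sta K c₀ Q Ω t) →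
      (S.card : ℝ) ≤ C * (N : ℝ) ^ (k - 1) * ∑ i, (1 + N / ((x i : ℝ) + N) ^ c) := by
  classical
  obtain ⟨d, hd⟩ := stab (r + ∑ i, (2 + n i))
  obtain ⟨c, C, hc, hC, hmain⟩ := hyp_tuples_log k d ((D + (r * r + 1) + 1) ^ (d + 1)) n Q hQ hH
  refine ⟨c, C, hc, hC, ?_⟩
  intro K hKf hKD B₀ _ _ c₀ hr hc₀ Ω hΩ x N hx hN S hS
  obtain ⟨W, hW1, hW2, hKW, hW3⟩ := exists_W' K (fun o : Option (B₀ × B₀) => o.elim tpi fun b => c₀ b.1 b.2)
  have hKalg : ∀ x ∈ K, IsAlgebraic ℚ x := by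
    intro x hx
    have : NumberField K := { to_charZero := inferInstance, to_finiteDimensional := hKf }
    have h6 : IsAlgebraic ℚ (⟨x, hx⟩ : K) := Algebra.IsAlgebraic.isAlgebraic _
    exact h6.algebraMap (A := ℂ)
  have hKc : (K : Set ℂ).Countable := by
    have h1 : ({x : ℂ | IsAlgebraic ℚ x} : Set ℂ).Countable := Algebraic.countable ℚ ℂ
    exact h1.mono fun x hx => hKalg x hx
  obtain ⟨hp1, hp2⟩ := finrank_pow_le W (d + 1)
  have hWD : Module.finrank ℚ W ≤ D + (r * r + 1) + 1 := by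
    refine hW2.trans ?_
    rw [Fintype.card_option, Fintype.card_prod]
    have := Nat.mul_le_mul hr hr
    omega
  refine hmain (W ^ (d + 1)) (hp2.trans (Nat.pow_le_pow_left hWD _)) Ω x N hx hN S fun t ht => ?_
  obtain ⟨hbox, hSt⟩ := hS t ht
  refine ⟨hbox, ?_⟩
  by_contra hcon
  apply hSt
  have ht2 : ∀ i, 2 ≤ t i := fun i => by
    have := (hbox i).1
    have := hx i
    omega
  intro T hT hcT
  refine hd B₀ k n ?_ K hKc T c₀ _ tpi (cM Q Ω t) (PM' Q Ω) hT hc₀ (tpi_tr hKalg) (cM_unit hQ hΩ ht2)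
    (PM'_skew hQ Ω) (PM'_det hQ hΩ) hcT ?_
  · rw [card_IM]
    exact Nat.add_le_add_right hr _
  · intro a g hg
    have hcM : cM Q Ω t = fun i => (Yt (n i) (Q i) (t i) * Ω i)ᵀ := rfl
    have hgc : (fun i => g i * cM Q Ω t i) = fun i => (Yt (n i) (Q i) (t i) * Ω i * (g i)ᵀ)ᵀ := by
      funext i
      rw [transpose_mul, transpose_transpose]
      rfl
    rw [hgc, hcM]
    have hΩi : ∀ i, (Ω i)⁻¹ * Ω i = 1 := fun i => nonsing_inv_mul _ ((Matrix.isUnit_iff_isUnit_det _).1 (hΩ i))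
    have hΩi' : ∀ i, Ω i * (Ω i)⁻¹ = 1 := fun i => mul_nonsing_inv _ ((Matrix.isUnit_iff_isUnit_det _).1 (hΩ i))
    refine Rl_of hKW (PhiM_DC (hKW 1 K.one_mem) (fun a b => hW3 (some (a, b))) (hW3 none)) (y := pw (fun i => ((Real.log (t i) : ℝ) : ℂ))
      fun i => Yt (n i) (Q i) (t i) * Ω i) (y' := pw (fun i => ((Real.log (t i) : ℝ) : ℂ) + a i * tpi)
      fun i => (Yt (n i) (Q i) (t i) * Ω i * (g i)ᵀ * (Ω i)⁻¹) * Ω i) ?_ (fun b => PhiM_eval c₀ tpi _ _ b) (fun b => ?_)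
    · intro P hPd hPV hP0
      by_contra hne
      refine hcon ⟨P, hPd, hPV, hP0, _, _, fun i => ?_, hne⟩
      have hiso : (g i)ᵀᵀ = g i := transpose_transpose _
      have hPi := hg i
      unfold PM' at hPi
      have e1 : (Yt (n i) (Q i) (t i) * Ω i * (g i)ᵀ * (Ω i)⁻¹)ᵀ = ((Ω i)⁻¹)ᵀ * (g i * ((Ω i)ᵀ * (Yt (n i) (Q i) (t i))ᵀ)) := by
        rw [transpose_mul, transpose_mul, transpose_mul, hiso]
      have e2 : ((Ω i)⁻¹)ᵀ * (Ω i)ᵀ = 1 := by rw [← transpose_mul, hΩi', transpose_one]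
      rw [e1]
      calc ((Ω i)⁻¹)ᵀ * (g i * ((Ω i)ᵀ * (Yt (n i) (Q i) (t i))ᵀ)) * cm (Jm (n i) (Q i)) *
            (Yt (n i) (Q i) (t i) * Ω i * (g i)ᵀ * (Ω i)⁻¹) =
          ((Ω i)⁻¹)ᵀ * (g i * ((Ω i)ᵀ * ((Yt (n i) (Q i) (t i))ᵀ * cm (Jm (n i) (Q i)) * Yt (n i) (Q i) (t i)) * Ω i) *
            (g i)ᵀ) * (Ω i)⁻¹ := by simp only [Matrix.mul_assoc]
        _ = (((Ω i)⁻¹)ᵀ * (Ω i)ᵀ) * cm (Jm (n i) (Q i)) * (Ω i * (Ω i)⁻¹) := by
            rw [Yt_form (hQ i) (ht2 i), hPi]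
            simp only [Matrix.mul_assoc]
        _ = cm (Jm (n i) (Q i)) := by rw [e2, hΩi', Matrix.one_mul, Matrix.mul_one]
    · have h1 := PhiM_eval c₀ tpi (fun i => ((Real.log (t i) : ℝ) : ℂ) + a i * tpi)
        (fun i => (Yt (n i) (Q i) (t i) * Ω i * (g i)ᵀ * (Ω i)⁻¹) * Ω i) b
      refine Eq.trans ?_ h1
      have h2 : (fun i => (Yt (n i) (Q i) (t i) * Ω i * (g i)ᵀ)ᵀ) =
          fun i => (Yt (n i) (Q i) (t i) * Ω i * (g i)ᵀ * (Ω i)⁻¹ * Ω i)ᵀ := by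
        funext i
        rw [Matrix.mul_assoc _ (Ω i)⁻¹, hΩi, Matrix.mul_one]
      rw [h2]

/-- the fibre product property for all subtorsors -/
theorem all_of_sta {B₀ : Type} [Fintype B₀] [DecidableEq B₀] {k : ℕ} {n : Fin k → ℕ} {K : Subfield ℂ}
    {c₀ : Matrix B₀ B₀ ℂ} {Q : Fin k → Polynomial ℚ} (hQ : ∀ i, QD (n i) (Q i))
    {Ω : ∀ i, Matrix (Fin (n i)) (Fin (n i)) ℂ} {t : Fin k → ℕ} (ht : ∀ i, 2 ≤ t i) (h : Sta K c₀ Q Ω t)
    {w : Fin k → ℕ} {Bm : ∀ i, Matrix (Fin (n i)) (Fin (n i)) ℂ} (hΩB : ∀ i, PM' Q Ω i = tpi ^ w i • Bm i)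
    (hB : ∀ i, (Bm i).det ≠ 0) {b₀ : B₀}
    {T : Set (Matrix (IM B₀ n) (IM B₀ n) ℂ)} (hT : IsSubtorsor K T) (hcT : tot c₀ Q Ω t ∈ T)
    (hTF : T ⊆ FPM (fun i => cm (Jm (n i) (Q i))) Bm w b₀ {x | IsUnit x}) :
    IsSubtorsor K (PJ T) ∧ T = FPM (fun i => cm (Jm (n i) (Q i))) Bm w b₀ (PJ T) := by
  refine pj_all (fun i => Pool.Agent.Y119.HY.Jc_skew (hQ i)) (fun i => Pool.Agent.Y119.HY.Jc_det (hQ i)) hB hT hTF ?_
    tpi_ne (c := cM Q Ω t) fun i => ?_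
  · intro a g hg x hx
    refine h T hT hcT a g (fun i => ?_) x hx
    rw [hΩB, Matrix.mul_smul, Matrix.smul_mul, hg]
  · rw [cM_form hQ Ω ht, hΩB]

end Pool.Agent.Y123.GN
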