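import Pool.Agent.Y123.GN.A5

/-!
# Unipotent one-parameter groups which preserve the relations of bounded degree centralise the normaliser modulo the
# Lie algebra
-/

set_option autoImplicit false
set_option linter.unusedSectionVars false

open Matrix Module

namespace Pool.Agent.Y123.GN

open Pool.Agent.TH127.PT Pool.Agent.Y123.ST Pool.Agent.TH119.DR

/-- commuting endomorphisms with finite orbits have a spanning set of common eigenvectors -/
theorem diag_span {W : Type} [AddCommGroup W] [Module ℂ W] [FiniteDimensional ℂ W] {ι : Type} (f : ι → End ℂ W)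
    (hc : ∀ i j, Commute (f i) (f j)) (hf : ∀ i v, ∃ n : ℕ, 1 ≤ n ∧ (f i ^ n) v = v) :
    Submodule.span ℂ {v | ∀ i, ∃ χ : ℂ, f i v = χ • v} = ⊤ := by
  classical
  have hord : ∀ i, ∃ n : ℕ, 1 ≤ n ∧ f i ^ n = 1 := by
    intro i
    let bs := finBasis ℂ W
    choose n hn1 hn using fun v => hf i v
    refine ⟨∏ j, n (bs j), Finset.one_le_prod' fun j _ => hn1 (bs j), ?_⟩
    refine bs.ext fun j => ?_
    obtain ⟨q, hq⟩ : n (bs j) ∣ ∏ j, n (bs j) := Finset.dvd_prod_of_mem _ (Finset.mem_univ j)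
    rw [hq, pow_mul]
    have h1 := hn (bs j)
    have h2 : ∀ q : ℕ, ((f i ^ n (bs j)) ^ q) (bs j) = bs j := by
      intro q
      induction q with
      | zero => rfl
      | succ q ih => rw [pow_succ, Module.End.mul_apply, h1, ih]
    rw [h2]
    rfl
  have hss : ∀ i, (f i).IsSemisimple := by
    intro i
    obtain ⟨n, hn1, hn⟩ := hord i
    refine Module.End.isSemisimple_of_squarefree_aeval_eq_zero (p := Polynomial.X ^ n - 1) ?_ ?_
    · refine Polynomial.Separable.squarefree ?_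
      rw [Polynomial.X_pow_sub_one_separable_iff]
      have : n ≠ 0 := by omega
      exact_mod_cast this
    · rw [map_sub, map_pow, Polynomial.aeval_X, map_one, hn, sub_self]
  have h1 := Module.End.iSup_iInf_maxGenEigenspace_eq_top_of_iSup_maxGenEigenspace_eq_top_of_commute f
    (fun i j _ => hc i j) (fun i => Module.End.iSup_maxGenEigenspace_eq_top (f i))
  rw [eq_top_iff, ← h1]
  refine iSup_le fun χ => ?_
  intro v hv
  refine Submodule.subset_span fun i => ⟨χ i, ?_⟩
  rw [Submodule.mem_iInf] at hv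
  have h2 := hv i
  rw [(hss i).isFinitelySemisimple.maxGenEigenspace_eq_eigenspace] at h2
  exact Module.End.mem_eigenspace_iff.1 h2

variable {M : Type} [Fintype M] [DecidableEq M] {K : Subfield ℂ} {T : Set (Matrix M M ℂ)}

/-- `s` normalises the Lie algebra -/
def Nrm (T : Set (Matrix M M ℂ)) (s : Matrix M M ℂ) : Prop := ∀ w, fl w ∈ LL T → fl (w * s - s * w) ∈ LL T

/-- the classes of the normaliser modulo the Lie algebra have finite orbits -/
theorem orb_fin (hK : (K : Set ℂ).Countable) (hT : IsSubtorsor K T) {c s : Matrix M M ℂ} (hc : c ∈ T) (hs : Nrm T s) :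
    {w : QL T | ∃ a ∈ SS T c, w = a (qc T s)}.Finite := by
  classical
  let bs : Basis (Fin (finrank ℂ (QL T))) ℂ (QL T) := finBasis ℂ (QL T)
  have h1 : ∀ i, {z | ∃ X ∈ T, z = ((bs.coord i) ∘ₗ (LL T).mkQ) (fl (X * (c⁻¹ * s * c) * X⁻¹))}.Finite := by
    intro i
    refine value_fin hK hT hc hs _ fun v hv => ?_
    rw [LinearMap.comp_apply, Submodule.mkQ_apply, (Submodule.Quotient.mk_eq_zero _).2 hv, map_zero]
  refine Set.Finite.of_finite_image (f := bs.equivFun) ?_ (bs.equivFun.injective.injOn)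
  refine (Set.Finite.pi' h1).subset ?_
  rintro _ ⟨w, ⟨a, ⟨X, hX, ha⟩, rfl⟩, rfl⟩ i
  refine ⟨X, hX, ?_⟩
  rw [ha, LinearMap.comp_apply, Submodule.mkQ_apply, Basis.equivFun_apply, Basis.coord_apply]
  have h3 : X * c⁻¹ * s * (c * X⁻¹) = X * (c⁻¹ * s * c) * X⁻¹ := by simp only [Matrix.mul_assoc]
  rw [h3]
  rfl

theorem nrm_conj (hT : IsSubtorsor K T) {c X s : Matrix M M ℂ} (hc : c ∈ T) (hX : X ∈ T) (hs : Nrm T s) :
    Nrm T ((X * c⁻¹) * s * (c * X⁻¹)) := by
  intro w hw
  have h1 := quot_LL hT hX hc hw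
  have h2 := quot_LL hT hc hX (hs _ h1)
  have e1 := mul_inv' hT hc
  have e2 := inv_mul' hT hc
  have e3 := mul_inv' hT hX
  have e4 : X * (c⁻¹ * (c * (X⁻¹ * w * X) * c⁻¹ * s - s * (c * (X⁻¹ * w * X) * c⁻¹)) * c) * X⁻¹ =
      w * (X * c⁻¹ * s * (c * X⁻¹)) - X * c⁻¹ * s * (c * X⁻¹) * w := by
    have f1 : X * (c⁻¹ * (c * (X⁻¹ * w * X) * c⁻¹ * s) * c) * X⁻¹ = w * (X * c⁻¹ * s * (c * X⁻¹)) := by
      calc X * (c⁻¹ * (c * (X⁻¹ * w * X) * c⁻¹ * s) * c) * X⁻¹ =
          X * ((c⁻¹ * c) * (X⁻¹ * w * X) * c⁻¹ * s * c) * X⁻¹ := by simp only [Matrix.mul_assoc]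
        _ = (X * X⁻¹) * w * (X * c⁻¹ * s * (c * X⁻¹)) := by
          rw [e2, Matrix.one_mul]
          simp only [Matrix.mul_assoc]
        _ = _ := by rw [e3, Matrix.one_mul]
    have f2 : X * (c⁻¹ * (s * (c * (X⁻¹ * w * X) * c⁻¹)) * c) * X⁻¹ = X * c⁻¹ * s * (c * X⁻¹) * w := by
      calc X * (c⁻¹ * (s * (c * (X⁻¹ * w * X) * c⁻¹)) * c) * X⁻¹ =
          X * c⁻¹ * s * c * X⁻¹ * w * X * (c⁻¹ * c) * X⁻¹ := by simp only [Matrix.mul_assoc]
        _ = X * c⁻¹ * s * (c * X⁻¹) * w * (X * X⁻¹) := by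
          rw [e2, Matrix.mul_one]
          simp only [Matrix.mul_assoc]
        _ = _ := by rw [e3, Matrix.mul_one]
    rw [Matrix.mul_sub, Matrix.sub_mul, Matrix.mul_sub, Matrix.sub_mul, f1, f2]
  rw [e4] at h2
  exact h2

theorem qc_add (y z : Matrix M M ℂ) : qc T (y + z) = qc T y + qc T z := rfl

theorem qc_smul (a : ℂ) (y : Matrix M M ℂ) : qc T (a • y) = a • qc T y := rfl

theorem qc_zero_iff {y : Matrix M M ℂ} : qc T y = 0 ↔ fl y ∈ LL T := by
  unfold qc
  rw [Submodule.Quotient.mk_eq_zero]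

/-- the normaliser -/
def NS (T : Set (Matrix M M ℂ)) : Submodule ℂ (QL T) where
  carrier := {v | ∃ s, Nrm T s ∧ v = qc T s}
  zero_mem' := ⟨0, fun w _ => by
    rw [Matrix.mul_zero, Matrix.zero_mul, sub_zero, fl_zero]
    exact (LL T).zero_mem, rfl⟩
  add_mem' := by
    rintro _ _ ⟨s, hs, rfl⟩ ⟨s', hs', rfl⟩
    refine ⟨s + s', fun w hw => ?_, (qc_add s s').symm⟩
    have h1 : w * (s + s') - (s + s') * w = (w * s - s * w) + (w * s' - s' * w) := by noncomm_ring
    rw [h1, fl_add]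
    exact (LL T).add_mem (hs w hw) (hs' w hw)
  smul_mem' := by
    rintro a _ ⟨s, hs, rfl⟩
    refine ⟨a • s, fun w hw => ?_, (qc_smul a s).symm⟩
    have h1 : w * (a • s) - (a • s) * w = a • (w * s - s * w) := by
      rw [Matrix.smul_mul, Matrix.mul_smul, smul_sub]
    rw [h1, fl_smul]
    exact (LL T).smul_mem a (hs w hw)

theorem NS_stab (hT : IsSubtorsor K T) {c : Matrix M M ℂ} (hc : c ∈ T) {a : End ℂ (QL T)} (ha : a ∈ SS T c) :
    ∀ v ∈ NS T, a v ∈ NS T := by
  rintro _ ⟨s, hs, rfl⟩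
  obtain ⟨X, hX, ha⟩ := ha
  exact ⟨_, nrm_conj hT hc hX hs, ha s⟩

/-- one step of the transfer, for any subspace -/
theorem step' (hT : IsSubtorsor K T) {c g A : Matrix M M ℂ} {J : ℕ} (hc : c ∈ T) (hg : IsUnit g.det)
    (L : Submodule ℂ (M × M → ℂ)) (hr : Rl K (J * 1 + J * Fintype.card M) c (g * c))
    (h : ∀ X ∈ T, fl ((X * c⁻¹) ^ J * A * (c * X⁻¹) ^ J) ∈ L) : fl (g ^ J * A * g⁻¹ ^ J) ∈ L := by
  by_contra hcon
  obtain ⟨φ, hφ1, hφ2⟩ := Submodule.exists_le_ker_of_notMem hcon
  apply hφ1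
  have hcd := Tdet hT hc
  have hgc : IsUnit (g * c).det := by rw [det_mul]; exact hg.mul hcd
  have e0 : ∀ X : Matrix M M ℂ, IsUnit X.det →
      (X * c⁻¹) ^ J * A * (c * X.adjugate) ^ J = X.det ^ J • ((X * c⁻¹) ^ J * A * (c * X⁻¹) ^ J) := by
    intro X hX
    rw [cmul_adj_pow hT hX]
    simp only [Matrix.mul_smul]
  have hPM : PM (J * 1 + J * Fintype.card M) (fun X : Matrix M M ℂ =>
      (X * c⁻¹) ^ J * A * (c * X.adjugate) ^ J) := by
    have h1 := ((pm_left (c := c) J).mul (PM.const A)).mul (pm_right (c := c) J)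
    exact h1.mono (by omega)
  have h1 := transferT hT hc hr (hPM.func φ) (by
    intro X hX
    have h2 : φ (fl ((X * c⁻¹) ^ J * A * (c * X.adjugate) ^ J)) = 0 := by
      rw [e0 X (Tdet hT hX), fl_smul, map_smul]
      have := hφ2 (h X hX)
      rw [LinearMap.mem_ker] at this
      rw [this, smul_zero]
    exact h2)
  rw [e0 (g * c) hgc, fl_smul, map_smul, smul_eq_mul] at h1
  have h3 := (mul_eq_zero.1 h1).resolve_left (pow_ne_zero _ hgc.ne_zero)
  have h4 : g * c * c⁻¹ = g := by rw [Matrix.mul_assoc, mul_inv' hT hc, Matrix.mul_one]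
  have h5 : c * (g * c)⁻¹ = g⁻¹ := by
    rw [Matrix.mul_inv_rev, ← Matrix.mul_assoc, mul_inv' hT hc, Matrix.one_mul]
  rw [h4, h5] at h3
  exact h3

/-- **unipotent one-parameter groups normalise the Lie algebra** -/
theorem nrm_of_rel (hT : IsSubtorsor K T) {c N : Matrix M M ℂ} (hc : c ∈ T) (hN : IsNilpotent N)
    (hrel : ∀ t : ℂ, Rl K (1 + Fintype.card M) c (IsNilpotent.exp (t • N) * c)) : Nrm T N := by
  intro w hw
  have h1 : ∀ t : ℂ, fl (IsNilpotent.exp ((-t) • N) * w * IsNilpotent.exp (t • N)) ∈ LL T := by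
    intro t
    have h2 := normal hT hc (exp_det hN (-t)) (hrel (-t)) hw
    rw [exp_inv_eq hN, neg_neg] at h2
    exact h2
  have h3 := ((PD.exp_neg hN).mul (PD.const w)).mul (PD.exp hN)
  have h4 := h3.mem (LL T) h1
  have h5 : (-N * w + 1 * 0) * 1 + 1 * w * N = w * N - N * w := by noncomm_ring
  rw [h5] at h4
  exact h4

theorem bk_neg {A B : Matrix M M ℂ} {L : Submodule ℂ (M × M → ℂ)} (h : fl (A * B - B * A) ∈ L) :
    fl (B * A - A * B) ∈ L := by
  have h1 := Submodule.neg_mem _ h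
  have h2 : -fl (A * B - B * A) = fl (B * A - A * B) := by
    funext b
    show -((_ - _ : Matrix M M ℂ) b.1 b.2) = (_ - _ : Matrix M M ℂ) b.1 b.2
    rw [Matrix.sub_apply, Matrix.sub_apply, neg_sub]
  rwa [h2] at h1

/-- **The main abstract theorem.** -/
theorem norm_fix (m : ℕ) : ∃ d : ℕ, 1 + m ≤ d ∧ ∀ (M : Type) [Fintype M] [DecidableEq M], Fintype.card M ≤ m →
    ∀ (K : Subfield ℂ), (K : Set ℂ).Countable → ∀ (T : Set (Matrix M M ℂ)) (c : Matrix M M ℂ), IsSubtorsor K T → c ∈ T →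
    ∀ N : Matrix M M ℂ, IsNilpotent N → (∀ t : ℂ, Rl K d c (IsNilpotent.exp (t • N) * c)) →
    ∀ s, Nrm T s → fl (N * s - s * N) ∈ LL T := by
  classical
  obtain ⟨J, hJ1, hJ⟩ := jordan_orbit (m * m)
  refine ⟨J * 1 + J * m, ?_, ?_⟩
  · have h1 : 1 * m ≤ J * m := Nat.mul_le_mul_right _ hJ1
    omega
  intro M _ _ hM K hK T c hT hc N hN hrel s hs
  have hJ0 : (J : ℂ) ≠ 0 := by
    have : J ≠ 0 := by omega
    exact_mod_cast this
  have hdeg : J * 1 + J * Fintype.card M ≤ J * 1 + J * m := Nat.add_le_add_left (Nat.mul_le_mul_left _ hM) _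
  have hdeg1 : 1 + Fintype.card M ≤ J * 1 + J * m := by
    have h1 : 1 * Fintype.card M ≤ J * m := Nat.mul_le_mul hJ1 hM
    omega
  have hNN : Nrm T N := nrm_of_rel hT hc hN fun t => (hrel t).mono hdeg1
  have hrank : finrank ℂ (QL T) ≤ m * m := by
    refine (Submodule.finrank_quotient_le (LL T)).trans ?_
    rw [finrank_fintype_fun_eq_card, Fintype.card_prod]
    exact Nat.mul_le_mul hM hM
  -- the operators on the normaliser modulo the Lie algebra
  have hfin : ∀ v ∈ NS T, {w | ∃ a ∈ SS T c, w = a v}.Finite := by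
    rintro _ ⟨s, hs, rfl⟩
    exact orb_fin hK hT hc hs
  have hpowS : ∀ a ∈ SS T c, ∀ j : ℕ, a ^ j ∈ SS T c := by
    intro a ha j
    induction j with
    | zero => exact SS_one hT hc
    | succ j ih => rw [pow_succ]; exact SS_mul hT hc _ ih _ ha
  have hinj : ∀ a ∈ SS T c, ∀ v w, a v = a w → v = w := by
    intro a ha
    obtain ⟨b, -, hab⟩ := SS_inv hT hc a ha
    have hba : b * a = 1 := mul_eq_one_comm.1 hab
    intro v w hvw
    have h1 := congrArg b hvw
    have h2 : ∀ v, b (a v) = v := fun v => LinearMap.congr_fun hba v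
    rwa [h2, h2] at h1
  let ι : Type := {a : End ℂ (QL T) // a ∈ SS T c}
  let f : ι → End ℂ (NS T) := fun a => (a.1 ^ J).restrict (NS_stab hT hc (hpowS a.1 a.2 J))
  have hfv : ∀ (a : ι) (n : ℕ) (v : NS T), (((f a) ^ n) v : QL T) = ((a.1 ^ J) ^ n) v.1 := by
    intro a n
    induction n with
    | zero => intro v; rfl
    | succ n ih =>
      intro v
      rw [pow_succ, pow_succ, Module.End.mul_apply, Module.End.mul_apply, ih]
      rfl
  have hcom : ∀ a b : ι, Commute (f a) (f b) := by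
    intro a b
    refine LinearMap.ext fun v => Subtype.ext ?_
    exact hJ (QL T) hrank (SS T c) (SS_one hT hc) (SS_mul hT hc) (SS_inv hT hc) v.1 (hfin v.1 v.2) a.1 a.2 b.1 b.2
  have hper : ∀ (a : ι) (v : NS T), ∃ n : ℕ, 1 ≤ n ∧ (f a ^ n) v = v := by
    intro a v
    -- pigeonhole
    have h1 : ∀ n : ℕ, ((a.1 ^ J) ^ n) v.1 ∈ {w | ∃ a ∈ SS T c, w = a v.1} := fun n =>
      ⟨_, hpowS _ (hpowS _ a.2 J) n, rfl⟩
    obtain ⟨i, j, hij, hij'⟩ := (hfin v.1 v.2).exists_lt_map_eq_of_forall_mem h1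
    refine ⟨j - i, by omega, Subtype.ext ?_⟩
    rw [hfv]
    refine hinj _ (hpowS _ (hpowS _ a.2 J) i) _ _ ?_
    rw [← Module.End.mul_apply, ← pow_add, show i + (j - i) = j by omega]
    exact hij'.symm
  have hspan := diag_span f hcom hper
  -- the statement for all elements of the span
  have key : ∀ v ∈ Submodule.span ℂ {v | ∀ i, ∃ χ : ℂ, f i v = χ • v}, ∀ s, qc T s = v.1 →
      fl (N * s - s * N) ∈ LL T := by
    intro v hv
    induction hv using Submodule.span_induction with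
    | zero =>
      intro s hs
      have h1 : fl s ∈ LL T := qc_zero_iff.1 hs
      exact bk_neg (hNN s h1)
    | add x y _ _ hx hy =>
      intro s hs
      obtain ⟨sx, hsx⟩ := qc_surj x.1
      have h1 := hx sx hsx.symm
      have h2 : qc T (s + (-1 : ℂ) • sx) = y.1 := by
        rw [qc_add, qc_smul, hs, ← hsx]
        show x.1 + y.1 + (-1 : ℂ) • x.1 = y.1
        rw [neg_one_smul]
        abel
      have h3 := hy _ h2
      have h4 : N * s - s * N = (N * (s + (-1 : ℂ) • sx) - (s + (-1 : ℂ) • sx) * N) + (N * sx - sx * N) := by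
        rw [neg_one_smul]
        noncomm_ring
      rw [h4, fl_add]
      exact (LL T).add_mem h3 h1
    | smul z x _ hx =>
      intro s hs
      obtain ⟨sx, hsx⟩ := qc_surj x.1
      have h1 := hx sx hsx.symm
      have h2 : fl (s - z • sx) ∈ LL T := by
        refine qc_eq.1 ?_
        rw [hs, qc_smul, ← hsx]
        rfl
      have h3 := bk_neg (hNN _ h2)
      have h4 : N * s - s * N = (N * (s - z • sx) - (s - z • sx) * N) + z • (N * sx - sx * N) := by
        rw [Matrix.mul_sub, Matrix.sub_mul, Matrix.mul_smul, Matrix.smul_mul, smul_sub]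
        abel
      rw [h4, fl_add, fl_smul]
      exact (LL T).add_mem h3 ((LL T).smul_mem z h1)
    | mem v hv =>
      intro s hs
      -- the subspace
      set L : Submodule ℂ (M × M → ℂ) := LL T ⊔ Submodule.span ℂ {fl s} with hL
      have hLmem : ∀ y, fl y ∈ L ↔ ∃ β : ℂ, fl (y - β • s) ∈ LL T := by
        intro y
        rw [hL, Submodule.mem_sup]
        constructor
        · rintro ⟨l, hl, z, hz, h1⟩
          obtain ⟨β, rfl⟩ := Submodule.mem_span_singleton.1 hz
          refine ⟨β, ?_⟩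
          have h2 : fl (y - β • s) = l := by
            funext b
            have h3 := congrFun h1 b
            show (y - β • s) b.1 b.2 = l b
            rw [Matrix.sub_apply, Matrix.smul_apply]
            have h4 : l b + β • s b.1 b.2 = y b.1 b.2 := h3
            rw [← h4]
            ring
          rw [h2]
          exact hl
        · rintro ⟨β, hβ⟩
          refine ⟨_, hβ, β • fl s, Submodule.smul_mem _ _ (Submodule.mem_span_singleton_self _), ?_⟩
          rw [← fl_smul, ← fl_add, sub_add_cancel]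
      have h1 : ∀ X ∈ T, fl ((X * c⁻¹) ^ J * s * (c * X⁻¹) ^ J) ∈ L := by
        intro X hX
        obtain ⟨a, haS, ha⟩ := SS_exists hT hc hX
        obtain ⟨χ, hχ⟩ := hv ⟨a, haS⟩
        have h2 : (a ^ J) (qc T s) = χ • qc T s := by
          have h3 := congrArg (fun v : NS T => (v : QL T)) hχ
          rw [hs]
          exact h3
        rw [SS_pow ha, ← qc_smul] at h2
        exact (hLmem _).2 ⟨χ, qc_eq.1 h2⟩
      have h2 : ∀ t : ℂ, fl (IsNilpotent.exp (t • N) * s * IsNilpotent.exp ((-t) • N)) ∈ L := by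
        intro t
        have h3 := step' hT hc (exp_det hN (t / J)) L ((hrel (t / J)).mono hdeg) h1
        rw [exp_inv_eq hN, exp_pow hN, exp_pow hN] at h3
        have e1 : (J : ℂ) * (t / J) = t := by field_simp
        have e3 : (J : ℂ) * (-(t / J)) = -t := by field_simp
        rw [e1, e3] at h3
        exact h3
      have h3 := (((PD.exp hN).mul (PD.const s)).mul (PD.exp_neg hN)).mem L h2
      have h4 : (N * s + 1 * 0) * 1 + 1 * s * -N = N * s - s * N := by noncomm_ring
      rw [h4] at h3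
      obtain ⟨β, hβ⟩ := (hLmem _).1 h3
      by_cases hβ0 : β = 0
      · rw [hβ0, zero_smul, sub_zero] at hβ
        exact hβ
      -- powers
      have hnil : IsNilpotent (LinearMap.mulLeft ℂ N - LinearMap.mulRight ℂ N) :=
        (LinearMap.commute_mulLeft_right (R := ℂ) N N).isNilpotent_sub ((LinearMap.isNilpotent_mulLeft_iff ℂ N).2 hN)
          ((LinearMap.isNilpotent_mulRight_iff ℂ N).2 hN)
      obtain ⟨q, hq⟩ := hnil
      have h5 : ∀ j : ℕ, fl (((LinearMap.mulLeft ℂ N - LinearMap.mulRight ℂ N) ^ j) s - β ^ j • s) ∈ LL T := by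
        intro j
        induction j with
        | zero =>
          rw [pow_zero, pow_zero, one_smul, Module.End.one_apply, sub_self, fl_zero]
          exact (LL T).zero_mem
        | succ j ih =>
          set y := ((LinearMap.mulLeft ℂ N - LinearMap.mulRight ℂ N) ^ j) s with hy
          rw [pow_succ', Module.End.mul_apply, ← hy, LinearMap.sub_apply, LinearMap.mulLeft_apply,
            LinearMap.mulRight_apply]
          have h6 := bk_neg (hNN _ ih)
          have h7 : N * y - y * N - β ^ (j + 1) • s =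
              (N * (y - β ^ j • s) - (y - β ^ j • s) * N) + β ^ j • (N * s - s * N - β • s) := by
            rw [Matrix.mul_sub, Matrix.sub_mul, Matrix.mul_smul, Matrix.smul_mul, smul_sub, smul_sub, smul_smul, pow_succ]
            abel
          rw [h7, fl_add, fl_smul]
          exact (LL T).add_mem h6 ((LL T).smul_mem _ hβ)
      have h6 := h5 q
      rw [hq, LinearMap.zero_apply, zero_sub] at h6
      have h7 : fl s ∈ LL T := by
        have h8 := (LL T).smul_mem (-(β ^ q)⁻¹) h6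
        rw [← fl_smul] at h8
        have h9 : (-(β ^ q)⁻¹) • -(β ^ q • s) = s := by
          rw [smul_neg, smul_smul, neg_mul, inv_mul_cancel₀ (pow_ne_zero _ hβ0), neg_smul, neg_neg, one_smul]
        rw [h9] at h8
        exact h8
      exact bk_neg (hNN s h7)
  have hmem : (⟨qc T s, s, hs, rfl⟩ : NS T) ∈ Submodule.span ℂ {v | ∀ i, ∃ χ : ℂ, f i v = χ • v} := by
    rw [hspan]
    exact Submodule.mem_top
  exact key _ hmem s rfl

end Pool.Agent.Y123.GN
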