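import Pool.Agent.Y123.GN.D1

/-!
# Polynomial curves in the group of a subtorsor; commutators of unipotently generated groups
-/

set_option autoImplicit false
set_option linter.unusedSectionVars false

open Matrix Module

namespace Pool.Agent.Y123.GN

open Pool.Agent.TH127.PT Pool.Agent.Y123.ST Pool.Agent.TH119.DR

variable {M : Type} [Fintype M] [DecidableEq M] {K : Subfield ℂ} {T : Set (Matrix M M ℂ)}

/-- the value of a matrix of polynomials -/
noncomputable def ev (t : ℂ) (A : Matrix M M (Polynomial ℂ)) : Matrix M M ℂ := A.map (Polynomial.eval t)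

theorem ev_mul (t : ℂ) (A B : Matrix M M (Polynomial ℂ)) : ev t (A * B) = ev t A * ev t B := by
  ext a b
  show Polynomial.eval t ((A * B) a b) = (ev t A * ev t B) a b
  rw [Matrix.mul_apply, Matrix.mul_apply, Polynomial.eval_finsetSum]
  refine Finset.sum_congr rfl fun k _ => ?_
  rw [Polynomial.eval_mul]
  rfl

theorem ev_add (t : ℂ) (A B : Matrix M M (Polynomial ℂ)) : ev t (A + B) = ev t A + ev t B := by
  ext a b
  exact Polynomial.eval_add ..

theorem ev_sub (t : ℂ) (A B : Matrix M M (Polynomial ℂ)) : ev t (A - B) = ev t A - ev t B := by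
  ext a b
  exact Polynomial.eval_sub ..

theorem ev_C (t : ℂ) (A : Matrix M M ℂ) : ev t (A.map Polynomial.C) = A := by
  ext a b
  exact Polynomial.eval_C

theorem ext_ev {A B : Matrix M M (Polynomial ℂ)} (h : ∀ t, ev t A = ev t B) : A = B := by
  ext1 a b
  refine Polynomial.funext fun t => ?_
  exact congrFun (congrFun (h t) a) b

/-- the entrywise derivative -/
noncomputable def dr (A : Matrix M M (Polynomial ℂ)) : Matrix M M (Polynomial ℂ) := A.map Polynomial.derivative

theorem dr_mul (A B : Matrix M M (Polynomial ℂ)) : dr (A * B) = dr A * B + A * dr B := by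
  ext1 a b
  show Polynomial.derivative ((A * B) a b) = _
  rw [Matrix.mul_apply, Polynomial.derivative_sum, Matrix.add_apply, Matrix.mul_apply, Matrix.mul_apply,
    ← Finset.sum_add_distrib]
  refine Finset.sum_congr rfl fun k _ => ?_
  rw [Polynomial.derivative_mul]
  rfl

theorem dr_C (A : Matrix M M ℂ) : dr (A.map Polynomial.C) = 0 := by
  ext1 a b
  exact Polynomial.derivative_C

/-- coefficients of a curve in a subspace -/
theorem coeff_mem {A : Matrix M M (Polynomial ℂ)} {L : Submodule ℂ (M × M → ℂ)} (hA : ∀ t, fl (ev t A) ∈ L) (k : ℕ) :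
    fl (Matrix.of fun a b => (A a b).coeff k) ∈ L := by
  by_contra hcon
  obtain ⟨φ, hφ1, hφ2⟩ := Submodule.exists_le_ker_of_notMem hcon
  apply hφ1
  have hq : (∑ b : M × M, Polynomial.C (φ (Pi.single b 1)) * A b.1 b.2) = 0 := by
    refine Polynomial.funext fun t => ?_
    have h4 := hφ2 (hA t)
    rw [LinearMap.mem_ker, func_eq] at h4
    rw [Polynomial.eval_zero, Polynomial.eval_finsetSum, ← h4]
    refine Finset.sum_congr rfl fun b _ => ?_
    rw [Polynomial.eval_mul, Polynomial.eval_C]
    rfl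
  have h5 := congrArg (fun q => Polynomial.coeff q k) hq
  simp only [Polynomial.coeff_zero, Polynomial.finsetSum_coeff, Polynomial.coeff_C_mul] at h5
  rw [func_eq, ← h5]
  rfl

/-- **polynomial curves whose logarithmic derivative is in the Lie algebra** -/
theorem curve_mem (hT : IsSubtorsor K T) {x : Matrix M M ℂ} (hx : x ∈ T) (g A : Matrix M M (Polynomial ℂ))
    (hg0 : ev 0 g = 1) (hu : ∀ t, IsUnit (ev t g)) (hd : dr g = A * g) (hA : ∀ t, fl (ev t A) ∈ LL T) (t : ℂ) :
    ev t g * x ∈ T := by
  let G : M × M → Polynomial ℂ := fun b => (g * x.map Polynomial.C) b.1 b.2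
  let F : MvPolynomial (M × M) ℂ → Polynomial ℂ := fun P => MvPolynomial.aeval G P
  have hG : ∀ s, (fun b => (G b).eval s) = fl (ev s g * x) := by
    intro s
    have h1 := ev_mul s g (x.map Polynomial.C)
    rw [ev_C] at h1
    rw [← h1]
    rfl
  have hev : ∀ (P : MvPolynomial (M × M) ℂ) (s : ℂ), Polynomial.eval s (F P) =
      MvPolynomial.eval (fl (ev s g * x)) P := by
    intro P s
    rw [← hG]
    show Polynomial.eval s (MvPolynomial.aeval G P) = _
    induction P using MvPolynomial.induction_on with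
    | C a => simp
    | add p q hp hq => rw [map_add, Polynomial.eval_add, hp, hq, map_add]
    | mul_X p b hp =>
      rw [map_mul, Polynomial.eval_mul, hp, MvPolynomial.aeval_X, map_mul, MvPolynomial.eval_X]
  -- the coefficients of the logarithmic derivative
  let Ak : ℕ → Matrix M M ℂ := fun k => Matrix.of fun a b => (A a b).coeff k
  have hAk : ∀ k, fl (Ak k) ∈ LL T := fun k => coeff_mem hA k
  obtain ⟨q, hq⟩ : ∃ q : ℕ, ∀ a b, A a b = ∑ k ∈ Finset.range q, Polynomial.C (Ak k a b) * Polynomial.X ^ k := by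
    refine ⟨∑ a, ∑ b, ((A a b).natDegree + 1), fun a b => ?_⟩
    refine (A a b).as_sum_range_C_mul_X_pow' ?_
    have h1 : (A a b).natDegree + 1 ≤ ∑ b, ((A a b).natDegree + 1) :=
      Finset.single_le_sum (f := fun b => (A a b).natDegree + 1) (fun _ _ => Nat.zero_le _) (Finset.mem_univ b)
    have h2 : ∑ b, ((A a b).natDegree + 1) ≤ ∑ a, ∑ b, ((A a b).natDegree + 1) :=
      Finset.single_le_sum (f := fun a => ∑ b, ((A a b).natDegree + 1)) (fun _ _ => Nat.zero_le _) (Finset.mem_univ a)
    omega
  have hsb : ∀ (B : Matrix M M ℂ) (b : M × M), F (sb (ml B) b) = ∑ c, Polynomial.C (B b.1 c) * G (c, b.2) := by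
    intro B b
    have h1 : sb (ml B) b = ∑ c, MvPolynomial.C (B b.1 c) * MvPolynomial.X (c, b.2) := by
      apply MvPolynomial.funext
      intro y
      rw [eval_sb, map_sum]
      show (B * um y) b.1 b.2 = _
      rw [Matrix.mul_apply]
      refine Finset.sum_congr rfl fun c _ => ?_
      rw [map_mul, MvPolynomial.eval_C, MvPolynomial.eval_X]
      rfl
    show MvPolynomial.aeval G (sb (ml B) b) = _
    rw [h1, map_sum]
    refine Finset.sum_congr rfl fun c _ => ?_
    rw [map_mul, MvPolynomial.aeval_X, MvPolynomial.aeval_C]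
    rfl
  have hderG : ∀ b : M × M, Polynomial.derivative (G b) = ∑ k ∈ Finset.range q, Polynomial.X ^ k * F (sb (ml (Ak k)) b) := by
    intro b
    have h1 : dr (g * x.map Polynomial.C) = A * (g * x.map Polynomial.C) := by
      rw [dr_mul, dr_C, Matrix.mul_zero, add_zero, hd, Matrix.mul_assoc]
    have h2 : Polynomial.derivative (G b) = (A * (g * x.map Polynomial.C)) b.1 b.2 := by
      rw [← h1]
      rfl
    rw [h2, Matrix.mul_apply]
    simp only [hsb, Finset.mul_sum]
    rw [Finset.sum_comm]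
    refine Finset.sum_congr rfl fun c _ => ?_
    rw [hq b.1 c, Finset.sum_mul]
    refine Finset.sum_congr rfl fun k _ => ?_
    show _ = Polynomial.X ^ k * (Polynomial.C (Ak k b.1 c) * (g * x.map Polynomial.C) c b.2)
    ring
  have hder : ∀ P, Polynomial.derivative (F P) = ∑ k ∈ Finset.range q, Polynomial.X ^ k * F (DL (Ak k) P) := by
    intro P
    show Polynomial.derivative (MvPolynomial.aeval G P) = _
    rw [deriv_aeval]
    have h1 : ∀ k, F (DL (Ak k) P) = ∑ b, MvPolynomial.aeval G (MvPolynomial.pderiv b P) * F (sb (ml (Ak k)) b) := by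
      intro k
      show MvPolynomial.aeval G (DL (Ak k) P) = _
      unfold DL
      rw [map_sum]
      refine Finset.sum_congr rfl fun b _ => ?_
      rw [map_mul]
    simp only [h1, Finset.mul_sum]
    rw [Finset.sum_comm]
    refine Finset.sum_congr rfl fun b _ => ?_
    rw [hderG, Finset.mul_sum]
    refine Finset.sum_congr rfl fun k _ => ?_
    ring
  -- the orders of vanishing
  have hord : ∀ m : ℕ, ∀ P, Van T P → Polynomial.X ^ m ∣ F P := by
    intro m
    induction m with
    | zero =>
      intro P _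
      rw [pow_zero]
      exact one_dvd _
    | succ m ih =>
      intro P hP
      have h1 : Polynomial.X ^ m ∣ Polynomial.derivative (F P) := by
        rw [hder]
        exact Finset.dvd_sum fun k _ => Dvd.dvd.mul_left (ih _ (van_DL (hAk k) hP)) _
      rw [Polynomial.X_pow_dvd_iff] at h1 ⊢
      intro j hj
      rcases j with _ | j
      · rw [Polynomial.coeff_zero_eq_eval_zero, hev, hg0, Matrix.one_mul]
        exact hP x hx
      · have h2 := h1 j (by omega)
        rw [Polynomial.coeff_derivative] at h2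
        have h3 : ((j : ℂ) + 1) ≠ 0 := by exact_mod_cast Nat.succ_ne_zero j
        exact (mul_eq_zero.1 h2).resolve_right h3
  have hzero : ∀ P, Van T P → F P = 0 := by
    intro P hP
    ext j
    have h1 := hord (j + 1) P hP
    rw [Polynomial.X_pow_dvd_iff] at h1
    rw [h1 j (by omega), Polynomial.coeff_zero]
  obtain ⟨I, h1, h2⟩ := hT.algebraic
  have hIV : ∀ p ∈ I, Van T p := fun p hp y hy => ((h2 y).1 hy).2 p hp
  rw [h2]
  refine ⟨(hu t).mul (hT.isUnit x hx), fun p hp => ?_⟩
  have h3 := hzero p (hIV p hp)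
  have h4 := hev p t
  rw [h3, Polynomial.eval_zero] at h4
  exact h4.symm

/-- the exponential as a matrix of polynomials -/
theorem exists_expP {N : Matrix M M ℂ} (hN : IsNilpotent N) : ∃ E : Matrix M M (Polynomial ℂ),
    (∀ t, ev t E = IsNilpotent.exp (t • N)) ∧ dr E = N.map Polynomial.C * E := by
  obtain ⟨k, hk⟩ := hN
  have hk1 : N ^ (k + 1) = 0 := by rw [pow_succ, hk, Matrix.zero_mul]
  refine ⟨Matrix.of fun a b => eP N (k + 1) a b, fun t => ?_, ?_⟩
  · ext a b
    exact (eP_eval hk1 t a b).symm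
  · ext1 a b
    rw [Matrix.mul_apply]
    exact eP_deriv hk a b

theorem exp_commute {N B : Matrix M M ℂ} (hN : IsNilpotent N) (h : Commute N B) (s : ℂ) :
    Commute (IsNilpotent.exp (s • N)) B := by
  obtain ⟨k, hk⟩ := hN.smul s
  rw [IsNilpotent.exp_eq_sum hk]
  refine Commute.sum_left _ _ _ fun i _ => ?_
  exact ((h.smul_left s).pow_left i).smul_left _

/-- products of two exponentials -/
theorem two_exp (hT : IsSubtorsor K T) {x N N' : Matrix M M ℂ} (hx : x ∈ T) (hN : IsNilpotent N) (hN' : IsNilpotent N')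
    (hA : ∀ t : ℂ, fl (IsNilpotent.exp (t • N') * (N' - N) * IsNilpotent.exp ((-t) • N')) ∈ LL T) (t : ℂ) :
    IsNilpotent.exp (t • N') * IsNilpotent.exp ((-t) • N) * x ∈ T := by
  obtain ⟨E', h1, h2⟩ := exists_expP hN'
  obtain ⟨E, h3, h4⟩ := exists_expP hN.neg
  obtain ⟨F', h5, h6⟩ := exists_expP hN'.neg
  have hneg : ∀ (s : ℂ) (N : Matrix M M ℂ), s • (-N) = (-s) • N := fun s N => by rw [smul_neg, neg_smul]
  have h := curve_mem hT hx (E' * E) (E' * (N' - N).map Polynomial.C * F') ?_ ?_ ?_ ?_ t
  · rw [ev_mul, h1, h3, hneg] at h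
    exact h
  · rw [ev_mul, h1, h3, exp_zero', exp_zero', Matrix.one_mul]
  · intro s
    rw [ev_mul, h1, h3]
    exact (IsNilpotent.isUnit_exp (hN'.smul s)).mul (IsNilpotent.isUnit_exp (hN.neg.smul s))
  · rw [dr_mul, h2, h4]
    refine ext_ev fun s => ?_
    have e1 : ev s (N'.map Polynomial.C * E' * E + E' * ((-N).map Polynomial.C * E)) =
        N' * ev s E' * ev s E + ev s E' * ((-N) * ev s E) := by
      rw [ev_add, ev_mul, ev_mul, ev_mul, ev_mul, ev_C, ev_C]
    rw [e1, ev_mul, ev_mul, ev_mul, ev_mul, ev_C, h1, h3, h5]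
    have hc : Commute (IsNilpotent.exp (s • N')) N' := exp_commute hN' (Commute.refl N') s
    have hi : IsNilpotent.exp (s • -N') * IsNilpotent.exp (s • N') = 1 := by
      rw [hneg]
      exact exp_inv' hN' s
    set e' := IsNilpotent.exp (s • N') with he'
    set f' := IsNilpotent.exp (s • -N') with hf'
    set e := IsNilpotent.exp (s • -N) with he
    have e2 : e' * (N' - N) * f' * (e' * e) = e' * (N' - N) * (f' * e') * e := by simp only [Matrix.mul_assoc]
    rw [e2, hi, Matrix.mul_one, Matrix.mul_sub, Matrix.sub_mul, hc.eq]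
    rw [Matrix.neg_mul, Matrix.mul_neg, ← sub_eq_add_neg]
    simp only [Matrix.mul_assoc]
  · intro s
    rw [ev_mul, ev_mul, ev_C, h1, h5, hneg]
    exact hA s

/-- conjugates of one element by a one-parameter group -/
theorem conj_diff {L : Submodule ℂ (M × M → ℂ)} {N B : Matrix M M ℂ} (hN : IsNilpotent N)
    (h : ∀ t : ℂ, fl (IsNilpotent.exp (t • N) * (N * B - B * N) * IsNilpotent.exp ((-t) • N)) ∈ L) (t : ℂ) :
    fl (IsNilpotent.exp (t • N) * B * IsNilpotent.exp ((-t) • N) - B) ∈ L := by
  by_contra hcon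
  obtain ⟨φ, hφ1, hφ2⟩ := Submodule.exists_le_ker_of_notMem hcon
  apply hφ1
  obtain ⟨E, h1, h2⟩ := exists_expP hN
  obtain ⟨F, h3, h4⟩ := exists_expP hN.neg
  have hneg : ∀ (s : ℂ) (N : Matrix M M ℂ), s • (-N) = (-s) • N := fun s N => by rw [smul_neg, neg_smul]
  set Q : Matrix M M (Polynomial ℂ) := E * B.map Polynomial.C * F with hQ
  have hdQ : dr Q = E * (N * B - B * N).map Polynomial.C * F := by
    rw [hQ, dr_mul, dr_mul, dr_C, Matrix.mul_zero, add_zero, h2, h4]
    refine ext_ev fun s => ?_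
    have e1 : ev s (N.map Polynomial.C * E * B.map Polynomial.C * F +
        E * B.map Polynomial.C * ((-N).map Polynomial.C * F)) =
        N * ev s E * B * ev s F + ev s E * B * ((-N) * ev s F) := by
      rw [ev_add, ev_mul, ev_mul, ev_mul, ev_mul, ev_mul, ev_mul, ev_C, ev_C, ev_C]
    rw [e1, ev_mul, ev_mul, ev_C, h1, h3]
    have hc : Commute (IsNilpotent.exp (s • N)) N := exp_commute hN (Commute.refl N) s
    rw [Matrix.mul_sub, Matrix.sub_mul, ← hc.eq]
    rw [Matrix.neg_mul, Matrix.mul_neg, ← sub_eq_add_neg]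
    simp only [Matrix.mul_assoc]
  -- the functional
  set p : Polynomial ℂ := ∑ b : M × M, Polynomial.C (φ (Pi.single b 1)) * Q b.1 b.2 with hp
  have hpe : ∀ s, p.eval s = φ (fl (ev s Q)) := by
    intro s
    rw [hp, Polynomial.eval_finsetSum, func_eq]
    refine Finset.sum_congr rfl fun b _ => ?_
    rw [Polynomial.eval_mul, Polynomial.eval_C]
    rfl
  have hdp : Polynomial.derivative p = 0 := by
    refine Polynomial.funext fun s => ?_
    have h5 : Polynomial.eval s (Polynomial.derivative p) = φ (fl (ev s (dr Q))) := by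
      rw [hp, Polynomial.derivative_sum, Polynomial.eval_finsetSum, func_eq]
      refine Finset.sum_congr rfl fun b _ => ?_
      rw [Polynomial.derivative_C_mul, Polynomial.eval_mul, Polynomial.eval_C]
      rfl
    rw [h5, hdQ, ev_mul, ev_mul, ev_C, h1, h3, hneg, Polynomial.eval_zero]
    exact hφ2 (h s)
  have hconst : p.eval t = p.eval 0 := by
    obtain ⟨z, hz⟩ : ∃ z, p = Polynomial.C z :=
      ⟨_, Polynomial.eq_C_of_natDegree_eq_zero (Polynomial.derivative_eq_zero.1 hdp)⟩
    rw [hz, Polynomial.eval_C, Polynomial.eval_C]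
  rw [hpe, hpe] at hconst
  have e2 : ∀ s, ev s Q = IsNilpotent.exp (s • N) * B * IsNilpotent.exp ((-s) • N) := by
    intro s
    rw [hQ, ev_mul, ev_mul, ev_C, h1, h3, hneg]
  rw [e2, e2, exp_zero', neg_zero, exp_zero', Matrix.one_mul, Matrix.mul_one] at hconst
  have e3 : fl (IsNilpotent.exp (t • N) * B * IsNilpotent.exp ((-t) • N) - B) =
      fl (IsNilpotent.exp (t • N) * B * IsNilpotent.exp ((-t) • N)) - fl B := rfl
  rw [e3, map_sub, hconst, sub_self]

end Pool.Agent.Y123.GN
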