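import Pool.Agent.Y123.GN.D2

/-!
# The commutator group of the group generated by the unipotent one-parameter groups
-/

set_option autoImplicit false
set_option linter.unusedSectionVars false

open Matrix Module

namespace Pool.Agent.Y123.GN

open Pool.Agent.TH127.PT Pool.Agent.Y123.ST Pool.Agent.TH119.DR

variable {M : Type} [Fintype M] [DecidableEq M] {K : Subfield ℂ} {T : Set (Matrix M M ℂ)}

/-- the nilpotent matrices whose multiples have their exponentials in the group -/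
def Nil (𝒢 : Subgroup (Matrix M M ℂ)ˣ) : Set (Matrix M M ℂ) :=
  {N | IsNilpotent N ∧ ∀ t : ℂ, ∃ u ∈ 𝒢, (u : Matrix M M ℂ) = IsNilpotent.exp (t • N)}

/-- the group generated by these exponentials -/
def Ug (𝒢 : Subgroup (Matrix M M ℂ)ˣ) : Subgroup (Matrix M M ℂ)ˣ :=
  Subgroup.closure {u | ∃ N ∈ Nil 𝒢, ∃ t : ℂ, (u : Matrix M M ℂ) = IsNilpotent.exp (t • N)}

theorem Ug_le (𝒢 : Subgroup (Matrix M M ℂ)ˣ) : Ug 𝒢 ≤ 𝒢 := by
  refine (Subgroup.closure_le _).2 ?_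
  rintro u ⟨N, hN, t, hu⟩
  obtain ⟨v, hv, hv'⟩ := hN.2 t
  have h1 : u = v := Units.ext (hu.trans hv'.symm)
  rw [h1]
  exact hv

theorem conj_nil {N : Matrix M M ℂ} (hN : IsNilpotent N) (g : (Matrix M M ℂ)ˣ) :
    IsNilpotent ((g : Matrix M M ℂ) * N * (g⁻¹ : (Matrix M M ℂ)ˣ)) := by
  obtain ⟨k, hk⟩ := hN
  refine ⟨k, ?_⟩
  rw [Units.conj_pow, hk, Matrix.mul_zero, Matrix.zero_mul]

theorem exp_conj {N : Matrix M M ℂ} (hN : IsNilpotent N) (g : (Matrix M M ℂ)ˣ) (t : ℂ) :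
    IsNilpotent.exp (t • ((g : Matrix M M ℂ) * N * (g⁻¹ : (Matrix M M ℂ)ˣ))) =
      (g : Matrix M M ℂ) * IsNilpotent.exp (t • N) * (g⁻¹ : (Matrix M M ℂ)ˣ) := by
  have h0 : t • ((g : Matrix M M ℂ) * N * (g⁻¹ : (Matrix M M ℂ)ˣ)) = g * (t • N) * (g⁻¹ : (Matrix M M ℂ)ˣ) := by
    rw [Matrix.mul_smul, Matrix.smul_mul]
  obtain ⟨k, hk⟩ := hN.smul t
  have hk' : ((g : Matrix M M ℂ) * (t • N) * (g⁻¹ : (Matrix M M ℂ)ˣ)) ^ k = 0 := by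
    rw [Units.conj_pow, hk, Matrix.mul_zero, Matrix.zero_mul]
  rw [h0, IsNilpotent.exp_eq_sum hk, IsNilpotent.exp_eq_sum hk', Finset.mul_sum, Finset.sum_mul]
  refine Finset.sum_congr rfl fun i _ => ?_
  rw [Units.conj_pow, mul_smul_comm, smul_mul_assoc]

theorem Nil_conj {𝒢 : Subgroup (Matrix M M ℂ)ˣ} {N : Matrix M M ℂ} (hN : N ∈ Nil 𝒢) {g : (Matrix M M ℂ)ˣ} (hg : g ∈ 𝒢) :
    (g : Matrix M M ℂ) * N * (g⁻¹ : (Matrix M M ℂ)ˣ) ∈ Nil 𝒢 := by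
  refine ⟨conj_nil hN.1 g, fun t => ?_⟩
  obtain ⟨u, hu, hu'⟩ := hN.2 t
  refine ⟨g * u * g⁻¹, 𝒢.mul_mem (𝒢.mul_mem hg hu) (𝒢.inv_mem hg), ?_⟩
  rw [exp_conj hN.1, Units.val_mul, Units.val_mul, hu']

theorem Nil_neg {𝒢 : Subgroup (Matrix M M ℂ)ˣ} {N : Matrix M M ℂ} (hN : N ∈ Nil 𝒢) : -N ∈ Nil 𝒢 := by
  refine ⟨hN.1.neg, fun t => ?_⟩
  obtain ⟨u, hu, hu'⟩ := hN.2 (-t)
  refine ⟨u, hu, ?_⟩
  rw [hu', smul_neg, neg_smul]

theorem inv_val (g : (Matrix M M ℂ)ˣ) : ((g : Matrix M M ℂ))⁻¹ = ((g⁻¹ : (Matrix M M ℂ)ˣ) : Matrix M M ℂ) :=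
  (Matrix.coe_units_inv g).symm

/-- the group elements normalise the Lie algebra -/
theorem conj_LL (hT : IsSubtorsor K T) {c : Matrix M M ℂ} (hc : c ∈ T) {g : (Matrix M M ℂ)ˣ}
    (hr : Rl K (1 + Fintype.card M) c (g * c)) {w : Matrix M M ℂ} (hw : fl w ∈ LL T) :
    fl ((g : Matrix M M ℂ) * w * ((g⁻¹ : (Matrix M M ℂ)ˣ) : Matrix M M ℂ)) ∈ LL T := by
  have h1 := normal hT hc ((Matrix.isUnit_iff_isUnit_det _).1 g.isUnit) hr hw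
  rwa [inv_val] at h1

/-- conjugates of elements of `Nil` differ by elements of the Lie algebra -/
theorem Nil_diff (hT : IsSubtorsor K T) {c : Matrix M M ℂ} (hc : c ∈ T) {𝒢 : Subgroup (Matrix M M ℂ)ˣ}
    (hrel : ∀ g ∈ 𝒢, Rl K (1 + Fintype.card M) c (g * c))
    (hbr : ∀ A ∈ Nil 𝒢, ∀ B ∈ Nil 𝒢, fl (A * B - B * A) ∈ LL T) {g : (Matrix M M ℂ)ˣ} (hg : g ∈ Ug 𝒢) :
    ∀ N ∈ Nil 𝒢, fl ((g : Matrix M M ℂ) * N * ((g⁻¹ : (Matrix M M ℂ)ˣ) : Matrix M M ℂ) - N) ∈ LL T := by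
  have gen : ∀ A ∈ Nil 𝒢, ∀ t : ℂ, ∀ N ∈ Nil 𝒢,
      fl (IsNilpotent.exp (t • A) * N * IsNilpotent.exp ((-t) • A) - N) ∈ LL T := by
    intro A hA t N hN
    refine conj_diff hA.1 (fun s => ?_) t
    obtain ⟨u, hu, hu'⟩ := hA.2 s
    have h1 := conj_LL hT hc (hrel u hu) (hbr A hA N hN)
    rw [hu', ← inv_val, hu', exp_inv_eq hA.1] at h1
    exact h1
  induction hg using Subgroup.closure_induction with
  | mem g hg =>
    obtain ⟨A, hA, t, ht⟩ := hg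
    intro N hN
    have h1 := gen A hA t N hN
    rw [← exp_inv_eq hA.1, ← ht, inv_val] at h1
    exact h1
  | one =>
    intro N _
    rw [inv_one, Units.val_one, Matrix.one_mul, Matrix.mul_one, sub_self, fl_zero]
    exact (LL T).zero_mem
  | mul g g' hg hg' ih ih' =>
    intro N hN
    have h1 := ih' N hN
    have h2 := ih _ (Nil_conj hN (Ug_le 𝒢 hg'))
    have h3 : ((g * g' : (Matrix M M ℂ)ˣ) : Matrix M M ℂ) * N * ((g * g')⁻¹ : (Matrix M M ℂ)ˣ) - N =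
        (g * (g' * N * (g'⁻¹ : (Matrix M M ℂ)ˣ)) * (g⁻¹ : (Matrix M M ℂ)ˣ) - g' * N * (g'⁻¹ : (Matrix M M ℂ)ˣ)) +
          (g' * N * (g'⁻¹ : (Matrix M M ℂ)ˣ) - N) := by
      rw [_root_.mul_inv_rev, Units.val_mul, Units.val_mul]
      simp only [Matrix.mul_assoc]
      abel
    rw [h3, fl_add]
    exact (LL T).add_mem h2 h1
  | inv g hg ih =>
    intro N hN
    have h1 := ih _ (Nil_conj hN (𝒢.inv_mem (Ug_le 𝒢 hg)))
    have h2 : (g : Matrix M M ℂ) * ((g⁻¹ : (Matrix M M ℂ)ˣ) * N * ((g⁻¹)⁻¹ : (Matrix M M ℂ)ˣ)) *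
        (g⁻¹ : (Matrix M M ℂ)ˣ) = N := by
      rw [inv_inv]
      have e1 : (g : Matrix M M ℂ) * (g⁻¹ : (Matrix M M ℂ)ˣ) = 1 := g.mul_inv
      calc (g : Matrix M M ℂ) * ((g⁻¹ : (Matrix M M ℂ)ˣ) * N * g) * (g⁻¹ : (Matrix M M ℂ)ˣ) =
          ((g : Matrix M M ℂ) * (g⁻¹ : (Matrix M M ℂ)ˣ)) * N * ((g : Matrix M M ℂ) * (g⁻¹ : (Matrix M M ℂ)ˣ)) := by
            simp only [Matrix.mul_assoc]
        _ = N := by rw [e1, Matrix.one_mul, Matrix.mul_one]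
    rw [h2] at h1
    exact bk_neg' h1
where
  bk_neg' {A B : Matrix M M ℂ} {L : Submodule ℂ (M × M → ℂ)} (h : fl (A - B) ∈ L) : fl (B - A) ∈ L := by
    have h1 := Submodule.neg_mem _ h
    have h2 : -fl (A - B) = fl (B - A) := by
      funext b
      show -((_ - _ : Matrix M M ℂ) b.1 b.2) = (_ - _ : Matrix M M ℂ) b.1 b.2
      rw [Matrix.sub_apply, Matrix.sub_apply, neg_sub]
    rwa [h2] at h1

/-- the stabiliser of the subtorsor -/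
def Sbl (T : Set (Matrix M M ℂ)) : Set (Matrix M M ℂ)ˣ := {u | ∀ x ∈ T, (u : Matrix M M ℂ) * x ∈ T}

theorem Sbl_mul {u v : (Matrix M M ℂ)ˣ} (hu : u ∈ Sbl T) (hv : v ∈ Sbl T) : u * v ∈ Sbl T := by
  intro x hx
  rw [Units.val_mul, Matrix.mul_assoc]
  exact hu _ (hv x hx)

theorem Sbl_inv (hT : IsSubtorsor K T) {u : (Matrix M M ℂ)ˣ} (hu : u ∈ Sbl T) : u⁻¹ ∈ Sbl T := by
  intro x hx
  have h1 := hT.torsor x hx _ (hu x hx) x hx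
  have h2 : x * ((u : Matrix M M ℂ) * x)⁻¹ * x = (u⁻¹ : (Matrix M M ℂ)ˣ) * x := by
    rw [Matrix.mul_inv_rev, inv_val, ← Matrix.mul_assoc, mul_inv' hT hx, Matrix.one_mul]
  rwa [h2] at h1

/-- **commutators stabilise the subtorsor** -/
theorem comm_stab (hT : IsSubtorsor K T) {c : Matrix M M ℂ} (hc : c ∈ T) {𝒢 : Subgroup (Matrix M M ℂ)ˣ}
    (hrel : ∀ g ∈ 𝒢, Rl K (1 + Fintype.card M) c (g * c))
    (hbr : ∀ A ∈ Nil 𝒢, ∀ B ∈ Nil 𝒢, fl (A * B - B * A) ∈ LL T) :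
    ∀ h ∈ Ug 𝒢, ∀ g ∈ Ug 𝒢, ∀ y ∈ Ug 𝒢, y * (g * h * g⁻¹ * h⁻¹) * y⁻¹ ∈ Sbl T := by
  intro h hh
  induction hh using Subgroup.closure_induction with
  | mem h hh =>
    obtain ⟨N, hN, t, ht⟩ := hh
    intro g hg y hy
    -- the two conjugates
    have hN' := Nil_conj hN (Ug_le 𝒢 ((Ug 𝒢).mul_mem hy hg))
    have hN'' := Nil_conj hN (Ug_le 𝒢 hy)
    set N' := ((y * g : (Matrix M M ℂ)ˣ) : Matrix M M ℂ) * N * ((y * g)⁻¹ : (Matrix M M ℂ)ˣ) with hN'd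
    set N'' := (y : Matrix M M ℂ) * N * (y⁻¹ : (Matrix M M ℂ)ˣ) with hN''d
    have hdiff : fl (N' - N'') ∈ LL T := by
      have h1 := Nil_diff hT hc hrel hbr ((Ug 𝒢).mul_mem hy hg) N hN
      have h2 := Nil_diff.bk_neg' (Nil_diff hT hc hrel hbr hy N hN)
      have h3 : N' - N'' = (N' - N) + (N - N'') := by abel
      rw [h3, fl_add]
      exact (LL T).add_mem h1 h2
    intro x hx
    have h1 := two_exp hT hx hN''.1 hN'.1 (fun s => by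
      obtain ⟨u, hu, hu'⟩ := hN'.2 s
      have h2 := conj_LL hT hc (hrel u hu) hdiff
      rw [hu', ← inv_val, hu', exp_inv_eq hN'.1] at h2
      exact h2) t
    have hti : ((h⁻¹ : (Matrix M M ℂ)ˣ) : Matrix M M ℂ) = IsNilpotent.exp ((-t) • N) := by
      rw [← inv_val, ht, exp_inv_eq hN.1]
    rw [hN'd, hN''d, exp_conj hN.1, exp_conj hN.1, ← ht, ← hti] at h1
    have h2 : ((y * (g * h * g⁻¹ * h⁻¹) * y⁻¹ : (Matrix M M ℂ)ˣ) : Matrix M M ℂ) =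
        ((y * g : (Matrix M M ℂ)ˣ) : Matrix M M ℂ) * h * ((y * g)⁻¹ : (Matrix M M ℂ)ˣ) *
          (y * (h⁻¹ : (Matrix M M ℂ)ˣ) * (y⁻¹ : (Matrix M M ℂ)ˣ)) := by
      rw [← Units.val_mul, ← Units.val_mul, ← Units.val_mul, ← Units.val_mul, ← Units.val_mul]
      congr 1
      group
    rw [h2]
    exact h1
  | one =>
    intro g _ y _ x hx
    have h1 : y * (g * 1 * g⁻¹ * 1⁻¹) * y⁻¹ = 1 := by group
    rw [h1, Units.val_one, Matrix.one_mul]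
    exact hx
  | mul h h' hh hh' ih ih' =>
    intro g hg y hy
    have h1 := Sbl_mul (ih g hg y hy) (ih' g hg (y * h) ((Ug 𝒢).mul_mem hy hh))
    have h2 : y * (g * h * g⁻¹ * h⁻¹) * y⁻¹ * (y * h * (g * h' * g⁻¹ * h'⁻¹) * (y * h)⁻¹) =
        y * (g * (h * h') * g⁻¹ * (h * h')⁻¹) * y⁻¹ := by group
    rwa [h2] at h1
  | inv h hh ih =>
    intro g hg y hy
    have h1 := Sbl_inv hT (ih g hg (y * h⁻¹) ((Ug 𝒢).mul_mem hy ((Ug 𝒢).inv_mem hh)))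
    have h2 : (y * h⁻¹ * (g * h * g⁻¹ * h⁻¹) * (y * h⁻¹)⁻¹)⁻¹ = y * (g * h⁻¹ * g⁻¹ * h⁻¹⁻¹) * y⁻¹ := by group
    rwa [h2] at h1

/-- **The main theorem on commutators.** -/
theorem comm_main (m : ℕ) : ∃ d : ℕ, 1 + m ≤ d ∧ ∀ (M : Type) [Fintype M] [DecidableEq M], Fintype.card M ≤ m →
    ∀ (K : Subfield ℂ), (K : Set ℂ).Countable → ∀ (T : Set (Matrix M M ℂ)) (c : Matrix M M ℂ), IsSubtorsor K T → c ∈ T →
    ∀ 𝒢 : Subgroup (Matrix M M ℂ)ˣ, (∀ g ∈ 𝒢, Rl K d c (g * c)) → (∀ u ∈ ⁅Ug 𝒢, Ug 𝒢⁆, u ∈ Sbl T) ∧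
      ∀ A ∈ Nil 𝒢, ∀ B ∈ Nil 𝒢, fl (A * B - B * A) ∈ LL T := by
  obtain ⟨d, hd, hmain⟩ := norm_fix m
  refine ⟨d, hd, ?_⟩
  intro M _ _ hM K hK T c hT hc 𝒢 hrel
  have hrel' : ∀ g ∈ 𝒢, Rl K (1 + Fintype.card M) c (g * c) := fun g hg => (hrel g hg).mono (by omega)
  have hexp : ∀ N ∈ Nil 𝒢, ∀ t : ℂ, Rl K d c (IsNilpotent.exp (t • N) * c) := by
    intro N hN t
    obtain ⟨u, hu, hu'⟩ := hN.2 t
    rw [← hu']
    exact hrel u hu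
  have hbr : ∀ A ∈ Nil 𝒢, ∀ B ∈ Nil 𝒢, fl (A * B - B * A) ∈ LL T := by
    intro A hA B hB
    exact hmain M hM K hK T c hT hc A hA.1 (hexp A hA) B
      (nrm_of_rel hT hc hB.1 fun t => (hexp B hB t).mono (by omega))
  refine ⟨?_, hbr⟩
  intro u hu
  rw [Subgroup.commutator_def] at hu
  induction hu using Subgroup.closure_induction with
  | mem u hu =>
    obtain ⟨g, hg, h, hh, rfl⟩ := hu
    have h1 := comm_stab hT hc hrel' hbr h hh g hg 1 (Ug 𝒢).one_mem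
    rw [one_mul, inv_one, mul_one] at h1
    rw [commutatorElement_def]
    exact h1
  | one =>
    intro x hx
    rw [Units.val_one, Matrix.one_mul]
    exact hx
  | mul u v _ _ ihu ihv => exact Sbl_mul ihu ihv
  | inv u _ ih => exact Sbl_inv hT ih

end Pool.Agent.Y123.GN
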