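import Pool.Agent.Y123.GN.D3

/-!
# Graded parts: matrices of Hom-type between pieces with different transcendental periods
-/

set_option autoImplicit false
set_option linter.unusedSectionVars false

open Matrix Module

namespace Pool.Agent.Y123.GN

open Pool.Agent.TH127.PT Pool.Agent.Y123.ST Pool.Agent.TH119.DR

section abstract_part

variable {M : Type} [Fintype M] [DecidableEq M] {K : Subfield ℂ} {T : Set (Matrix M M ℂ)}

/-- nilpotent elements of the Lie algebra normalise it -/
theorem nrm_of_mem (hT : IsSubtorsor K T) {c y : Matrix M M ℂ} (hc : c ∈ T) (hy : IsNilpotent y) (hyL : fl y ∈ LL T) :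
    Nrm T y := by
  intro w hw
  have h1 : ∀ t : ℂ, fl (IsNilpotent.exp ((-t) • y) * w * IsNilpotent.exp (t • y)) ∈ LL T := by
    intro t
    have hX := exp_mem hT hy hyL hc (-t)
    have h2 := quot_LL hT hc hX hw
    have h3 : IsNilpotent.exp ((-t) • y) * c * (c⁻¹ * w * c) * (IsNilpotent.exp ((-t) • y) * c)⁻¹ =
        IsNilpotent.exp ((-t) • y) * w * IsNilpotent.exp (t • y) := by
      rw [Matrix.mul_inv_rev, exp_inv_eq hy, neg_neg]
      have e1 := mul_inv' hT hc
      calc IsNilpotent.exp ((-t) • y) * c * (c⁻¹ * w * c) * (c⁻¹ * IsNilpotent.exp (t • y)) =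
          IsNilpotent.exp ((-t) • y) * (c * c⁻¹) * w * (c * c⁻¹) * IsNilpotent.exp (t • y) := by
            simp only [Matrix.mul_assoc]
        _ = _ := by rw [e1, Matrix.mul_one, Matrix.mul_one]
    rwa [h3] at h2
  have h3 := ((PD.exp_neg hy).mul (PD.const w)).mul (PD.exp hy)
  have h4 := h3.mem (LL T) h1
  have h5 : (-y * w + 1 * 0) * 1 + 1 * w * y = w * y - y * w := by noncomm_ring
  rw [h5] at h4
  exact h4

/-- the abstract statement -/
theorem tate_abs (hT : IsSubtorsor K T) {c w : Matrix M M ℂ} (hc : c ∈ T) (hw : fl w ∈ LL T)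
    (U : Submodule ℂ (Matrix M M ℂ)) (hU : ∀ y ∈ U, IsNilpotent y) (hst : ∀ y ∈ U, w * y - y * w ∈ U)
    (hinj : ∀ y ∈ U, w * y - y * w = 0 → y = 0) {N : Matrix M M ℂ} (hN : N ∈ U) (hNn : Nrm T N) : fl N ∈ LL T := by
  let A : Matrix M M ℂ →ₗ[ℂ] Matrix M M ℂ := LinearMap.mulLeft ℂ w - LinearMap.mulRight ℂ w
  have hA : ∀ y, A y = w * y - y * w := fun y => by
    simp only [A, LinearMap.sub_apply, LinearMap.mulLeft_apply, LinearMap.mulRight_apply]
  -- the intersection with the Lie algebra
  let L : Submodule ℂ (Matrix M M ℂ) :=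
    { carrier := {y | y ∈ U ∧ fl y ∈ LL T}
      zero_mem' := ⟨U.zero_mem, by rw [fl_zero]; exact (LL T).zero_mem⟩
      add_mem' := by
        rintro x y ⟨h1, h2⟩ ⟨h3, h4⟩
        exact ⟨U.add_mem h1 h3, by rw [fl_add]; exact (LL T).add_mem h2 h4⟩
      smul_mem' := by
        rintro z y ⟨h1, h2⟩
        exact ⟨U.smul_mem z h1, by rw [fl_smul]; exact (LL T).smul_mem z h2⟩ }
  have hL : ∀ y ∈ L, A y ∈ L := by
    rintro y ⟨h1, h2⟩
    rw [hA]
    exact ⟨hst y h1, nrm_of_mem hT hc (hU y h1) h2 w hw⟩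
  let AL : L →ₗ[ℂ] L := A.restrict hL
  have hALinj : Function.Injective AL := by
    rw [injective_iff_map_eq_zero]
    intro y hy
    have h1 : A y.1 = 0 := congrArg Subtype.val hy
    rw [hA] at h1
    exact Subtype.ext (hinj y.1 y.2.1 h1)
  have hALsurj : Function.Surjective AL := LinearMap.injective_iff_surjective.1 hALinj
  have hAN : A N ∈ L := by
    rw [hA]
    exact ⟨hst N hN, hNn w hw⟩
  obtain ⟨y, hy⟩ := hALsurj ⟨A N, hAN⟩
  have h1 : A y.1 = A N := congrArg Subtype.val hy
  have h2 : w * (y.1 - N) - (y.1 - N) * w = 0 := by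
    rw [← hA, map_sub, h1, sub_self]
  have h3 := hinj _ (U.sub_mem y.2.1 hN) h2
  have h4 : y.1 = N := sub_eq_zero.1 h3
  rw [← h4]
  exact y.2.2

end abstract_part

section weights

variable {ν : Type} [Fintype ν] [DecidableEq ν] {wt : ν → ℤ} {R : ν → ν → Prop}

/-- the matrices supported in `R` -/
def US (R : ν → ν → Prop) : Submodule ℂ (Matrix ν ν ℂ) where
  carrier := {N | ∀ a b, N a b ≠ 0 → R a b}
  zero_mem' := fun a b h => absurd rfl h
  add_mem' := by
    intro x y hx hy a b h
    by_cases h1 : x a b = 0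
    · refine hy a b fun h2 => h ?_
      rw [Matrix.add_apply, h1, h2, add_zero]
    · exact hx a b h1
  smul_mem' := by
    intro z x hx a b h
    refine hx a b fun h1 => h ?_
    rw [Matrix.smul_apply, h1, smul_zero]

/-- the relation is compatible with the weights -/
structure UpR (wt : ν → ℤ) (R : ν → ν → Prop) : Prop where
  lt : ∀ a b, R a b → wt a < wt b
  left : ∀ a a' b, R a b → wt a' ≤ wt a → R a' b
  right : ∀ a b b', R a b → wt b ≤ wt b' → R a b'

theorem US_nil (hR : UpR wt R) {N : Matrix ν ν ℂ} (hN : N ∈ US R) : IsNilpotent N := by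
  have hpow : ∀ k : ℕ, ∀ a b, (N ^ k) a b ≠ 0 → wt a + k ≤ wt b := by
    intro k
    induction k with
    | zero =>
      intro a b h
      rw [pow_zero, Matrix.one_apply] at h
      have h1 : a = b := by
        by_contra hne
        rw [if_neg hne] at h
        exact h rfl
      rw [h1]
      simp
    | succ k ih =>
      intro a b h
      rw [pow_succ, Matrix.mul_apply] at h
      obtain ⟨c, -, hc⟩ := Finset.exists_ne_zero_of_sum_ne_zero h
      have h1 := ih a c (left_ne_zero_of_mul hc)
      have h2 := hR.lt c b (hN c b (right_ne_zero_of_mul hc))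
      push_cast
      omega
  obtain ⟨B, hB⟩ : ∃ B : ℕ, ∀ a b, wt b - wt a < B := by
    refine ⟨∑ a, (2 * (wt a).natAbs) + 1, fun a b => ?_⟩
    have h1 : 2 * (wt a).natAbs ≤ ∑ a, (2 * (wt a).natAbs) :=
      Finset.single_le_sum (f := fun a => 2 * (wt a).natAbs) (fun _ _ => Nat.zero_le _) (Finset.mem_univ a)
    have h2 : 2 * (wt b).natAbs ≤ ∑ a, (2 * (wt a).natAbs) :=
      Finset.single_le_sum (f := fun a => 2 * (wt a).natAbs) (fun _ _ => Nat.zero_le _) (Finset.mem_univ b)
    omega
  refine ⟨B, ?_⟩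
  ext a b
  rw [Matrix.zero_apply]
  by_contra h
  have h1 := hpow B a b h
  have h2 := hB a b
  omega

/-- the conditions for the logarithmic derivative -/
structure WC (wt : ν → ℤ) (R : ν → ν → Prop) (lam : ν → ℂ) (w : Matrix ν ν ℂ) : Prop where
  tri : ∀ a b, wt b < wt a → w a b = 0
  left : ∀ a b, R a b → ∀ c, wt c = wt a → w a c = if c = a then lam a else 0
  right : ∀ a b, R a b → ∀ c, wt c = wt b → w c b = if c = b then lam b else 0
  ne : ∀ a b, R a b → lam a ≠ lam b

theorem US_ad (hR : UpR wt R) {lam : ν → ℂ} {w : Matrix ν ν ℂ} (hw : WC wt R lam w) {y : Matrix ν ν ℂ} (hy : y ∈ US R) :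
    w * y - y * w ∈ US R := by
  refine (US R).sub_mem ?_ ?_
  · intro a b h
    rw [Matrix.mul_apply] at h
    obtain ⟨c, -, hc⟩ := Finset.exists_ne_zero_of_sum_ne_zero h
    have h1 : ¬ wt c < wt a := fun h2 => left_ne_zero_of_mul hc (hw.tri a c h2)
    exact hR.left c a b (hy c b (right_ne_zero_of_mul hc)) (not_lt.1 h1)
  · intro a b h
    rw [Matrix.mul_apply] at h
    obtain ⟨c, -, hc⟩ := Finset.exists_ne_zero_of_sum_ne_zero h
    have h1 : ¬ wt b < wt c := fun h2 => right_ne_zero_of_mul hc (hw.tri c b h2)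
    exact hR.right a c b (hy a c (left_ne_zero_of_mul hc)) (not_lt.1 h1)

theorem US_inj (hR : UpR wt R) {lam : ν → ℂ} {w : Matrix ν ν ℂ} (hw : WC wt R lam w) {y : Matrix ν ν ℂ} (hy : y ∈ US R)
    (h0 : w * y - y * w = 0) : y = 0 := by
  classical
  by_contra hne
  have hex : ∃ p : ν × ν, y p.1 p.2 ≠ 0 := by
    by_contra hcon
    push Not at hcon
    apply hne
    ext a b
    exact hcon (a, b)
  set S : Finset (ν × ν) := Finset.univ.filter fun p => y p.1 p.2 ≠ 0 with hS
  have hSne : S.Nonempty := by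
    obtain ⟨p, hp⟩ := hex
    exact ⟨p, Finset.mem_filter.2 ⟨Finset.mem_univ _, hp⟩⟩
  obtain ⟨⟨a, b⟩, hab, hmin⟩ := Finset.exists_min_image S (fun p => wt p.2 - wt p.1) hSne
  have hyab : y a b ≠ 0 := (Finset.mem_filter.1 hab).2
  have hRab := hy a b hyab
  have hm : ∀ a' b', y a' b' ≠ 0 → wt b - wt a ≤ wt b' - wt a' := fun a' b' h =>
    hmin (a', b') (Finset.mem_filter.2 ⟨Finset.mem_univ _, h⟩)
  have h1 : (w * y) a b = lam a * y a b := by
    rw [Matrix.mul_apply, Finset.sum_eq_single a]
    · rw [hw.left a b hRab a rfl, if_pos rfl]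
    · intro c _ hc
      rcases lt_trichotomy (wt c) (wt a) with h | h | h
      · rw [hw.tri a c h, zero_mul]
      · rw [hw.left a b hRab c h, if_neg hc, zero_mul]
      · have h2 : y c b = 0 := by
          by_contra h3
          have := hm c b h3
          omega
        rw [h2, mul_zero]
    · intro h
      exact absurd (Finset.mem_univ _) h
  have h2 : (y * w) a b = y a b * lam b := by
    rw [Matrix.mul_apply, Finset.sum_eq_single b]
    · rw [hw.right a b hRab b rfl, if_pos rfl]
    · intro c _ hc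
      rcases lt_trichotomy (wt c) (wt b) with h | h | h
      · have h2 : y a c = 0 := by
          by_contra h3
          have := hm a c h3
          omega
        rw [h2, zero_mul]
      · rw [hw.right a b hRab c h, if_neg hc, mul_zero]
      · rw [hw.tri c b h, mul_zero]
    · intro h
      exact absurd (Finset.mem_univ _) h
  have h3 := congrFun (congrFun h0 a) b
  rw [Matrix.sub_apply, h1, h2, Matrix.zero_apply] at h3
  have h4 : (lam a - lam b) * y a b = 0 := by rw [← h3]; ring
  rcases mul_eq_zero.1 h4 with h5 | h5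
  · exact hw.ne a b hRab (sub_eq_zero.1 h5)
  · exact hyab h5

/-- a derivation which does not vanish at finitely many transcendental numbers -/
theorem exists_der_fin {K : Subfield ℂ} (S : Finset ℂ) (hS : ∀ z ∈ S, Transcendental K z) :
    ∃ D : Derivation K ℂ ℂ, ∀ z ∈ S, D z ≠ 0 := by
  classical
  let V : ℂ → Submodule ℂ (Derivation K ℂ ℂ) := fun z =>
    { carrier := {D | D z = 0}
      zero_mem' := rfl
      add_mem' := by
        intro D D' h h'
        show D z + D' z = 0
        rw [show D z = 0 from h, show D' z = 0 from h', add_zero]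
      smul_mem' := by
        intro a D h
        show a • D z = 0
        rw [show D z = 0 from h, smul_zero] }
  have hV : (⊤ : Submodule ℂ (Derivation K ℂ ℂ)) ∉ S.image V := by
    intro h
    obtain ⟨z, hz, hzV⟩ := Finset.mem_image.1 h
    obtain ⟨D, hD⟩ := exists_der_tr (hS z hz)
    apply hD
    have h1 : D ∈ V z := by rw [hzV]; exact Submodule.mem_top
    exact h1
  have h1 := Subspace.biUnion_ne_univ_of_top_notMem hV
  rw [Set.ne_univ_iff_exists_notMem] at h1
  obtain ⟨D, hD⟩ := h1
  refine ⟨D, fun z hz h0 => hD ?_⟩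
  rw [Set.mem_iUnion₂]
  exact ⟨V z, Finset.mem_image_of_mem V hz, h0⟩

/-- the logarithmic derivative of a period matrix with graded pieces with constant periods -/
theorem wc_of {K : Subfield ℂ} {P : Matrix ν ν ℂ} (hP : IsUnit P) {E : Set ℤ} {ω : ℤ → ℂ}
    (hR1 : ∀ a b, R a b → wt a < wt b ∧ wt a ∈ E ∧ wt b ∈ E ∧ Transcendental K (ω (wt a) / ω (wt b)))
    (htri : ∀ a b, wt b < wt a → P a b = 0)
    (hdiag : ∀ a b, wt b = wt a → wt a ∈ E → ∃ κ ∈ K, P a b = ω (wt a) * κ) :
    ∃ D : Derivation K ℂ ℂ, WC wt R (fun a => D (ω (wt a)) / ω (wt a)) (P.map D * P⁻¹) := by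
  classical
  obtain ⟨D, hD⟩ := exists_der_fin (K := K)
    ((Finset.univ.filter fun p : ν × ν => R p.1 p.2).image fun p => ω (wt p.1) / ω (wt p.2)) (by
      intro z hz
      obtain ⟨p, hp, rfl⟩ := Finset.mem_image.1 hz
      exact (hR1 p.1 p.2 (Finset.mem_filter.1 hp).2).2.2.2)
  refine ⟨D, ?_⟩
  have hPd : IsUnit P.det := (Matrix.isUnit_iff_isUnit_det P).1 hP
  have hPP : P * P⁻¹ = 1 := Matrix.mul_nonsing_inv P hPd
  have hbt : BlockTriangular P wt := fun a b h => htri a b h
  have hinv : BlockTriangular P⁻¹ wt := by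
    have hI : Invertible P := P.invertibleOfIsUnitDet hPd
    exact blockTriangular_inv_of_blockTriangular hbt
  have hDbt : BlockTriangular (P.map D) wt := by
    intro a b h
    rw [Matrix.map_apply, htri a b h, map_zero]
  -- rows with weights in `E`
  have hrow : ∀ a, wt a ∈ E → ∀ b, wt b ≤ wt a → (P.map D * P⁻¹) a b =
      if b = a then D (ω (wt a)) / ω (wt a) else 0 := by
    intro a ha b hb
    set l := D (ω (wt a)) / ω (wt a) with hl
    have h1 : ∀ c, wt c ≤ wt a → P.map D a c = l * P a c := by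
      intro c hc
      rcases lt_or_eq_of_le hc with h | h
      · rw [Matrix.map_apply, htri a c h, map_zero, mul_zero]
      · obtain ⟨κ, hκ, hPκ⟩ := hdiag a c h ha
        rw [Matrix.map_apply, hPκ, D.leibniz, der_zero D hκ, smul_zero, zero_add, smul_eq_mul, hl]
        by_cases h0 : ω (wt a) = 0
        · rw [h0, map_zero]
          simp
        · field_simp
    have h2 : ∀ c, P.map D a c * P⁻¹ c b = l * (P a c * P⁻¹ c b) := by
      intro c
      by_cases hc : wt c ≤ wt a
      · rw [h1 c hc, mul_assoc]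
      · have h3 : P⁻¹ c b = 0 := hinv (lt_of_le_of_lt hb (not_le.1 hc))
        rw [h3, mul_zero, mul_zero, mul_zero]
    rw [Matrix.mul_apply, Finset.sum_congr rfl fun c _ => h2 c, ← Finset.mul_sum, ← Matrix.mul_apply, hPP,
      Matrix.one_apply]
    by_cases hba : b = a
    · rw [if_pos hba, if_pos hba.symm, mul_one]
    · rw [if_neg hba, if_neg (fun h => hba h.symm), mul_zero]
  refine ⟨fun a b h => (hDbt.mul hinv) h, fun a b hab c hc => ?_, fun a b hab c hc => ?_, fun a b hab heq => ?_⟩
  · exact hrow a (hR1 a b hab).2.1 c hc.le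
  · have hbE := (hR1 a b hab).2.2.1
    have h1 := hrow c (by rw [hc]; exact hbE) b hc.ge
    rw [h1]
    by_cases hcb : c = b
    · rw [if_pos hcb, if_pos hcb.symm, hcb]
    · rw [if_neg hcb, if_neg fun h => hcb h.symm]
  · have htr := (hR1 a b hab).2.2.2
    have hz := hD _ (Finset.mem_image.2 ⟨(a, b), Finset.mem_filter.2 ⟨Finset.mem_univ _, hab⟩, rfl⟩)
    have ha0 : ω (wt a) ≠ 0 := by
      intro h
      rw [h, zero_div] at htr
      exact htr isAlgebraic_zero
    have hb0 : ω (wt b) ≠ 0 := by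
      intro h
      rw [h, div_zero] at htr
      exact htr isAlgebraic_zero
    apply hz
    -- the derivative of the quotient
    have h1 : ω (wt a) = (ω (wt a) / ω (wt b)) * ω (wt b) := by field_simp
    have h2 := congrArg D h1
    rw [D.leibniz, smul_eq_mul, smul_eq_mul] at h2
    have h3 : D (ω (wt a)) * ω (wt b) = D (ω (wt b)) * ω (wt a) := by
      have h4 : D (ω (wt a)) / ω (wt a) = D (ω (wt b)) / ω (wt b) := heq
      field_simp at h4
      linear_combination h4
    have h4 : ω (wt b) * (ω (wt b) * D (ω (wt a) / ω (wt b))) = 0 := by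
      have h5 : ω (wt b) * D (ω (wt a) / ω (wt b)) = D (ω (wt a)) - ω (wt a) / ω (wt b) * D (ω (wt b)) := by
        rw [h2]
        ring
      rw [h5, mul_sub]
      have h6 : ω (wt b) * (ω (wt a) / ω (wt b) * D (ω (wt b))) = ω (wt a) * D (ω (wt b)) := by field_simp
      rw [h6]
      linear_combination h3
    have h5 := (mul_eq_zero.1 h4).resolve_left hb0
    exact (mul_eq_zero.1 h5).resolve_left hb0

end weights

end Pool.Agent.Y123.GN
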