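import Pool.Agent.Y123.GN.D4
import Pool.Agent.Y120.R.Gm

/-!
# Logarithms of unipotent matrices and interpolation of functional relations
-/

set_option autoImplicit false
set_option linter.unusedSectionVars false

open Matrix Module

namespace Pool.Agent.Y123.GN

open Pool.Agent.TH127.PT Pool.Agent.Y123.ST Pool.Agent.TH119.DR

/-- inverting polynomials modulo powers of the variable -/
theorem exists_logP (e : Polynomial ℂ) (h0 : e.eval 0 = 1) (h1 : (Polynomial.derivative e).eval 0 = 1) (j : ℕ) :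
    ∃ L : Polynomial ℂ, Polynomial.X ∣ L ∧ Polynomial.X ^ (j + 1) ∣ (1 + Polynomial.X - e.comp L) := by
  induction j with
  | zero =>
    refine ⟨0, dvd_zero _, ?_⟩
    rw [Polynomial.comp_zero, h0, Polynomial.C_1, zero_add, pow_one, add_sub_cancel_left]
  | succ j ih =>
    obtain ⟨L, hL, hE⟩ := ih
    set E := 1 + Polynomial.X - e.comp L with hEd
    have hXE : Polynomial.X ∣ E := (dvd_pow_self _ (Nat.succ_ne_zero j)).trans hE
    refine ⟨L + E, dvd_add hL hXE, ?_⟩
    obtain ⟨κ, hκ⟩ := (e.map Polynomial.C).binomExpansion L E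
    have e1 : ∀ (f p : Polynomial ℂ), (f.map Polynomial.C).eval p = f.comp p := by
      intro f p
      rw [Polynomial.eval_map]
      rfl
    rw [e1, e1, Polynomial.derivative_map, e1] at hκ
    have h2 : 1 + Polynomial.X - e.comp (L + E) = E * (1 - (Polynomial.derivative e).comp L) - κ * E ^ 2 := by
      rw [hκ, hEd]
      ring
    rw [h2]
    have hL0 : L.eval 0 = 0 := by
      obtain ⟨q, hq⟩ := hL
      rw [hq, Polynomial.eval_mul, Polynomial.eval_X, zero_mul]
    have h3 : Polynomial.X ∣ 1 - (Polynomial.derivative e).comp L := by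
      rw [Polynomial.X_dvd_iff, Polynomial.coeff_zero_eq_eval_zero, Polynomial.eval_sub, Polynomial.eval_one,
        Polynomial.eval_comp, hL0, h1, sub_self]
    refine dvd_sub ?_ ?_
    · rw [pow_succ]
      exact mul_dvd_mul hE h3
    · refine Dvd.dvd.mul_left ?_ _
      have h4 : (Polynomial.X : Polynomial ℂ) ^ (j + 1 + 1) ∣ ((Polynomial.X : Polynomial ℂ) ^ (j + 1)) ^ 2 := by
        rw [← pow_mul]
        exact pow_dvd_pow _ (by omega)
      exact h4.trans (pow_dvd_pow_of_dvd hE 2)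

section
variable {ν : Type} [Fintype ν] [DecidableEq ν]

/-- unipotent matrices are exponentials -/
theorem exists_log {n : Matrix ν ν ℂ} (hn : IsNilpotent n) : ∃ L : Polynomial ℂ, Polynomial.X ∣ L ∧
    IsNilpotent (Polynomial.aeval n L) ∧ IsNilpotent.exp (Polynomial.aeval n L) = 1 + n := by
  obtain ⟨k, hk⟩ := hn
  set e : Polynomial ℂ := ∑ i ∈ Finset.range (k + 2), Polynomial.C ((i.factorial : ℂ))⁻¹ * Polynomial.X ^ i with he
  have h0 : e.eval 0 = 1 := by
    rw [he, Polynomial.eval_finsetSum, Finset.sum_range_succ']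
    simp
  have h1 : (Polynomial.derivative e).eval 0 = 1 := by
    rw [he, Polynomial.derivative_sum, Polynomial.eval_finsetSum, Finset.sum_range_succ', Finset.sum_range_succ']
    simp
  obtain ⟨L, hL, hLe⟩ := exists_logP e h0 h1 k
  have hnil : (Polynomial.aeval n L) ^ k = 0 := by
    obtain ⟨q, rfl⟩ := hL
    rw [← map_pow, mul_pow, map_mul, map_pow, Polynomial.aeval_X, hk, zero_mul]
  refine ⟨L, hL, ⟨k, hnil⟩, ?_⟩
  have hnil2 : (Polynomial.aeval n L) ^ (k + 2) = 0 := by
    rw [pow_add, hnil, zero_mul]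
  rw [IsNilpotent.exp_eq_sum hnil2]
  have h2 : ∑ i ∈ Finset.range (k + 2), ((i.factorial : ℚ)⁻¹) • (Polynomial.aeval n L) ^ i =
      Polynomial.aeval (Polynomial.aeval n L) e := by
    rw [he, map_sum]
    refine Finset.sum_congr rfl fun i _ => ?_
    rw [map_mul, Polynomial.aeval_C, map_pow, Polynomial.aeval_X, ← Algebra.smul_def]
    ext a b
    rw [Matrix.smul_apply, Matrix.smul_apply, Algebra.smul_def, smul_eq_mul]
    congr 1
    simp
  rw [h2, ← Polynomial.aeval_comp]
  obtain ⟨q, hq⟩ := hLe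
  have h3 : e.comp L = 1 + Polynomial.X - Polynomial.X ^ (k + 1) * q := by
    rw [← hq]
    ring
  rw [h3, map_sub, map_add, map_one, Polynomial.aeval_X, map_mul, map_pow, Polynomial.aeval_X, pow_succ, hk, zero_mul,
    zero_mul, sub_zero]

theorem US_mul {wt : ν → ℤ} {R : ν → ν → Prop} (hR : UpR wt R) {x y : Matrix ν ν ℂ} (hx : x ∈ US R) (hy : y ∈ US R) :
    x * y ∈ US R := by
  intro a b h
  rw [Matrix.mul_apply] at h
  obtain ⟨c, -, hc⟩ := Finset.exists_ne_zero_of_sum_ne_zero h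
  exact hR.right a c b (hx a c (left_ne_zero_of_mul hc)) (hR.lt c b (hy c b (right_ne_zero_of_mul hc))).le

theorem US_aeval {wt : ν → ℤ} {R : ν → ν → Prop} (hR : UpR wt R) {n : Matrix ν ν ℂ} (hn : n ∈ US R) {L : Polynomial ℂ}
    (hL : Polynomial.X ∣ L) : Polynomial.aeval n L ∈ US R := by
  obtain ⟨q, rfl⟩ := hL
  rw [map_mul, Polynomial.aeval_X]
  induction q using Polynomial.induction_on' with
  | add p q hp hq =>
    rw [map_add, mul_add]
    exact (US R).add_mem hp hq
  | monomial i a =>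
    rw [Polynomial.aeval_monomial, ← Algebra.smul_def, mul_smul_comm]
    refine (US R).smul_mem a ?_
    have h1 : ∀ i : ℕ, n * n ^ i ∈ US R := by
      intro i
      induction i with
      | zero => rw [pow_zero, mul_one]; exact hn
      | succ i ih =>
        rw [pow_succ, ← mul_assoc]
        exact US_mul hR ih hn
    exact h1 i

end

section relations

open PowerSeries Pool.Agent.Y120.R Filter Topology

variable {r n : ℕ} {h : Fin r → ℚ⟦X⟧} {P : Fin n → Fin n → MvPolynomial (Option (Fin r)) ℂ}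

/-- `g` transforms the relations of the period matrix into relations -/
def Prs (h : Fin r → ℚ⟦X⟧) (P : Fin n → Fin n → MvPolynomial (Option (Fin r)) ℂ) (g : Matrix (Fin n) (Fin n) ℂ) : Prop :=
  ∀ R : MvPolynomial (Fin n × Fin n) (Polynomial ℂ), (∀ᶠ s : ℝ in atTop, rel1 R s (pM h P s) = 0) →
    ∀ᶠ s : ℝ in atTop, rel1 R s (g * pM h P s) = 0

/-- linear substitutions in relations -/
theorem sub_left (g : Matrix (Fin n) (Fin n) ℂ) (R : MvPolynomial (Fin n × Fin n) (Polynomial ℂ)) :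
    ∃ R' : MvPolynomial (Fin n × Fin n) (Polynomial ℂ), ∀ (s : ℝ) (Z : Matrix (Fin n) (Fin n) ℂ),
      rel1 R' s Z = rel1 R s (g * Z) := by
  refine ⟨MvPolynomial.eval₂ MvPolynomial.C (fun v => ∑ l, MvPolynomial.C (Polynomial.C (g v.1 l)) *
    MvPolynomial.X (l, v.2)) R, fun s Z => ?_⟩
  unfold rel1
  have h1 := MvPolynomial.hom_eval₂ R MvPolynomial.C (MvPolynomial.eval₂Hom (Polynomial.evalRingHom (1 / (s : ℂ)))
    (fun v : Fin n × Fin n => Z v.1 v.2)) (fun v => ∑ l, MvPolynomial.C (Polynomial.C (g v.1 l)) *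
    MvPolynomial.X (l, v.2))
  refine Eq.trans h1 ?_
  congr 1
  · refine RingHom.ext fun p => ?_
    simp
  · funext v
    rw [map_sum, Matrix.mul_apply]
    refine Finset.sum_congr rfl fun l _ => ?_
    simp

theorem Prs_mul {g g' : Matrix (Fin n) (Fin n) ℂ} (hg : Prs h P g) (hg' : Prs h P g') : Prs h P (g * g') := by
  intro R hR
  obtain ⟨R', hR'⟩ := sub_left g R
  have h1 := hg R hR
  have h2 := hg' R' (by
    filter_upwards [h1] with s hs
    rw [hR']
    exact hs)
  filter_upwards [h2] with s hs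
  rw [hR', ← Matrix.mul_assoc] at hs
  exact hs

theorem Prs_one : Prs h P 1 := by
  intro R hR
  filter_upwards [hR] with s hs
  rw [Matrix.one_mul]
  exact hs

/-- **interpolation** -/
theorem Prs_interp {N : Matrix (Fin n) (Fin n) ℂ} (hN : IsNilpotent N)
    (hm : ∀ m : ℕ, Prs h P (IsNilpotent.exp ((m : ℂ) • N))) (t : ℂ) : Prs h P (IsNilpotent.exp (t • N)) := by
  classical
  intro R hR
  obtain ⟨E, hE, -⟩ := exists_expP hN
  let κ : ℂ →+* MvPolynomial (Fin n × Fin n) (Polynomial ℂ) := MvPolynomial.C.comp Polynomial.C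
  let Rt : Polynomial (MvPolynomial (Fin n × Fin n) (Polynomial ℂ)) :=
    MvPolynomial.eval₂ (Polynomial.C.comp MvPolynomial.C) (fun v => ∑ l, (E v.1 l).map κ *
      Polynomial.C (MvPolynomial.X (l, v.2))) R
  let ψ : ℝ → Matrix (Fin n) (Fin n) ℂ → (MvPolynomial (Fin n × Fin n) (Polynomial ℂ) →+* ℂ) := fun s Z =>
    MvPolynomial.eval₂Hom (Polynomial.evalRingHom (1 / (s : ℂ))) (fun v : Fin n × Fin n => Z v.1 v.2)
  have hκ : ∀ s Z, (ψ s Z).comp κ = RingHom.id ℂ := by
    intro s Z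
    refine RingHom.ext fun a => ?_
    show MvPolynomial.eval₂ (Polynomial.evalRingHom (1 / (s : ℂ))) _ (MvPolynomial.C (Polynomial.C a)) = a
    rw [MvPolynomial.eval₂_C, Polynomial.coe_evalRingHom, Polynomial.eval_C]
  have hev : ∀ (s : ℝ) (Z : Matrix (Fin n) (Fin n) ℂ) (u : ℂ),
      (Rt.map (ψ s Z)).eval u = rel1 R s (IsNilpotent.exp (u • N) * Z) := by
    intro s Z u
    rw [Polynomial.eval_map]
    show Polynomial.eval₂RingHom (ψ s Z) u Rt = _
    have h1 := MvPolynomial.hom_eval₂ R (Polynomial.C.comp MvPolynomial.C) (Polynomial.eval₂RingHom (ψ s Z) u)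
      (fun v => ∑ l, (E v.1 l).map κ * Polynomial.C (MvPolynomial.X (l, v.2)))
    refine Eq.trans h1 ?_
    unfold rel1
    congr 1
    · refine RingHom.ext fun p => ?_
      show Polynomial.eval₂ (ψ s Z) u (Polynomial.C (MvPolynomial.C p)) = _
      rw [Polynomial.eval₂_C]
      exact MvPolynomial.eval₂_C ..
    · funext v
      rw [map_sum, Matrix.mul_apply]
      refine Finset.sum_congr rfl fun l _ => ?_
      rw [map_mul]
      congr 1
      · show Polynomial.eval₂ (ψ s Z) u ((E v.1 l).map κ) = _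
        rw [Polynomial.eval₂_map, hκ, ← hE]
        rfl
      · show Polynomial.eval₂ (ψ s Z) u (Polynomial.C (MvPolynomial.X (l, v.2))) = _
        rw [Polynomial.eval₂_C]
        exact MvPolynomial.eval₂_X ..
  have h1 : ∀ᶠ s : ℝ in atTop, ∀ m ∈ Finset.range (Rt.natDegree + 1), rel1 R s (IsNilpotent.exp ((m : ℂ) • N) *
      pM h P s) = 0 := by
    rw [Filter.eventually_all_finset]
    intro m _
    exact hm m R hR
  filter_upwards [h1] with s hs
  have h2 : Rt.map (ψ s (pM h P s)) = 0 := by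
    refine Polynomial.eq_zero_of_natDegree_lt_card_of_eval_eq_zero' _ ((Finset.range (Rt.natDegree + 1)).image
      (fun m : ℕ => (m : ℂ))) ?_ ?_
    · intro z hz
      obtain ⟨m, hm', rfl⟩ := Finset.mem_image.1 hz
      rw [hev]
      exact hs m hm'
    · rw [Finset.card_image_of_injective _ Nat.cast_injective, Finset.card_range]
      exact Nat.lt_succ_of_le Polynomial.natDegree_map_le
  rw [← hev, h2, Polynomial.eval_zero]

/-- the group of the symmetries of the functional relations -/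
def Gs (h : Fin r → ℚ⟦X⟧) (P : Fin n → Fin n → MvPolynomial (Option (Fin r)) ℂ) :
    Subgroup (Matrix (Fin n) (Fin n) ℂ)ˣ where
  carrier := {g | Prs h P (g : Matrix (Fin n) (Fin n) ℂ) ∧ Prs h P ((g⁻¹ : (Matrix (Fin n) (Fin n) ℂ)ˣ) :
    Matrix (Fin n) (Fin n) ℂ)}
  mul_mem' := by
    intro g g' hg hg'
    refine ⟨?_, ?_⟩
    · rw [Units.val_mul]
      exact Prs_mul hg.1 hg'.1
    · rw [_root_.mul_inv_rev, Units.val_mul]
      exact Prs_mul hg'.2 hg.2
  one_mem' := by
    refine ⟨?_, ?_⟩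
    · rw [Units.val_one]
      exact Prs_one
    · rw [inv_one, Units.val_one]
      exact Prs_one
  inv_mem' := by
    intro g hg
    refine ⟨hg.2, ?_⟩
    rw [inv_inv]
    exact hg.1

/-- unipotent elements are in one-parameter groups -/
theorem Gs_log {wt : Fin n → ℤ} {R : Fin n → Fin n → Prop} (hR : UpR wt R) {g : (Matrix (Fin n) (Fin n) ℂ)ˣ}
    (hg : g ∈ Gs h P) (hgR : (g : Matrix (Fin n) (Fin n) ℂ) - 1 ∈ US R) :
    ∃ N ∈ US R, N ∈ Nil (Gs h P) ∧ (g : Matrix (Fin n) (Fin n) ℂ) = IsNilpotent.exp N := by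
  obtain ⟨L, hL, hnil, hexp⟩ := exists_log (US_nil hR hgR)
  rw [add_sub_cancel] at hexp
  set N := Polynomial.aeval ((g : Matrix (Fin n) (Fin n) ℂ) - 1) L with hN
  have hpow : ∀ (u : (Matrix (Fin n) (Fin n) ℂ)ˣ), u ∈ Gs h P → ∀ N' : Matrix (Fin n) (Fin n) ℂ, IsNilpotent N' →
      (u : Matrix (Fin n) (Fin n) ℂ) = IsNilpotent.exp N' → ∀ t : ℂ, Prs h P (IsNilpotent.exp (t • N')) := by
    intro u hu N' hN' huN
    refine Prs_interp hN' fun m => ?_
    have h1 := exp_pow hN' 1 m
    rw [mul_one, one_smul, ← huN] at h1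
    rw [← h1]
    have h2 : u ^ m ∈ Gs h P := (Gs h P).pow_mem hu m
    have h3 := h2.1
    rw [Units.val_pow_eq_pow_val] at h3
    exact h3
  have hinv : ((g⁻¹ : (Matrix (Fin n) (Fin n) ℂ)ˣ) : Matrix (Fin n) (Fin n) ℂ) = IsNilpotent.exp (-N) := by
    have h1 := exp_inv_eq hnil 1
    rw [one_smul, neg_one_smul, hexp, inv_val] at h1
    exact h1
  refine ⟨N, US_aeval hR hgR hL, ⟨hnil, fun t => ?_⟩, hexp.symm⟩
  refine ⟨⟨IsNilpotent.exp (t • N), IsNilpotent.exp ((-t) • N), exp_inv hnil t, exp_inv' hnil t⟩, ⟨?_, ?_⟩, rfl⟩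
  · exact hpow g hg N hnil hexp.symm t
  · show Prs h P (IsNilpotent.exp ((-t) • N))
    exact hpow g hg N hnil hexp.symm (-t)

end relations

end Pool.Agent.Y123.GN
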