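import Pool.Agent.Y123.GN.D5

/-!
# Blocks
-/

set_option autoImplicit false
set_option linter.unusedSectionVars false

open Matrix Module

namespace Pool.Agent.Y123.GN

open Pool.Agent.TH127.PT Pool.Agent.Y123.ST Pool.Agent.TH119.DR

variable {B₀ : Type} [Fintype B₀] [DecidableEq B₀] {k : ℕ} {n : Fin k → ℕ}

/-- the index type -/
abbrev IG (B₀ : Type) {k : ℕ} (n : Fin k → ℕ) : Type := B₀ ⊕ Σ i, Fin (n i)

/-- block matrices -/
noncomputable def EG (x : Matrix B₀ B₀ ℂ) (X : ∀ i, Matrix (Fin (n i)) (Fin (n i)) ℂ) : Matrix (IG B₀ n) (IG B₀ n) ℂ :=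
  fromBlocks x 0 0 (blockDiagonal' X)

theorem EG_mul (x y : Matrix B₀ B₀ ℂ) (X Y : ∀ i, Matrix (Fin (n i)) (Fin (n i)) ℂ) :
    EG x X * EG y Y = EG (x * y) (fun i => X i * Y i) := by
  unfold EG
  rw [fromBlocks_multiply, ← blockDiagonal'_mul]
  simp

theorem EG_one : EG (1 : Matrix B₀ B₀ ℂ) (1 : ∀ i, Matrix (Fin (n i)) (Fin (n i)) ℂ) = 1 := by
  unfold EG
  rw [blockDiagonal'_one, fromBlocks_one]

theorem EG_zero : EG (0 : Matrix B₀ B₀ ℂ) (0 : ∀ i, Matrix (Fin (n i)) (Fin (n i)) ℂ) = 0 := by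
  unfold EG
  rw [blockDiagonal'_zero, fromBlocks_zero]

theorem EG_add (x y : Matrix B₀ B₀ ℂ) (X Y : ∀ i, Matrix (Fin (n i)) (Fin (n i)) ℂ) :
    EG x X + EG y Y = EG (x + y) (X + Y) := by
  unfold EG
  rw [fromBlocks_add, ← blockDiagonal'_add]
  simp

theorem EG_smul (z : ℂ) (x : Matrix B₀ B₀ ℂ) (X : ∀ i, Matrix (Fin (n i)) (Fin (n i)) ℂ) :
    z • EG x X = EG (z • x) (z • X) := by
  unfold EG
  rw [fromBlocks_smul, blockDiagonal'_smul]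
  simp

/-- block matrices as a ring homomorphism -/
noncomputable def EGh (B₀ : Type) [Fintype B₀] [DecidableEq B₀] {k : ℕ} (n : Fin k → ℕ) :
    (Matrix B₀ B₀ ℂ × (∀ i, Matrix (Fin (n i)) (Fin (n i)) ℂ)) →+* Matrix (IG B₀ n) (IG B₀ n) ℂ where
  toFun x := EG x.1 x.2
  map_one' := EG_one
  map_mul' x y := (EG_mul _ _ _ _).symm
  map_zero' := EG_zero
  map_add' x y := (EG_add _ _ _ _).symm

theorem EGh_apply (x : Matrix B₀ B₀ ℂ) (X : ∀ i, Matrix (Fin (n i)) (Fin (n i)) ℂ) : EGh B₀ n (x, X) = EG x X := rfl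

/-- a single block -/
noncomputable def e1 (B₀ : Type) [Fintype B₀] [DecidableEq B₀] {k : ℕ} {n : Fin k → ℕ} (i : Fin k) :
    Matrix (Fin (n i)) (Fin (n i)) ℂ →ₗ[ℂ] Matrix (IG B₀ n) (IG B₀ n) ℂ where
  toFun N := EG 0 (Pi.single i N)
  map_add' x y := by rw [EG_add, Pi.single_add, add_zero]
  map_smul' s x := by
    rw [RingHom.id_apply, EG_smul, smul_zero, Pi.single_smul]

theorem e1_apply (i : Fin k) (N : Matrix (Fin (n i)) (Fin (n i)) ℂ) : e1 B₀ i N = EG 0 (Pi.single i N) := rfl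

theorem e1_left (i : Fin k) (x : Matrix B₀ B₀ ℂ) (X : ∀ i, Matrix (Fin (n i)) (Fin (n i)) ℂ)
    (N : Matrix (Fin (n i)) (Fin (n i)) ℂ) : EG x X * e1 B₀ i N = e1 B₀ i (X i * N) := by
  rw [e1_apply, e1_apply, EG_mul, Matrix.mul_zero]
  congr 1
  funext j
  by_cases h : j = i
  · subst h
    rw [Pi.single_eq_same, Pi.single_eq_same]
  · rw [Pi.single_eq_of_ne h, Pi.single_eq_of_ne h, Matrix.mul_zero]

theorem e1_right (i : Fin k) (x : Matrix B₀ B₀ ℂ) (X : ∀ i, Matrix (Fin (n i)) (Fin (n i)) ℂ)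
    (N : Matrix (Fin (n i)) (Fin (n i)) ℂ) : e1 B₀ i N * EG x X = e1 B₀ i (N * X i) := by
  rw [e1_apply, e1_apply, EG_mul, Matrix.zero_mul]
  congr 1
  funext j
  by_cases h : j = i
  · subst h
    rw [Pi.single_eq_same, Pi.single_eq_same]
  · rw [Pi.single_eq_of_ne h, Pi.single_eq_of_ne h, Matrix.zero_mul]

theorem single_nilG {i : Fin k} {N : Matrix (Fin (n i)) (Fin (n i)) ℂ} (hN : IsNilpotent N) :
    IsNilpotent ((0, Pi.single i N) : Matrix B₀ B₀ ℂ × (∀ i, Matrix (Fin (n i)) (Fin (n i)) ℂ)) := by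
  obtain ⟨m, hm⟩ := hN
  refine ⟨m + 1, ?_⟩
  refine Prod.ext ?_ ?_
  · show (0 : Matrix B₀ B₀ ℂ) ^ (m + 1) = 0
    rw [pow_succ, Matrix.mul_zero]
  · funext j
    show (Pi.single i N : ∀ i, Matrix (Fin (n i)) (Fin (n i)) ℂ) j ^ (m + 1) = 0
    by_cases h : j = i
    · subst h
      rw [Pi.single_eq_same, pow_succ, hm, Matrix.zero_mul]
    · rw [Pi.single_eq_of_ne h, pow_succ, Matrix.mul_zero]

theorem e1_nil {i : Fin k} {N : Matrix (Fin (n i)) (Fin (n i)) ℂ} (hN : IsNilpotent N) : IsNilpotent (e1 B₀ i N) := by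
  rw [e1_apply, ← EGh_apply]
  exact (single_nilG hN).map (EGh B₀ n)

/-- one block, the others are `1` -/
theorem e1_exp {i : Fin k} {N : Matrix (Fin (n i)) (Fin (n i)) ℂ} (hN : IsNilpotent N) (t : ℂ) :
    IsNilpotent.exp (t • e1 B₀ i N) = EG 1 (Pi.mulSingle i (IsNilpotent.exp (t • N))) := by
  have h1 : t • e1 B₀ i N = EGh B₀ n (0, Pi.single i (t • N)) := by
    rw [EGh_apply, e1_apply, EG_smul, smul_zero, Pi.single_smul]
  have hn := single_nilG (B₀ := B₀) (hN.smul t)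
  rw [h1, ← IsNilpotent.map_exp hn (EGh B₀ n)]
  have h2 : (IsNilpotent.exp ((0, Pi.single i (t • N)) : Matrix B₀ B₀ ℂ × (∀ i, Matrix (Fin (n i)) (Fin (n i)) ℂ))).1
      = 1 := by
    have h3 := IsNilpotent.map_exp hn (RingHom.fst (Matrix B₀ B₀ ℂ) (∀ i, Matrix (Fin (n i)) (Fin (n i)) ℂ))
    have h4 : RingHom.fst (Matrix B₀ B₀ ℂ) (∀ i, Matrix (Fin (n i)) (Fin (n i)) ℂ) (0, Pi.single i (t • N)) = 0 := rfl
    rw [h4, IsNilpotent.exp_zero] at h3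
    exact h3
  have h5 : (IsNilpotent.exp ((0, Pi.single i (t • N)) : Matrix B₀ B₀ ℂ × (∀ i, Matrix (Fin (n i)) (Fin (n i)) ℂ))).2 =
      Pi.mulSingle i (IsNilpotent.exp (t • N)) := by
    funext j
    have h3 := IsNilpotent.map_exp hn ((Pi.evalRingHom (fun i : Fin k => Matrix (Fin (n i)) (Fin (n i)) ℂ) j).comp
      (RingHom.snd (Matrix B₀ B₀ ℂ) (∀ i, Matrix (Fin (n i)) (Fin (n i)) ℂ)))
    have h4 : ((Pi.evalRingHom (fun i : Fin k => Matrix (Fin (n i)) (Fin (n i)) ℂ) j).comp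
      (RingHom.snd (Matrix B₀ B₀ ℂ) (∀ i, Matrix (Fin (n i)) (Fin (n i)) ℂ))) (0, Pi.single i (t • N)) =
        (Pi.single i (t • N) : ∀ i, Matrix (Fin (n i)) (Fin (n i)) ℂ) j := rfl
    rw [h4] at h3
    refine Eq.trans h3 ?_
    by_cases h : j = i
    · subst h
      rw [Pi.single_eq_same, Pi.mulSingle_eq_same]
    · rw [Pi.single_eq_of_ne h, Pi.mulSingle_eq_of_ne h, IsNilpotent.exp_zero]
  show EG (IsNilpotent.exp ((0, Pi.single i (t • N)) : Matrix B₀ B₀ ℂ × (∀ i, Matrix (Fin (n i)) (Fin (n i)) ℂ))).1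
    (IsNilpotent.exp ((0, Pi.single i (t • N)) : Matrix B₀ B₀ ℂ × (∀ i, Matrix (Fin (n i)) (Fin (n i)) ℂ))).2 = _
  rw [h2, h5]

theorem e1_inj (i : Fin k) : Function.Injective (e1 B₀ i : Matrix (Fin (n i)) (Fin (n i)) ℂ → _) := by
  intro x y h
  have h1 := congrArg toBlocks₂₂ h
  rw [e1_apply, e1_apply, EG, EG, toBlocks_fromBlocks₂₂, toBlocks_fromBlocks₂₂] at h1
  have h2 := blockDiagonal'_injective h1
  have h3 := congrFun h2 i
  rwa [Pi.single_eq_same, Pi.single_eq_same] at h3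

/-- the units -/
noncomputable def EGu (B₀ : Type) [Fintype B₀] [DecidableEq B₀] {k : ℕ} (n : Fin k → ℕ) :
    (∀ i, (Matrix (Fin (n i)) (Fin (n i)) ℂ)ˣ) →* (Matrix (IG B₀ n) (IG B₀ n) ℂ)ˣ where
  toFun g := ⟨EG 1 fun i => (g i : Matrix (Fin (n i)) (Fin (n i)) ℂ),
    EG 1 fun i => ((g i)⁻¹ : (Matrix (Fin (n i)) (Fin (n i)) ℂ)ˣ), by
      rw [EG_mul, Matrix.one_mul]
      have h1 : (fun i => (g i : Matrix (Fin (n i)) (Fin (n i)) ℂ) * ((g i)⁻¹ : (Matrix (Fin (n i)) (Fin (n i)) ℂ)ˣ)) = 1 := by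
        funext i
        exact (g i).mul_inv
      rw [h1, EG_one], by
      rw [EG_mul, Matrix.one_mul]
      have h1 : (fun i => (((g i)⁻¹ : (Matrix (Fin (n i)) (Fin (n i)) ℂ)ˣ) : Matrix (Fin (n i)) (Fin (n i)) ℂ) * g i) = 1 := by
        funext i
        exact (g i).inv_mul
      rw [h1, EG_one]⟩
  map_one' := Units.ext EG_one
  map_mul' g g' := Units.ext (by
    show EG 1 _ = EG 1 _ * EG 1 _
    rw [EG_mul, Matrix.one_mul]
    rfl)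

theorem EGu_val (g : ∀ i, (Matrix (Fin (n i)) (Fin (n i)) ℂ)ˣ) :
    ((EGu B₀ n g : (Matrix (IG B₀ n) (IG B₀ n) ℂ)ˣ) : Matrix (IG B₀ n) (IG B₀ n) ℂ) =
      EG 1 fun i => (g i : Matrix (Fin (n i)) (Fin (n i)) ℂ) := rfl

/-- the subgroup of the block matrices -/
noncomputable def GG (B₀ : Type) [Fintype B₀] [DecidableEq B₀] {k : ℕ} {n : Fin k → ℕ}
    (𝒢 : ∀ i, Subgroup (Matrix (Fin (n i)) (Fin (n i)) ℂ)ˣ) : Subgroup (Matrix (IG B₀ n) (IG B₀ n) ℂ)ˣ :=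
  (Subgroup.pi Set.univ 𝒢).map (EGu B₀ n)

/-- the embedding of one factor -/
noncomputable def em (B₀ : Type) [Fintype B₀] [DecidableEq B₀] {k : ℕ} {n : Fin k → ℕ} (i : Fin k) :
    (Matrix (Fin (n i)) (Fin (n i)) ℂ)ˣ →* (Matrix (IG B₀ n) (IG B₀ n) ℂ)ˣ :=
  (EGu B₀ n).comp (MonoidHom.mulSingle (fun i => (Matrix (Fin (n i)) (Fin (n i)) ℂ)ˣ) i)

theorem em_val (i : Fin k) (g : (Matrix (Fin (n i)) (Fin (n i)) ℂ)ˣ) :
    ((em B₀ i g : (Matrix (IG B₀ n) (IG B₀ n) ℂ)ˣ) : Matrix (IG B₀ n) (IG B₀ n) ℂ) =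
      EG 1 (Pi.mulSingle i (g : Matrix (Fin (n i)) (Fin (n i)) ℂ)) := by
  show EG 1 (fun j => ((Pi.mulSingle i g : ∀ i, (Matrix (Fin (n i)) (Fin (n i)) ℂ)ˣ) j :
    Matrix (Fin (n j)) (Fin (n j)) ℂ)) = _
  congr 1
  funext j
  by_cases h : j = i
  · subst h
    rw [Pi.mulSingle_eq_same, Pi.mulSingle_eq_same]
  · rw [Pi.mulSingle_eq_of_ne h, Pi.mulSingle_eq_of_ne h, Units.val_one]

theorem em_mem {𝒢 : ∀ i, Subgroup (Matrix (Fin (n i)) (Fin (n i)) ℂ)ˣ} {i : Fin k}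
    {g : (Matrix (Fin (n i)) (Fin (n i)) ℂ)ˣ} (hg : g ∈ 𝒢 i) : em B₀ i g ∈ GG B₀ 𝒢 := by
  refine ⟨Pi.mulSingle i g, fun j _ => ?_, rfl⟩
  show (Pi.mulSingle i g : ∀ i, (Matrix (Fin (n i)) (Fin (n i)) ℂ)ˣ) j ∈ 𝒢 j
  by_cases h : j = i
  · subst h
    rw [Pi.mulSingle_eq_same]
    exact hg
  · rw [Pi.mulSingle_eq_of_ne h]
    exact (𝒢 j).one_mem

theorem e1_Nil {𝒢 : ∀ i, Subgroup (Matrix (Fin (n i)) (Fin (n i)) ℂ)ˣ} {i : Fin k}
    {N : Matrix (Fin (n i)) (Fin (n i)) ℂ} (hN : N ∈ Nil (𝒢 i)) : e1 B₀ i N ∈ Nil (GG B₀ 𝒢) := by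
  refine ⟨e1_nil hN.1, fun t => ?_⟩
  obtain ⟨u, hu, hu'⟩ := hN.2 t
  refine ⟨em B₀ i u, em_mem hu, ?_⟩
  rw [em_val, hu', e1_exp hN.1]

theorem em_Ug {𝒢 : ∀ i, Subgroup (Matrix (Fin (n i)) (Fin (n i)) ℂ)ˣ} {i : Fin k} :
    (Ug (𝒢 i)).map (em B₀ i) ≤ Ug (GG B₀ 𝒢) := by
  unfold Ug
  rw [MonoidHom.map_closure]
  refine Subgroup.closure_mono ?_
  rintro _ ⟨u, ⟨N, hN, t, ht⟩, rfl⟩
  refine ⟨e1 B₀ i N, e1_Nil hN, t, ?_⟩
  rw [em_val, ht, e1_exp hN.1]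

/-- from the single blocks to all blocks -/
theorem all_blocksG {T : Set (Matrix (IG B₀ n) (IG B₀ n) ℂ)} {g : ∀ i, (Matrix (Fin (n i)) (Fin (n i)) ℂ)ˣ}
    (h : ∀ i, em B₀ i (g i) ∈ Sbl T) : EGu B₀ n g ∈ Sbl T := by
  classical
  have key : ∀ S : Finset (Fin k), EGu B₀ n (fun j => if j ∈ S then g j else 1) ∈ Sbl T := by
    intro S
    induction S using Finset.induction_on with
    | empty =>
      have h1 : (fun j => if j ∈ (∅ : Finset (Fin k)) then g j else 1) =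
          (1 : ∀ i, (Matrix (Fin (n i)) (Fin (n i)) ℂ)ˣ) := by
        funext j
        simp
      rw [h1, map_one]
      intro x hx
      rw [Units.val_one, Matrix.one_mul]
      exact hx
    | insert i S hi ih =>
      have h1 := Sbl_mul (h i) ih
      have h2 : em B₀ i (g i) * EGu B₀ n (fun j => if j ∈ S then g j else 1) =
          EGu B₀ n (fun j => if j ∈ insert i S then g j else 1) := by
        show EGu B₀ n (Pi.mulSingle i (g i)) * _ = _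
        rw [← map_mul]
        congr 1
        funext j
        rw [Pi.mul_apply]
        by_cases hj : j = i
        · subst hj
          rw [Pi.mulSingle_eq_same, if_neg hi, if_pos (Finset.mem_insert_self _ _), mul_one]
        · rw [Pi.mulSingle_eq_of_ne hj, one_mul]
          by_cases hS : j ∈ S
          · rw [if_pos hS, if_pos (Finset.mem_insert_of_mem hS)]
          · rw [if_neg hS, if_neg (by rw [Finset.mem_insert]; tauto)]
      rwa [h2] at h1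
  have h1 := key Finset.univ
  simpa using h1

theorem EG_map (f : ℂ → ℂ) (h0 : f 0 = 0) (x : Matrix B₀ B₀ ℂ) (X : ∀ i, Matrix (Fin (n i)) (Fin (n i)) ℂ) :
    (EG x X).map f = EG (x.map f) (fun i => (X i).map f) := by
  unfold EG
  rw [fromBlocks_map, ← blockDiagonal'_map _ _ h0]
  congr 1
  · ext a b
    exact h0
  · ext a b
    exact h0

theorem EG_unit {x : Matrix B₀ B₀ ℂ} {X : ∀ i, Matrix (Fin (n i)) (Fin (n i)) ℂ} (h : IsUnit (EG x X)) : IsUnit x := by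
  rw [Matrix.isUnit_iff_isUnit_det] at h ⊢
  unfold EG at h
  rw [det_fromBlocks_zero₂₁] at h
  exact isUnit_of_mul_isUnit_left h

theorem EG_isUnit {x : Matrix B₀ B₀ ℂ} {X : ∀ i, Matrix (Fin (n i)) (Fin (n i)) ℂ} (hx : IsUnit x)
    (hX : ∀ i, IsUnit (X i)) : IsUnit (EG x X) := by
  have h1 : EG x X * EG x⁻¹ (fun i => (X i)⁻¹) = 1 := by
    rw [EG_mul, Matrix.mul_nonsing_inv _ ((Matrix.isUnit_iff_isUnit_det _).1 hx)]
    have h1 : (fun i => X i * (X i)⁻¹) = 1 := by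
      funext i
      exact Matrix.mul_nonsing_inv _ ((Matrix.isUnit_iff_isUnit_det _).1 (hX i))
    rw [h1, EG_one]
  exact IsUnit.of_mul_eq_one _ h1

/-- **the graded part** -/
theorem graded_stab {K : Subfield ℂ} {T : Set (Matrix (IG B₀ n) (IG B₀ n) ℂ)} (hT : IsSubtorsor K T)
    {C₀ : Matrix B₀ B₀ ℂ} {Z : ∀ i, Matrix (Fin (n i)) (Fin (n i)) ℂ} (hZ : ∀ i, IsUnit (Z i)) (hc : EG C₀ Z ∈ T)
    (i : Fin k) {wt : Fin (n i) → ℤ} {R : Fin (n i) → Fin (n i) → Prop} (hR : UpR wt R) {E : Set ℤ} {ω : ℤ → ℂ}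
    (hR1 : ∀ a b, R a b → wt a < wt b ∧ wt a ∈ E ∧ wt b ∈ E ∧ Transcendental K (ω (wt a) / ω (wt b)))
    (htri : ∀ a b, wt b < wt a → Z i a b = 0)
    (hdiag : ∀ a b, wt b = wt a → wt a ∈ E → ∃ κ ∈ K, Z i a b = ω (wt a) * κ)
    {N : Matrix (Fin (n i)) (Fin (n i)) ℂ} (hN : N ∈ US R) (hNn : Nrm T (e1 B₀ i N)) :
    fl (e1 B₀ i N) ∈ LL T := by
  obtain ⟨D, hD⟩ := wc_of (hZ i) hR1 htri hdiag
  have hw := logder_mem hT D hc
  have hC₀ : IsUnit C₀ := EG_unit (hT.isUnit _ hc)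
  have hinv : (EG C₀ Z)⁻¹ = EG C₀⁻¹ (fun i => (Z i)⁻¹) := by
    refine Matrix.inv_eq_right_inv ?_
    rw [EG_mul, Matrix.mul_nonsing_inv _ ((Matrix.isUnit_iff_isUnit_det _).1 hC₀)]
    have h1 : (fun i => Z i * (Z i)⁻¹) = 1 := by
      funext i
      exact Matrix.mul_nonsing_inv _ ((Matrix.isUnit_iff_isUnit_det _).1 (hZ i))
    rw [h1, EG_one]
  have hweq : (EG C₀ Z).map D * (EG C₀ Z)⁻¹ = EG (C₀.map D * C₀⁻¹) (fun i => (Z i).map D * (Z i)⁻¹) := by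
    rw [hinv, EG_map D (map_zero D), EG_mul]
  rw [hweq] at hw
  refine tate_abs hT hc hw ((US R).map (e1 B₀ i)) ?_ ?_ ?_ ⟨N, hN, rfl⟩ hNn
  · rintro _ ⟨y, hy, rfl⟩
    exact e1_nil (US_nil hR hy)
  · rintro _ ⟨y, hy, rfl⟩
    refine ⟨_, US_ad hR hD hy, ?_⟩
    rw [map_sub, ← e1_left i (C₀.map D * C₀⁻¹) (fun i => (Z i).map D * (Z i)⁻¹) y,
      ← e1_right i (C₀.map D * C₀⁻¹) (fun i => (Z i).map D * (Z i)⁻¹) y]
  · rintro _ ⟨y, hy, rfl⟩ h0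
    rw [e1_left, e1_right, ← map_sub] at h0
    have h1 := e1_inj (B₀ := B₀) i (h0.trans (map_zero (e1 B₀ i)).symm)
    rw [US_inj hR hD hy h1, map_zero]

end Pool.Agent.Y123.GN
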