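import Pool.Agent.Y123.GN.D8

/-!
# Mixed families of G-functions
-/

set_option autoImplicit false
set_option linter.unusedSectionVars false

open Matrix Module PowerSeries Filter

namespace Pool.Agent.Y123.GN

open Pool.Agent.TH127.PT Pool.Agent.Y123.ST Pool.Agent.Y123.SR Pool.Agent.Y113 Pool.Agent.Y113.GG Pool.Agent.Y120.R

section defs

variable {r n : ℕ}

/-- the pairs of positions between pieces with different transcendental periods -/
def RR (wt : Fin n → ℤ) (E : Set ℤ) (ω : ℤ → ℂ) (a b : Fin n) : Prop :=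
  wt a < wt b ∧ ∀ a' b', wt a' ≤ wt a → wt b ≤ wt b' → wt a' ∈ E ∧ wt b' ∈ E ∧
    Transcendental ℚ (ω (wt a') / ω (wt b'))

theorem RR_up (wt : Fin n → ℤ) (E : Set ℤ) (ω : ℤ → ℂ) : UpR wt (RR wt E ω) :=
  ⟨fun _ _ h => h.1, fun _ _ _ h h' => ⟨lt_of_le_of_lt h' h.1, fun _ _ h1 h2 => h.2 _ _ (h1.trans h') h2⟩,
    fun _ _ _ h h' => ⟨lt_of_lt_of_le h.1 h', fun _ _ h1 h2 => h.2 _ _ h1 (h'.trans h2)⟩⟩

/-- triangular for the weights, the pieces with weights in `E` have constant periods -/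
structure Grd (K : Subfield ℂ) (P : Fin n → Fin n → MvPolynomial (Option (Fin r)) ℂ) (wt : Fin n → ℤ) (E : Set ℤ)
    (ω : ℤ → ℂ) : Prop where
  tri : ∀ a b, wt b < wt a → P a b = 0
  diag : ∀ a b, wt b = wt a → wt a ∈ E → ∃ κ ∈ K, P a b = MvPolynomial.C (ω (wt a) * κ)

/-- the graded elements -/
def Gd (K : Subfield ℂ) (h : Fin r → ℚ⟦X⟧) (P : Fin n → Fin n → MvPolynomial (Option (Fin r)) ℂ) :
    Set (Matrix (Fin n) (Fin n) ℂ)ˣ :=
  {g | g ∈ Gs h P ∧ ∃ (wt : Fin n → ℤ) (E : Set ℤ) (ω : ℤ → ℂ), Grd K P wt E ω ∧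
    ∀ a b, (g : Matrix (Fin n) (Fin n) ℂ) a b ≠ (1 : Matrix (Fin n) (Fin n) ℂ) a b → RR wt E ω a b}

/-- the elements of Tate type -/
def Td (K : Subfield ℂ) (h : Fin r → ℚ⟦X⟧) (P : Fin n → Fin n → MvPolynomial (Option (Fin r)) ℂ)
    (Z : Matrix (Fin n) (Fin n) ℂ) : Set (Matrix (Fin n) (Fin n) ℂ)ˣ :=
  {g | bks (Nil (Gs h P)) ≤ Submodule.span ℂ {y | y ∈ bks (Nil (Gs h P)) ∧ EK K y} ∧
    ∃ N ∈ Nil (Gs h P), N ∈ bks (Nil (Gs h P)) ⊔ Submodule.span ℂ (TTs K (Nil (Gs h P)) Z) ∧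
      (g : Matrix (Fin n) (Fin n) ℂ) = IsNilpotent.exp N}

/-- the group which stabilises all subtorsors -/
def Kn (K : Subfield ℂ) (h : Fin r → ℚ⟦X⟧) (P : Fin n → Fin n → MvPolynomial (Option (Fin r)) ℂ)
    (Z : Matrix (Fin n) (Fin n) ℂ) : Subgroup (Matrix (Fin n) (Fin n) ℂ)ˣ :=
  Subgroup.closure (((⁅Ug (Gs h P), Ug (Gs h P)⁆ : Subgroup (Matrix (Fin n) (Fin n) ℂ)ˣ) ∪ Gd K h P) ∪ Td K h P Z)

/-- mixed Tate families -/
def MT (K : Subfield ℂ) (P : Fin n → Fin n → MvPolynomial (Option (Fin r)) ℂ) : Prop :=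
  ∃ wt : Fin n → ℤ, Grd K P wt Set.univ (fun j => tpi ^ j)

/-- the matrix of period functions times a constant matrix -/
noncomputable def tl (P : Fin n → Fin n → MvPolynomial (Option (Fin r)) ℂ) (g : Matrix (Fin n) (Fin n) ℂ)
    (v : Fin n × Fin n) : MvPolynomial (Option (Fin r)) ℂ := ∑ l, MvPolynomial.C (g v.1 l) * P l v.2

theorem tl_eval (h : Fin r → ℚ⟦X⟧) (P : Fin n → Fin n → MvPolynomial (Option (Fin r)) ℂ) (g : Matrix (Fin n) (Fin n) ℂ)
    (s : ℝ) (v : Fin n × Fin n) : MvPolynomial.aeval (p1 h s) (tl P g v) = (g * pM h P s) v.1 v.2 := by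
  unfold tl
  rw [map_sum, Matrix.mul_apply]
  refine Finset.sum_congr rfl fun l _ => ?_
  rw [map_mul, MvPolynomial.aeval_C]
  rfl

theorem Prs_sat {h : Fin r → ℚ⟦X⟧} {P : Fin n → Fin n → MvPolynomial (Option (Fin r)) ℂ}
    {g : Matrix (Fin n) (Fin n) ℂ} (hg : Prs h P g) : Sat h (fun v : Fin n × Fin n => P v.1 v.2) (tl P g) := by
  intro R hR
  have h1 : ∀ᶠ s : ℝ in atTop, rel1 R s (pM h P s) = 0 := by
    filter_upwards [hR, eventually_gt_atTop 0] with s hs hs0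
    unfold E1 at hs
    rw [c1_real h hs0] at hs
    exact hs
  filter_upwards [hg R h1, eventually_gt_atTop 0] with s hs hs0
  unfold E1
  rw [c1_real h hs0]
  simp only [tl_eval]
  exact hs

theorem tpi_zpow_tr {j l : ℤ} (h : j < l) : Transcendental ℚ (tpi ^ j / tpi ^ l) := by
  intro halg
  have h1 : Transcendental ℚ tpi := transc_two_pi_I
  obtain ⟨m, hm⟩ : ∃ m : ℕ, l - j = (m : ℤ) := ⟨(l - j).toNat, by omega⟩
  have hm0 : m ≠ 0 := by omega
  have h2 : tpi ^ j / tpi ^ l = (tpi ^ m)⁻¹ := by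
    rw [← zpow_natCast, ← hm, ← _root_.zpow_neg, ← zpow_sub₀ tpi_ne]
    congr 1
    ring
  rw [h2] at halg
  have h3 : IsAlgebraic ℚ (tpi ^ m) := by
    have h4 := halg.inv
    rwa [inv_inv] at h4
  exact h1 (h3.of_pow (Nat.pos_of_ne_zero hm0))

end defs

section blocks

variable {B₀ : Type} [Fintype B₀] [DecidableEq B₀] {k : ℕ} {n : Fin k → ℕ}

/-- the generic matrix -/
noncomputable def PhiG (c₀ : Matrix B₀ B₀ ℂ) (n : Fin k → ℕ) (p : IG B₀ n × IG B₀ n) :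
    MvPolynomial (Σ i, Fin (n i) × Fin (n i)) ℂ :=
  (fromBlocks (c₀.map MvPolynomial.C) 0 0 (blockDiagonal' fun i => Matrix.of fun a b => MvPolynomial.X ⟨i, (a, b)⟩) :
    Matrix (IG B₀ n) (IG B₀ n) (MvPolynomial (Σ i, Fin (n i) × Fin (n i)) ℂ)) p.1 p.2

theorem PhiG_DC {W : Submodule ℚ ℂ} (h1 : (1 : ℂ) ∈ W) {c₀ : Matrix B₀ B₀ ℂ} (hc : ∀ a b, c₀ a b ∈ W) :
    ∀ b : IG B₀ n × IG B₀ n, DC 1 W (PhiG c₀ n b) := by
  rintro ⟨a | ⟨i, a⟩, b | ⟨j, b⟩⟩
  · exact DCC (hc a b)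
  · exact DC0
  · exact DC0
  · show DC 1 W ((blockDiagonal' fun i => Matrix.of fun a b => MvPolynomial.X ⟨i, (a, b)⟩ :
      Matrix (Σ i, Fin (n i)) (Σ i, Fin (n i)) (MvPolynomial (Σ i, Fin (n i) × Fin (n i)) ℂ)) ⟨i, a⟩ ⟨j, b⟩)
    by_cases h : i = j
    · subst h
      rw [blockDiagonal'_apply_eq]
      exact DCX h1 _
    · rw [blockDiagonal'_apply_ne _ _ _ h]
      exact DC0

theorem PhiG_eval (c₀ : Matrix B₀ B₀ ℂ) (X : ∀ i, Matrix (Fin (n i)) (Fin (n i)) ℂ) (b : IG B₀ n × IG B₀ n) :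
    fl (EG c₀ X) b = MvPolynomial.aeval (fun v : Σ i, Fin (n i) × Fin (n i) => X v.1 v.2.1 v.2.2) (PhiG c₀ n b) := by
  obtain ⟨a | ⟨i, a⟩, b | ⟨j, b⟩⟩ := b
  · show c₀ a b = MvPolynomial.aeval (fun v : Σ i, Fin (n i) × Fin (n i) => X v.1 v.2.1 v.2.2)
      (MvPolynomial.C (c₀ a b))
    rw [MvPolynomial.aeval_C]
    rfl
  · show (0 : ℂ) = MvPolynomial.aeval (fun v : Σ i, Fin (n i) × Fin (n i) => X v.1 v.2.1 v.2.2) 0
    rw [map_zero]
  · show (0 : ℂ) = MvPolynomial.aeval (fun v : Σ i, Fin (n i) × Fin (n i) => X v.1 v.2.1 v.2.2) 0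
    rw [map_zero]
  · show blockDiagonal' X ⟨i, a⟩ ⟨j, b⟩ =
      MvPolynomial.aeval (fun v : Σ i, Fin (n i) × Fin (n i) => X v.1 v.2.1 v.2.2) ((blockDiagonal' fun i => Matrix.of fun a b => MvPolynomial.X ⟨i, (a, b)⟩ :
      Matrix (Σ i, Fin (n i)) (Σ i, Fin (n i)) (MvPolynomial (Σ i, Fin (n i) × Fin (n i)) ℂ)) ⟨i, a⟩ ⟨j, b⟩)
    by_cases h : i = j
    · subst h
      rw [blockDiagonal'_apply_eq, blockDiagonal'_apply_eq]
      show X i a b = MvPolynomial.aeval (fun v : Σ i, Fin (n i) × Fin (n i) => X v.1 v.2.1 v.2.2)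
        (MvPolynomial.X ⟨i, (a, b)⟩)
      rw [MvPolynomial.aeval_X]
    · rw [blockDiagonal'_apply_ne _ _ _ h, blockDiagonal'_apply_ne _ _ _ h, map_zero]

/-- the index type has bounded cardinality -/
theorem card_IG (n : Fin k → ℕ) : Fintype.card (IG B₀ n) = Fintype.card B₀ + ∑ i, n i := by
  rw [Fintype.card_sum, Fintype.card_sigma]
  congr 1
  refine Finset.sum_congr rfl fun i _ => ?_
  rw [Fintype.card_fin]

/-- **stability at one tuple** -/
theorem stab_one (m : ℕ) : ∃ d : ℕ, 1 + m ≤ d ∧ ∀ (B₀ : Type) [Fintype B₀] [DecidableEq B₀] (k : ℕ) (n : Fin k → ℕ),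
    Fintype.card (IG B₀ n) ≤ m → ∀ (K : Subfield ℂ), (∀ x ∈ K, IsAlgebraic ℚ x) →
    ∀ (r : Fin k → ℕ) (h : ∀ i, Fin (r i) → ℚ⟦X⟧) (P : ∀ i, Fin (n i) → Fin (n i) → MvPolynomial (Option (Fin (r i))) ℂ)
    (s : Fin k → ℝ) (C₀ : Matrix B₀ B₀ ℂ), (∀ i, IsUnit (pM (h i) (P i) (s i))) →
    (∀ g : ∀ i, (Matrix (Fin (n i)) (Fin (n i)) ℂ)ˣ, (∀ i, g i ∈ Gs (h i) (P i)) →
      Rl K d (EG C₀ fun i => pM (h i) (P i) (s i)) (EG 1 (fun i => (g i : Matrix (Fin (n i)) (Fin (n i)) ℂ)) *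
        EG C₀ fun i => pM (h i) (P i) (s i))) →
    ∀ T : Set (Matrix (IG B₀ n) (IG B₀ n) ℂ), IsSubtorsor K T → EG C₀ (fun i => pM (h i) (P i) (s i)) ∈ T →
    ∀ g : ∀ i, (Matrix (Fin (n i)) (Fin (n i)) ℂ)ˣ, (∀ i, g i ∈ Kn K (h i) (P i) (pM (h i) (P i) (s i))) →
      EGu B₀ n g ∈ Sbl T := by
  obtain ⟨d, hd1, hd⟩ := comm_main m
  refine ⟨d, hd1, ?_⟩
  intro B₀ _ _ k n hcard K hK r h P s C₀ hZ hrel T hT hcT
  have hKc : (K : Set ℂ).Countable := by
    have h1 : ({x : ℂ | IsAlgebraic ℚ x} : Set ℂ).Countable := Algebraic.countable ℚ ℂ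
    exact h1.mono fun x hx => hK x hx
  set c := EG C₀ (fun i => pM (h i) (P i) (s i)) with hc
  have hrelG : ∀ g ∈ GG B₀ (fun i => Gs (h i) (P i)), Rl K d c (g * c) := by
    rintro _ ⟨g, hg, rfl⟩
    exact hrel g fun i => hg i (Set.mem_univ i)
  obtain ⟨hcomm, hbkt⟩ := hd (IG B₀ n) hcard K hKc T c hT hcT (GG B₀ fun i => Gs (h i) (P i)) hrelG
  have hNrmG : ∀ N ∈ Nil (GG B₀ fun i => Gs (h i) (P i)), Nrm T N := by
    intro N hN
    refine nrm_of_rel hT hcT hN.1 fun t => ?_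
    obtain ⟨v, hv, hv'⟩ := hN.2 t
    rw [← hv']
    exact (hrelG v hv).mono (by
      have := hcard
      omega)
  intro g hg
  refine all_blocksG fun i => ?_
  have hgi := hg i
  unfold Kn at hgi
  generalize g i = u at hgi
  induction hgi using Subgroup.closure_induction with
  | mem u hu =>
    rcases hu with (hu | hu) | hu
    · refine hcomm _ ?_
      have h1 : em B₀ i u ∈ (⁅Ug (Gs (h i) (P i)), Ug (Gs (h i) (P i))⁆ : Subgroup _).map (em B₀ i) := ⟨u, hu, rfl⟩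
      rw [Subgroup.map_commutator] at h1
      exact Subgroup.commutator_mono em_Ug em_Ug h1
    · obtain ⟨huG, wt, E, ω, hgr, hR⟩ := hu
      have huR : (u : Matrix (Fin (n i)) (Fin (n i)) ℂ) - 1 ∈ US (RR wt E ω) := by
        intro a b hab
        refine hR a b fun h1 => hab ?_
        rw [Matrix.sub_apply, h1, sub_self]
      obtain ⟨N, hNR, hNn, hexp⟩ := Gs_log (RR_up wt E ω) huG huR
      have hNil := e1_Nil (B₀ := B₀) (𝒢 := fun i => Gs (h i) (P i)) (i := i) hNn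
      have hNrm : Nrm T (e1 B₀ i N) := hNrmG _ hNil
      have halg : Algebra.IsAlgebraic ℚ K := ⟨fun x => by
        have h1 := hK x x.2
        exact (isAlgebraic_algebraMap_iff (A := ℂ) (algebraMap K ℂ).injective).1 h1⟩
      have hLL : fl (e1 B₀ i N) ∈ LL T := by
        refine graded_stab hT hZ hcT i (RR_up wt E ω) (E := E) (ω := ω) ?_ ?_ ?_ hNR hNrm
        · intro a b hab
          obtain ⟨h1, h2⟩ := hab
          obtain ⟨h3, h4, h5⟩ := h2 a b le_rfl le_rfl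
          exact ⟨h1, h3, h4, fun h6 => h5 (h6.restrictScalars ℚ)⟩
        · intro a b hab
          show MvPolynomial.aeval _ (P i a b) = 0
          rw [hgr.tri a b hab, map_zero]
        · intro a b hab ha
          obtain ⟨κ, hκ, hP⟩ := hgr.diag a b hab ha
          refine ⟨κ, hκ, ?_⟩
          show MvPolynomial.aeval _ (P i a b) = _
          rw [hP, MvPolynomial.aeval_C]
          rfl
      intro x hx
      have h1 := exp_mem hT (e1_nil hNn.1) hLL hx 1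
      rw [e1_exp hNn.1, one_smul, ← hexp] at h1
      rw [em_val]
      exact h1
    · obtain ⟨hb, N, hNn, hN, hexp⟩ := hu
      have hS : ∀ A ∈ Nil (Gs (h i) (P i)), e1 B₀ i A ∈ Nil (GG B₀ fun i => Gs (h i) (P i)) := fun A hA =>
        e1_Nil (B₀ := B₀) (𝒢 := fun i => Gs (h i) (P i)) (i := i) hA
      have hLL : fl (e1 B₀ i N) ∈ LL T := tate_block hK hT hZ hcT i (fun A hA => hNrmG _ (hS A hA))
        (fun A hA B hB => hbkt _ (hS A hA) _ (hS B hB)) hb hN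
      intro x hx
      have h1 := exp_mem hT (e1_nil hNn.1) hLL hx 1
      rw [e1_exp hNn.1, one_smul, ← hexp] at h1
      rw [em_val]
      exact h1
  | one =>
    rw [map_one]
    intro x hx
    rw [Units.val_one, Matrix.one_mul]
    exact hx
  | mul u v _ _ ihu ihv =>
    rw [map_mul]
    exact Sbl_mul ihu ihv
  | inv u _ ih =>
    rw [map_inv]
    exact Sbl_inv hT ih

/-- the conclusion -/
def FullM {r : Fin k → ℕ} (K : Subfield ℂ) (C₀ : Matrix B₀ B₀ ℂ) (h : ∀ i, Fin (r i) → ℚ⟦X⟧)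
    (P : ∀ i, Fin (n i) → Fin (n i) → MvPolynomial (Option (Fin (r i))) ℂ) (t : Fin k → ℕ) : Prop :=
  (∀ T : Set (Matrix (IG B₀ n) (IG B₀ n) ℂ), IsSubtorsor K T →
    EG C₀ (fun i => pM (h i) (P i) (t i : ℝ)) ∈ T → ∀ g : ∀ i, (Matrix (Fin (n i)) (Fin (n i)) ℂ)ˣ,
      (∀ i, g i ∈ Kn K (h i) (P i) (pM (h i) (P i) (t i : ℝ))) →
        ∀ x ∈ T, EG 1 (fun i => (g i : Matrix (Fin (n i)) (Fin (n i)) ℂ)) * x ∈ T) ∧
  (∀ i, MT K (P i) → Gs (h i) (P i) ≤ Kn K (h i) (P i) (pM (h i) (P i) (t i : ℝ))) ∧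
  ∀ T : Set (Matrix (IG B₀ n) (IG B₀ n) ℂ), IsSubtorsor K T → EG C₀ (fun i => pM (h i) (P i) (t i : ℝ)) ∈ T →
    ∀ g : ∀ i, (Matrix (Fin (n i)) (Fin (n i)) ℂ)ˣ, (∀ i, g i ∈ Gs (h i) (P i)) → ∀ w, fl w ∈ LL T →
      fl (EG 1 (fun i => (g i : Matrix (Fin (n i)) (Fin (n i)) ℂ)) * w *
        (EG 1 fun i => (g i : Matrix (Fin (n i)) (Fin (n i)) ℂ))⁻¹) ∈ LL T

/-- **The theorem on mixed families.** -/
theorem mixed_main (k D e r : ℕ) (ρ n : Fin k → ℕ) (h : ∀ i, Fin (ρ i) → ℚ⟦X⟧) (hF : ∀ i δ, Fam δ (h i)) :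
    ∃ c C : ℝ, 0 < c ∧ 0 ≤ C ∧ ∀ P : ∀ i, Fin (n i) → Fin (n i) → MvPolynomial (Option (Fin (ρ i))) ℂ,
    (∀ i a b, (P i a b).totalDegree ≤ e) → ∀ K : Subfield ℂ, FiniteDimensional ℚ K → Module.finrank ℚ K ≤ D →
    ∀ C₀ : Matrix (Fin r) (Fin r) ℂ, ∀ (x : Fin k → ℕ) (N : ℕ), 1 ≤ N → ∀ S : Finset (Fin k → ℕ),
    (∀ t ∈ S, (∀ i, x i < t i ∧ t i ≤ x i + N) ∧ (∀ i, IsUnit (pM (h i) (P i) (t i : ℝ))) ∧ ¬ FullM K C₀ h P t) →
    (S.card : ℝ) ≤ C * (N : ℝ) ^ (k - 1) * ∑ i, (1 + N / ((x i : ℝ) + N) ^ c) := by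
  classical
  obtain ⟨d, hd1, hd⟩ := stab_one (r + ∑ i, n i)
  obtain ⟨c, C, hc, hC, hmain⟩ := gx (ν := fun i => Fin (n i) × Fin (n i)) (h := h) d e
    ((D + (r * r + ∑ i, n i) + 1) ^ (d + 1)) (fun i => hF i _)
  refine ⟨c, C, hc, hC, ?_⟩
  intro P hP K hKf hKD C₀ x N hN S hS
  have hKalg : ∀ x ∈ K, IsAlgebraic ℚ x := by
    intro x hx
    have : NumberField K := { to_charZero := inferInstance, to_finiteDimensional := hKf }
    have h6 : IsAlgebraic ℚ (⟨x, hx⟩ : K) := Algebra.IsAlgebraic.isAlgebraic _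
    exact h6.algebraMap (A := ℂ)
  -- the weights of the mixed Tate families
  have hwt : ∀ i, ∃ wt : Fin (n i) → ℤ, MT K (P i) → Grd K (P i) wt Set.univ (fun j => tpi ^ j) := by
    intro i
    by_cases hM : MT K (P i)
    · obtain ⟨wt, hwt⟩ := hM
      exact ⟨wt, fun _ => hwt⟩
    · exact ⟨fun _ => 0, fun h1 => absurd h1 hM⟩
  choose wt hwt using hwt
  obtain ⟨W, hW1, hW2, hKW, hW3⟩ := exists_W' K (fun o : (Fin r × Fin r) ⊕ (Σ i, Fin (n i)) =>
    Sum.elim (fun b : Fin r × Fin r => C₀ b.1 b.2) (fun v : Σ i, Fin (n i) => tpi ^ (wt v.1 v.2)) o)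
  obtain ⟨hp1, hp2⟩ := finrank_pow_le W (d + 1)
  have hWD : Module.finrank ℚ W ≤ D + (r * r + ∑ i, n i) + 1 := by
    refine hW2.trans ?_
    rw [Fintype.card_sum, Fintype.card_prod, Fintype.card_fin, Fintype.card_sigma]
    simp only [Fintype.card_fin]
    omega
  have h1W : (1 : ℂ) ∈ W := hKW 1 K.one_mem
  refine hmain (fun i v => P i v.1 v.2) (fun i v => hP i v.1 v.2) (W ^ (d + 1)) (hp2.trans (Nat.pow_le_pow_left hWD _))
    x N hN S fun t ht => ?_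
  obtain ⟨hbox, hunit, hnot⟩ := hS t ht
  refine ⟨hbox, ?_⟩
  by_contra hcon
  apply hnot
  -- all relations are inherited
  have hval : ∀ i (g : Matrix (Fin (n i)) (Fin (n i)) ℂ) (v : Fin (n i) × Fin (n i)),
      MvPolynomial.aeval (p1 (h i) (t i : ℝ)) (tl (P i) g v) = (g * pM (h i) (P i) (t i : ℝ)) v.1 v.2 := fun i g v =>
    tl_eval (h i) (P i) g _ v
  have hrel : ∀ g : ∀ i, (Matrix (Fin (n i)) (Fin (n i)) ℂ)ˣ, (∀ i, g i ∈ Gs (h i) (P i)) →
      ∀ F : MvPolynomial (Σ i, Fin (n i) × Fin (n i)) ℂ, F.totalDegree ≤ d → (∀ s, F.coeff s ∈ W ^ (d + 1)) →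
      MvPolynomial.aeval (fun v : Σ i, Fin (n i) × Fin (n i) => pM (h v.1) (P v.1) (t v.1 : ℝ) v.2.1 v.2.2) F = 0 →
      MvPolynomial.aeval (fun v : Σ i, Fin (n i) × Fin (n i) =>
        ((g v.1 : Matrix (Fin (n v.1)) (Fin (n v.1)) ℂ) * pM (h v.1) (P v.1) (t v.1 : ℝ)) v.2.1 v.2.2) F = 0 := by
    intro g hg F hFd hFV hF0
    by_contra hne
    refine hcon ⟨F, hFd, hFV, ?_, fun i => tl (P i) (g i), fun i => Prs_sat (hg i).1, ?_⟩
    · rw [MvPolynomial.aeval_eq_eval] at hF0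
      exact hF0
    · intro h2
      apply hne
      rw [MvPolynomial.aeval_eq_eval]
      refine Eq.trans ?_ h2
      congr 2
      funext v
      exact (hval v.1 (g v.1) v.2).symm
  have hRl : ∀ g : ∀ i, (Matrix (Fin (n i)) (Fin (n i)) ℂ)ˣ, (∀ i, g i ∈ Gs (h i) (P i)) →
      Rl K d (EG C₀ fun i => pM (h i) (P i) (t i : ℝ)) (EG 1 (fun i => (g i : Matrix (Fin (n i)) (Fin (n i)) ℂ)) *
        EG C₀ fun i => pM (h i) (P i) (t i : ℝ)) := by
      intro g hg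
      refine Rl_of hKW (PhiG_DC h1W fun a b => hW3 (Sum.inl (a, b)))
        (y := fun v : Σ i, Fin (n i) × Fin (n i) => pM (h v.1) (P v.1) (t v.1 : ℝ) v.2.1 v.2.2)
        (y' := fun v : Σ i, Fin (n i) × Fin (n i) =>
          ((g v.1 : Matrix (Fin (n v.1)) (Fin (n v.1)) ℂ) * pM (h v.1) (P v.1) (t v.1 : ℝ)) v.2.1 v.2.2)
        (fun F h2 h3 h4 => hrel g hg F h2 h3 h4) (fun b => PhiG_eval C₀ _ b) fun b => ?_
      rw [EG_mul, Matrix.one_mul]
      exact PhiG_eval C₀ _ b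
  have hcardm : Fintype.card (IG (Fin r) n) ≤ r + ∑ i, n i := by
    rw [card_IG, Fintype.card_fin]
  refine ⟨?_, ?_, ?_⟩
  · intro T hT hcT g hg
    exact hd (Fin r) k n hcardm K hKalg ρ h P (fun i => (t i : ℝ)) C₀ hunit hRl T hT hcT g hg
  rotate_left
  · intro T hT hcT g hg w hw
    refine normal hT hcT ?_ ((hRl g hg).mono ?_) hw
    · have h2 := (EGu (Fin r) n g).isUnit
      rw [EGu_val] at h2
      exact (Matrix.isUnit_iff_isUnit_det _).1 h2
    · have := hcardm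
      omega
  · -- mixed Tate families
    intro i hMT g hg
    have hgr := hwt i hMT
    refine Subgroup.subset_closure (Or.inl (Or.inr ⟨hg, wt i, Set.univ, _, hgr, ?_⟩))
    -- the entries of `g P`
    have hent : ∀ a b, wt i b ≤ wt i a →
        ((g : Matrix (Fin (n i)) (Fin (n i)) ℂ) * pM (h i) (P i) (t i : ℝ)) a b = pM (h i) (P i) (t i : ℝ) a b := by
      intro a b hab
      obtain ⟨z, hz, hzP⟩ : ∃ z ∈ W ^ (d + 1), pM (h i) (P i) (t i : ℝ) a b = z := by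
        have hle2 : W ^ 2 ≤ W ^ (d + 1) := pow_le_pow_right' (Submodule.one_le.2 h1W) (by omega)
        rcases lt_or_eq_of_le hab with hlt | heq
        · refine ⟨0, (W ^ (d + 1)).zero_mem, ?_⟩
          show MvPolynomial.aeval _ (P i a b) = 0
          rw [hgr.tri a b hlt, map_zero]
        · obtain ⟨κ, hκ, hPκ⟩ := hgr.diag a b heq (Set.mem_univ _)
          refine ⟨tpi ^ (wt i a) * κ, hle2 ?_, ?_⟩
          · rw [pow_two]
            exact Submodule.mul_mem_mul (hW3 (Sum.inr ⟨i, a⟩)) (hKW κ hκ)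
          · show MvPolynomial.aeval _ (P i a b) = _
            rw [hPκ, MvPolynomial.aeval_C]
            rfl
      have h2 := hrel (Pi.mulSingle i g) (fun j => by
        by_cases hj : j = i
        · subst hj
          rw [Pi.mulSingle_eq_same]
          exact hg
        · rw [Pi.mulSingle_eq_of_ne hj]
          exact (Gs (h j) (P j)).one_mem) (MvPolynomial.X ⟨i, (a, b)⟩ - MvPolynomial.C z) ?_ ?_ ?_
      · rw [map_sub, MvPolynomial.aeval_X, MvPolynomial.aeval_C, Pi.mulSingle_eq_same] at h2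
        rw [hzP]
        exact sub_eq_zero.1 h2
      · refine (MvPolynomial.totalDegree_sub _ _).trans ?_
        rw [MvPolynomial.totalDegree_X, MvPolynomial.totalDegree_C]
        omega
      · intro s
        rw [MvPolynomial.coeff_sub, MvPolynomial.coeff_X, MvPolynomial.coeff_C]
        refine (W ^ (d + 1)).sub_mem ?_ ?_
        · split_ifs
          · exact (Submodule.one_le.1 (one_le_pow_of_one_le' (Submodule.one_le.2 h1W) _))
          · exact (W ^ (d + 1)).zero_mem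
        · split_ifs
          · exact hz
          · exact (W ^ (d + 1)).zero_mem
      · rw [map_sub, MvPolynomial.aeval_X, MvPolynomial.aeval_C]
        show pM (h i) (P i) (t i : ℝ) a b - z = 0
        rw [hzP, sub_self]
    -- `g - 1` is strictly triangular
    set Z := pM (h i) (P i) (t i : ℝ) with hZ
    have hZu := hunit i
    rw [← hZ] at hZu
    have hZd : IsUnit Z.det := (Matrix.isUnit_iff_isUnit_det Z).1 hZu
    have hbt : BlockTriangular Z (wt i) := by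
      intro a b hab
      show MvPolynomial.aeval _ (P i a b) = 0
      rw [hgr.tri a b hab, map_zero]
    have hinv : BlockTriangular Z⁻¹ (wt i) := by
      have hI : Invertible Z := Z.invertibleOfIsUnitDet hZd
      exact blockTriangular_inv_of_blockTriangular hbt
    have hg1 : (g : Matrix (Fin (n i)) (Fin (n i)) ℂ) - 1 =
        ((g : Matrix (Fin (n i)) (Fin (n i)) ℂ) * Z - Z) * Z⁻¹ := by
      rw [Matrix.sub_mul, Matrix.mul_assoc, Matrix.mul_nonsing_inv _ hZd, Matrix.mul_one]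
    intro a b hab
    have hlt : wt i a < wt i b := by
      by_contra hnlt
      apply hab
      have h3 : ((g : Matrix (Fin (n i)) (Fin (n i)) ℂ) - 1) a b = 0 := by
        rw [hg1, Matrix.mul_apply]
        refine Finset.sum_eq_zero fun c' _ => ?_
        by_cases hc' : wt i c' ≤ wt i a
        · rw [Matrix.sub_apply, hent a c' hc', sub_self, zero_mul]
        · rw [hinv (i := c') (j := b) (lt_of_le_of_lt (not_lt.1 hnlt) (not_le.1 hc')), mul_zero]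
      rw [Matrix.sub_apply] at h3
      exact sub_eq_zero.1 h3
    exact ⟨hlt, fun a' b' ha' hb' => ⟨Set.mem_univ _, Set.mem_univ _,
      tpi_zpow_tr (lt_of_le_of_lt ha' (lt_of_lt_of_le hlt hb'))⟩⟩

end blocks

end Pool.Agent.Y123.GN
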