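import Pool.Agent.Y123.GN.D6
import Pool.Agent.Y123.GN.C6

/-!
# Abelian parts of Tate type
-/

set_option autoImplicit false
set_option linter.unusedSectionVars false

open Matrix Module

namespace Pool.Agent.Y123.GN

open Pool.Agent.TH127.PT Pool.Agent.Y123.ST Pool.Agent.TH119.DR

section
variable {M : Type} [Fintype M] [DecidableEq M] {K : Subfield ℂ} {T : Set (Matrix M M ℂ)}

theorem nrm_add {s s' : Matrix M M ℂ} (h : Nrm T s) (h' : Nrm T s') : Nrm T (s + s') := by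
  intro w hw
  have h1 : w * (s + s') - (s + s') * w = (w * s - s * w) + (w * s' - s' * w) := by noncomm_ring
  rw [h1, fl_add]
  exact (LL T).add_mem (h w hw) (h' w hw)

theorem nrm_smul {s : Matrix M M ℂ} (h : Nrm T s) (a : ℂ) : Nrm T (a • s) := by
  intro w hw
  have h1 : w * (a • s) - (a • s) * w = a • (w * s - s * w) := by
    rw [Matrix.smul_mul, Matrix.mul_smul, smul_sub]
  rw [h1, fl_smul]
  exact (LL T).smul_mem a (h w hw)

theorem nrm_bk {s s' : Matrix M M ℂ} (h : Nrm T s) (h' : Nrm T s') : Nrm T (s * s' - s' * s) := by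
  intro w hw
  have h1 := h' _ (h w hw)
  have h2 := h _ (h' w hw)
  have h3 : w * (s * s' - s' * s) - (s * s' - s' * s) * w =
      ((w * s - s * w) * s' - s' * (w * s - s * w)) + (-1 : ℂ) • ((w * s' - s' * w) * s - s * (w * s' - s' * w)) := by
    rw [neg_one_smul]
    noncomm_ring
  rw [h3, fl_add, fl_smul]
  exact (LL T).add_mem h1 ((LL T).smul_mem _ h2)

theorem nrm_span {S : Set (Matrix M M ℂ)} (h : ∀ s ∈ S, Nrm T s) {s : Matrix M M ℂ} (hs : s ∈ Submodule.span ℂ S) :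
    Nrm T s := by
  induction hs using Submodule.span_induction with
  | mem s hs => exact h s hs
  | zero =>
    intro w _
    rw [Matrix.mul_zero, Matrix.zero_mul, sub_zero, fl_zero]
    exact (LL T).zero_mem
  | add x y _ _ hx hy => exact nrm_add hx hy
  | smul a x _ hx => exact nrm_smul hx a

theorem LL_span {S : Set (Matrix M M ℂ)} (h : ∀ s ∈ S, fl s ∈ LL T) {s : Matrix M M ℂ} (hs : s ∈ Submodule.span ℂ S) :
    fl s ∈ LL T := by
  induction hs using Submodule.span_induction with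
  | mem s hs => exact h s hs
  | zero =>
    rw [fl_zero]
    exact (LL T).zero_mem
  | add x y _ _ hx hy =>
    rw [fl_add]
    exact (LL T).add_mem hx hy
  | smul a x _ hx =>
    rw [fl_smul]
    exact (LL T).smul_mem a hx

/-- the entries are in `K` -/
def EK (K : Subfield ℂ) (A : Matrix M M ℂ) : Prop := ∀ a b, A a b ∈ K

/-- derivatives of elements of a rational subspace -/
theorem der_rat (D : Derivation K ℂ ℂ) {V : Submodule ℂ (Matrix M M ℂ)} (hV : V ≤ Submodule.span ℂ {y | y ∈ V ∧ EK K y})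
    {y : Matrix M M ℂ} (hy : y ∈ V) : y.map D ∈ V := by
  have h1 := hV hy
  clear hy
  induction h1 using Submodule.span_induction with
  | mem y hy =>
    have h2 : y.map D = 0 := by
      ext a b
      exact der_zero D (hy.2 a b)
    rw [h2]
    exact V.zero_mem
  | zero =>
    have h2 : (0 : Matrix M M ℂ).map D = 0 := by
      ext a b
      exact map_zero D
    rw [h2]
    exact V.zero_mem
  | add x y _ _ hx hy =>
    have h2 : (x + y).map D = x.map D + y.map D := by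
      ext a b
      exact map_add D _ _
    rw [h2]
    exact V.add_mem hx hy
  | smul a x hx' hx =>
    have hsub : Submodule.span ℂ {y | y ∈ V ∧ EK K y} ≤ V := Submodule.span_le.2 fun z hz => hz.1
    have h2 : (a • x).map D = a • x.map D + D a • x := by
      ext i j
      show D (a * x i j) = a * D (x i j) + D a * x i j
      rw [D.leibniz, smul_eq_mul, smul_eq_mul]
      ring
    rw [h2]
    exact V.add_mem (V.smul_mem a hx) (V.smul_mem _ (hsub hx'))

/-- **elements of Tate type** -/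
theorem tate_type (hT : IsSubtorsor K T) {c : Matrix M M ℂ} (hc : c ∈ T) {τ : ℂ} (hτ : Transcendental K τ)
    {V : Submodule ℂ (Matrix M M ℂ)} (hVL : ∀ y ∈ V, fl y ∈ LL T) (hVN : ∀ y ∈ V, Nrm T y)
    (hV : V ≤ Submodule.span ℂ {y | y ∈ V ∧ EK K y}) {N X : Matrix M M ℂ} (hN : Nrm T N) (hNK : EK K N) (hXK : EK K X)
    (h : c * X * c⁻¹ - τ • N ∈ V) : fl N ∈ LL T := by
  obtain ⟨D, hD⟩ := exists_der_tr hτ
  set w := c.map D * c⁻¹ with hw
  have hwL : fl w ∈ LL T := logder_mem hT D hc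
  set R := c * X * c⁻¹ - τ • N with hR
  set Y := c * X * c⁻¹ with hY
  have hYR : Y = τ • N + R := by rw [hR, add_sub_cancel]
  have hcc' := inv_mul' hT hc
  -- the derivative of `Y`
  have hYc : Y * c = c * X := by rw [hY, Matrix.mul_assoc, hcc', Matrix.mul_one]
  have hXD : X.map D = 0 := by
    ext a b
    exact der_zero D (hXK a b)
  have hwc : w * c = c.map D := by rw [hw, Matrix.mul_assoc, hcc', Matrix.mul_one]
  have h1 : Y.map D = w * Y - Y * w := by
    have h2 := congrArg (fun A : Matrix M M ℂ => A.map D) hYc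
    simp only [der_mul, hXD, Matrix.mul_zero, add_zero] at h2
    have h3 : Y.map D * c = w * c * X - Y * (w * c) := by
      rw [hwc, ← h2, add_sub_cancel_right]
    have hcc := mul_inv' hT hc
    calc Y.map D = Y.map D * c * c⁻¹ := by rw [Matrix.mul_assoc, hcc, Matrix.mul_one]
      _ = w * (c * X * c⁻¹) - Y * w * (c * c⁻¹) := by
        rw [h3, Matrix.sub_mul]
        simp only [Matrix.mul_assoc]
      _ = w * Y - Y * w := by rw [hcc, Matrix.mul_one]
  have h2 : Y.map D = D τ • N + R.map D := by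
    rw [hYR]
    ext a b
    show D (τ * N a b + R a b) = D τ * N a b + D (R a b)
    rw [map_add, D.leibniz, der_zero D (hNK a b), smul_zero, zero_add, smul_eq_mul, mul_comm (N a b)]
  have h3 : fl (w * Y - Y * w) ∈ LL T := by
    have h4 : Nrm T Y := by
      rw [hYR]
      exact nrm_add (nrm_smul hN τ) (hVN R h)
    exact h4 w hwL
  have h4 : D τ • N = (w * Y - Y * w) + (-1 : ℂ) • R.map D := by
    rw [← h1, h2, neg_one_smul]
    abel
  have h5 : fl (D τ • N) ∈ LL T := by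
    rw [h4, fl_add, fl_smul]
    exact (LL T).add_mem h3 ((LL T).smul_mem _ (hVL _ (der_rat D hV h)))
  rw [fl_smul] at h5
  have h6 := (LL T).smul_mem (D τ)⁻¹ h5
  rwa [smul_smul, inv_mul_cancel₀ hD, one_smul] at h6

end

section

variable {B₀ : Type} [Fintype B₀] [DecidableEq B₀] {k : ℕ} {n : Fin k → ℕ}

/-- the brackets -/
def bks {ν : Type} [Fintype ν] [DecidableEq ν] (S : Set (Matrix ν ν ℂ)) : Submodule ℂ (Matrix ν ν ℂ) :=
  Submodule.span ℂ {C | ∃ A ∈ S, ∃ B ∈ S, C = A * B - B * A}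

/-- the matrices over `K` of Tate type -/
def TTs {ν : Type} [Fintype ν] [DecidableEq ν] (K : Subfield ℂ) (S : Set (Matrix ν ν ℂ)) (Z : Matrix ν ν ℂ) :
    Set (Matrix ν ν ℂ) :=
  {N | N ∈ Submodule.span ℂ S ∧ EK K N ∧ ∃ X : Matrix ν ν ℂ, EK K X ∧ Z * X * Z⁻¹ - tpi • N ∈ bks S}

/-- the block version -/
theorem tate_block {K : Subfield ℂ} (hK : ∀ x ∈ K, IsAlgebraic ℚ x) {T : Set (Matrix (IG B₀ n) (IG B₀ n) ℂ)}
    (hT : IsSubtorsor K T) {C₀ : Matrix B₀ B₀ ℂ} {Z : ∀ i, Matrix (Fin (n i)) (Fin (n i)) ℂ} (hZ : ∀ i, IsUnit (Z i))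
    (hc : EG C₀ Z ∈ T) (i : Fin k) {S : Set (Matrix (Fin (n i)) (Fin (n i)) ℂ)} (hS : ∀ A ∈ S, Nrm T (e1 B₀ i A))
    (hSL : ∀ A ∈ S, ∀ B ∈ S, fl (e1 B₀ i A * e1 B₀ i B - e1 B₀ i B * e1 B₀ i A) ∈ LL T)
    (hb : bks S ≤ Submodule.span ℂ {y | y ∈ bks S ∧ EK K y}) {N : Matrix (Fin (n i)) (Fin (n i)) ℂ}
    (hN : N ∈ bks S ⊔ Submodule.span ℂ (TTs K S (Z i))) : fl (e1 B₀ i N) ∈ LL T := by
  have hC₀ : IsUnit C₀ := EG_unit (hT.isUnit _ hc)
  have hinv : (EG C₀ Z)⁻¹ = EG C₀⁻¹ (fun i => (Z i)⁻¹) := by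
    refine Matrix.inv_eq_right_inv ?_
    rw [EG_mul, Matrix.mul_nonsing_inv _ ((Matrix.isUnit_iff_isUnit_det _).1 hC₀)]
    have h1 : (fun i => Z i * (Z i)⁻¹) = 1 := by
      funext i
      exact Matrix.mul_nonsing_inv _ ((Matrix.isUnit_iff_isUnit_det _).1 (hZ i))
    rw [h1, EG_one]
  have hmulb : ∀ A B : Matrix (Fin (n i)) (Fin (n i)) ℂ, e1 B₀ i (A * B - B * A) =
      e1 B₀ i A * e1 B₀ i B - e1 B₀ i B * e1 B₀ i A := by
    intro A B
    have h1 : ∀ A B : Matrix (Fin (n i)) (Fin (n i)) ℂ, e1 B₀ i A * e1 B₀ i B = e1 B₀ i (A * B) := by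
      intro A B
      rw [e1_apply i A, e1_left, Pi.single_eq_same]
    rw [map_sub, h1, h1]
  set V : Submodule ℂ (Matrix (IG B₀ n) (IG B₀ n) ℂ) := (bks S).map (e1 B₀ i) with hV
  have hVL : ∀ y ∈ V, fl y ∈ LL T := by
    rintro _ ⟨y, hy, rfl⟩
    have h1 : e1 B₀ i y ∈ Submodule.span ℂ (e1 B₀ i '' {C | ∃ A ∈ S, ∃ B ∈ S, C = A * B - B * A}) := by
      rw [← Submodule.map_span]
      exact ⟨y, hy, rfl⟩
    refine LL_span ?_ h1
    rintro _ ⟨_, ⟨A, hA, B, hB, rfl⟩, rfl⟩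
    rw [hmulb]
    exact hSL A hA B hB
  have hVN : ∀ y ∈ V, Nrm T y := by
    rintro _ ⟨y, hy, rfl⟩
    have h1 : e1 B₀ i y ∈ Submodule.span ℂ (e1 B₀ i '' {C | ∃ A ∈ S, ∃ B ∈ S, C = A * B - B * A}) := by
      rw [← Submodule.map_span]
      exact ⟨y, hy, rfl⟩
    refine nrm_span ?_ h1
    rintro _ ⟨_, ⟨A, hA, B, hB, rfl⟩, rfl⟩
    rw [hmulb]
    exact nrm_bk (hS A hA) (hS B hB)
  have hEK : ∀ y : Matrix (Fin (n i)) (Fin (n i)) ℂ, EK K y → EK K (e1 B₀ i y) := by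
    rintro y hy (a | ⟨j, a⟩) (b | ⟨l, b⟩)
    · exact K.zero_mem
    · exact K.zero_mem
    · exact K.zero_mem
    · show blockDiagonal' (Pi.single i y : ∀ i, Matrix (Fin (n i)) (Fin (n i)) ℂ) ⟨j, a⟩ ⟨l, b⟩ ∈ K
      by_cases hjl : j = l
      · subst hjl
        rw [blockDiagonal'_apply_eq]
        by_cases hj : j = i
        · subst hj
          rw [Pi.single_eq_same]
          exact hy a b
        · rw [Pi.single_eq_of_ne hj]
          exact K.zero_mem
      · rw [blockDiagonal'_apply_ne _ _ _ hjl]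
        exact K.zero_mem
  have hVr : V ≤ Submodule.span ℂ {y | y ∈ V ∧ EK K y} := by
    rintro _ ⟨y, hy, rfl⟩
    have h1 := Submodule.mem_map_of_mem (f := e1 B₀ i) (hb hy)
    rw [Submodule.map_span] at h1
    refine Submodule.span_mono ?_ h1
    rintro _ ⟨z, ⟨hz, hzK⟩, rfl⟩
    exact ⟨⟨z, hz, rfl⟩, hEK z hzK⟩
  -- the two parts
  obtain ⟨y, hy, z, hz, rfl⟩ := Submodule.mem_sup.1 hN
  rw [map_add, fl_add]
  refine (LL T).add_mem (hVL _ ⟨y, hy, rfl⟩) ?_
  have h1 := Submodule.mem_map_of_mem (f := e1 B₀ i) hz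
  rw [Submodule.map_span] at h1
  refine LL_span ?_ h1
  rintro _ ⟨N', ⟨hN', hN'K, X, hXK, hX⟩, rfl⟩
  have hNN : Nrm T (e1 B₀ i N') := by
    have h2 := Submodule.mem_map_of_mem (f := e1 B₀ i) hN'
    rw [Submodule.map_span] at h2
    refine nrm_span ?_ h2
    rintro _ ⟨A, hA, rfl⟩
    exact hS A hA
  refine tate_type hT hc (tpi_tr hK) hVL hVN hVr hNN (hEK _ hN'K) (hEK _ hXK) ?_
  rw [hinv, e1_left, e1_right, ← map_smul, ← map_sub]
  exact ⟨_, hX, rfl⟩

end

end Pool.Agent.Y123.GN
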