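import Pool.Agent.Y123.GN.D3

/-!
# Descent of relations along polynomial curves: from rational coefficients to all number fields of bounded degree
-/

set_option autoImplicit false
set_option linter.unusedSectionVars false

open Matrix Module

namespace Pool.Agent.Y123.GN

open Pool.Agent.TH127.PT Pool.Agent.Y123.ST Pool.Agent.TH119.DR

/-- a rational vector space is not a finite union of proper subspaces -/
theorem cov_sub {E ι : Type} [AddCommGroup E] [Module ℚ E] [Finite ι] (p : ι → Submodule ℚ E) (h : ∀ x, ∃ i, x ∈ p i) :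
    ∃ i, ∀ x, x ∈ p i := by
  have h1 : ⋃ i, (p i : Set E) = Set.univ := by
    refine Set.eq_univ_of_forall fun x => ?_
    rw [Set.mem_iUnion]
    exact h x
  obtain ⟨i, hi⟩ := Subspace.exists_eq_top_of_iUnion_eq_univ h1
  exact ⟨i, fun x => by rw [hi]; exact Submodule.mem_top⟩

/-- version for maps on a subspace -/
theorem cov_sub' {E F ι : Type} [AddCommGroup E] [Module ℚ E] [AddCommGroup F] [Module ℚ F] [Finite ι]
    (I : Submodule ℚ E) (f : ι → E →ₗ[ℚ] F) (h : ∀ x ∈ I, ∃ i, f i x = 0) : ∃ i, ∀ x ∈ I, f i x = 0 := by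
  obtain ⟨i, hi⟩ := cov_sub (fun i => LinearMap.ker ((f i).comp I.subtype)) (fun x => by
    obtain ⟨i, hi⟩ := h x.1 x.2
    exact ⟨i, hi⟩)
  exact ⟨i, fun x hx => hi ⟨x, hx⟩⟩

section galois

variable {V : Type} {L : IntermediateField ℚ ℂ}

/-- the action on the coefficients -/
noncomputable def mpa (V : Type) (σ : L ≃ₐ[ℚ] L) : MvPolynomial V L →ₐ[ℚ] MvPolynomial V L :=
  MvPolynomial.mapAlgHom (σ : L →ₐ[ℚ] L)

theorem mpa_coeff (σ : L ≃ₐ[ℚ] L) (P : MvPolynomial V L) (m : V →₀ ℕ) : (mpa V σ P).coeff m = σ (P.coeff m) := by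
  show (MvPolynomial.map _ P).coeff m = _
  rw [MvPolynomial.coeff_map]
  rfl

theorem mpa_mul (σ τ : L ≃ₐ[ℚ] L) (P : MvPolynomial V L) : mpa V (σ * τ) P = mpa V σ (mpa V τ P) := by
  ext m
  rw [mpa_coeff, mpa_coeff, mpa_coeff]
  rfl

theorem mpa_one (P : MvPolynomial V L) : mpa V (1 : L ≃ₐ[ℚ] L) P = P := by
  ext m
  rw [mpa_coeff]
  rfl

theorem mpa_deg (σ : L ≃ₐ[ℚ] L) (P : MvPolynomial V L) : (mpa V σ P).totalDegree ≤ P.totalDegree := by
  refine Finset.sup_mono ?_
  intro m hm
  rw [MvPolynomial.mem_support_iff] at hm ⊢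
  intro h
  apply hm
  rw [mpa_coeff, h, map_zero]

/-- **Descent.** -/
theorem desc_gal [IsGalois ℚ L] [FiniteDimensional ℚ L] {d : ℕ} (G : V → Polynomial ℂ)
    (hrel : ∀ P : MvPolynomial V ℚ, P.totalDegree ≤ d * finrank ℚ L →
      (MvPolynomial.aeval G P).eval 0 = 0 → MvPolynomial.aeval G P = 0) :
    ∀ P : MvPolynomial V L, P.totalDegree ≤ d → (MvPolynomial.aeval G P).eval 0 = 0 → MvPolynomial.aeval G P = 0 := by
  classical
  -- the relations
  let I : Submodule ℚ (MvPolynomial V L) :=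
    { carrier := {P | P.totalDegree ≤ d ∧ (MvPolynomial.aeval G P).eval 0 = 0}
      zero_mem' := by
        refine ⟨?_, ?_⟩
        · rw [MvPolynomial.totalDegree_zero]
          exact Nat.zero_le d
        · rw [map_zero, Polynomial.eval_zero]
      add_mem' := by
        rintro P Q ⟨h1, h2⟩ ⟨h3, h4⟩
        refine ⟨(MvPolynomial.totalDegree_add _ _).trans (max_le h1 h3), ?_⟩
        rw [map_add, Polynomial.eval_add, h2, h4, add_zero]
      smul_mem' := by
        rintro q P ⟨h1, h2⟩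
        refine ⟨(MvPolynomial.totalDegree_smul_le _ _).trans h1, ?_⟩
        have h3 : q • P = algebraMap ℚ (MvPolynomial V L) q * P := Algebra.smul_def q P
        have h4 : algebraMap ℚ (MvPolynomial V L) q = MvPolynomial.C (algebraMap ℚ L q) := rfl
        rw [h3, h4, map_mul, Polynomial.eval_mul, h2, mul_zero] }
  have hI : ∀ P, P ∈ I ↔ P.totalDegree ≤ d ∧ (MvPolynomial.aeval G P).eval 0 = 0 := fun P => Iff.rfl
  let A : (L ≃ₐ[ℚ] L) → MvPolynomial V L →ₗ[ℚ] Polynomial ℂ := fun σ =>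
    ((MvPolynomial.aeval (R := L) G).restrictScalars ℚ).toLinearMap ∘ₗ (mpa V σ).toLinearMap
  have hA : ∀ σ P, A σ P = MvPolynomial.aeval G (mpa V σ P) := fun σ P => rfl
  have hcover : ∀ P ∈ I, ∃ σ : L ≃ₐ[ℚ] L, A σ P = 0 := by
    intro P hPI
    set N : MvPolynomial V L := ∏ σ : L ≃ₐ[ℚ] L, mpa V σ P with hN
    have hfix : ∀ τ : L ≃ₐ[ℚ] L, mpa V τ N = N := by
      intro τ
      rw [hN, map_prod]
      refine Fintype.prod_bijective (fun σ => τ * σ) (Group.mulLeft_bijective τ) _ _ fun σ => ?_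
      rw [mpa_mul]
    have hco : ∀ m, N.coeff m ∈ Set.range (algebraMap ℚ L) := by
      intro m
      rw [IsGalois.mem_range_algebraMap_iff_fixed]
      intro τ
      rw [← mpa_coeff, hfix]
    obtain ⟨N₀, hN₀⟩ : N ∈ Set.range (MvPolynomial.map (algebraMap ℚ L)) := by
      rw [MvPolynomial.mem_range_map_iff_coeffs_subset]
      intro z hz
      rw [Finset.mem_coe, MvPolynomial.mem_coeffs_iff] at hz
      obtain ⟨m, -, rfl⟩ := hz
      exact hco m
    have hdeg : N.totalDegree ≤ d * finrank ℚ L := by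
      rw [hN]
      refine (MvPolynomial.totalDegree_finsetProd _ _).trans ?_
      refine (Finset.sum_le_card_nsmul _ _ d fun σ _ => (mpa_deg σ _).trans hPI.1).trans ?_
      rw [Finset.card_univ, ← Nat.card_eq_fintype_card, IsGalois.card_aut_eq_finrank, smul_eq_mul, mul_comm]
    have hdeg0 : N₀.totalDegree ≤ d * finrank ℚ L := by
      refine le_trans (Finset.sup_mono ?_) hdeg
      intro m hm
      rw [MvPolynomial.mem_support_iff] at hm ⊢
      rw [← hN₀, MvPolynomial.coeff_map]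
      intro h
      exact hm ((map_eq_zero _).1 h)
    have hae : MvPolynomial.aeval G N = MvPolynomial.aeval G N₀ := by
      rw [← hN₀, MvPolynomial.aeval_map_algebraMap]
    have hprod : MvPolynomial.aeval G N = ∏ σ : L ≃ₐ[ℚ] L, MvPolynomial.aeval G (mpa V σ P) := by
      rw [hN, map_prod]
    have h0 : (MvPolynomial.aeval G N₀).eval 0 = 0 := by
      rw [← hae, hprod, Polynomial.eval_prod]
      refine Finset.prod_eq_zero (Finset.mem_univ 1) ?_
      rw [mpa_one]
      exact hPI.2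
    have h1 := hrel N₀ hdeg0 h0
    rw [← hae, hprod, Finset.prod_eq_zero_iff] at h1
    obtain ⟨σ, -, hσ⟩ := h1
    exact ⟨σ, hσ⟩
  obtain ⟨σ, hσ⟩ := cov_sub' I A hcover
  have hker : ∀ P ∈ I, MvPolynomial.aeval G (mpa V σ P) = 0 := by
    intro P hP
    exact hσ P hP
  have hstep : ∀ P ∈ I, mpa V σ P ∈ I := by
    intro P hP
    refine ⟨(mpa_deg σ P).trans hP.1, ?_⟩
    rw [hker P hP, Polynomial.eval_zero]
  have hpow : ∀ (j : ℕ), ∀ P ∈ I, mpa V (σ ^ j) P ∈ I := by
    intro j
    induction j with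
    | zero =>
      intro P hP
      rw [pow_zero, mpa_one]
      exact hP
    | succ j ih =>
      intro P hP
      rw [pow_succ', mpa_mul]
      exact hstep _ (ih P hP)
  intro P hPd hP0
  have hP : P ∈ I := ⟨hPd, hP0⟩
  have hord : 0 < orderOf σ := orderOf_pos σ
  have h1 := hker _ (hpow (orderOf σ - 1) P hP)
  rw [← mpa_mul, ← pow_succ', Nat.sub_add_cancel hord, pow_orderOf_eq_one, mpa_one] at h1
  exact h1

end galois

/-- the Galois closure of a number field of bounded degree -/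
theorem exists_gal {D : ℕ} {K : Subfield ℂ} (hf : FiniteDimensional ℚ K) (hD : finrank ℚ K ≤ D) :
    ∃ L : IntermediateField ℚ ℂ, (∀ x ∈ K, x ∈ L) ∧ IsGalois ℚ L ∧ FiniteDimensional ℚ L ∧ finrank ℚ L ≤ D ^ D := by
  classical
  let L : IntermediateField ℚ ℂ := IntermediateField.normalClosure ℚ K ℂ
  have hnc : IsNormalClosure ℚ K L := Algebra.IsAlgebraic.isNormalClosure_normalClosure fun x => IsAlgClosed.splits _
  have hnorm : Normal ℚ L := hnc.normal
  have hsup : ∀ S : Finset (K →ₐ[ℚ] ℂ), FiniteDimensional ℚ (S.sup AlgHom.fieldRange : IntermediateField ℚ ℂ) ∧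
      finrank ℚ (S.sup AlgHom.fieldRange : IntermediateField ℚ ℂ) ≤ (finrank ℚ K) ^ S.card := by
    intro S
    induction S using Finset.induction_on with
    | empty =>
      rw [Finset.sup_empty, Finset.card_empty, pow_zero]
      refine ⟨inferInstance, ?_⟩
      rw [IntermediateField.finrank_bot]
    | insert f S hf' ih =>
      obtain ⟨ih1, ih2⟩ := ih
      rw [Finset.sup_insert, Finset.card_insert_of_notMem hf']
      have h1 : FiniteDimensional ℚ f.fieldRange := by
        have e : K ≃ₐ[ℚ] f.fieldRange := AlgEquiv.ofInjectiveField f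
        exact Module.Finite.equiv e.toLinearEquiv
      have h2 : finrank ℚ f.fieldRange = finrank ℚ K := by
        have e : K ≃ₐ[ℚ] f.fieldRange := AlgEquiv.ofInjectiveField f
        exact e.toLinearEquiv.finrank_eq.symm
      refine ⟨IntermediateField.finiteDimensional_sup _ _, ?_⟩
      refine (IntermediateField.finrank_sup_le _ _).trans ?_
      rw [h2, pow_succ']
      exact Nat.mul_le_mul_left _ ih2
  have hL : L = (Finset.univ : Finset (K →ₐ[ℚ] ℂ)).sup AlgHom.fieldRange := by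
    show (⨆ f : K →ₐ[ℚ] ℂ, f.fieldRange) = _
    rw [Finset.sup_univ_eq_iSup]
  have hcard : Fintype.card (K →ₐ[ℚ] ℂ) = finrank ℚ K := by
    rw [AlgHom.card]
  obtain ⟨h1, h2⟩ := hsup Finset.univ
  rw [← hL, Finset.card_univ, hcard] at h2
  rw [← hL] at h1
  refine ⟨L, fun x hx => ?_, ⟨⟩, h1, h2.trans ?_⟩
  · let f : K →ₐ[ℚ] ℂ :=
      { K.subtype with
        commutes' := fun q => by
          have h3 : K.subtype (algebraMap ℚ K q) = algebraMap ℚ ℂ q := by
            rw [eq_ratCast, eq_ratCast, map_ratCast]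
          exact h3 }
    exact (AlgHom.fieldRange_le_normalClosure f) ⟨⟨x, hx⟩, rfl⟩
  · have hpos : 0 < finrank ℚ K := finrank_pos
    exact (Nat.pow_le_pow_left hD _).trans (Nat.pow_le_pow_right (by omega) hD)

end Pool.Agent.Y123.GN
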