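import Pool.Agent.Y123.GN.E1

/-!
# All number fields of bounded degree at once
-/

set_option autoImplicit false
set_option linter.unusedSectionVars false

open Matrix Module

namespace Pool.Agent.Y123.GN

open Pool.Agent.TH127.PT Pool.Agent.Y123.ST Pool.Agent.TH119.DR

variable {M : Type} [Fintype M] [DecidableEq M] {K : Subfield ℂ} {T : Set (Matrix M M ℂ)}

theorem aeval_eval_poly {R V : Type} [CommSemiring R] [Algebra R ℂ] (G : V → Polynomial ℂ) (P : MvPolynomial V R) (s : ℂ) :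
    (MvPolynomial.aeval G P).eval s = MvPolynomial.eval (fun b => (G b).eval s) (MvPolynomial.map (algebraMap R ℂ) P) := by
  induction P using MvPolynomial.induction_on with
  | C a =>
    rw [MvPolynomial.aeval_C, MvPolynomial.map_C, MvPolynomial.eval_C]
    show (Polynomial.C (algebraMap R ℂ a)).eval s = _
    rw [Polynomial.eval_C]
  | add p q hp hq => rw [map_add, Polynomial.eval_add, hp, hq, map_add, map_add]
  | mul_X p b hp =>
    rw [map_mul, Polynomial.eval_mul, hp, MvPolynomial.aeval_X, map_mul, map_mul, MvPolynomial.map_X,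
      MvPolynomial.eval_X]

/-- **Descent of relations.** -/
theorem Rl_desc {D d : ℕ} {γ : Matrix M M (Polynomial ℂ)} (hf : FiniteDimensional ℚ K) (hD : finrank ℚ K ≤ D)
    (hrel : ∀ s, Rl ⊥ (d * D ^ D) (ev 0 γ) (ev s γ)) (s : ℂ) : Rl K d (ev 0 γ) (ev s γ) := by
  obtain ⟨L, hKL, hgal, hfin, hfr⟩ := exists_gal hf hD
  have key := desc_gal (d := d) (L := L) (fun b : M × M => γ b.1 b.2) (by
    intro P hP h0
    refine Polynomial.funext fun s => ?_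
    rw [aeval_eval_poly, Polynomial.eval_zero]
    rw [aeval_eval_poly] at h0
    refine hrel s (MvPolynomial.map (algebraMap ℚ ℂ) P) (fun m => ?_) ?_ h0
    · rw [MvPolynomial.coeff_map]
      rw [eq_ratCast]
      exact SubfieldClass.ratCast_mem _ _
    · refine (Finset.sup_mono ?_).trans (hP.trans (Nat.mul_le_mul_left d hfr))
      intro m hm
      rw [MvPolynomial.mem_support_iff] at hm ⊢
      intro h
      apply hm
      rw [MvPolynomial.coeff_map, h, map_zero])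
  intro P hPK hPd hP0
  obtain ⟨P', rfl⟩ : P ∈ Set.range (MvPolynomial.map (algebraMap L ℂ)) := by
    rw [MvPolynomial.mem_range_map_iff_coeffs_subset]
    intro z hz
    rw [Finset.mem_coe, MvPolynomial.mem_coeffs_iff] at hz
    obtain ⟨m, -, rfl⟩ := hz
    exact ⟨⟨_, hKL _ (hPK m)⟩, rfl⟩
  have h1 := key P' (by
    refine (Finset.sup_mono ?_).trans hPd
    intro m hm
    rw [MvPolynomial.mem_support_iff] at hm ⊢
    rw [MvPolynomial.coeff_map]
    intro h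
    exact hm ((map_eq_zero _).1 h)) (by
    rw [aeval_eval_poly]
    exact hP0)
  have h2 := aeval_eval_poly (fun b : M × M => γ b.1 b.2) P' s
  rw [h1, Polynomial.eval_zero] at h2
  exact h2.symm

/-- the elements of the unipotently generated group are on polynomial curves -/
theorem Ug_curve {𝒢 : Subgroup (Matrix M M ℂ)ˣ} {u : (Matrix M M ℂ)ˣ} (hu : u ∈ Ug 𝒢) :
    ∃ g g' : Matrix M M (Polynomial ℂ), g * g' = 1 ∧ ev 0 g = 1 ∧ ev 1 g = u ∧
      ∀ s, ∃ v ∈ Ug 𝒢, (v : Matrix M M ℂ) = ev s g := by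
  have ev1 : ∀ s : ℂ, ev s (1 : Matrix M M (Polynomial ℂ)) = 1 := by
    intro s
    ext a b
    show Polynomial.eval s ((1 : Matrix M M (Polynomial ℂ)) a b) = _
    rw [Matrix.one_apply, Matrix.one_apply]
    split_ifs
    · exact Polynomial.eval_one
    · exact Polynomial.eval_zero
  induction hu using Subgroup.closure_induction with
  | mem u hu =>
    obtain ⟨N, hN, t, ht⟩ := hu
    obtain ⟨E, hE, -⟩ := exists_expP (hN.1.smul t)
    obtain ⟨F, hF, -⟩ := exists_expP (hN.1.smul t).neg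
    refine ⟨E, F, ?_, ?_, ?_, ?_⟩
    · refine ext_ev fun s => ?_
      rw [ev_mul, hE, hF, ev1, smul_neg, ← neg_smul]
      exact exp_inv (hN.1.smul t) s
    · rw [hE, exp_zero']
    · rw [hE, one_smul, ht]
    · intro s
      obtain ⟨v, hv, hv'⟩ := hN.2 (s * t)
      refine ⟨v, Subgroup.subset_closure ⟨N, hN, s * t, hv'⟩, ?_⟩
      rw [hE, smul_smul, hv']
  | one =>
    refine ⟨1, 1, Matrix.one_mul 1, ev1 0, ?_, fun s => ⟨1, (Ug 𝒢).one_mem, ?_⟩⟩
    · rw [ev1, Units.val_one]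
    · rw [ev1, Units.val_one]
  | mul u v _ _ ihu ihv =>
    obtain ⟨g, g', h1, h2, h3, h4⟩ := ihu
    obtain ⟨f, f', k1, k2, k3, k4⟩ := ihv
    refine ⟨g * f, f' * g', ?_, ?_, ?_, ?_⟩
    · calc g * f * (f' * g') = g * (f * f') * g' := by simp only [Matrix.mul_assoc]
        _ = 1 := by rw [k1, Matrix.mul_one, h1]
    · rw [ev_mul, h2, k2, Matrix.one_mul]
    · rw [ev_mul, h3, k3, Units.val_mul]
    · intro s
      obtain ⟨a, ha, ha'⟩ := h4 s
      obtain ⟨b, hb, hb'⟩ := k4 s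
      refine ⟨a * b, (Ug 𝒢).mul_mem ha hb, ?_⟩
      rw [ev_mul, Units.val_mul, ha', hb']
  | inv u _ ih =>
    obtain ⟨g, g', h1, h2, h3, h4⟩ := ih
    have hinv : ∀ (v : (Matrix M M ℂ)ˣ) (s : ℂ), (v : Matrix M M ℂ) = ev s g →
        ((v⁻¹ : (Matrix M M ℂ)ˣ) : Matrix M M ℂ) = ev s g' := by
      intro v s hv
      have e1 : (v : Matrix M M ℂ) * ev s g' = 1 := by rw [hv, ← ev_mul, h1, ev1]
      calc ((v⁻¹ : (Matrix M M ℂ)ˣ) : Matrix M M ℂ) = (v⁻¹ : (Matrix M M ℂ)ˣ) * ((v : Matrix M M ℂ) * ev s g') := by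
            rw [e1, Matrix.mul_one]
        _ = ev s g' := by rw [← Matrix.mul_assoc, Units.inv_mul, Matrix.one_mul]
    refine ⟨g', g, mul_eq_one_comm.1 h1, ?_, ?_, ?_⟩
    · have h5 := hinv 1 0 (by rw [h2, Units.val_one])
      rw [← h5, inv_one, Units.val_one]
    · exact (hinv u 1 h3.symm).symm
    · intro s
      obtain ⟨a, ha, ha'⟩ := h4 s
      exact ⟨a⁻¹, (Ug 𝒢).inv_mem ha, hinv a s ha'⟩

theorem Nil_Ug {𝒢 : Subgroup (Matrix M M ℂ)ˣ} {N : Matrix M M ℂ} (hN : N ∈ Nil 𝒢) : N ∈ Nil (Ug 𝒢) := by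
  refine ⟨hN.1, fun t => ?_⟩
  obtain ⟨v, -, hv'⟩ := hN.2 t
  exact ⟨v, Subgroup.subset_closure ⟨N, hN, t, hv'⟩, hv'⟩

theorem Ug_Ug (𝒢 : Subgroup (Matrix M M ℂ)ˣ) : Ug 𝒢 ≤ Ug (Ug 𝒢) := by
  refine Subgroup.closure_mono ?_
  rintro u ⟨N, hN, t, ht⟩
  exact ⟨N, Nil_Ug hN, t, ht⟩

/-- relations over number fields for the elements of the unipotently generated group -/
theorem Rl_all {D d : ℕ} {c : Matrix M M ℂ} {𝒢 : Subgroup (Matrix M M ℂ)ˣ} (hf : FiniteDimensional ℚ K)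
    (hD : finrank ℚ K ≤ D) (hrel : ∀ g ∈ Ug 𝒢, Rl ⊥ (d * D ^ D) c (g * c)) {u : (Matrix M M ℂ)ˣ} (hu : u ∈ Ug 𝒢) :
    Rl K d c (u * c) := by
  obtain ⟨g, g', h1, h2, h3, h4⟩ := Ug_curve hu
  have h5 := Rl_desc (K := K) (D := D) (d := d) (γ := g * c.map Polynomial.C) hf hD (fun s => by
    rw [ev_mul, ev_mul, ev_C, ev_C, h2, Matrix.one_mul]
    obtain ⟨v, hv, hv'⟩ := h4 s
    rw [← hv']
    exact hrel v hv) 1
  rw [ev_mul, ev_mul, ev_C, ev_C, h2, h3, Matrix.one_mul] at h5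
  exact h5

/-- **The main theorem on commutators, for all number fields of degree at most `D` at once.** -/
theorem comm_all (m D : ℕ) : ∃ d : ℕ, 1 + m ≤ d ∧ ∀ (M : Type) [Fintype M] [DecidableEq M], Fintype.card M ≤ m →
    ∀ (c : Matrix M M ℂ) (𝒢 : Subgroup (Matrix M M ℂ)ˣ), (∀ g ∈ Ug 𝒢, Rl ⊥ d c (g * c)) →
    ∀ (K : Subfield ℂ), FiniteDimensional ℚ K → finrank ℚ K ≤ D → ∀ (T : Set (Matrix M M ℂ)), IsSubtorsor K T → c ∈ T →
    (∀ u ∈ ⁅Ug 𝒢, Ug 𝒢⁆, u ∈ Sbl T) ∧ (∀ A ∈ Nil 𝒢, ∀ B ∈ Nil 𝒢, fl (A * B - B * A) ∈ LL T) ∧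
    ∀ u ∈ Ug 𝒢, ∀ w, fl w ∈ LL T → fl ((u : Matrix M M ℂ) * w * ((u⁻¹ : (Matrix M M ℂ)ˣ) : Matrix M M ℂ)) ∈ LL T := by
  obtain ⟨d, hd1, hd⟩ := comm_main m
  refine ⟨max (1 + m) (d * D ^ D), le_max_left _ _, ?_⟩
  intro M _ _ hM c 𝒢 hrel K hKf hKD T hT hc
  have hR : ∀ u ∈ Ug 𝒢, Rl K d c (u * c) := fun u hu =>
    Rl_all hKf hKD (fun g hg => (hrel g hg).mono (le_max_right _ _)) hu
  have hKc : (K : Set ℂ).Countable := by
    have h1 : ({x : ℂ | IsAlgebraic ℚ x} : Set ℂ).Countable := Algebraic.countable ℚ ℂ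
    refine h1.mono fun x hx => ?_
    have h2 : IsAlgebraic ℚ (⟨x, hx⟩ : K) := Algebra.IsAlgebraic.isAlgebraic _
    exact h2.algebraMap (A := ℂ)
  obtain ⟨h1, h2⟩ := hd M hM K hKc T c hT hc (Ug 𝒢) hR
  refine ⟨fun u hu => h1 u (Subgroup.commutator_mono (Ug_Ug 𝒢) (Ug_Ug 𝒢) hu), fun A hA B hB =>
    h2 A (Nil_Ug hA) B (Nil_Ug hB), fun u hu w hw => ?_⟩
  exact conj_LL hT hc ((hR u hu).mono (by omega)) hw

end Pool.Agent.Y123.GN
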