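import Pool.Agent.Y123.GN.D3
import Pool.Agent.Y123.GN.C4

/-!
# Perfect groups generated by unipotent elements; the special linear group and the symplectic group
-/

set_option autoImplicit false
set_option linter.unusedSectionVars false

open Matrix Module
open scoped commutatorElement

namespace Pool.Agent.Y123.GN

open Pool.Agent.TH127.PT Pool.Agent.Y123.ST Pool.Agent.TH119.DR

theorem det_exp {M : Type} [Fintype M] [DecidableEq M] {N : Matrix M M ℂ} (hN : IsNilpotent N) (t : ℂ) :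
    (IsNilpotent.exp (t • N)).det = 1 := by
  obtain ⟨E, h1, -⟩ := exists_expP hN
  have he : ∀ s, E.det.eval s = (IsNilpotent.exp (s • N)).det := by
    intro s
    rw [← h1]
    exact RingHom.map_det (Polynomial.evalRingHom s) E
  have hdeg : E.det.degree = 0 := by
    by_contra hd
    obtain ⟨z, hz⟩ := IsAlgClosed.exists_root E.det hd
    have h2 : E.det.eval z = 0 := hz
    rw [he] at h2
    exact (exp_det hN z).ne_zero h2
  have h3 := Polynomial.eq_C_of_degree_eq_zero hdeg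
  have h4 : E.det.eval t = E.det.eval 0 := by
    rw [h3, Polynomial.eval_C, Polynomial.eval_C]
  rw [he, he, exp_zero', det_one] at h4
  exact h4

section group

variable {M : Type} [Fintype M] [DecidableEq M]

/-- **A criterion for perfectness.** -/
theorem perf {H : Subgroup (Matrix M M ℂ)ˣ} {S : Set (Matrix M M ℂ)} (h1 : ∀ N ∈ S, IsNilpotent N)
    (h2 : ∀ N ∈ S, ∀ t : ℂ, t • N ∈ S)
    (h3 : ∀ N ∈ S, ∃ u ∈ H, (u : Matrix M M ℂ) = IsNilpotent.exp N)
    (h4 : ∀ g ∈ H, (g : Matrix M M ℂ) ∈ Submonoid.closure {x : Matrix M M ℂ | ∃ N ∈ S, x = IsNilpotent.exp N})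
    (h5 : ∀ N ∈ S, ∃ h ∈ H, ∃ z : ℂ, z ≠ 1 ∧ (h : Matrix M M ℂ) * N = z • N * h) : H ≤ ⁅Ug H, Ug H⁆ := by
  have hgen : ∀ N ∈ S, ∀ u : (Matrix M M ℂ)ˣ, (u : Matrix M M ℂ) = IsNilpotent.exp N → u ∈ Ug H := by
    intro N hN u hu
    refine Subgroup.subset_closure ⟨N, ⟨h1 N hN, fun t => ?_⟩, 1, ?_⟩
    · exact h3 _ (h2 N hN t)
    · rw [one_smul]
      exact hu
  have hle : ∀ x ∈ Submonoid.closure {x : Matrix M M ℂ | ∃ N ∈ S, x = IsNilpotent.exp N},
      ∃ v ∈ Subgroup.closure {u : (Matrix M M ℂ)ˣ | ∃ N ∈ S, (u : Matrix M M ℂ) = IsNilpotent.exp N},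
        (v : Matrix M M ℂ) = x := by
    intro x hx
    induction hx using Submonoid.closure_induction with
    | mem x hx =>
      obtain ⟨N, hN, rfl⟩ := hx
      obtain ⟨u, -, hu⟩ := h3 N hN
      exact ⟨u, Subgroup.subset_closure ⟨N, hN, hu⟩, hu⟩
    | one => exact ⟨1, Subgroup.one_mem _, Units.val_one⟩
    | mul x y _ _ hx hy =>
      obtain ⟨u, hu, hu'⟩ := hx
      obtain ⟨v, hv, hv'⟩ := hy
      exact ⟨u * v, Subgroup.mul_mem _ hu hv, by rw [Units.val_mul, hu', hv']⟩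
  have hHC : H ≤ Subgroup.closure {u : (Matrix M M ℂ)ˣ | ∃ N ∈ S, (u : Matrix M M ℂ) = IsNilpotent.exp N} := by
    intro g hg
    obtain ⟨v, hv, hv'⟩ := hle _ (h4 g hg)
    have h6 : v = g := Units.ext hv'
    rw [← h6]
    exact hv
  have hCU : Subgroup.closure {u : (Matrix M M ℂ)ˣ | ∃ N ∈ S, (u : Matrix M M ℂ) = IsNilpotent.exp N} ≤ Ug H := by
    refine (Subgroup.closure_le _).2 ?_
    rintro u ⟨N, hN, hu⟩
    exact hgen N hN u hu
  refine hHC.trans ((Subgroup.closure_le _).2 ?_)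
  rintro u ⟨N, hN, hu⟩
  obtain ⟨h, hh, z, hz, hhN⟩ := h5 N hN
  have hz' : z - 1 ≠ 0 := sub_ne_zero.2 hz
  obtain ⟨v, hv, hv'⟩ := h3 _ (h2 N hN (z - 1)⁻¹)
  have hvU : v ∈ Ug H := hgen _ (h2 N hN (z - 1)⁻¹) v hv'
  have hhU : h ∈ Ug H := hCU (hHC hh)
  have hcomm : u = ⁅h, v⁆ := by
    rw [commutatorElement_def]
    refine Units.ext ?_
    have e1 : (h : Matrix M M ℂ) * N * ((h⁻¹ : (Matrix M M ℂ)ˣ) : Matrix M M ℂ) = z • N := by
      rw [hhN, Matrix.mul_assoc, Units.mul_inv, Matrix.mul_one]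
    have e2 : ((h * v * h⁻¹ : (Matrix M M ℂ)ˣ) : Matrix M M ℂ) = IsNilpotent.exp (((z - 1)⁻¹ * z) • N) := by
      rw [Units.val_mul, Units.val_mul, hv', ← exp_conj (h1 N hN), e1, smul_smul]
    have e3 : ((v⁻¹ : (Matrix M M ℂ)ˣ) : Matrix M M ℂ) = IsNilpotent.exp ((-(z - 1)⁻¹) • N) := by
      rw [← inv_val, hv', exp_inv_eq (h1 N hN)]
    rw [hu, Units.val_mul, e2, e3, ← IsNilpotent.exp_add_of_commute _ ((h1 N hN).smul _) ((h1 N hN).smul _), ← add_smul]
    · have e4 : (z - 1)⁻¹ * z + -(z - 1)⁻¹ = 1 := by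
        field_simp
        ring
      rw [e4, one_smul]
    · exact ((Commute.refl N).smul_left _).smul_right _
  rw [hcomm]
  exact Subgroup.commutator_mem_commutator hhU hvU

theorem Ug_mono {H H' : Subgroup (Matrix M M ℂ)ˣ} (h : H ≤ H') : Ug H ≤ Ug H' := by
  refine Subgroup.closure_mono ?_
  rintro u ⟨N, hN, t, ht⟩
  refine ⟨N, ⟨hN.1, fun s => ?_⟩, t, ht⟩
  obtain ⟨v, hv, hv'⟩ := hN.2 s
  exact ⟨v, h hv, hv'⟩

theorem mono_comm {H H' : Subgroup (Matrix M M ℂ)ˣ} (h : H ≤ H') (hH : H ≤ ⁅Ug H, Ug H⁆) : H ≤ ⁅Ug H', Ug H'⁆ :=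
  hH.trans (Subgroup.commutator_mono (Ug_mono h) (Ug_mono h))

/-- the special isometry group of a form (the special linear group if the form is zero) -/
def GB (B : Matrix M M ℂ) : Subgroup (Matrix M M ℂ)ˣ where
  carrier := {g | (g : Matrix M M ℂ).det = 1 ∧ (g : Matrix M M ℂ) * B * (g : Matrix M M ℂ)ᵀ = B}
  mul_mem' := by
    rintro g h ⟨h1, h2⟩ ⟨h3, h4⟩
    refine ⟨by rw [Units.val_mul, det_mul, h1, h3, one_mul], ?_⟩
    rw [Units.val_mul, transpose_mul]
    calc (g : Matrix M M ℂ) * h * B * ((h : Matrix M M ℂ)ᵀ * (g : Matrix M M ℂ)ᵀ) =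
        g * (h * B * (h : Matrix M M ℂ)ᵀ) * (g : Matrix M M ℂ)ᵀ := by simp only [Matrix.mul_assoc]
      _ = B := by rw [h4, h2]
  one_mem' := by
    refine ⟨by rw [Units.val_one, det_one], by rw [Units.val_one, transpose_one, Matrix.one_mul, Matrix.mul_one]⟩
  inv_mem' := by
    rintro g ⟨h1, h2⟩
    have h3 : ((g⁻¹ : (Matrix M M ℂ)ˣ) : Matrix M M ℂ) * g = 1 := g.inv_mul
    refine ⟨?_, ?_⟩
    · have h4 := congrArg Matrix.det h3
      rw [det_mul, h1, mul_one, det_one] at h4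
      exact h4
    · have h5 : (g : Matrix M M ℂ)ᵀ * ((g⁻¹ : (Matrix M M ℂ)ˣ) : Matrix M M ℂ)ᵀ = 1 := by
        rw [← transpose_mul, h3, transpose_one]
      calc ((g⁻¹ : (Matrix M M ℂ)ˣ) : Matrix M M ℂ) * B * ((g⁻¹ : (Matrix M M ℂ)ˣ) : Matrix M M ℂ)ᵀ =
          (g⁻¹ : (Matrix M M ℂ)ˣ) * (g * B * (g : Matrix M M ℂ)ᵀ) * ((g⁻¹ : (Matrix M M ℂ)ˣ) : Matrix M M ℂ)ᵀ := by rw [h2]
        _ = ((g⁻¹ : (Matrix M M ℂ)ˣ) * g) * B * ((g : Matrix M M ℂ)ᵀ * ((g⁻¹ : (Matrix M M ℂ)ˣ) : Matrix M M ℂ)ᵀ) := by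
            simp only [Matrix.mul_assoc]
        _ = B := by rw [h3, h5, Matrix.one_mul, Matrix.mul_one]

theorem mem_GB {B : Matrix M M ℂ} {g : (Matrix M M ℂ)ˣ} :
    g ∈ GB B ↔ (g : Matrix M M ℂ).det = 1 ∧ (g : Matrix M M ℂ) * B * (g : Matrix M M ℂ)ᵀ = B := Iff.rfl

theorem exp_sq {N : Matrix M M ℂ} (h : N * N = 0) : IsNilpotent.exp N = 1 + N := by
  have h1 : N ^ 2 = 0 := by rw [pow_two, h]
  rw [IsNilpotent.exp_eq_sum h1]
  simp [Finset.sum_range_succ]

end group

section SL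

variable {M : Type} [Fintype M] [DecidableEq M]

theorem weyl_prod {R : Type} [Ring R] [Algebra ℂ R] {E F P Q : R} (hEE : E * E = 0) (hEF : E * F = P)
    (hFE : F * E = Q) (hPE : P * E = E) (z : ℂ) (hz : z ≠ 0) :
    (1 + z • E) * (1 + (-z⁻¹) • F) * (1 + z • E) = 1 - P - Q + z • E - z⁻¹ • F := by
  have h1 : (1 + z • E) * (1 + (-z⁻¹) • F) = 1 + z • E - z⁻¹ • F - P := by
    rw [mul_add, mul_one, add_mul, one_mul, smul_mul_smul_comm, hEF, mul_neg, mul_inv_cancel₀ hz]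
    module
  rw [h1, mul_add, mul_one, sub_mul, sub_mul, add_mul, one_mul, smul_mul_smul_comm, hEE, smul_mul_smul_comm, hFE,
    inv_mul_cancel₀ hz, mul_smul_comm, hPE]
  module

/-- the diagonal matrices as products of transvections -/
theorem diag_prod {R : Type} [Ring R] [Algebra ℂ R] {E F P Q : R} (hEE : E * E = 0) (hFF : F * F = 0) (hEF : E * F = P)
    (hFE : F * E = Q) (hPE : P * E = E) (hEQ : E * Q = E) (hQF : Q * F = F) (hFP : F * P = F) (z : ℂ) (hz : z ≠ 0) :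
    (1 + z • E) * (1 + (-z⁻¹) • F) * (1 + z • E) * ((1 + (-1 : ℂ) • E) * (1 + (1 : ℂ) • F) * (1 + (-1 : ℂ) • E)) =
      1 - P - Q + z • P + z⁻¹ • Q := by
  have h2 : (1 + (-1 : ℂ) • E) * (1 + (1 : ℂ) • F) * (1 + (-1 : ℂ) • E) = 1 - P - Q - E + F := by
    have h3 := weyl_prod hEE hEF hFE hPE (-1) (by norm_num)
    have h4 : (-(-1 : ℂ)⁻¹) = 1 := by norm_num
    rw [h4] at h3
    rw [h3]
    have h5 : ((-1 : ℂ)⁻¹) = -1 := by norm_num
    rw [h5]
    module
  have hPP : P * P = P := by rw [← hEF, mul_assoc, ← mul_assoc F, hFE, hQF]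
  have hQQ : Q * Q = Q := by rw [← hFE, mul_assoc, ← mul_assoc E, hEF, hPE]
  have hPQ : P * Q = 0 := by rw [← hEF, mul_assoc, ← hFE, ← mul_assoc F, hFF, zero_mul, mul_zero]
  have hQP : Q * P = 0 := by rw [← hFE, mul_assoc, ← hEF, ← mul_assoc E, hEE, zero_mul, mul_zero]
  have hPF : P * F = 0 := by rw [← hEF, mul_assoc, hFF, mul_zero]
  have hQE : Q * E = 0 := by rw [← hFE, mul_assoc, hEE, mul_zero]
  have hEP : E * P = 0 := by rw [← hEF, ← mul_assoc, hEE, zero_mul]
  have hFQ : F * Q = 0 := by rw [← hFE, ← mul_assoc, hFF, zero_mul]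
  rw [weyl_prod hEE hEF hFE hPE z hz, h2]
  simp only [mul_add, add_mul, mul_sub, sub_mul, mul_one, one_mul, smul_mul_assoc, hEE, hFF, hEF, hFE, hPE, hEQ, hQF,
    hFP, hPP, hQQ, hPQ, hQP, hPF, hQE, hEP, hFQ, smul_zero]
  module

/-- the nilpotent matrices -/
def sls (M : Type) [Fintype M] [DecidableEq M] : Set (Matrix M M ℂ) :=
  {N | ∃ (i j : M) (t : ℂ), i ≠ j ∧ N = Matrix.single i j t}

theorem sls_sq {N : Matrix M M ℂ} (h : N ∈ sls M) : N * N = 0 := by
  obtain ⟨i, j, t, hij, rfl⟩ := h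
  exact Matrix.single_mul_single_of_ne _ _ _ _ hij.symm _

theorem sl_perf : GB (0 : Matrix M M ℂ) ≤ ⁅Ug (GB (0 : Matrix M M ℂ)), Ug (GB (0 : Matrix M M ℂ))⁆ := by
  rcases subsingleton_or_nontrivial M with hM | hM
  · intro g hg
    have h1 : g = 1 := by
      refine Units.ext ?_
      rw [Units.val_one]
      ext i j
      have h2 := hg.1
      rw [Subsingleton.elim j i, Matrix.one_apply_eq]
      have h3 := Matrix.det_eq_elem_of_subsingleton (g : Matrix M M ℂ) i
      rw [h2] at h3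
      exact h3.symm
    rw [h1]
    exact Subgroup.one_mem _
  refine perf (S := sls M) ?_ ?_ ?_ ?_ ?_
  · intro N hN
    exact ⟨2, by rw [pow_two, sls_sq hN]⟩
  · rintro N ⟨i, j, s, hij, rfl⟩ t
    exact ⟨i, j, t * s, hij, by rw [Matrix.smul_single, smul_eq_mul]⟩
  · rintro N hN
    have h1 : IsNilpotent N := ⟨2, by rw [pow_two, sls_sq hN]⟩
    have h2 := det_exp h1 1
    rw [one_smul] at h2
    refine ⟨(IsNilpotent.isUnit_exp h1).unit, ⟨?_, ?_⟩, rfl⟩
    · exact h2
    · rw [Matrix.mul_zero, Matrix.zero_mul]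
  · intro g hg
    -- products of transvections
    have htr : ∀ (i j : M) (hij : i ≠ j) (a : ℂ), (Matrix.transvection i j a : Matrix M M ℂ) ∈
        Submonoid.closure {x : Matrix M M ℂ | ∃ N ∈ sls M, x = IsNilpotent.exp N} := by
      intro i j hij a
      refine Submonoid.subset_closure ⟨Matrix.single i j a, ⟨i, j, a, hij, rfl⟩, ?_⟩
      rw [exp_sq (sls_sq ⟨i, j, a, hij, rfl⟩)]
      rfl
    have key := Matrix.SpecialLinearGroup.diagonal_transvection_induction' (ι := M) (F := ℂ)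
      (fun A => (A : Matrix M M ℂ) ∈ Submonoid.closure {x : Matrix M M ℂ | ∃ N ∈ sls M, x = IsNilpotent.exp N})
      ⟨(g : Matrix M M ℂ), hg.1⟩ ?_ ?_ ?_
    · exact key
    · intro i j hij z hz
      have hji : j ≠ i := hij.symm
      have hs : ∀ (a b : M) (t : ℂ), (1 + t • Matrix.single a b (1 : ℂ) : Matrix M M ℂ) = Matrix.transvection a b t := by
        intro a b t
        rw [Matrix.smul_single, smul_eq_mul, mul_one]
        rfl
      have h1 := diag_prod (R := Matrix M M ℂ) (E := Matrix.single i j 1) (F := Matrix.single j i 1)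
        (P := Matrix.single i i 1) (Q := Matrix.single j j 1)
        (Matrix.single_mul_single_of_ne _ _ _ _ hji _) (Matrix.single_mul_single_of_ne _ _ _ _ hij _)
        (by rw [Matrix.single_mul_single_same, mul_one]) (by rw [Matrix.single_mul_single_same, mul_one])
        (by rw [Matrix.single_mul_single_same, mul_one]) (by rw [Matrix.single_mul_single_same, mul_one])
        (by rw [Matrix.single_mul_single_same, mul_one]) (by rw [Matrix.single_mul_single_same, mul_one]) z hz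
      have h2 : ((Matrix.SpecialLinearGroup.diag2n hij z hz : Matrix.SpecialLinearGroup M ℂ) : Matrix M M ℂ) =
          1 - Matrix.single i i 1 - Matrix.single j j 1 + z • Matrix.single i i (1 : ℂ) +
            z⁻¹ • Matrix.single j j (1 : ℂ) := by
        rw [Matrix.SpecialLinearGroup.diag2n_coe]
        ext a b
        simp only [Matrix.add_apply, Matrix.sub_apply, Matrix.smul_apply, Matrix.single_apply, Matrix.one_apply,
          Matrix.diagonal_apply, smul_eq_mul]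
        by_cases hab : a = b
        · subst hab
          by_cases hai : a = i
          · subst hai
            simp [hij, hij.symm]
          · by_cases haj : a = j
            · subst haj
              simp [hij, hij.symm]
            · simp [hai, haj, Ne.symm hai, Ne.symm haj]
        · have h3 : ¬ (i = a ∧ i = b) := fun h => hab (h.1.symm.trans h.2)
          have h4 : ¬ (j = a ∧ j = b) := fun h => hab (h.1.symm.trans h.2)
          simp [hab, h3, h4]
      show ((Matrix.SpecialLinearGroup.diag2n hij z hz : Matrix.SpecialLinearGroup M ℂ) : Matrix M M ℂ) ∈ _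
      rw [h2, ← h1]
      simp only [hs]
      exact mul_mem (mul_mem (mul_mem (htr _ _ hij _) (htr _ _ hji _)) (htr _ _ hij _))
        (mul_mem (mul_mem (htr _ _ hij _) (htr _ _ hji _)) (htr _ _ hij _))
    · intro i j hij a
      exact htr i j hij a
    · intro A B hA hB
      exact mul_mem hA hB
  · rintro N ⟨i, j, t, hij, rfl⟩
    have h2 : (2 : ℂ) ≠ 0 := two_ne_zero
    have hd := (Matrix.SpecialLinearGroup.diag2n hij 2 h2).2
    refine ⟨(((Matrix.isUnit_iff_isUnit_det _).2 (by rw [hd]; exact isUnit_one) :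
      IsUnit (Matrix.SpecialLinearGroup.diag2n hij 2 h2).1)).unit, ⟨hd, ?_⟩, 4, by norm_num, ?_⟩
    · rw [Matrix.mul_zero, Matrix.zero_mul]
    · show (Matrix.SpecialLinearGroup.diag2n hij 2 h2).1 * Matrix.single i j t =
        (4 : ℂ) • Matrix.single i j t * (Matrix.SpecialLinearGroup.diag2n hij 2 h2).1
      rw [Matrix.SpecialLinearGroup.diag2n_coe]
      ext a b
      rw [Matrix.diagonal_mul, Matrix.mul_diagonal, Matrix.smul_apply, Matrix.single_apply, smul_eq_mul]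
      by_cases h3 : i = a ∧ j = b
      · obtain ⟨rfl, rfl⟩ := h3
        simp [hij.symm]
        ring
      · simp [h3]

end SL

end Pool.Agent.Y123.GN
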