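import Pool.Agent.Y123.GN.E3

/-!
# Operators of rank one; the symplectic group is perfect
-/

set_option autoImplicit false
set_option linter.unusedSectionVars false

open Matrix Module
open scoped commutatorElement

namespace Pool.Agent.Y123.GN

open Pool.Agent.TH127.PT Pool.Agent.Y123.ST Pool.Agent.TH119.DR

variable {n : ℕ}

/-- the bilinear form -/
def bf (J : Matrix (Fin n) (Fin n) ℂ) (u v : Fin n → ℂ) : ℂ := u ⬝ᵥ (J *ᵥ v)

/-- the operator `x ↦ b(v, x) u` -/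
def ro (J : Matrix (Fin n) (Fin n) ℂ) (u v : Fin n → ℂ) : Matrix (Fin n) (Fin n) ℂ := vecMulVec u (v ᵥ* J)

variable {J : Matrix (Fin n) (Fin n) ℂ}

theorem ro_mul (u v w x : Fin n → ℂ) : ro J u v * ro J w x = bf J v w • ro J u x := by
  unfold ro bf
  rw [vecMulVec_mul_vecMulVec, ← dotProduct_mulVec, vecMulVec_smul]

theorem ro_mulVec (u v x : Fin n → ℂ) : ro J u v *ᵥ x = bf J v x • u := by
  unfold ro bf
  rw [vecMulVec_mulVec, ← dotProduct_mulVec]
  ext i
  simp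
  ring

theorem bf_add_left (u u' v : Fin n → ℂ) : bf J (u + u') v = bf J u v + bf J u' v := by
  unfold bf
  rw [add_dotProduct]

theorem bf_add_right (u v v' : Fin n → ℂ) : bf J u (v + v') = bf J u v + bf J u v' := by
  unfold bf
  rw [mulVec_add, dotProduct_add]

theorem bf_smul_left (a : ℂ) (u v : Fin n → ℂ) : bf J (a • u) v = a * bf J u v := by
  unfold bf
  rw [smul_dotProduct, smul_eq_mul]

theorem bf_smul_right (a : ℂ) (u v : Fin n → ℂ) : bf J u (a • v) = a * bf J u v := by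
  unfold bf
  rw [mulVec_smul, dotProduct_smul, smul_eq_mul]

theorem bf_neg_left (u v : Fin n → ℂ) : bf J (-u) v = -bf J u v := by
  unfold bf
  rw [neg_dotProduct]

theorem bf_neg_right (u v : Fin n → ℂ) : bf J u (-v) = -bf J u v := by
  unfold bf
  rw [mulVec_neg, dotProduct_neg]

theorem bf_sub_left (u u' v : Fin n → ℂ) : bf J (u - u') v = bf J u v - bf J u' v := by
  unfold bf
  rw [sub_dotProduct]

theorem bf_sub_right (u v v' : Fin n → ℂ) : bf J u (v - v') = bf J u v - bf J u v' := by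
  unfold bf
  rw [mulVec_sub, dotProduct_sub]

theorem ro_add_left (u u' v : Fin n → ℂ) : ro J (u + u') v = ro J u v + ro J u' v := by
  unfold ro
  rw [add_vecMulVec]

theorem ro_add_right (u v v' : Fin n → ℂ) : ro J u (v + v') = ro J u v + ro J u v' := by
  unfold ro
  rw [add_vecMul, vecMulVec_add]

theorem ro_smul_left (a : ℂ) (u v : Fin n → ℂ) : ro J (a • u) v = a • ro J u v := by
  unfold ro
  rw [smul_vecMulVec]

theorem ro_smul_right (a : ℂ) (u v : Fin n → ℂ) : ro J u (a • v) = a • ro J u v := by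
  unfold ro
  rw [smul_vecMul, vecMulVec_smul]

theorem ro_neg_left (u v : Fin n → ℂ) : ro J (-u) v = -ro J u v := by
  unfold ro
  rw [neg_vecMulVec]

theorem ro_neg_right (u v : Fin n → ℂ) : ro J u (-v) = -ro J u v := by
  unfold ro
  rw [neg_vecMul, vecMulVec_neg]

theorem ro_sub_left (u u' v : Fin n → ℂ) : ro J (u - u') v = ro J u v - ro J u' v := by
  rw [sub_eq_add_neg, ro_add_left, ro_neg_left, ← sub_eq_add_neg]

theorem ro_sub_right (u v v' : Fin n → ℂ) : ro J u (v - v') = ro J u v - ro J u v' := by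
  rw [sub_eq_add_neg, ro_add_right, ro_neg_right, ← sub_eq_add_neg]

/-- the adjoint -/
theorem ro_adj {ε : ℂ} (hε : ε * ε = 1) (hJ : Jᵀ = ε • J) (u v : Fin n → ℂ) :
    (ro J u v)ᵀ * J = ε • (J * ro J v u) := by
  unfold ro
  rw [transpose_vecMulVec, vecMulVec_mul, mul_vecMulVec]
  have h1 : v ᵥ* J = ε • (J *ᵥ v) := by
    rw [← mulVec_transpose, hJ, smul_mulVec]
  rw [h1, smul_vecMulVec]

theorem bf_symm {ε : ℂ} (hJ : Jᵀ = ε • J) (u v : Fin n → ℂ) : bf J v u = ε * bf J u v := by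
  unfold bf
  have h1 : v ⬝ᵥ (J *ᵥ u) = u ⬝ᵥ (Jᵀ *ᵥ v) := by
    rw [mulVec_transpose, dotProduct_comm u, ← dotProduct_mulVec]
  rw [h1, hJ, smul_mulVec, dotProduct_smul, smul_eq_mul]

/-- isometries have determinant `1` or `-1` -/
theorem iso_det_sq (hdet : J.det ≠ 0) {g : Matrix (Fin n) (Fin n) ℂ} (hg : gᵀ * J * g = J) : g.det * g.det = 1 := by
  have h1 := congrArg Matrix.det hg
  rw [det_mul, det_mul, det_transpose] at h1
  have h2 : (g.det * g.det - 1) * J.det = 0 := by linear_combination h1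
  have h3 := (mul_eq_zero.1 h2).resolve_right hdet
  linear_combination h3

theorem iso_mul {g h : Matrix (Fin n) (Fin n) ℂ} (hg : gᵀ * J * g = J) (hh : hᵀ * J * h = J) :
    (g * h)ᵀ * J * (g * h) = J := by
  rw [transpose_mul]
  calc hᵀ * gᵀ * J * (g * h) = hᵀ * (gᵀ * J * g) * h := by simp only [Matrix.mul_assoc]
    _ = J := by rw [hg, hh]

/-- a criterion for isometries -/
theorem iso_of_adj {g g' : Matrix (Fin n) (Fin n) ℂ} (h1 : gᵀ * J = J * g') (h2 : g' * g = 1) : gᵀ * J * g = J := by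
  rw [h1, Matrix.mul_assoc, h2, Matrix.mul_one]

theorem nondeg (hdet : J.det ≠ 0) {v : Fin n → ℂ} (hv : v ≠ 0) : ∃ w, bf J v w = 1 := by
  have h1 : v ᵥ* J ≠ 0 := by
    intro h
    apply hv
    have h2 : (v ᵥ* J) ᵥ* J⁻¹ = 0 := by rw [h, zero_vecMul]
    rw [vecMul_vecMul, mul_nonsing_inv _ (Ne.isUnit hdet), vecMul_one] at h2
    exact h2
  obtain ⟨i, hi⟩ := Function.ne_iff.1 h1
  refine ⟨((v ᵥ* J) i)⁻¹ • Pi.single i 1, ?_⟩
  rw [bf_smul_right]
  unfold bf
  rw [dotProduct_mulVec, dotProduct_single_one]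
  exact inv_mul_cancel₀ hi

/-- isometries in the group of the dual form -/
theorem GB_of_iso {B : Matrix (Fin n) (Fin n) ℂ} (hdet : B.det ≠ 0) {g : Matrix (Fin n) (Fin n) ℂ}
    (hg : gᵀ * B⁻¹ * g = B⁻¹) (hd : g.det = 1) : ∃ u ∈ GB B, (u : Matrix (Fin n) (Fin n) ℂ) = g := by
  have hu : IsUnit g := (Matrix.isUnit_iff_isUnit_det _).2 (by rw [hd]; exact isUnit_one)
  exact ⟨hu.unit, ⟨hd, iso_flip hdet hg⟩, rfl⟩

/-- **the symplectic group is perfect and generated by unipotent elements** -/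
theorem sp_perf {B : Matrix (Fin n) (Fin n) ℂ} (hB : Bᵀ = -B) (hdet : B.det ≠ 0) : GB B ≤ ⁅Ug (GB B), Ug (GB B)⁆ := by
  have hJ : (B⁻¹)ᵀ = -B⁻¹ := inv_skew hB hdet
  have hJd : (B⁻¹).det ≠ 0 := inv_det hdet
  have hJ' : (B⁻¹)ᵀ = (-1 : ℂ) • B⁻¹ := by rw [hJ, neg_one_smul]
  have hsq : ∀ (v : Fin n → ℂ) (t : ℂ), (t • nv B⁻¹ v) * (t • nv B⁻¹ v) = 0 := by
    intro v t
    rw [smul_mul_smul_comm, nv_sq hJ, smul_zero]
  refine perf (S := {N | ∃ (v : Fin n → ℂ) (t : ℂ), N = t • nv B⁻¹ v}) ?_ ?_ ?_ ?_ ?_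
  · rintro N ⟨v, t, rfl⟩
    exact ⟨2, by rw [pow_two, hsq]⟩
  · rintro N ⟨v, s, rfl⟩ t
    exact ⟨v, t * s, by rw [smul_smul]⟩
  · rintro N ⟨v, t, rfl⟩
    exact GB_of_iso hdet (nv_isom hJ v t) (det_exp (nv_nil hJ v) t)
  · intro g hg
    exact sp_gen' hJ hJd (Submonoid.closure {x : Matrix (Fin n) (Fin n) ℂ |
      ∃ N ∈ {N : Matrix (Fin n) (Fin n) ℂ | ∃ (v : Fin n → ℂ) (t : ℂ), N = t • nv B⁻¹ v}, x = IsNilpotent.exp N})
      (fun v s => Submonoid.subset_closure ⟨s • nv B⁻¹ v, ⟨v, s, rfl⟩, rfl⟩) _ (iso_flip' hdet hg.2)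
  · rintro N ⟨v, t, rfl⟩
    by_cases hv : v = 0
    · refine ⟨1, (GB B).one_mem, 0, zero_ne_one, ?_⟩
      have h0 : nv B⁻¹ (0 : Fin n → ℂ) = 0 := by
        unfold nv
        rw [zero_vecMulVec]
      rw [hv, h0, smul_zero, Matrix.mul_zero, zero_smul, Matrix.zero_mul]
    obtain ⟨w, hw⟩ := nondeg hJd hv
    have hvv : bf B⁻¹ v v = 0 := form_self hJ v
    have hww : bf B⁻¹ w w = 0 := form_self hJ w
    have hwv : bf B⁻¹ w v = -1 := by rw [bf_symm hJ', hw]; ring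
    set H : Matrix (Fin n) (Fin n) ℂ := 1 - ro B⁻¹ v w - (1 / 2 : ℂ) • ro B⁻¹ w v with hH
    set H' : Matrix (Fin n) (Fin n) ℂ := 1 + ro B⁻¹ w v + (1 / 2 : ℂ) • ro B⁻¹ v w with hH'
    have hadj : Hᵀ * B⁻¹ = B⁻¹ * H' := by
      rw [hH, hH', transpose_sub, transpose_sub, transpose_one, transpose_smul, Matrix.sub_mul, Matrix.sub_mul,
        Matrix.one_mul, Matrix.smul_mul, ro_adj (by norm_num) hJ', ro_adj (by norm_num) hJ', Matrix.mul_add,
        Matrix.mul_add, Matrix.mul_one, Matrix.mul_smul]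
      module
    have hinv : H' * H = 1 := by
      rw [hH, hH']
      simp only [Matrix.add_mul, Matrix.mul_sub, Matrix.one_mul, Matrix.mul_one, Matrix.smul_mul, Matrix.mul_smul,
        ro_mul, hvv, hww, hw, hwv]
      module
    have hiso := iso_of_adj hadj hinv
    have hiso2 := iso_mul hiso hiso
    have hd2 : (H * H).det = 1 := by rw [det_mul, iso_det_sq hJd hiso]
    obtain ⟨u, hu, hu'⟩ := GB_of_iso hdet hiso2 hd2
    refine ⟨u, hu, 16, by norm_num, ?_⟩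
    have hn : nv B⁻¹ v = ro B⁻¹ v v := rfl
    have h1 : H * ro B⁻¹ v v = (4 : ℂ) • ro B⁻¹ v v * H := by
      rw [hH]
      simp only [Matrix.sub_mul, Matrix.mul_sub, Matrix.one_mul, Matrix.mul_one, Matrix.smul_mul, Matrix.mul_smul,
        ro_mul, hvv, hww, hw, hwv]
      module
    rw [hu', hn, Matrix.mul_smul, Matrix.mul_assoc, h1, ← Matrix.mul_assoc, Matrix.mul_smul, h1]
    simp only [Matrix.smul_mul, Matrix.mul_assoc]
    module

end Pool.Agent.Y123.GN
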