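import Pool.Agent.Y123.GN.E5

/-!
# The special orthogonal group of a complex quadratic space of dimension at least three is perfect and generated by
# unipotent elements (continued)
-/

set_option autoImplicit false
set_option linter.unusedSectionVars false
set_option linter.unusedSimpArgs false

open Matrix Module
open scoped commutatorElement

namespace Pool.Agent.Y123.GN

open Pool.Agent.TH127.PT Pool.Agent.Y123.ST Pool.Agent.TH119.DR

variable {n : ℕ} {J : Matrix (Fin n) (Fin n) ℂ}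

/-- the nilpotent matrices -/
def ss (J : Matrix (Fin n) (Fin n) ℂ) : Set (Matrix (Fin n) (Fin n) ℂ) :=
  {N | ∃ (x a : Fin n → ℂ) (t : ℂ), bf J x x = 0 ∧ bf J x a = 0 ∧ bf J a a = 1 ∧ N = t • (ro J x a - ro J a x)}

theorem sym_bf (hJ : Jᵀ = J) (u v : Fin n → ℂ) : bf J v u = bf J u v := by
  have h1 : Jᵀ = (1 : ℂ) • J := by rw [hJ, one_smul]
  rw [bf_symm h1, one_mul]

section siegel
variable {x a : Fin n → ℂ} (hJ : Jᵀ = J) (hx : bf J x x = 0) (hxa : bf J x a = 0) (haa : bf J a a = 1)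
include hJ hx hxa haa

theorem ss_sq : (ro J x a - ro J a x) * (ro J x a - ro J a x) = -ro J x x := by
  have hax : bf J a x = 0 := by rw [sym_bf hJ, hxa]
  simp only [Matrix.sub_mul, Matrix.mul_sub, ro_mul, hx, hxa, haa, hax]
  module

theorem ss_cube : (ro J x a - ro J a x) * (ro J x a - ro J a x) * (ro J x a - ro J a x) = 0 := by
  rw [ss_sq hJ hx hxa haa]
  simp only [Matrix.neg_mul, Matrix.mul_sub, ro_mul, hx, hxa]
  module

theorem ss_nil : IsNilpotent (ro J x a - ro J a x) :=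
  ⟨3, by rw [pow_succ, pow_two, ss_cube hJ hx hxa haa]⟩

theorem ss_exp (t : ℂ) : IsNilpotent.exp (t • (ro J x a - ro J a x)) =
    1 + t • (ro J x a - ro J a x) - (t * t / 2) • ro J x x := by
  have h1 : (t • (ro J x a - ro J a x)) ^ 3 = 0 := by
    rw [pow_succ, pow_two, smul_mul_smul_comm, smul_mul_smul_comm, ss_cube hJ hx hxa haa, smul_zero]
  have h2 : (t • (ro J x a - ro J a x)) ^ 2 = -(t * t) • ro J x x := by
    rw [pow_two, smul_mul_smul_comm, ss_sq hJ hx hxa haa, smul_neg, neg_smul]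
  rw [IsNilpotent.exp_eq_sum h1, Finset.sum_range_succ, Finset.sum_range_succ, Finset.sum_range_succ,
    Finset.sum_range_zero, h2]
  have h3 : ((Nat.factorial 2 : ℚ)⁻¹) • (-(t * t) • ro J x x) = ((1 / 2 : ℂ)) • (-(t * t) • ro J x x) := by
    have h4 : ((1 / 2 : ℂ)) = (((Nat.factorial 2 : ℚ)⁻¹ : ℚ) : ℂ) := by
      norm_num [Nat.factorial]
    rw [h4]
    exact (Rat.cast_smul_eq_qsmul ℂ _ _).symm
  rw [h3, pow_zero, pow_one]
  simp only [Nat.factorial_zero, Nat.factorial_one, Nat.cast_one, inv_one, one_smul, zero_add]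
  module

theorem ss_iso (t : ℂ) : (IsNilpotent.exp (t • (ro J x a - ro J a x)))ᵀ * J * IsNilpotent.exp (t • (ro J x a - ro J a x)) =
    J := by
  have hJ' : Jᵀ = (1 : ℂ) • J := by rw [hJ, one_smul]
  have hax : bf J a x = 0 := by rw [sym_bf hJ, hxa]
  rw [ss_exp hJ hx hxa haa]
  refine iso_of_adj (g' := 1 - t • (ro J x a - ro J a x) - (t * t / 2) • ro J x x) ?_ ?_
  · rw [transpose_sub, transpose_add, transpose_one, transpose_smul, transpose_smul, transpose_sub]
    simp only [Matrix.sub_mul, Matrix.add_mul, Matrix.one_mul, Matrix.smul_mul, ro_adj (by norm_num : (1 : ℂ) * 1 = 1) hJ',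
      Matrix.mul_sub, Matrix.mul_one, Matrix.mul_smul, one_smul]
    module
  · simp only [Matrix.sub_mul, Matrix.mul_sub, Matrix.mul_add, Matrix.one_mul, Matrix.mul_one, Matrix.smul_mul,
      Matrix.mul_smul, ro_mul, hx, hxa, haa, hax]
    module

end siegel

/-- products of two reflections in unit vectors with product one -/
theorem pair_one (hJ : Jᵀ = J) {a b : Fin n → ℂ} (haa : bf J a a = 1) (hbb : bf J b b = 1) (hab : bf J a b = 1) :
    rf J a * rf J b ∈ Submonoid.closure {x : Matrix (Fin n) (Fin n) ℂ | ∃ N ∈ ss J, x = IsNilpotent.exp N} := by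
  have hba : bf J b a = 1 := by rw [sym_bf hJ, hab]
  have hx : bf J (a - b) (a - b) = 0 := by
    rw [bf_sub_left, bf_sub_right, bf_sub_right, haa, hbb, hab, hba]
    ring
  have hxa : bf J (a - b) a = 0 := by
    rw [bf_sub_left, haa, hba, sub_self]
  refine Submonoid.subset_closure ⟨(2 : ℂ) • (ro J (a - b) a - ro J a (a - b)), ⟨a - b, a, 2, hx, hxa, haa, rfl⟩, ?_⟩
  rw [ss_exp hJ hx hxa haa]
  unfold rf
  rw [haa, hbb]
  simp only [ro_sub_left, ro_sub_right, Matrix.sub_mul, Matrix.mul_sub, Matrix.one_mul, Matrix.mul_one, Matrix.smul_mul,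
    Matrix.mul_smul, ro_mul, hab, div_one]
  module

/-- the orthogonal complement of a nondegenerate plane is not isotropic -/
theorem exists_perp (hn : 3 ≤ n) (hJ : Jᵀ = J) (hdet : J.det ≠ 0) {u v : Fin n → ℂ} (huu : bf J u u = 1)
    (hvv : bf J v v = 1) (hc : 1 - bf J u v * bf J u v ≠ 0) : ∃ z, bf J u z = 0 ∧ bf J v z = 0 ∧ bf J z z ≠ 0 := by
  by_contra hcon
  have h : ∀ z, bf J u z = 0 → bf J v z = 0 → bf J z z = 0 := by
    intro z h1 h2
    by_contra h3
    exact hcon ⟨z, h1, h2, h3⟩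
  set c := bf J u v with hcd
  have hvu : bf J v u = c := sym_bf hJ u v
  let f : (Fin n → ℂ) →ₗ[ℂ] (ℂ × ℂ) :=
    { toFun := fun z => (bf J u z, bf J v z)
      map_add' := fun z z' => by
        rw [bf_add_right, bf_add_right]
        rfl
      map_smul' := fun s z => by
        rw [bf_smul_right, bf_smul_right]
        rfl }
  have hker : LinearMap.ker f ≠ ⊥ := by
    refine LinearMap.ker_ne_bot_of_finrank_lt ?_
    rw [Module.finrank_prod, Module.finrank_self, Module.finrank_fin_fun]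
    omega
  obtain ⟨z, hz, hz0⟩ := Submodule.exists_mem_ne_zero_of_ne_bot hker
  have hz1 : bf J u z = 0 := congrArg Prod.fst (LinearMap.mem_ker.1 hz)
  have hz2 : bf J v z = 0 := congrArg Prod.snd (LinearMap.mem_ker.1 hz)
  obtain ⟨y, hy⟩ := nondeg hdet hz0
  set α := (bf J u y - c * bf J v y) / (1 - c * c) with hα
  set β := (bf J v y - c * bf J u y) / (1 - c * c) with hβ
  set y' := y - α • u - β • v with hy'
  have hα' : α * (1 - c * c) = bf J u y - c * bf J v y := div_mul_cancel₀ _ hc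
  have hβ' : β * (1 - c * c) = bf J v y - c * bf J u y := div_mul_cancel₀ _ hc
  have h1 : bf J u y' = 0 := by
    rw [hy', bf_sub_right, bf_sub_right, bf_smul_right, bf_smul_right, huu, ← hcd]
    refine (mul_eq_zero.1 (?_ : (bf J u y - α * 1 - β * c) * (1 - c * c) = 0)).resolve_right hc
    linear_combination -hα' - c * hβ'
  have h2 : bf J v y' = 0 := by
    rw [hy', bf_sub_right, bf_sub_right, bf_smul_right, bf_smul_right, hvv, hvu]
    refine (mul_eq_zero.1 (?_ : (bf J v y - α * c - β * 1) * (1 - c * c) = 0)).resolve_right hc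
    linear_combination -c * hα' - hβ'
  have h3 := h y' h1 h2
  have h4 := h z hz1 hz2
  have h5 := h (z + y') (by rw [bf_add_right, hz1, h1, add_zero]) (by rw [bf_add_right, hz2, h2, add_zero])
  rw [bf_add_left, bf_add_right, bf_add_right, h3, h4, sym_bf hJ z y'] at h5
  have h6 : bf J z y' = 0 := by linear_combination (1 / 2 : ℂ) * h5
  have h7 : bf J z y = bf J z y' + α * bf J z u + β * bf J z v := by
    rw [hy', bf_sub_right, bf_sub_right, bf_smul_right, bf_smul_right]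
    ring
  rw [h6, sym_bf hJ u z, sym_bf hJ v z, hz1, hz2, hy] at h7
  norm_num at h7

theorem pair_unit (hn : 3 ≤ n) (hJ : Jᵀ = J) (hdet : J.det ≠ 0) {u v : Fin n → ℂ} (huu : bf J u u = 1)
    (hvv : bf J v v = 1) :
    rf J u * rf J v ∈ Submonoid.closure {x : Matrix (Fin n) (Fin n) ℂ | ∃ N ∈ ss J, x = IsNilpotent.exp N} := by
  by_cases h1 : bf J u v = 1
  · exact pair_one hJ huu hvv h1
  by_cases h2 : bf J u v = -1
  · rw [← rf_neg v]
    refine pair_one hJ huu ?_ ?_
    · rw [bf_neg_left, bf_neg_right, hvv, neg_neg]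
    · rw [bf_neg_right, h2, neg_neg]
  have h3 : 1 - bf J u v ≠ 0 := fun h => h1 (by linear_combination -h)
  have h4 : 1 + bf J u v ≠ 0 := fun h => h2 (by linear_combination h)
  have hc : 1 - bf J u v * bf J u v ≠ 0 := by
    have h5 : 1 - bf J u v * bf J u v = (1 - bf J u v) * (1 + bf J u v) := by ring
    rw [h5]
    exact mul_ne_zero h3 h4
  obtain ⟨z₀, hz1, hz2, hz3⟩ := exists_perp hn hJ hdet huu hvv hc
  set c := bf J u v with hcd
  have hvu : bf J v u = c := sym_bf hJ u v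
  obtain ⟨s, hs⟩ := IsAlgClosed.exists_pow_nat_eq ((c - 1) / ((1 + c) * bf J z₀ z₀)) (n := 2) (by norm_num)
  set w := (1 + c)⁻¹ • (u + v) + s • z₀ with hw
  have hz1' : bf J z₀ u = 0 := by rw [sym_bf hJ, hz1]
  have hz2' : bf J z₀ v = 0 := by rw [sym_bf hJ, hz2]
  have huw : bf J u w = 1 := by
    rw [hw, bf_add_right, bf_smul_right, bf_add_right, bf_smul_right, hz1, huu, ← hcd]
    field_simp
    ring
  have hvw : bf J v w = 1 := by
    rw [hw, bf_add_right, bf_smul_right, bf_add_right, bf_smul_right, hz2, hvv, hvu]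
    field_simp
    ring
  have hww : bf J w w = 1 := by
    have h5 : bf J w w = (1 + c)⁻¹ * (bf J u w + bf J v w) + s * (s * bf J z₀ z₀) := by
      have h6 : bf J z₀ w = s * bf J z₀ z₀ := by
        rw [hw, bf_add_right, bf_smul_right, bf_add_right, hz1', hz2', bf_smul_right]
        ring
      rw [← h6]
      conv_lhs => rw [hw]
      rw [bf_add_left, bf_smul_left, bf_add_left, bf_smul_left]
    rw [h5, huw, hvw]
    have h7 : s * (s * bf J z₀ z₀) = (c - 1) / (1 + c) := by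
      have h8 : s * (s * bf J z₀ z₀) = s ^ 2 * bf J z₀ z₀ := by ring
      rw [h8, hs]
      field_simp
    rw [h7]
    field_simp
    ring
  have hw0 : bf J w w ≠ 0 := by
    rw [hww]
    exact one_ne_zero
  have h9 : rf J u * rf J v = (rf J u * rf J w) * (rf J w * rf J v) := by
    calc rf J u * rf J v = rf J u * (rf J w * rf J w) * rf J v := by rw [rf_sq hw0, Matrix.mul_one]
      _ = _ := by simp only [Matrix.mul_assoc]
  rw [h9]
  refine Submonoid.mul_mem _ (pair_one hJ huu hww huw) (pair_one hJ hww hvv ?_)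
  rw [sym_bf hJ, hvw]

theorem pair_all (hn : 3 ≤ n) (hJ : Jᵀ = J) (hdet : J.det ≠ 0) {r r' : Matrix (Fin n) (Fin n) ℂ} (hr : r ∈ Rf J)
    (hr' : r' ∈ Rf J) :
    r * r' ∈ Submonoid.closure {x : Matrix (Fin n) (Fin n) ℂ | ∃ N ∈ ss J, x = IsNilpotent.exp N} := by
  obtain ⟨u, hu, rfl⟩ := hr
  obtain ⟨v, hv, rfl⟩ := hr'
  obtain ⟨u', hu', h1⟩ := exists_unit hu
  obtain ⟨v', hv', h2⟩ := exists_unit hv
  rw [← h1, ← h2]
  exact pair_unit hn hJ hdet hu' hv'

/-- **isometries of determinant one are products of exponentials** -/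
theorem so_gen (hn : 3 ≤ n) (hJ : Jᵀ = J) (hdet : J.det ≠ 0) {g : Matrix (Fin n) (Fin n) ℂ} (hg : gᵀ * J * g = J)
    (hd : g.det = 1) : g ∈ Submonoid.closure {x : Matrix (Fin n) (Fin n) ℂ | ∃ N ∈ ss J, x = IsNilpotent.exp N} := by
  have key : ∀ x ∈ Submonoid.closure (Rf J),
      (x ∈ Submonoid.closure {x : Matrix (Fin n) (Fin n) ℂ | ∃ N ∈ ss J, x = IsNilpotent.exp N} ∧ x.det = 1) ∨
      ((∀ r ∈ Rf J, r * x ∈ Submonoid.closure {x : Matrix (Fin n) (Fin n) ℂ | ∃ N ∈ ss J, x = IsNilpotent.exp N}) ∧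
        x.det = -1) := by
    intro x hx
    induction hx using Submonoid.closure_induction_left with
    | one => exact Or.inl ⟨Submonoid.one_mem _, det_one⟩
    | mul_left r hr x _ ih =>
      have hrd : r.det = -1 := by
        obtain ⟨u, hu, rfl⟩ := hr
        exact rf_det hu
      rcases ih with ⟨h1, h2⟩ | ⟨h1, h2⟩
      · refine Or.inr ⟨fun r' hr' => ?_, ?_⟩
        · rw [← Matrix.mul_assoc]
          exact Submonoid.mul_mem _ (pair_all hn hJ hdet hr' hr) h1
        · rw [det_mul, hrd, h2, mul_one]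
      · refine Or.inl ⟨h1 r hr, ?_⟩
        rw [det_mul, hrd, h2]
        norm_num
  rcases key g (cartan hJ hdet hg) with ⟨h1, -⟩ | ⟨-, h2⟩
  · exact h1
  · rw [hd] at h2
    norm_num at h2

theorem inv_symm' {P : Matrix (Fin n) (Fin n) ℂ} (hP : Pᵀ = P) : (P⁻¹)ᵀ = P⁻¹ := by
  rw [transpose_nonsing_inv, hP]

/-- **the special orthogonal group is perfect and generated by unipotent elements** -/
theorem so_perf (hn : n ≠ 2) {B : Matrix (Fin n) (Fin n) ℂ} (hB : Bᵀ = B) (hdet : B.det ≠ 0) :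
    GB B ≤ ⁅Ug (GB B), Ug (GB B)⁆ := by
  by_cases hn3 : 3 ≤ n
  swap
  · have hsub : Subsingleton (Fin n) := by
      have : n ≤ 1 := by omega
      exact ⟨fun a b => Fin.ext (by omega)⟩
    intro g hg
    have h1 : g = 1 := by
      refine Units.ext ?_
      rw [Units.val_one]
      ext i j
      have h2 := hg.1
      rw [Subsingleton.elim j i, Matrix.one_apply_eq]
      have h3 := Matrix.det_eq_elem_of_subsingleton (g : Matrix (Fin n) (Fin n) ℂ) i
      rw [h2] at h3
      exact h3.symm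
    rw [h1]
    exact Subgroup.one_mem _
  have hJ : (B⁻¹)ᵀ = B⁻¹ := inv_symm' hB
  have hJ' : (B⁻¹)ᵀ = (1 : ℂ) • B⁻¹ := by rw [hJ, one_smul]
  have hJd : (B⁻¹).det ≠ 0 := inv_det hdet
  refine perf (S := ss B⁻¹) ?_ ?_ ?_ ?_ ?_
  · rintro N ⟨x, a, t, h1, h2, h3, rfl⟩
    exact (ss_nil hJ h1 h2 h3).smul t
  · rintro N ⟨x, a, s, h1, h2, h3, rfl⟩ t
    exact ⟨x, a, t * s, h1, h2, h3, by rw [smul_smul]⟩
  · rintro N ⟨x, a, t, h1, h2, h3, rfl⟩
    exact GB_of_iso hdet (ss_iso hJ h1 h2 h3 t) (det_exp (ss_nil hJ h1 h2 h3) t)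
  · intro g hg
    exact so_gen hn3 hJ hJd (iso_flip' hdet hg.2) hg.1
  · rintro N ⟨x, a, t, h1, h2, h3, rfl⟩
    by_cases hx : x = 0
    · refine ⟨1, (GB B).one_mem, 0, zero_ne_one, ?_⟩
      have h0 : ro B⁻¹ x a - ro B⁻¹ a x = 0 := by
        rw [hx]
        unfold ro
        rw [zero_vecMulVec, zero_vecMul, vecMulVec_zero, sub_zero]
      rw [h0, smul_zero, Matrix.mul_zero, zero_smul, Matrix.zero_mul]
    obtain ⟨z, hz⟩ := nondeg hJd hx
    have hax : bf B⁻¹ a x = 0 := by rw [sym_bf hJ, h2]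
    -- the isotropic vector
    set y₀ := z - bf B⁻¹ a z • a with hy₀
    have e1 : bf B⁻¹ x y₀ = 1 := by
      rw [hy₀, bf_sub_right, bf_smul_right, hz, h2, mul_zero, sub_zero]
    have e2 : bf B⁻¹ a y₀ = 0 := by
      rw [hy₀, bf_sub_right, bf_smul_right, h3, mul_one, sub_self]
    set y := y₀ - (bf B⁻¹ y₀ y₀ / 2) • x with hy
    have f1 : bf B⁻¹ x y = 1 := by
      rw [hy, bf_sub_right, bf_smul_right, h1, mul_zero, sub_zero, e1]
    have f2 : bf B⁻¹ a y = 0 := by
      rw [hy, bf_sub_right, bf_smul_right, hax, mul_zero, sub_zero, e2]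
    have f3 : bf B⁻¹ y y = 0 := by
      have g1 : bf B⁻¹ y y = bf B⁻¹ y₀ y - bf B⁻¹ y₀ y₀ / 2 * bf B⁻¹ x y := by
        conv_lhs => rw [hy, bf_sub_left, bf_smul_left]
      have g2 : bf B⁻¹ y₀ y = bf B⁻¹ y₀ y₀ - bf B⁻¹ y₀ y₀ / 2 * bf B⁻¹ x y₀ := by
        conv_lhs => rw [hy, bf_sub_right, bf_smul_right]
        rw [sym_bf hJ x y₀]
      rw [g1, g2, f1, e1]
      ring
    have f4 : bf B⁻¹ y x = 1 := by rw [sym_bf hJ, f1]
    have f5 : bf B⁻¹ y a = 0 := by rw [sym_bf hJ, f2]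
    clear_value y
    set H : Matrix (Fin n) (Fin n) ℂ := 1 + ro B⁻¹ x y - (1 / 2 : ℂ) • ro B⁻¹ y x with hH
    set H' : Matrix (Fin n) (Fin n) ℂ := 1 + ro B⁻¹ y x - (1 / 2 : ℂ) • ro B⁻¹ x y with hH'
    have hadj : Hᵀ * B⁻¹ = B⁻¹ * H' := by
      rw [hH, hH', transpose_sub, transpose_add, transpose_one, transpose_smul]
      simp only [Matrix.sub_mul, Matrix.add_mul, Matrix.one_mul, Matrix.smul_mul,
        ro_adj (by norm_num : (1 : ℂ) * 1 = 1) hJ', Matrix.mul_sub, Matrix.mul_add, Matrix.mul_one, Matrix.mul_smul,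
        one_smul]
    have hinv : H' * H = 1 := by
      rw [hH, hH']
      simp only [Matrix.add_mul, Matrix.sub_mul, Matrix.mul_add, Matrix.mul_sub, Matrix.one_mul, Matrix.mul_one,
        Matrix.smul_mul, Matrix.mul_smul, ro_mul, h1, f1, f3, f4]
      module
    have hiso := iso_of_adj hadj hinv
    have hiso2 := iso_mul hiso hiso
    have hd2 : (H * H).det = 1 := by rw [det_mul, iso_det_sq hJd hiso]
    obtain ⟨u, hu, hu'⟩ := GB_of_iso hdet hiso2 hd2
    refine ⟨u, hu, 4, by norm_num, ?_⟩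
    have h6 : H * (ro B⁻¹ x a - ro B⁻¹ a x) = (2 : ℂ) • (ro B⁻¹ x a - ro B⁻¹ a x) * H := by
      rw [hH]
      simp only [Matrix.add_mul, Matrix.sub_mul, Matrix.mul_add, Matrix.mul_sub, Matrix.one_mul, Matrix.mul_one,
        Matrix.smul_mul, Matrix.mul_smul, ro_mul, smul_sub, h1, h2, h3, hax, f1, f2, f3, f4, f5]
      module
    rw [hu', Matrix.mul_smul, Matrix.mul_assoc, h6, ← Matrix.mul_assoc, Matrix.mul_smul, h6]
    simp only [Matrix.smul_mul, Matrix.mul_assoc]
    module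

end Pool.Agent.Y123.GN
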