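import Pool.Agent.Y123.GN.D7
import Pool.Agent.Y123.GN.E2

/-!
# The counting theorem for all number fields of bounded degree at once
-/

set_option autoImplicit false
set_option linter.unusedSectionVars false

open Matrix Module PowerSeries Filter

namespace Pool.Agent.Y123.GN

open Pool.Agent.TH127.PT Pool.Agent.Y123.ST Pool.Agent.Y123.SR Pool.Agent.Y113 Pool.Agent.Y113.GG Pool.Agent.Y120.R

theorem bot_fin : FiniteDimensional ℚ (⊥ : Subfield ℂ) ∧ finrank ℚ (⊥ : Subfield ℂ) ≤ 1 := by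
  let f : ℚ →ₗ[ℚ] (⊥ : Subfield ℂ) := (Algebra.linearMap ℚ (⊥ : Subfield ℂ))
  have hf : Function.Surjective f := by
    rintro ⟨x, hx⟩
    have h1 := hx
    rw [Subfield.bot_eq_of_charZero] at h1
    obtain ⟨q, hq⟩ := h1
    refine ⟨q, Subtype.ext ?_⟩
    show ((algebraMap ℚ (⊥ : Subfield ℂ) q : (⊥ : Subfield ℂ)) : ℂ) = x
    refine Eq.trans ?_ hq
    rw [eq_ratCast, eq_ratCast]
    rfl
  refine ⟨Module.Finite.of_surjective f hf, ?_⟩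
  have h2 := LinearMap.finrank_le_finrank_of_surjective hf
  rwa [Module.finrank_self] at h2

section blocks

variable {B₀ : Type} [Fintype B₀] [DecidableEq B₀] {k : ℕ} {n : Fin k → ℕ}

/-- the conclusion: all subtorsors over all number fields of degree at most `D` -/
def GoodU {r : Fin k → ℕ} (D : ℕ) (C₀ : Matrix B₀ B₀ ℂ) (h : ∀ i, Fin (r i) → ℚ⟦X⟧)
    (P : ∀ i, Fin (n i) → Fin (n i) → MvPolynomial (Option (Fin (r i))) ℂ) (t : Fin k → ℕ) : Prop :=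
  ∀ K : Subfield ℂ, FiniteDimensional ℚ K → finrank ℚ K ≤ D → ∀ T : Set (Matrix (IG B₀ n) (IG B₀ n) ℂ),
    IsSubtorsor K T → EG C₀ (fun i => pM (h i) (P i) (t i : ℝ)) ∈ T → ∀ g : ∀ i, (Matrix (Fin (n i)) (Fin (n i)) ℂ)ˣ,
      (∀ i, g i ∈ ⁅Ug (Gs (h i) (P i)), Ug (Gs (h i) (P i))⁆) →
        ∀ x ∈ T, EG 1 (fun i => (g i : Matrix (Fin (n i)) (Fin (n i)) ℂ)) * x ∈ T

/-- **stability at one tuple** -/
theorem stabU (m D : ℕ) : ∃ d : ℕ, 1 + m ≤ d ∧ ∀ (B₀ : Type) [Fintype B₀] [DecidableEq B₀] (k : ℕ) (n : Fin k → ℕ),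
    Fintype.card (IG B₀ n) ≤ m → ∀ (r : Fin k → ℕ) (h : ∀ i, Fin (r i) → ℚ⟦X⟧)
    (P : ∀ i, Fin (n i) → Fin (n i) → MvPolynomial (Option (Fin (r i))) ℂ) (t : Fin k → ℕ) (C₀ : Matrix B₀ B₀ ℂ),
    (∀ g : ∀ i, (Matrix (Fin (n i)) (Fin (n i)) ℂ)ˣ, (∀ i, g i ∈ Gs (h i) (P i)) →
      Rl ⊥ d (EG C₀ fun i => pM (h i) (P i) (t i : ℝ)) (EG 1 (fun i => (g i : Matrix (Fin (n i)) (Fin (n i)) ℂ)) *
        EG C₀ fun i => pM (h i) (P i) (t i : ℝ))) → GoodU D C₀ h P t := by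
  obtain ⟨d, hd1, hd⟩ := comm_all m D
  refine ⟨d, hd1, ?_⟩
  intro B₀ _ _ k n hcard r h P t C₀ hrel K hKf hKD T hT hcT g hg
  have hrelG : ∀ g ∈ Ug (GG B₀ (fun i => Gs (h i) (P i))), Rl ⊥ d (EG C₀ fun i => pM (h i) (P i) (t i : ℝ))
      (g * EG C₀ fun i => pM (h i) (P i) (t i : ℝ)) := by
    intro g hg
    obtain ⟨g', hg', rfl⟩ := Ug_le _ hg
    exact hrel g' fun i => hg' i (Set.mem_univ i)
  obtain ⟨hcomm, -, -⟩ := hd (IG B₀ n) hcard _ (GG B₀ fun i => Gs (h i) (P i)) hrelG K hKf hKD T hT hcT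
  refine all_blocksG fun i => ?_
  refine hcomm _ ?_
  have h1 : em B₀ i (g i) ∈ (⁅Ug (Gs (h i) (P i)), Ug (Gs (h i) (P i))⁆ : Subgroup _).map (em B₀ i) := ⟨g i, hg i, rfl⟩
  rw [Subgroup.map_commutator] at h1
  exact Subgroup.commutator_mono em_Ug em_Ug h1

/-- **The counting theorem for all number fields of degree at most `D` at once.** -/
theorem all_main (k D e r : ℕ) (ρ n : Fin k → ℕ) (h : ∀ i, Fin (ρ i) → ℚ⟦X⟧) (hF : ∀ i δ, Fam δ (h i)) :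
    ∃ c C : ℝ, 0 < c ∧ 0 ≤ C ∧ ∀ P : ∀ i, Fin (n i) → Fin (n i) → MvPolynomial (Option (Fin (ρ i))) ℂ,
    (∀ i a b, (P i a b).totalDegree ≤ e) → ∀ C₀ : Matrix (Fin r) (Fin r) ℂ, ∀ (x : Fin k → ℕ) (N : ℕ), 1 ≤ N →
    ∀ S : Finset (Fin k → ℕ), (∀ t ∈ S, (∀ i, x i < t i ∧ t i ≤ x i + N) ∧ ¬ GoodU D C₀ h P t) →
    (S.card : ℝ) ≤ C * (N : ℝ) ^ (k - 1) * ∑ i, (1 + N / ((x i : ℝ) + N) ^ c) := by
  classical
  obtain ⟨d, hd1, hd⟩ := stabU (r + ∑ i, n i) D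
  obtain ⟨c, C, hc, hC, hmain⟩ := gx (ν := fun i => Fin (n i) × Fin (n i)) (h := h) d e
    ((1 + r * r + 1) ^ (d + 1)) (fun i => hF i _)
  refine ⟨c, C, hc, hC, ?_⟩
  intro P hP C₀ x N hN S hS
  obtain ⟨hbf, hb1⟩ := bot_fin
  obtain ⟨W, hW1, hW2, hKW, hW3⟩ := exists_W' (⊥ : Subfield ℂ) (fun b : Fin r × Fin r => C₀ b.1 b.2)
  obtain ⟨hp1, hp2⟩ := finrank_pow_le W (d + 1)
  have hWD : Module.finrank ℚ W ≤ 1 + r * r + 1 := by
    refine hW2.trans ?_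
    rw [Fintype.card_prod, Fintype.card_fin]
    omega
  have h1W : (1 : ℂ) ∈ W := hKW 1 (⊥ : Subfield ℂ).one_mem
  refine hmain (fun i v => P i v.1 v.2) (fun i v => hP i v.1 v.2) (W ^ (d + 1)) (hp2.trans (Nat.pow_le_pow_left hWD _))
    x N hN S fun t ht => ?_
  obtain ⟨hbox, hnot⟩ := hS t ht
  refine ⟨hbox, ?_⟩
  by_contra hcon
  apply hnot
  have hval : ∀ i (g : Matrix (Fin (n i)) (Fin (n i)) ℂ) (v : Fin (n i) × Fin (n i)),
      MvPolynomial.aeval (p1 (h i) (t i : ℝ)) (tl (P i) g v) = (g * pM (h i) (P i) (t i : ℝ)) v.1 v.2 := fun i g v =>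
    tl_eval (h i) (P i) g _ v
  have hrel : ∀ g : ∀ i, (Matrix (Fin (n i)) (Fin (n i)) ℂ)ˣ, (∀ i, g i ∈ Gs (h i) (P i)) →
      ∀ F : MvPolynomial (Σ i, Fin (n i) × Fin (n i)) ℂ, F.totalDegree ≤ d → (∀ s, F.coeff s ∈ W ^ (d + 1)) →
      MvPolynomial.aeval (fun v : Σ i, Fin (n i) × Fin (n i) => pM (h v.1) (P v.1) (t v.1 : ℝ) v.2.1 v.2.2) F = 0 →
      MvPolynomial.aeval (fun v : Σ i, Fin (n i) × Fin (n i) =>
        ((g v.1 : Matrix (Fin (n v.1)) (Fin (n v.1)) ℂ) * pM (h v.1) (P v.1) (t v.1 : ℝ)) v.2.1 v.2.2) F = 0 := by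
    intro g hg F hFd hFV hF0
    by_contra hne
    refine hcon ⟨F, hFd, hFV, ?_, fun i => tl (P i) (g i), fun i => Prs_sat (hg i).1, ?_⟩
    · rw [MvPolynomial.aeval_eq_eval] at hF0
      exact hF0
    · intro h2
      apply hne
      rw [MvPolynomial.aeval_eq_eval]
      refine Eq.trans ?_ h2
      congr 2
      funext v
      exact (hval v.1 (g v.1) v.2).symm
  have hRl : ∀ g : ∀ i, (Matrix (Fin (n i)) (Fin (n i)) ℂ)ˣ, (∀ i, g i ∈ Gs (h i) (P i)) →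
      Rl ⊥ d (EG C₀ fun i => pM (h i) (P i) (t i : ℝ)) (EG 1 (fun i => (g i : Matrix (Fin (n i)) (Fin (n i)) ℂ)) *
        EG C₀ fun i => pM (h i) (P i) (t i : ℝ)) := by
      intro g hg
      refine Rl_of hKW (PhiG_DC h1W fun a b => hW3 (a, b))
        (y := fun v : Σ i, Fin (n i) × Fin (n i) => pM (h v.1) (P v.1) (t v.1 : ℝ) v.2.1 v.2.2)
        (y' := fun v : Σ i, Fin (n i) × Fin (n i) =>
          ((g v.1 : Matrix (Fin (n v.1)) (Fin (n v.1)) ℂ) * pM (h v.1) (P v.1) (t v.1 : ℝ)) v.2.1 v.2.2)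
        (fun F h2 h3 h4 => hrel g hg F h2 h3 h4) (fun b => PhiG_eval C₀ _ b) fun b => ?_
      rw [EG_mul, Matrix.one_mul]
      exact PhiG_eval C₀ _ b
  have hcardm : Fintype.card (IG (Fin r) n) ≤ r + ∑ i, n i := by
    rw [card_IG, Fintype.card_fin]
  exact hd (Fin r) k n hcardm ρ h P t C₀ hRl

/-- diagonal sequences -/
theorem diag_seq (f : ℕ → ℕ → ℝ) (hf : ∀ D, Tendsto (f D) atTop (nhds 0)) :
    ∃ g : ℕ → ℕ, Tendsto g atTop atTop ∧ Tendsto (fun N => f (g N) N) atTop (nhds 0) := by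
  classical
  have h1 : ∀ D : ℕ, ∃ M : ℕ, ∀ N ≥ M, |f D N| ≤ 1 / ((D : ℝ) + 1) := by
    intro D
    have h2 := (hf D).abs
    rw [abs_zero] at h2
    have h3 : ∀ᶠ N in atTop, |f D N| < 1 / ((D : ℝ) + 1) := h2.eventually (gt_mem_nhds (by positivity))
    obtain ⟨M, hM⟩ := eventually_atTop.1 h3
    exact ⟨M, fun N hN => (hM N hN).le⟩
  choose M hM using h1
  let p : ℕ → ℕ → Prop := fun N D => ∀ D' ≤ D, M D' ≤ N
  let g : ℕ → ℕ := fun N => Nat.findGreatest (p N) N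
  have hg1 : ∀ D₀ : ℕ, ∃ N₀ : ℕ, ∀ N ≥ N₀, D₀ ≤ g N ∧ p N (g N) := by
    intro D₀
    refine ⟨D₀ + ∑ D' ∈ Finset.range (D₀ + 1), M D', fun N hN => ?_⟩
    have h2 : p N D₀ := by
      intro D' hD'
      have h3 : M D' ≤ ∑ D' ∈ Finset.range (D₀ + 1), M D' :=
        Finset.single_le_sum (f := M) (fun _ _ => Nat.zero_le _) (Finset.mem_range.2 (by omega))
      omega
    have h4 : D₀ ≤ N := by omega
    exact ⟨Nat.le_findGreatest h4 h2, Nat.findGreatest_spec (P := p N) h4 h2⟩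
  have hgt : Tendsto g atTop atTop := by
    rw [tendsto_atTop_atTop]
    intro D₀
    obtain ⟨N₀, hN₀⟩ := hg1 D₀
    exact ⟨N₀, fun N hN => (hN₀ N hN).1⟩
  refine ⟨g, hgt, ?_⟩
  rw [tendsto_zero_iff_abs_tendsto_zero]
  have h5 : Tendsto (fun N => 1 / (((g N : ℕ) : ℝ) + 1)) atTop (nhds 0) :=
    tendsto_one_div_add_atTop_nhds_zero_nat.comp hgt
  refine squeeze_zero' (Eventually.of_forall fun N => abs_nonneg _) ?_ h5
  obtain ⟨N₀, hN₀⟩ := hg1 0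
  filter_upwards [eventually_ge_atTop N₀] with N hN
  exact hM (g N) N ((hN₀ N hN).2 (g N) le_rfl)

end blocks

end Pool.Agent.Y123.GN
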